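import Mathlib

/-!
# Definitions for MP_853c37_an (continuous cores and relative bicentralizers)

`H` is a complex Hilbert space, `M` a von Neumann algebra on `H`, `ζ` a unit vector which is cyclic and
separating for `M`, i.e. `H` is the GNS space of the faithful normal state `φ = ⟪ζ, · ζ⟫` of `M`.
-/

open MeasureTheory Filter Topology

noncomputable section

namespace H52BC

variable {H : Type*} [NormedAddCommGroup H] [InnerProductSpace ℂ H] [CompleteSpace H]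

/-- The vector state `φ(x) = ⟪ζ, x ζ⟫`. -/
def vst (ζ : H) (x : H →L[ℂ] H) : ℂ := inner ℂ ζ (x ζ)

/-- `U t = Δ_φ^{it}`: the (unique) strongly continuous unitary group on the GNS space of `φ` which fixes the
GNS vector `ζ` and such that `σ_t = Ad U t` is the modular automorphism group of `φ`, i.e. `σ_t(M) ⊆ M` and
`φ` satisfies the KMS condition for `σ`. -/
structure IsModularGroup (M : VonNeumannAlgebra H) (ζ : H) (U : ℝ → H →L[ℂ] H) : Prop where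
  zero : U 0 = 1
  add : ∀ s t : ℝ, U (s + t) = U s * U t
  star_eq : ∀ t : ℝ, star (U t) = U (-t)
  cont : ∀ ξ : H, Continuous fun t => U t ξ
  fix : ∀ t : ℝ, U t ζ = ζ
  mem : ∀ t : ℝ, ∀ x ∈ M, U t * x * U (-t) ∈ M
  kms : ∀ x ∈ M, ∀ y ∈ M, ∃ F : ℂ → ℂ,
    ContinuousOn F {z : ℂ | 0 ≤ z.im ∧ z.im ≤ 1} ∧
    DifferentiableOn ℂ F {z : ℂ | 0 < z.im ∧ z.im < 1} ∧
    (∃ C : ℝ, ∀ z : ℂ, 0 ≤ z.im → z.im ≤ 1 → ‖F z‖ ≤ C) ∧
    (∀ t : ℝ, F t = vst ζ (U t * x * U (-t) * y)) ∧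
    (∀ t : ℝ, F (t + Complex.I) = vst ζ (y * (U t * x * U (-t))))

/-- `E` is a conditional expectation of `M` onto `N` with `φ ∘ E = φ` (values of `E` outside `M` are irrelevant;
such an `E` is automatically faithful and normal because `φ` is). -/
structure IsCondExp (M N : VonNeumannAlgebra H) (ζ : H) (E : (H →L[ℂ] H) → (H →L[ℂ] H)) : Prop where
  mem : ∀ x ∈ M, E x ∈ N
  add : ∀ x ∈ M, ∀ y ∈ M, E (x + y) = E x + E y
  smul : ∀ (c : ℂ), ∀ x ∈ M, E (c • x) = c • E x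
  id : ∀ x ∈ N, E x = x
  bimod : ∀ a ∈ N, ∀ x ∈ M, ∀ b ∈ N, E (a * x * b) = a * E x * b
  pos : ∀ x ∈ M, 0 ≤ E (star x * x)
  state : ∀ x ∈ M, vst ζ (E x) = vst ζ x

/-- The Hilbert space `L²(ℝ, H)`. -/
abbrev L2 (H : Type*) [NormedAddCommGroup H] [InnerProductSpace ℂ H] [CompleteSpace H] : Type _ :=
  Lp H 2 (volume : Measure ℝ)

/-- `A = π(x)`: `(π(x) F)(t) = σ_{-t}(x) F(t)`, where `σ_t = Ad U t`. -/
def IsPi (U : ℝ → H →L[ℂ] H) (x : H →L[ℂ] H) (A : L2 H →L[ℂ] L2 H) : Prop :=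
  ∀ F : L2 H, (A F : ℝ → H) =ᵐ[volume] fun t => U (-t) (x (U t ((F : ℝ → H) t)))

/-- `A = λ(r)`: `(λ(r) F)(t) = F(t - r)`. -/
def IsShift (r : ℝ) (A : L2 H →L[ℂ] L2 H) : Prop :=
  ∀ F : L2 H, (A F : ℝ → H) =ᵐ[volume] fun t => (F : ℝ → H) (t - r)

/-- The continuous core `c(M) = M ⋊_{σ} ℝ`: the von Neumann algebra on `L²(ℝ, H)` generated by
`π(x)` (`x ∈ M`) and `λ(r)` (`r ∈ ℝ`).  For `N ⊆ M` globally invariant under `σ`, `core N U` is the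
canonical copy of `c(N)` in `c(M)`. -/
def core (M : VonNeumannAlgebra H) (U : ℝ → H →L[ℂ] H) : Set (L2 H →L[ℂ] L2 H) :=
  Set.centralizer (Set.centralizer
    {A : L2 H →L[ℂ] L2 H | (∃ x ∈ M, IsPi U x A) ∨ ∃ r : ℝ, IsShift r A})

/-- The relative bicentralizer `B(N ⊆ M, φ)`: all `x ∈ M` with `a_n x - x a_n → 0` `*`-strongly for every
bounded sequence `(a_n)` in `N` with `‖a_n φ - φ a_n‖ → 0`, where `(a φ)(y) = φ(y a)`, `(φ a)(y) = φ(a y)`. -/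
def relBicentralizer (N M : VonNeumannAlgebra H) (ζ : H) : Set (H →L[ℂ] H) :=
  {x | x ∈ M ∧ ∀ a : ℕ → H →L[ℂ] H, (∀ n, a n ∈ N) → (∃ C : ℝ, ∀ n, ‖a n‖ ≤ C) →
    (∃ ε : ℕ → ℝ, Tendsto ε atTop (𝓝 0) ∧
      ∀ n, ∀ y ∈ M, ‖vst ζ (y * a n) - vst ζ (a n * y)‖ ≤ ε n * ‖y‖) →
    ∀ ξ : H, Tendsto (fun n => (a n * x - x * a n) ξ) atTop (𝓝 0) ∧
      Tendsto (fun n => star (a n * x - x * a n) ξ) atTop (𝓝 0)}

end H52BC
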