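import Pool.Agent.H52.BC.Tech

/-!
Row EdM.  `ζ` separating for `M` implies `M' ζ` dense.

Let `K` be the closure of `{y ζ : y ∈ M'}` (a closed submodule: `Submodule.topologicalClosure` of the range), `p` the orthogonal projection onto `Kᗮ`
(`Submodule.starProjection`).  `K` is invariant under `M'` (a star-closed algebra), so `p` commutes with `M'`, i.e. `p ∈ M'' = M`.  `ζ = 1 ζ ∈ K`, so `p ζ = 0` and `p = 0`
(`hsep`); so `K = ⊤`.
-/

open MeasureTheory Filter Topology

noncomputable section

namespace H52BC

variable {H : Type*} [NormedAddCommGroup H] [InnerProductSpace ℂ H] [CompleteSpace H]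
variable {M : VonNeumannAlgebra H} {ζ : H}

theorem EdM_star {K : Type*} [NormedAddCommGroup K] [InnerProductSpace ℂ K] [CompleteSpace K]
    (V : Submodule ℂ K) [V.HasOrthogonalProjection] :
    star (V.starProjection) = V.starProjection := by
  have h := V.starProjection_isSymmetric
  have h2 := (ContinuousLinearMap.isSelfAdjoint_iff_isSymmetric (A := V.starProjection)).mpr h
  exact h2

theorem EdM_comm {K : Type*} [NormedAddCommGroup K] [InnerProductSpace ℂ K] [CompleteSpace K]
    (V : Submodule ℂ K) [V.HasOrthogonalProjection] (T : K →L[ℂ] K)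
    (h1 : ∀ x ∈ V, T x ∈ V) (h2 : ∀ x ∈ V, (star T) x ∈ V) :
    T * V.starProjection = V.starProjection * T := by
  have key : ∀ R : K →L[ℂ] K, (∀ x ∈ V, R x ∈ V) →
      R * V.starProjection = V.starProjection * R * V.starProjection := by
    intro R hR
    ext x
    have h3 : R (V.starProjection x) ∈ V := hR _ (V.starProjection_apply_mem x)
    have h4 := (V.starProjection_eq_self_iff).mpr h3
    simpa using h4.symm
  have e1 := key T h1
  have e2 := key (star T) h2
  have e3 := congrArg star e2
  rw [star_mul, star_mul, star_mul, star_star, EdM_star] at e3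
  rw [e3, ← mul_assoc]
  exact e1

theorem dense_commutant (hsep : ∀ x ∈ M, x ζ = 0 → x = 0) :
    Dense {ξ : H | ∃ y ∈ M.commutant, ξ = y ζ} := by
  let W : Submodule ℂ H :=
    { carrier := {ξ : H | ∃ y ∈ M.commutant, ξ = y ζ}
      add_mem' := by
        rintro a b ⟨y, hy, rfl⟩ ⟨z, hz, rfl⟩
        exact ⟨y + z, add_mem hy hz, by simp⟩
      zero_mem' := ⟨0, zero_mem _, by simp⟩
      smul_mem' := by
        rintro c x ⟨y, hy, rfl⟩
        refine ⟨c • y, ?_, by simp⟩
        exact M.commutant.toStarSubalgebra.smul_mem hy c }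
  have hWdef : (W : Set H) = {ξ : H | ∃ y ∈ M.commutant, ξ = y ζ} := rfl
  let V : Submodule ℂ H := W.topologicalClosure
  have hVc : IsClosed (V : Set H) := W.isClosed_topologicalClosure
  have : CompleteSpace V := hVc.completeSpace_coe
  have hinv : ∀ T ∈ M.commutant, ∀ x ∈ V, T x ∈ V := by
    intro T hT x hx
    have hx' : x ∈ closure (W : Set H) := hx
    have h1 : T x ∈ closure (W : Set H) := by
      refine map_mem_closure T.continuous hx' ?_
      rintro a ⟨y, hy, rfl⟩
      exact ⟨T * y, mul_mem hT hy, by simp⟩
    exact h1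
  have hpc : ∀ T ∈ M.commutant, T * V.starProjection = V.starProjection * T := by
    intro T hT
    exact EdM_comm V T (hinv T hT) (hinv _ (star_mem hT))
  have hpM : (1 - V.starProjection) ∈ M := by
    rw [← M.commutant_commutant, VonNeumannAlgebra.mem_commutant_iff]
    intro T hT
    rw [mul_sub, sub_mul, mul_one, one_mul, hpc T hT]
  have hζ : ζ ∈ V := by
    apply W.le_topologicalClosure
    exact ⟨1, one_mem _, by simp⟩
  have h0 : (1 - V.starProjection) ζ = 0 := by
    have := (V.starProjection_eq_self_iff).mpr hζ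
    simp [this]
  have h1 := hsep _ hpM h0
  have h2 : V = ⊤ := by
    rw [eq_top_iff]
    intro x _
    have h3 : (1 - V.starProjection) x = 0 := by rw [h1]; simp
    have h4 : V.starProjection x = x := by
      have : x - V.starProjection x = 0 := by simpa using h3
      exact (sub_eq_zero.mp this).symm
    exact (V.starProjection_eq_self_iff).mp h4
  have h3 : Dense (W : Set H) := by
    rw [Submodule.dense_iff_topologicalClosure_eq_top]
    exact h2
  exact h3

/-- the projection onto the closed span of `𝒮 K` (`K` the whole space), `𝒮` a star-closed set of operators containing products: general tool.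
`S` is a set of operators; the orthogonal projection onto the closed linear span of `{B ξ : B ∈ S, ξ}` commutes with every operator `T`
such that `T * B ∈ S` and `star T * B ∈ S` for all `B ∈ S`. -/
theorem exists_span_proj {K : Type*} [NormedAddCommGroup K] [InnerProductSpace ℂ K]
    [CompleteSpace K] (S : Set (K →L[ℂ] K)) :
    ∃ p : K →L[ℂ] K, star p = p ∧ p * p = p ∧ (∀ B ∈ S, p * B = B) ∧
      (∀ T : K →L[ℂ] K, (∀ B ∈ S, T * B ∈ S ∧ star T * B ∈ S) → T * p = p * T) ∧
      (∀ T : K →L[ℂ] K, (∀ B ∈ S, T * B = 0) → T * p = 0) := by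
  let W : Submodule ℂ K := Submodule.span ℂ {x : K | ∃ B ∈ S, ∃ ξ, x = B ξ}
  let V : Submodule ℂ K := W.topologicalClosure
  have hVc : IsClosed (V : Set K) := W.isClosed_topologicalClosure
  have : CompleteSpace V := hVc.completeSpace_coe
  have hBV : ∀ B ∈ S, ∀ ξ, B ξ ∈ V := by
    intro B hB ξ
    apply W.le_topologicalClosure
    exact Submodule.subset_span ⟨B, hB, ξ, rfl⟩
  have hinv : ∀ T : K →L[ℂ] K, (∀ B ∈ S, T * B ∈ S) → ∀ x ∈ V, T x ∈ V := by
    intro T hT x hx
    have hx' : x ∈ closure (W : Set K) := hx
    have h1 : T x ∈ closure (W : Set K) := by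
      refine map_mem_closure T.continuous hx' ?_
      intro a ha
      have h2 : W ≤ W.comap (T : K →ₗ[ℂ] K) := by
        refine Submodule.span_le.mpr ?_
        rintro y ⟨B, hB, ξ, rfl⟩
        exact Submodule.subset_span ⟨T * B, hT B hB, ξ, by simp⟩
      exact h2 ha
    exact h1
  refine ⟨V.starProjection, EdM_star V, V.isIdempotentElem_starProjection, ?_, ?_, ?_⟩
  · intro B hB
    ext ξ
    have := (V.starProjection_eq_self_iff).mpr (hBV B hB ξ)
    simpa using this
  · intro T hT
    exact EdM_comm V T (hinv T fun B hB => (hT B hB).1) (hinv _ fun B hB => (hT B hB).2)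
  · intro T hT
    have hker : ∀ x ∈ V, T x = 0 := by
      have h1 : W ≤ LinearMap.ker (T : K →ₗ[ℂ] K) := by
        refine Submodule.span_le.mpr ?_
        rintro y ⟨B, hB, ξ, rfl⟩
        have := congrArg (fun f : K →L[ℂ] K => f ξ) (hT B hB)
        simpa using this
      have h2 : IsClosed ((LinearMap.ker (T : K →ₗ[ℂ] K) : Submodule ℂ K) : Set K) :=
        T.isClosed_ker
      have h3 : V ≤ LinearMap.ker (T : K →ₗ[ℂ] K) := W.topologicalClosure_minimal h1 h2
      intro x hx
      exact h3 hx
    ext x
    have := hker _ (V.starProjection_apply_mem x)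
    simpa using this

end H52BC
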