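import Pool.Agent.H52.BC.LmO

/-!
Row EeX.  Exponential of a multiplication operator.

`exp (c • mulOp g) = Σ c^k (mulOp g)^k / k!`, and `(mulOp g)^k = mulOp (g^k)` (`mulOp_mul`), so the partial sums are `mulOp (p_n)` with
`p_n s = Σ_{k<n} (c g s)^k / k!`.  `|p_n s - exp (c g s)| ≤ e_n → 0` uniformly in `s` (`g` bounded by `C`; remainder of the exponential series:
`Complex.norm_exp_sub_sum_le_...`, or `NormedSpace.exp_series_hasSum_exp`, `Metric.tendstoUniformlyOn` of the power series on the ball of radius `|c| C`;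
or bound the tail by `Σ_{k≥n} (|c| C)^k/k!`), hence `‖mulOp p_n - mulOp (exp (c g))‖ ≤ e_n` (`mulOp_norm_apply_le`, `mulOp_sub`).  Uniqueness of limits.
-/

open MeasureTheory Filter Topology

noncomputable section

namespace H52BC

variable {H : Type*} [NormedAddCommGroup H] [InnerProductSpace ℂ H] [CompleteSpace H]

theorem BM.exp {g : ℝ → ℂ} (hg : BM g) (c : ℂ) : BM (fun s => Complex.exp (c * g s)) := by
  obtain ⟨hm, C, hC⟩ := hg
  refine ⟨Complex.measurable_exp.comp (measurable_const.mul hm), Real.exp (‖c‖ * C), fun s => ?_⟩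
  rw [Complex.norm_exp]
  apply Real.exp_le_exp.2
  calc (c * g s).re ≤ ‖c * g s‖ := Complex.re_le_norm _
    _ = ‖c‖ * ‖g s‖ := norm_mul _ _
    _ ≤ ‖c‖ * C := mul_le_mul_of_nonneg_left (hC s) (norm_nonneg _)

theorem EeX_smul {g : ℝ → ℂ} (hg : BM g) (c : ℂ) : BM (fun s => c * g s) := by
  obtain ⟨hm, C, hC⟩ := hg
  refine ⟨measurable_const.mul hm, ‖c‖ * C, fun s => ?_⟩
  rw [norm_mul]
  exact mul_le_mul_of_nonneg_left (hC s) (norm_nonneg _)

theorem EeX_smulOp {g : ℝ → ℂ} (hg : BM g) (c : ℂ) :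
    c • (mulOp g : L2 H →L[ℂ] L2 H) = mulOp (fun s => c * g s) := by
  refine ContinuousLinearMap.ext fun F => Lp.ext ?_
  filter_upwards [mulOp_ae hg F, mulOp_ae (EeX_smul hg c) F, Lp.coeFn_smul c (mulOp g F)]
    with s h1 h2 h3
  show ((c • mulOp g F : L2 H) : ℝ → H) s = _
  rw [h3, Pi.smul_apply, h1, h2, smul_smul]

theorem EeX_pow {g : ℝ → ℂ} (hg : BM g) (n : ℕ) :
    BM (fun s => g s ^ n) ∧ (mulOp g : L2 H →L[ℂ] L2 H) ^ n = mulOp (fun s => g s ^ n) := by
  induction n with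
  | zero =>
    have h : BM (fun _ : ℝ => (1 : ℂ)) := ⟨measurable_const, 1, fun s => by simp⟩
    simp only [pow_zero]
    exact ⟨h, mulOp_one.symm⟩
  | succ n ih =>
    have h : BM (fun s => g s ^ n * g s) := ih.1.mul hg
    simp only [pow_succ]
    exact ⟨h, by rw [ih.2, mulOp_mul ih.1 hg]⟩

theorem EeX_add {f g : ℝ → ℂ} (hf : BM f) (hg : BM g) :
    BM (fun s => f s + g s) ∧
      (mulOp f : L2 H →L[ℂ] L2 H) + mulOp g = mulOp (fun s => f s + g s) := by
  have h : BM (fun s => f s + g s) := by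
    obtain ⟨hf1, C, hC⟩ := hf
    obtain ⟨hg1, D, hD⟩ := hg
    exact ⟨hf1.add hg1, C + D, fun s => (norm_add_le _ _).trans (add_le_add (hC s) (hD s))⟩
  refine ⟨h, ContinuousLinearMap.ext fun F => Lp.ext ?_⟩
  filter_upwards [mulOp_ae hf F, mulOp_ae hg F, mulOp_ae h F,
    Lp.coeFn_add (mulOp f F) (mulOp g F)] with s h1 h2 h3 h4
  rw [h3]
  show ((mulOp f F + mulOp g F : L2 H) : ℝ → H) s = _
  rw [h4, Pi.add_apply, h1, h2, add_smul]

theorem EeX_part {g : ℝ → ℂ} (hg : BM g) (n : ℕ) :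
    BM (fun s => ∑ k ∈ Finset.range n, (k.factorial : ℂ)⁻¹ * g s ^ k) ∧
      ∑ k ∈ Finset.range n, ((k.factorial : ℂ)⁻¹) • (mulOp g : L2 H →L[ℂ] L2 H) ^ k =
        mulOp (fun s => ∑ k ∈ Finset.range n, (k.factorial : ℂ)⁻¹ * g s ^ k) := by
  induction n with
  | zero =>
    have h : BM (fun _ : ℝ => (0 : ℂ)) := ⟨measurable_const, 0, fun s => by simp⟩
    simp only [Finset.range_zero, Finset.sum_empty]
    refine ⟨h, ?_⟩
    symm
    refine ContinuousLinearMap.ext fun F => Lp.ext ?_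
    filter_upwards [mulOp_ae h F, Lp.coeFn_zero H 2 (volume : Measure ℝ)] with s h1 h2
    rw [h1, zero_smul]
    exact h2.symm
  | succ n ih =>
    have h1 := EeX_smul (EeX_pow (H := H) hg n).1 ((n.factorial : ℂ)⁻¹)
    have h2 := EeX_add (H := H) ih.1 h1
    simp only [Finset.sum_range_succ]
    refine ⟨h2.1, ?_⟩
    rw [ih.2, (EeX_pow hg n).2, EeX_smulOp (EeX_pow (H := H) hg n).1]
    exact h2.2

theorem EeX_unif {g : ℝ → ℂ} (hg : BM g) :
    TendstoUniformly (fun (n : ℕ) (s : ℝ) => ∑ k ∈ Finset.range n, (k.factorial : ℂ)⁻¹ * g s ^ k)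
      (fun s => Complex.exp (g s)) atTop := by
  obtain ⟨hm, C, hC⟩ := hg
  have h := tendstoUniformly_tsum_nat (f := fun (k : ℕ) (s : ℝ) => (k.factorial : ℂ)⁻¹ * g s ^ k)
    (u := fun k => C ^ k / (k.factorial : ℝ)) (Real.summable_pow_div_factorial C) (by
      intro k s
      rw [norm_mul, norm_inv, Complex.norm_natCast, norm_pow, div_eq_inv_mul]
      exact mul_le_mul_of_nonneg_left (pow_le_pow_left₀ (norm_nonneg _) (hC s) k)
        (inv_nonneg.2 (Nat.cast_nonneg _)))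
  have e : (fun s : ℝ => ∑' k : ℕ, (k.factorial : ℂ)⁻¹ * g s ^ k) = fun s => Complex.exp (g s) := by
    funext s
    rw [Complex.exp_eq_exp_ℂ]
    have := (NormedSpace.exp_series_hasSum_exp' (𝕂 := ℂ) (g s)).tsum_eq
    simpa [smul_eq_mul] using this
  rw [← e]
  exact h

theorem exp_mulOp {g : ℝ → ℂ} (hg : BM g) (c : ℂ) :
    NormedSpace.exp (c • (mulOp g : L2 H →L[ℂ] L2 H)) = mulOp (fun s => Complex.exp (c * g s)) := by
  rw [EeX_smulOp hg]
  have hh := EeX_smul hg c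
  have he : BM (fun s => Complex.exp (c * g s)) := hg.exp c
  have h1 := (NormedSpace.exp_series_hasSum_exp' (𝕂 := ℂ)
    (mulOp (fun s => c * g s) : L2 H →L[ℂ] L2 H)).tendsto_sum_nat
  refine tendsto_nhds_unique h1 ?_
  rw [Metric.tendsto_atTop]
  intro ε hε
  have h2 := EeX_unif hh
  rw [Metric.tendstoUniformly_iff] at h2
  obtain ⟨N, hN⟩ := eventually_atTop.1 (h2 (ε / 2) (half_pos hε))
  refine ⟨N, fun n hn => ?_⟩
  rw [(EeX_part hh n).2, dist_eq_norm, mulOp_sub (EeX_part (H := H) hh n).1 he]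
  refine lt_of_le_of_lt ?_ (half_lt_self hε)
  refine ContinuousLinearMap.opNorm_le_bound _ (half_pos hε).le fun F => ?_
  refine mulOp_norm_apply_le (LmO_sub (EeX_part (H := H) hh n).1 he) _ (fun s => ?_) F
  have h3 := hN n hn s
  rw [dist_comm, dist_eq_norm] at h3
  exact h3.le

end H52BC
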