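import Pool.Agent.H52.BC.LtO

/-!
Row EgO.  The exponentials `gk d k` on the window `(0, d]`.

* `gk_shift`: pointwise: on the window `exp(2πi(1/d)s) exp(2πi k s/d) = exp(2πi (k+1) s/d)`; off the window both sides are `0`.
* `gk_orth`: `∫_{(0,d]} (1/d) exp(2πi (k-j) s/d) ds` is `1` for `k = j`, else `0` (`integral_exp_mul_complex`, `exp(2πi n) = 1`).
* `adj_gk_gk`: `tens_adjoint_tens`.
* `win_gk`: pointwise.
-/

open MeasureTheory Filter Topology

noncomputable section

namespace H52BC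

variable {H : Type*} [NormedAddCommGroup H] [InnerProductSpace ℂ H] [CompleteSpace H]

theorem gk_support (d : ℝ) (k : ℤ) : ∀ s, s ∉ Set.Ioc 0 d → gk d k s = 0 := by
  intro s hs
  unfold gk
  rw [Set.indicator_of_notMem hs]

theorem EgO_gk_mem {d : ℝ} (k : ℤ) {s : ℝ} (hs : s ∈ Set.Ioc 0 d) :
    gk d k s = ((Real.sqrt d : ℝ) : ℂ)⁻¹ * Complex.exp (2 * Real.pi * Complex.I * k * s / d) := by
  unfold gk
  rw [Set.indicator_of_mem hs]

theorem gk_shift (d : ℝ) (hd : 0 < d) (k : ℤ) :
    (fun s => ee (1 / d) s * gk d k s) = gk d (k + 1) := by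
  funext s
  by_cases hs : s ∈ Set.Ioc 0 d
  · rw [EgO_gk_mem k hs, EgO_gk_mem (k + 1) hs]
    unfold ee
    rw [mul_left_comm, ← Complex.exp_add]
    congr 2
    push_cast
    ring
  · rw [gk_support d k s hs, gk_support d (k + 1) s hs, mul_zero]

theorem gk_shift' (d : ℝ) (hd : 0 < d) (k j : ℤ) :
    (fun s => ee ((j : ℝ) / d) s * gk d k s) = gk d (k + j) := by
  funext s
  by_cases hs : s ∈ Set.Ioc 0 d
  · rw [EgO_gk_mem k hs, EgO_gk_mem (k + j) hs]
    unfold ee
    rw [mul_left_comm, ← Complex.exp_add]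
    congr 2
    push_cast
    ring
  · rw [gk_support d k s hs, gk_support d (k + j) s hs, mul_zero]

theorem EgO_prod (d : ℝ) (hd : 0 < d) (j k : ℤ) :
    (fun s => (starRingEnd ℂ) (gk d j s) * gk d k s) =
      Set.indicator (Set.Ioc 0 d) (fun s => (d : ℂ)⁻¹ *
        Complex.exp ((2 * Real.pi * Complex.I * ((k : ℂ) - j) / d) * s)) := by
  funext s
  by_cases hs : s ∈ Set.Ioc 0 d
  · rw [EgO_gk_mem k hs, EgO_gk_mem j hs, Set.indicator_of_mem hs, map_mul, map_inv₀,
      Complex.conj_ofReal, ← Complex.exp_conj]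
    have hsq : (((Real.sqrt d : ℝ) : ℂ)⁻¹) * (((Real.sqrt d : ℝ) : ℂ)⁻¹) = (d : ℂ)⁻¹ := by
      rw [← mul_inv, ← Complex.ofReal_mul, Real.mul_self_sqrt hd.le]
    have hconj : (starRingEnd ℂ) (2 * Real.pi * Complex.I * j * s / d) =
        -(2 * Real.pi * Complex.I * j * s / d) := by
      simp only [map_div₀, map_mul, Complex.conj_ofReal, Complex.conj_I, map_intCast, map_ofNat]
      ring
    rw [hconj]
    have : (2 * Real.pi * Complex.I * ((k : ℂ) - j) / d) * s =
        -(2 * Real.pi * Complex.I * j * s / d) + 2 * Real.pi * Complex.I * k * s / d := by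
      ring
    rw [this, Complex.exp_add, ← hsq]
    ring
  · rw [gk_support d k s hs, Set.indicator_of_notMem hs, mul_zero]

theorem gk_orth (d : ℝ) (hd : 0 < d) (j k : ℤ) :
    ∫ s, (starRingEnd ℂ) (gk d j s) * gk d k s = if j = k then 1 else 0 := by
  rw [EgO_prod d hd j k, integral_indicator measurableSet_Ioc,
    ← intervalIntegral.integral_of_le hd.le, intervalIntegral.integral_const_mul]
  have hdc : (d : ℂ) ≠ 0 := by exact_mod_cast hd.ne'
  split_ifs with h
  · subst h
    have : (fun s : ℝ => Complex.exp ((2 * Real.pi * Complex.I * ((j : ℂ) - j) / d) * s)) =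
        fun _ => (1 : ℂ) := by
      funext s
      rw [sub_self, mul_zero, zero_div, zero_mul, Complex.exp_zero]
    rw [this, intervalIntegral.integral_const, sub_zero, Complex.real_smul, mul_one,
      inv_mul_cancel₀ hdc]
  · have hc : (2 * Real.pi * Complex.I * ((k : ℂ) - j) / d) ≠ 0 := by
      have h1 : ((k : ℂ) - j) ≠ 0 := by
        rw [sub_ne_zero]
        intro h2
        exact h (by exact_mod_cast h2.symm)
      have h2 : (2 * Real.pi * Complex.I : ℂ) ≠ 0 := Complex.two_pi_I_ne_zero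
      exact div_ne_zero (mul_ne_zero h2 h1) hdc
    rw [integral_exp_mul_complex hc]
    have e1 : (2 * Real.pi * Complex.I * ((k : ℂ) - j) / d) * (d : ℝ) =
        ((k - j : ℤ) : ℂ) * (2 * Real.pi * Complex.I) := by
      push_cast
      field_simp
    rw [e1, Complex.exp_int_mul_two_pi_mul_I, Complex.ofReal_zero, mul_zero, Complex.exp_zero,
      sub_self, zero_div, mul_zero]

theorem adj_gk_gk (d : ℝ) (hd : 0 < d) (j k : ℤ) (ξ : H) :
    (ContinuousLinearMap.adjoint (tens (gk d j) : H →L[ℂ] L2 H)) (tens (gk d k) ξ) =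
      if j = k then ξ else 0 := by
  have h := tens_adjoint_tens (H := H) (memLp_gk d j) (memLp_gk d k)
  have h2 := congrArg (fun A : H →L[ℂ] H => A ξ) h
  simp only [ContinuousLinearMap.comp_apply] at h2
  rw [h2, gk_orth d hd j k]
  split_ifs
  · rw [one_smul]; rfl
  · rw [zero_smul]; rfl

theorem gk_norm (d : ℝ) (hd : 0 < d) (k : ℤ) (ξ : H) : ‖tens (gk d k) ξ‖ = ‖ξ‖ := by
  have h := adj_gk_gk (H := H) d hd k k ξ
  rw [if_pos rfl] at h
  have h1 : inner ℂ (tens (gk d k) ξ : L2 H) (tens (gk d k) ξ) = inner ℂ ξ ξ := by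
    rw [← ContinuousLinearMap.adjoint_inner_right, h]
  rw [inner_self_eq_norm_sq_to_K, inner_self_eq_norm_sq_to_K] at h1
  have h2 : ‖(tens (gk d k) ξ : L2 H)‖ ^ 2 = ‖ξ‖ ^ 2 := by exact_mod_cast h1
  exact (pow_left_inj₀ (norm_nonneg _) (norm_nonneg _) two_ne_zero).1 h2

theorem win_gk (d : ℝ) (k : ℤ) (ξ : H) : mulOp (win d) (tens (gk d k) ξ) = tens (gk d k) ξ := by
  have h := mul_tens (H := H) (memLp_gk d k) (BM_win d)
  have e : (fun s => win d s * gk d k s) = gk d k := by
    funext s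
    by_cases hs : s ∈ Set.Ioc 0 d
    · unfold win
      rw [Set.indicator_of_mem hs, one_mul]
    · rw [gk_support d k s hs, mul_zero]
  rw [e] at h
  have h2 := congrArg (fun A : H →L[ℂ] L2 H => A ξ) h
  simp only [ContinuousLinearMap.comp_apply] at h2
  exact h2

theorem win_mul (d : ℝ) : (mulOp (win d) : L2 H →L[ℂ] L2 H) * mulOp (win d) = mulOp (win d) := by
  rw [mulOp_mul (BM_win d) (BM_win d)]
  congr 1
  funext s
  by_cases hs : s ∈ Set.Ioc 0 d
  · unfold win
    rw [Set.indicator_of_mem hs, one_mul]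
  · unfold win
    rw [Set.indicator_of_notMem hs, mul_zero]

theorem win_star (d : ℝ) : star (mulOp (win d) : L2 H →L[ℂ] L2 H) = mulOp (win d) := by
  rw [mulOp_star (BM_win d)]
  congr 1
  funext s
  by_cases hs : s ∈ Set.Ioc 0 d
  · unfold win
    rw [Set.indicator_of_mem hs, map_one]
  · unfold win
    rw [Set.indicator_of_notMem hs, map_zero]

theorem wm_wp (d : ℝ) : (mulOp (wm d) : L2 H →L[ℂ] L2 H) * mulOp (wp d) = mulOp (win d) := by
  rw [mulOp_mul (BM_wm d) (BM_wp d)]
  congr 1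
  funext s
  by_cases hs : s ∈ Set.Ioc 0 d
  · unfold win wm wp
    rw [Set.indicator_of_mem hs, Set.indicator_of_mem hs, Set.indicator_of_mem hs,
      ← Complex.exp_add, neg_add_cancel, Complex.exp_zero]
  · unfold win wm wp
    rw [Set.indicator_of_notMem hs, Set.indicator_of_notMem hs, Set.indicator_of_notMem hs,
      mul_zero]

theorem wp_star (d : ℝ) : star (mulOp (wp d) : L2 H →L[ℂ] L2 H) = mulOp (wp d) := by
  rw [mulOp_star (BM_wp d)]
  congr 1
  funext s
  by_cases hs : s ∈ Set.Ioc 0 d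
  · unfold wp
    rw [Set.indicator_of_mem hs, ← Complex.exp_conj, map_mul, Complex.conj_ofReal,
      Complex.conj_ofReal]
  · unfold wp
    rw [Set.indicator_of_notMem hs, map_zero]

theorem win_wm (d : ℝ) : (mulOp (win d) : L2 H →L[ℂ] L2 H) * mulOp (wm d) = mulOp (wm d) := by
  rw [mulOp_mul (BM_win d) (BM_wm d)]
  congr 1
  funext s
  by_cases hs : s ∈ Set.Ioc 0 d
  · unfold win
    rw [Set.indicator_of_mem hs, one_mul]
  · unfold win wm
    rw [Set.indicator_of_notMem hs, Set.indicator_of_notMem hs, mul_zero]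

theorem win_wp (d : ℝ) : (mulOp (win d) : L2 H →L[ℂ] L2 H) * mulOp (wp d) = mulOp (wp d) := by
  rw [mulOp_mul (BM_win d) (BM_wp d)]
  congr 1
  funext s
  by_cases hs : s ∈ Set.Ioc 0 d
  · unfold win
    rw [Set.indicator_of_mem hs, one_mul]
  · unfold win wp
    rw [Set.indicator_of_notMem hs, Set.indicator_of_notMem hs, mul_zero]

theorem wp_sub_norm (d : ℝ) (hd : 0 < d) (F : L2 H) :
    ‖mulOp (wp d) F - mulOp (win d) F‖ ≤ (Real.exp (Real.pi * d) - 1) * ‖F‖ := by
  have h : mulOp (wp d) F - mulOp (win d) F = mulOp (fun s => wp d s - win d s) F := by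
    rw [← mulOp_sub (BM_wp d) (BM_win d)]
    rfl
  rw [h]
  refine mulOp_norm_apply_le (LmO_sub (BM_wp d) (BM_win d)) _ ?_ F
  intro s
  have hpos : 0 ≤ Real.exp (Real.pi * d) - 1 := by
    have := Real.add_one_le_exp (Real.pi * d)
    have := mul_pos Real.pi_pos hd
    linarith
  by_cases hs : s ∈ Set.Ioc 0 d
  · unfold win wp
    rw [Set.indicator_of_mem hs, Set.indicator_of_mem hs]
    have e : Complex.exp (Real.pi * s) - 1 = ((Real.exp (Real.pi * s) - 1 : ℝ) : ℂ) := by
      push_cast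
      rfl
    rw [e, Complex.norm_real, Real.norm_eq_abs, abs_of_nonneg]
    · have := Real.exp_le_exp.2 (mul_le_mul_of_nonneg_left hs.2 Real.pi_pos.le)
      linarith
    · have := Real.add_one_le_exp (Real.pi * s)
      have := mul_pos Real.pi_pos hs.1
      linarith
  · unfold win wp
    rw [Set.indicator_of_notMem hs, Set.indicator_of_notMem hs, sub_zero, norm_zero]
    exact hpos

theorem wm_sub_norm (d : ℝ) (hd : 0 < d) (F : L2 H) :
    ‖mulOp (wm d) F - mulOp (win d) F‖ ≤ (Real.exp (Real.pi * d) - 1) * ‖F‖ := by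
  have h : mulOp (wm d) F - mulOp (win d) F = mulOp (fun s => wm d s - win d s) F := by
    rw [← mulOp_sub (BM_wm d) (BM_win d)]
    rfl
  rw [h]
  refine mulOp_norm_apply_le (LmO_sub (BM_wm d) (BM_win d)) _ ?_ F
  intro s
  have hpos : 0 ≤ Real.exp (Real.pi * d) - 1 := by
    have := Real.add_one_le_exp (Real.pi * d)
    have := mul_pos Real.pi_pos hd
    linarith
  by_cases hs : s ∈ Set.Ioc 0 d
  · unfold win wm
    rw [Set.indicator_of_mem hs, Set.indicator_of_mem hs]
    have e : Complex.exp (-(Real.pi * s)) - 1 = ((Real.exp (-(Real.pi * s)) - 1 : ℝ) : ℂ) := by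
      push_cast
      rfl
    have hp := mul_pos Real.pi_pos hs.1
    rw [e, Complex.norm_real, Real.norm_eq_abs, abs_of_nonpos]
    · have h1 := Real.exp_le_exp.2 (mul_le_mul_of_nonneg_left hs.2 Real.pi_pos.le)
      have h2 := Real.add_one_le_exp (-(Real.pi * s))
      have h3 := Real.add_one_le_exp (Real.pi * s)
      linarith
    · have : Real.exp (-(Real.pi * s)) ≤ 1 := by
        rw [Real.exp_le_one_iff]
        linarith
      linarith
  · unfold win wm
    rw [Set.indicator_of_notMem hs, Set.indicator_of_notMem hs, sub_zero, norm_zero]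
    exact hpos

theorem wm_norm (d : ℝ) (F : L2 H) : ‖mulOp (wm d) F‖ ≤ ‖F‖ := by
  have h := mulOp_norm_apply_le (BM_wm d) 1 (fun s => ?_) F
  · rw [one_mul] at h
    exact h
  · by_cases hs : s ∈ Set.Ioc 0 d
    · unfold wm
      rw [Set.indicator_of_mem hs,
        show (-(Real.pi * s) : ℂ) = ((-(Real.pi * s) : ℝ) : ℂ) by push_cast; ring,
        Complex.norm_exp_ofReal, Real.exp_le_one_iff]
      have := mul_pos Real.pi_pos hs.1
      linarith
    · unfold wm
      rw [Set.indicator_of_notMem hs, norm_zero]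
      exact zero_le_one

theorem win_norm (d : ℝ) (F : L2 H) : ‖mulOp (win d) F‖ ≤ ‖F‖ := by
  have h := mulOp_norm_apply_le (BM_win d) 1 (fun s => ?_) F
  · rw [one_mul] at h
    exact h
  · by_cases hs : s ∈ Set.Ioc 0 d
    · unfold win
      rw [Set.indicator_of_mem hs, norm_one]
    · unfold win
      rw [Set.indicator_of_notMem hs, norm_zero]
      exact zero_le_one

/-- `‖e^{π s} g_0‖₂ ≥ 1` -/
theorem wp_tens_lower (d : ℝ) (hd : 0 < d) (ξ : H) :
    ‖ξ‖ ≤ ‖mulOp (wp d) (tens (gk d 0) ξ)‖ := by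
  have h1 : (mulOp (wm d) : L2 H →L[ℂ] L2 H) (mulOp (wp d) (tens (gk d 0) ξ)) =
      tens (gk d 0) ξ := by
    have h2 := congrArg (fun A : L2 H →L[ℂ] L2 H => A (tens (gk d 0) ξ)) (wm_wp (H := H) d)
    refine Eq.trans ?_ (win_gk d 0 ξ)
    exact h2
  have h3 := wm_norm d (mulOp (wp d) (tens (gk d 0) ξ) : L2 H)
  rw [h1, gk_norm d hd 0 ξ] at h3
  exact h3

end H52BC
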