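import Pool.Agent.H52.BC.EwC
import Pool.Agent.H52.BC.EeX

/-!
Row EjS.  Formula (1.1) of /team-store/H52_853c37.md:  `J (V_f* A V_g)* ζ = V_f* m(e^{-π s}) A m(e^{π s}) V_g ζ` for `f, g` supported in the window `(0,d]`.

Proof.  `x := slice A f g ∈ M` (`slice_mem`).  Let `sd s = s` on `(0,d]`, `0` elsewhere (`BM`), `D = mulOp sd`, and
`Ψ z = V_f* exp((-2πi z) • D) A exp((2πi z) • D) V_g ζ`, entire (`NormedSpace.exp` of `c • D` is differentiable in `c`: `hasDerivAt_exp_smul_const`, composition with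
continuous (multi)linear maps).  For real `t`: `exp((2πi t) • D) V_g = mulOp (exp(2πi t sd)) V_g = tens (exp (2πi t sd) g) = tens (ee t g)` (`exp_mulOp`, `mul_tens`, `g` vanishes
off `(0,d]`), and `V_f* exp((-2πi t) • D) = V_{ee t f}*` (`adj_tens_mul`), so `Ψ t = slice A (ee t f) (ee t g) ζ = U t x U (-t) ζ = U t (x ζ)` (`slice_sigma`, `hU.fix`).
At `z = -(i/2)`: `-2πi z = -π`, `2πi z = π`: `Ψ (-(i/2)) = V_f* mulOp (exp (-π sd)) A mulOp (exp (π sd)) V_g ζ`, and `mulOp (exp(π sd)) V_g = mulOp (wp d) V_g` (both are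
`tens` of the same function because `g` vanishes off the window), `V_f* mulOp (exp (-π sd)) = V_f* mulOp (wm d)`.  `hJ.ana` gives the claim.
-/

open MeasureTheory Filter Topology

noncomputable section

namespace H52BC

variable {H : Type*} [NormedAddCommGroup H] [InnerProductSpace ℂ H] [CompleteSpace H]
variable {M N : VonNeumannAlgebra H} {ζ : H} {U : ℝ → H →L[ℂ] H} {J : H ≃ₗᵢ⋆[ℂ] H}

theorem EjS_BM (d : ℝ) : BM (Set.indicator (Set.Ioc 0 d) (fun s : ℝ => (s : ℂ))) := by
  refine LmO_ind Complex.measurable_ofReal d |d| (abs_nonneg _) (fun s hs => ?_)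
  rw [Complex.norm_real, Real.norm_eq_abs]
  exact abs_le_abs_of_nonneg hs.1.le hs.2

theorem EjS_diff (D : L2 H →L[ℂ] L2 H) (c : ℂ) :
    Differentiable ℂ (fun z : ℂ => NormedSpace.exp ((c * z) • D)) := by
  intro z
  have h1 : HasDerivAt (fun u : ℂ => NormedSpace.exp (u • D))
      (NormedSpace.exp ((c * z) • D) * D) (c * z) := hasDerivAt_exp_smul_const D (c * z)
  have h2 : DifferentiableAt ℂ (fun z : ℂ => c * z) z := by fun_prop
  exact DifferentiableAt.comp (g := fun u : ℂ => NormedSpace.exp (u • D)) z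
    h1.differentiableAt h2

theorem EjS_right {d : ℝ} {g h : ℝ → ℂ} (hg : MemLp g 2 (volume : Measure ℝ))
    (hg0 : ∀ s, s ∉ Set.Ioc 0 d → g s = 0) (c : ℂ)
    (he : ∀ s ∈ Set.Ioc 0 d, Complex.exp (c * s) = h s) (ζ : H) :
    NormedSpace.exp (c • (mulOp (Set.indicator (Set.Ioc 0 d) (fun s : ℝ => (s : ℂ))) :
      L2 H →L[ℂ] L2 H)) (tens g ζ) = tens (fun s => h s * g s) ζ := by
  rw [exp_mulOp (EjS_BM d) c]
  have h1 := mul_tens (H := H) hg ((EjS_BM d).exp c)
  have h2 := congrArg (fun T : H →L[ℂ] L2 H => T ζ) h1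
  simp only [ContinuousLinearMap.comp_apply] at h2
  rw [h2]
  have h3 : (fun s => Complex.exp (c * Set.indicator (Set.Ioc 0 d) (fun s : ℝ => (s : ℂ)) s) * g s)
      = fun s => h s * g s := by
    funext s
    by_cases hs : s ∈ Set.Ioc 0 d
    · rw [Set.indicator_of_mem hs, he s hs]
    · rw [hg0 s hs, mul_zero, mul_zero]
  rw [h3]

theorem EjS_left {d : ℝ} {f h : ℝ → ℂ} (hf : MemLp f 2 (volume : Measure ℝ))
    (hf0 : ∀ s, s ∉ Set.Ioc 0 d → f s = 0) (c : ℂ)
    (he : ∀ s ∈ Set.Ioc 0 d, Complex.exp (c * s) = (starRingEnd ℂ) (h s)) (y : L2 H) :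
    (ContinuousLinearMap.adjoint (tens f : H →L[ℂ] L2 H))
      (NormedSpace.exp (c • (mulOp (Set.indicator (Set.Ioc 0 d) (fun s : ℝ => (s : ℂ))) :
      L2 H →L[ℂ] L2 H)) y) =
      (ContinuousLinearMap.adjoint (tens (fun s => h s * f s) : H →L[ℂ] L2 H)) y := by
  rw [exp_mulOp (EjS_BM d) c]
  have h1 := adj_tens_mul (H := H) hf ((EjS_BM d).exp c)
  have h2 := congrArg (fun T : L2 H →L[ℂ] H => T y) h1
  simp only [ContinuousLinearMap.comp_apply] at h2
  rw [h2]
  have h3 : (fun s => (starRingEnd ℂ)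
      (Complex.exp (c * Set.indicator (Set.Ioc 0 d) (fun s : ℝ => (s : ℂ)) s)) * f s)
      = fun s => h s * f s := by
    funext s
    by_cases hs : s ∈ Set.Ioc 0 d
    · rw [Set.indicator_of_mem hs, he s hs, starRingEnd_self_apply]
    · rw [hf0 s hs, mul_zero, mul_zero]
  rw [h3]

theorem slice_J (hU : IsModularGroup M ζ U) (hJ : IsModConj M ζ U J)
    {A : L2 H →L[ℂ] L2 H} (hA : WCom M U A) (d : ℝ)
    {f g : ℝ → ℂ} (hf : MemLp f 2 (volume : Measure ℝ)) (hg : MemLp g 2 (volume : Measure ℝ))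
    (hf0 : ∀ s, s ∉ Set.Ioc 0 d → f s = 0) (hg0 : ∀ s, s ∉ Set.Ioc 0 d → g s = 0) :
    J (star (slice A f g) ζ) =
      (ContinuousLinearMap.adjoint (tens f : H →L[ℂ] L2 H))
        (mulOp (wm d) (A (mulOp (wp d) (tens g ζ)))) := by
  set D : L2 H →L[ℂ] L2 H := mulOp (Set.indicator (Set.Ioc 0 d) (fun s : ℝ => (s : ℂ))) with hD
  have hx : slice A f g ∈ M := slice_mem hA.cst hf hg
  set Ψ : ℂ → H := fun z => (ContinuousLinearMap.adjoint (tens f : H →L[ℂ] L2 H))
    (NormedSpace.exp ((-(2 * Real.pi * Complex.I) * z) • D)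
      (A (NormedSpace.exp (((2 * Real.pi * Complex.I) * z) • D) (tens g ζ)))) with hΨ
  have hdiff : Differentiable ℂ Ψ := by
    have d1 := EjS_diff D (2 * Real.pi * Complex.I)
    have d2 := EjS_diff D (-(2 * Real.pi * Complex.I))
    have d3 : Differentiable ℂ (fun z : ℂ =>
        (NormedSpace.exp (((2 * Real.pi * Complex.I) * z) • D)) (tens g ζ)) :=
      d1.clm_apply (differentiable_const _)
    have d4 : Differentiable ℂ (fun z : ℂ =>
        A ((NormedSpace.exp (((2 * Real.pi * Complex.I) * z) • D)) (tens g ζ))) :=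
      A.differentiable.comp d3
    have d5 := d2.clm_apply d4
    exact (ContinuousLinearMap.adjoint (tens f : H →L[ℂ] L2 H)).differentiable.comp d5
  have hreal : ∀ t : ℝ, Ψ t = U t (slice A f g ζ) := by
    intro t
    have e1 := EjS_right (H := H) hg hg0 ((2 * Real.pi * Complex.I) * t) (h := ee t)
      (fun s _ => by unfold ee; rfl) ζ
    have e2 := EjS_left (H := H) hf hf0 (-(2 * Real.pi * Complex.I) * t) (h := ee t)
      (fun s _ => by
        unfold ee
        rw [← Complex.exp_conj]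
        congr 1
        simp [Complex.conj_ofReal, map_ofNat]) (A (tens (fun s => ee t s * g s) ζ))
    have e3 := slice_sigma hU hA hf hg t
    have e4 := congrArg (fun T : H →L[ℂ] H => T ζ) e3
    have e5 : U (-t) ζ = ζ := hU.fix (-t)
    simp only [mul_apply_eq_comp, e5] at e4
    rw [e4]
    show (ContinuousLinearMap.adjoint (tens f : H →L[ℂ] L2 H))
      (NormedSpace.exp ((-(2 * Real.pi * Complex.I) * (t : ℂ)) • D)
      (A (NormedSpace.exp (((2 * Real.pi * Complex.I) * (t : ℂ)) • D) (tens g ζ)))) = _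
    rw [hD, e1, e2]
    rfl
  have hana := hJ.ana _ hx Ψ hdiff hreal
  rw [← hana]
  have c1 : (-(2 * Real.pi * Complex.I) * (-(Complex.I / 2))) = -(Real.pi : ℂ) := by
    have : Complex.I * Complex.I = -1 := Complex.I_mul_I
    linear_combination (Real.pi : ℂ) * this
  have c2 : ((2 * Real.pi * Complex.I) * (-(Complex.I / 2))) = (Real.pi : ℂ) := by
    have : Complex.I * Complex.I = -1 := Complex.I_mul_I
    linear_combination -(Real.pi : ℂ) * this
  show (ContinuousLinearMap.adjoint (tens f : H →L[ℂ] L2 H))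
      (NormedSpace.exp ((-(2 * Real.pi * Complex.I) * (-(Complex.I / 2))) • D)
      (A (NormedSpace.exp (((2 * Real.pi * Complex.I) * (-(Complex.I / 2))) • D) (tens g ζ)))) = _
  rw [c1, c2]
  have e1 := EjS_right (H := H) hg hg0 (Real.pi : ℂ) (h := wp d)
    (fun s hs => by unfold wp; rw [Set.indicator_of_mem hs]) ζ
  have e2 := EjS_left (H := H) hf hf0 (-(Real.pi : ℂ)) (h := fun s => (starRingEnd ℂ) (wm d s))
    (fun s hs => by
      rw [starRingEnd_self_apply]
      unfold wm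
      rw [Set.indicator_of_mem hs]
      congr 1
      ring) (A (tens (fun s => wp d s * g s) ζ))
  have m1 := congrArg (fun T : H →L[ℂ] L2 H => T ζ) (mul_tens (H := H) hg (BM_wp d))
  have m2 := congrArg (fun T : L2 H →L[ℂ] H => T (A (tens (fun s => wp d s * g s) ζ)))
    (adj_tens_mul (H := H) hf (BM_wm d))
  simp only [ContinuousLinearMap.comp_apply] at m1 m2
  rw [hD, e1, e2, m1, m2]

end H52BC
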