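import Pool.Agent.H52.BC.LtO

/-!
Row EsD.  Density of `{1_S ⊗ ξ}` in `L²(ℝ,H)`.

`ext_tens`: by `Lp` induction (`MeasureTheory.Lp.induction` with `p = 2`; indicator functions `1_S ξ` of measurable sets of finite measure) the set of `G` with
`⟪G, F⟫ = 0` is everything, so `F = 0`.  (`tens (1_S) ξ` is `indicatorConstLp 2 hS hμ ξ`, by `tens_ae` and `indicatorConstLp_coeFn`.)
`closed_tens`: the same induction for a closed set `P` of vectors that is closed under addition.
-/

open MeasureTheory Filter Topology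

noncomputable section

namespace H52BC

variable {H : Type*} [NormedAddCommGroup H] [InnerProductSpace ℂ H] [CompleteSpace H]

private theorem EsD_ind (S : Set ℝ) (hS : MeasurableSet S) (hμ : volume S < ⊤) (ξ : H) :
    tens (Set.indicator S fun _ => (1 : ℂ)) ξ = indicatorConstLp 2 hS hμ.ne ξ := by
  have hf : MemLp (Set.indicator S fun _ => (1 : ℂ)) 2 (volume : Measure ℝ) :=
    memLp_indicator_const 2 hS 1 (Or.inr hμ.ne)
  apply Lp.ext
  filter_upwards [tens_ae hf ξ,
    indicatorConstLp_coeFn (p := 2) (hs := hS) (hμs := hμ.ne) (c := ξ)] with s h1 h2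
  rw [h1, h2]
  by_cases hs : s ∈ S
  · rw [Set.indicator_of_mem hs, Set.indicator_of_mem hs, one_smul]
  · rw [Set.indicator_of_notMem hs, Set.indicator_of_notMem hs, zero_smul]

theorem closed_tens (P : Set (L2 H)) (hP : IsClosed P) (hadd : ∀ F ∈ P, ∀ G ∈ P, F + G ∈ P)
    (h : ∀ S : Set ℝ, MeasurableSet S → volume S < ⊤ → ∀ ξ : H,
      tens (Set.indicator S fun _ => (1 : ℂ)) ξ ∈ P) (F : L2 H) : F ∈ P := by
  refine Lp.induction (p := 2) (by norm_num) (fun G : L2 H => G ∈ P) ?_ ?_ hP F
  · intro c S hS hμ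
    have h1 := h S hS hμ c
    rw [EsD_ind S hS hμ c] at h1
    rw [Lp.simpleFunc.coe_indicatorConst]
    exact h1
  · intro f g hf hg _ h1 h2
    exact hadd _ h1 _ h2

theorem ext_tens (F : L2 H) (h : ∀ S : Set ℝ, MeasurableSet S → volume S < ⊤ → ∀ ξ : H,
    inner ℂ (tens (Set.indicator S fun _ => (1 : ℂ)) ξ) F = 0) : F = 0 := by
  have h1 : F ∈ {G : L2 H | (inner ℂ G F : ℂ) = 0} := by
    apply closed_tens
    · exact isClosed_eq (continuous_id.inner continuous_const) continuous_const
    · intro G1 h1 G2 h2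
      show (inner ℂ (G1 + G2) F : ℂ) = 0
      rw [inner_add_left, h1, h2, add_zero]
    · exact h
  exact inner_self_eq_zero.1 h1

end H52BC
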