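import Pool.Agent.H52.BC.EgO
import Pool.Agent.H52.BC.EsD

/-!
Row EpV.  Parseval on the window.

* `parseval`: let `V_k = tens (gk d k)`, `P_n = Σ_{|k|≤n} V_k V_k*`, an orthogonal projection by `adj_gk_gk`, so `‖P_n‖ ≤ 1`.  For `F = tens f ξ` (`f ∈ L²(ℝ)`):
  `V_k V_k* F = tens (⟨gk, f⟩ gk) ξ` and `Σ ⟨gk,f⟩ gk → 1_(0,d] f` in `L²` (scalar: `hasSum_fourier_series_L2` on `AddCircle d`, or
  Parseval `hasSum_sq_fourierCoeffOn`/`tsum_sq_fourierCoeff` for `f` restricted to `(0,d]` which gives `Σ |⟨gk,f⟩|² = ∫_(0,d] |f|²`, and then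
  `‖q f - P_n f‖² = ‖q f‖² - Σ_{|k| ≤ n} |⟨gk,f⟩|² → 0`).  The set of `F` with `P_n F → mulOp (win d) F` is a closed subspace (`‖P_n‖ ≤ 1`), so it is everything (`closed_tens`, file EsD).
  Then `Σ_{|k|≤n} ‖V_k* F‖² = ⟪F, P_n F⟫ → ⟪F, q F⟫ = ‖q F‖²`; nonnegative terms, so `HasSum` over `ℤ`
  (`hasSum_of_isLUB_of_nonneg`, or summability from the bound `Σ_{k∈s} ‖V_k* F‖² ≤ ‖F‖²` and uniqueness of the limit).
-/

open MeasureTheory Filter Topology

noncomputable section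

namespace H52BC

variable {H : Type*} [NormedAddCommGroup H] [InnerProductSpace ℂ H] [CompleteSpace H]

/-- The projections. -/
def epv_P (d : ℝ) (s : Finset ℤ) : L2 H →L[ℂ] L2 H :=
  ∑ k ∈ s, (tens (gk d k) : H →L[ℂ] L2 H) ∘L
    (ContinuousLinearMap.adjoint (tens (gk d k) : H →L[ℂ] L2 H))

theorem epv_apply (d : ℝ) (s : Finset ℤ) (F : L2 H) :
    epv_P d s F = ∑ k ∈ s, (tens (gk d k) : H →L[ℂ] L2 H)
      ((ContinuousLinearMap.adjoint (tens (gk d k) : H →L[ℂ] L2 H)) F) := by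
  unfold epv_P
  rw [ContinuousLinearMap.sum_apply]
  rfl

theorem epv_adj (d : ℝ) (hd : 0 < d) (s : Finset ℤ) (F : L2 H) (k : ℤ) (hk : k ∈ s) :
    (ContinuousLinearMap.adjoint (tens (gk d k) : H →L[ℂ] L2 H)) (epv_P d s F) =
      (ContinuousLinearMap.adjoint (tens (gk d k) : H →L[ℂ] L2 H)) F := by
  rw [epv_apply, map_sum]
  rw [Finset.sum_congr rfl (fun j _ => adj_gk_gk d hd k j _)]
  rw [Finset.sum_ite_eq s k, if_pos hk]

theorem epv_inner (d : ℝ) (s : Finset ℤ) (F G : L2 H) :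
    inner ℂ G (epv_P d s F) = ∑ k ∈ s, inner ℂ
      ((ContinuousLinearMap.adjoint (tens (gk d k) : H →L[ℂ] L2 H)) G)
      ((ContinuousLinearMap.adjoint (tens (gk d k) : H →L[ℂ] L2 H)) F) := by
  rw [epv_apply, inner_sum]
  refine Finset.sum_congr rfl fun k _ => ?_
  rw [ContinuousLinearMap.adjoint_inner_left]

theorem epv_self (x : H) : inner ℂ x x = ((‖x‖ ^ 2 : ℝ) : ℂ) := by
  rw [inner_self_eq_norm_sq_to_K]
  push_cast
  rfl

theorem epv_norm_sq (d : ℝ) (hd : 0 < d) (s : Finset ℤ) (F : L2 H) :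
    ‖epv_P d s F‖ ^ 2 = ∑ k ∈ s,
      ‖(ContinuousLinearMap.adjoint (tens (gk d k) : H →L[ℂ] L2 H)) F‖ ^ 2 := by
  have h1 := epv_inner d s F (epv_P d s F)
  rw [Finset.sum_congr rfl (fun k hk => by rw [epv_adj d hd s F k hk, epv_self])] at h1
  rw [inner_self_eq_norm_sq_to_K] at h1
  have h2 : (((‖epv_P d s F‖ ^ 2 : ℝ)) : ℂ) = ((∑ k ∈ s,
      ‖(ContinuousLinearMap.adjoint (tens (gk d k) : H →L[ℂ] L2 H)) F‖ ^ 2 : ℝ) : ℂ) := by
    push_cast
    push_cast at h1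
    exact h1
  exact_mod_cast h2

theorem epv_bound (d : ℝ) (hd : 0 < d) (s : Finset ℤ) (F : L2 H) : ‖epv_P d s F‖ ≤ ‖F‖ := by
  have h1 := epv_inner d s F F
  rw [Finset.sum_congr rfl (fun k _ => epv_self _), ← Complex.ofReal_sum,
    ← epv_norm_sq d hd s F] at h1
  have h2 : ‖epv_P d s F‖ ^ 2 ≤ ‖F‖ * ‖epv_P d s F‖ := by
    have h3 := norm_inner_le_norm (𝕜 := ℂ) F (epv_P d s F)
    rw [h1, Complex.norm_real, Real.norm_eq_abs, abs_of_nonneg (sq_nonneg _)] at h3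
    exact h3
  rcases (norm_nonneg (epv_P d s F)).eq_or_lt with h | h
  · rw [← h]
    exact norm_nonneg _
  · rw [sq] at h2
    exact le_of_mul_le_mul_right h2 h

theorem epv_q (d : ℝ) (k : ℤ) (F : L2 H) :
    (ContinuousLinearMap.adjoint (tens (gk d k) : H →L[ℂ] L2 H)) (mulOp (win d) F) =
      (ContinuousLinearMap.adjoint (tens (gk d k) : H →L[ℂ] L2 H)) F := by
  refine ext_inner_left ℂ fun ξ => ?_
  rw [ContinuousLinearMap.adjoint_inner_right, ContinuousLinearMap.adjoint_inner_right]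
  have h1 : (ContinuousLinearMap.adjoint (mulOp (win d) : L2 H →L[ℂ] L2 H)) = mulOp (win d) := by
    rw [← ContinuousLinearMap.star_eq_adjoint]
    exact win_star d
  rw [← ContinuousLinearMap.adjoint_inner_left, h1, win_gk]

theorem epv_diff (d : ℝ) (hd : 0 < d) (s : Finset ℤ) (F : L2 H) :
    ‖epv_P d s F - mulOp (win d) F‖ ^ 2 = ‖mulOp (win d) F‖ ^ 2 - ∑ k ∈ s,
      ‖(ContinuousLinearMap.adjoint (tens (gk d k) : H →L[ℂ] L2 H)) F‖ ^ 2 := by
  rw [norm_sub_rev, norm_sub_sq (𝕜 := ℂ), epv_inner]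
  rw [Finset.sum_congr rfl (fun k _ => by rw [epv_q, epv_self]), ← Complex.ofReal_sum,
    ← epv_norm_sq d hd s F]
  have h : RCLike.re (((‖epv_P d s F‖ ^ 2 : ℝ)) : ℂ) = ‖epv_P d s F‖ ^ 2 := Complex.ofReal_re _
  rw [h]
  ring

theorem epv_coeff (d : ℝ) (hd : 0 < d) (f : ℝ → ℂ) (k : ℤ) :
    ‖∫ s, (starRingEnd ℂ) (gk d k s) * f s‖ ^ 2 = d * ‖fourierCoeffOn hd f k‖ ^ 2 := by
  have h1 : ∫ s, (starRingEnd ℂ) (gk d k s) * f s =
      ((Real.sqrt d : ℝ) : ℂ)⁻¹ * ∫ x in (0 : ℝ)..d, fourier (-k) (x : AddCircle (d - 0)) • f x := by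
    rw [intervalIntegral.integral_of_le hd.le, ← integral_indicator measurableSet_Ioc,
      ← integral_const_mul]
    refine integral_congr_ae (Eventually.of_forall fun s => ?_)
    show (starRingEnd ℂ) (gk d k s) * f s = ((Real.sqrt d : ℝ) : ℂ)⁻¹ *
      Set.indicator (Set.Ioc 0 d) (fun x => fourier (-k) (x : AddCircle (d - 0)) • f x) s
    unfold gk
    by_cases hs : s ∈ Set.Ioc 0 d
    · rw [Set.indicator_of_mem hs, Set.indicator_of_mem hs, fourier_coe_apply, map_mul,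
        map_inv₀, Complex.conj_ofReal, ← Complex.exp_conj, smul_eq_mul, mul_assoc]
      congr 3
      simp only [map_div₀, map_mul, Complex.conj_ofReal, Complex.conj_I, map_ofNat, map_intCast,
        sub_zero]
      push_cast
      ring
    · rw [Set.indicator_of_notMem hs, Set.indicator_of_notMem hs, map_zero, zero_mul, mul_zero]
  rw [h1, fourierCoeffOn_eq_integral, norm_mul, norm_smul, norm_inv, Complex.norm_real,
    Real.norm_eq_abs, Real.norm_eq_abs, abs_of_nonneg (Real.sqrt_nonneg d), sub_zero,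
    abs_of_nonneg (by positivity), mul_pow, mul_pow, inv_pow, Real.sq_sqrt hd.le]
  have hd' := hd.ne'
  field_simp

theorem epv_scalar (d : ℝ) (hd : 0 < d) {f : ℝ → ℂ} (hf : MemLp f 2 (volume : Measure ℝ)) :
    HasSum (fun k : ℤ => ‖∫ s, (starRingEnd ℂ) (gk d k s) * f s‖ ^ 2)
      (∫ s, ‖win d s * f s‖ ^ 2) := by
  have h1 := hasSum_sq_fourierCoeffOn hd (hf.restrict (Set.Ioc 0 d))
  have h2 := h1.mul_left d
  have h3 : d * ((d - 0)⁻¹ • ∫ x in (0 : ℝ)..d, ‖f x‖ ^ 2) = ∫ s, ‖win d s * f s‖ ^ 2 := by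
    rw [sub_zero, smul_eq_mul, mul_inv_cancel_left₀ hd.ne', intervalIntegral.integral_of_le hd.le,
      ← integral_indicator measurableSet_Ioc]
    refine integral_congr_ae (Eventually.of_forall fun s => ?_)
    show Set.indicator (Set.Ioc 0 d) (fun x => ‖f x‖ ^ 2) s = ‖win d s * f s‖ ^ 2
    unfold win
    by_cases hs : s ∈ Set.Ioc 0 d
    · rw [Set.indicator_of_mem hs, Set.indicator_of_mem hs, one_mul]
    · rw [Set.indicator_of_notMem hs, Set.indicator_of_notMem hs, zero_mul, norm_zero]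
      norm_num
  rw [h3] at h2
  have h4 : (fun k : ℤ => ‖∫ s, (starRingEnd ℂ) (gk d k s) * f s‖ ^ 2) =
      fun k => d * ‖fourierCoeffOn hd f k‖ ^ 2 := funext fun k => epv_coeff d hd f k
  rw [h4]
  exact h2

theorem epv_tens (d : ℝ) (hd : 0 < d) {f : ℝ → ℂ} (hf : MemLp f 2 (volume : Measure ℝ)) (ξ : H) :
    Tendsto (fun s => epv_P d s (tens f ξ)) atTop (𝓝 (mulOp (win d) (tens f ξ))) := by
  have h1 := (epv_scalar d hd hf).mul_right (‖ξ‖ ^ 2)
  have h2 : ∀ k : ℤ, ‖(ContinuousLinearMap.adjoint (tens (gk d k) : H →L[ℂ] L2 H))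
      (tens f ξ)‖ ^ 2 = ‖∫ s, (starRingEnd ℂ) (gk d k s) * f s‖ ^ 2 * ‖ξ‖ ^ 2 := by
    intro k
    have h3 := congrArg (fun A : H →L[ℂ] H => A ξ) (tens_adjoint_tens (H := H) (memLp_gk d k) hf)
    have h4 : (ContinuousLinearMap.adjoint (tens (gk d k) : H →L[ℂ] L2 H)) (tens f ξ) =
        (∫ s, (starRingEnd ℂ) (gk d k s) * f s) • ξ := h3
    rw [h4, norm_smul, mul_pow]
  have h5 : ‖mulOp (win d) (tens f ξ : L2 H)‖ ^ 2 = (∫ s, ‖win d s * f s‖ ^ 2) * ‖ξ‖ ^ 2 := by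
    have h6 := congrArg (fun A : H →L[ℂ] L2 H => A ξ) (mul_tens (H := H) hf (BM_win d))
    have h7 : mulOp (win d) (tens f ξ : L2 H) = tens (fun s => win d s * f s) ξ := h6
    rw [h7, tens_norm (memLp_mul hf (BM_win d))]
  have h8 : Tendsto (fun s => ‖epv_P d s (tens f ξ) - mulOp (win d) (tens f ξ : L2 H)‖ ^ 2) atTop
      (𝓝 0) := by
    have h9 : Tendsto (fun s : Finset ℤ => ‖mulOp (win d) (tens f ξ : L2 H)‖ ^ 2 -
        ∑ k ∈ s, ‖∫ s, (starRingEnd ℂ) (gk d k s) * f s‖ ^ 2 * ‖ξ‖ ^ 2) atTop (𝓝 0) := by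
      have h10 : Tendsto (fun s : Finset ℤ =>
        ∑ k ∈ s, ‖∫ s, (starRingEnd ℂ) (gk d k s) * f s‖ ^ 2 * ‖ξ‖ ^ 2) atTop
          (𝓝 ((∫ s, ‖win d s * f s‖ ^ 2) * ‖ξ‖ ^ 2)) := h1
      have h11 := h10.const_sub (‖mulOp (win d) (tens f ξ : L2 H)‖ ^ 2)
      rw [h5, sub_self] at h11
      rw [h5]
      exact h11
    refine h9.congr fun s => ?_
    rw [epv_diff d hd, Finset.sum_congr rfl (fun k _ => h2 k)]
  rw [tendsto_iff_norm_sub_tendsto_zero]
  have h12 := h8.sqrt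
  rw [Real.sqrt_zero] at h12
  refine h12.congr fun s => ?_
  rw [Real.sqrt_sq (norm_nonneg _)]

theorem epv_lim (d : ℝ) (hd : 0 < d) (F : L2 H) :
    Tendsto (fun s => epv_P d s F) atTop (𝓝 (mulOp (win d) F)) := by
  refine closed_tens {F : L2 H | Tendsto (fun s => epv_P d s F) atTop (𝓝 (mulOp (win d) F))}
    ?_ ?_ ?_ F
  · apply isClosed_of_closure_subset
    intro F hF
    rw [Set.mem_setOf_eq, Metric.tendsto_nhds]
    intro ε hε
    obtain ⟨G, hG, hFG⟩ := Metric.mem_closure_iff.1 hF (ε / 3) (by positivity)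
    have h1 := (Metric.tendsto_nhds.1 hG) (ε / 3) (by positivity)
    filter_upwards [h1] with s hs
    have h2 : dist (epv_P d s F) (epv_P d s G) ≤ dist F G := by
      rw [dist_eq_norm, ← map_sub, dist_eq_norm]
      exact epv_bound d hd s _
    have h3 : dist (mulOp (win d) G) (mulOp (win d) F) ≤ dist F G := by
      rw [dist_comm, dist_eq_norm, ← map_sub, dist_eq_norm]
      exact win_norm d _
    calc dist (epv_P d s F) (mulOp (win d) F)
        ≤ dist (epv_P d s F) (epv_P d s G) + dist (epv_P d s G) (mulOp (win d) G) +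
            dist (mulOp (win d) G) (mulOp (win d) F) := dist_triangle4 _ _ _ _
      _ < ε / 3 + ε / 3 + ε / 3 := by linarith
      _ = ε := by ring
  · intro F hF G hG
    rw [Set.mem_setOf_eq] at hF hG ⊢
    have h := Tendsto.add hF hG
    rw [← map_add] at h
    refine h.congr fun s => ?_
    rw [map_add]
  · intro S hS hfin ξ
    exact epv_tens d hd (memLp_indicator_const 2 hS (1 : ℂ) (Or.inr hfin.ne)) ξ

theorem parseval (d : ℝ) (hd : 0 < d) (F : L2 H) :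
    HasSum (fun k : ℤ => ‖(ContinuousLinearMap.adjoint (tens (gk d k) : H →L[ℂ] L2 H)) F‖ ^ 2)
      (‖mulOp (win d) F‖ ^ 2) := by
  have h1 : Tendsto (fun s => ‖epv_P d s F‖ ^ 2) atTop (𝓝 (‖mulOp (win d) F‖ ^ 2)) :=
    ((epv_lim d hd F).norm).pow 2
  have h2 : Tendsto (fun s : Finset ℤ => ∑ k ∈ s,
      ‖(ContinuousLinearMap.adjoint (tens (gk d k) : H →L[ℂ] L2 H)) F‖ ^ 2) atTop
      (𝓝 (‖mulOp (win d) F‖ ^ 2)) := by
    refine h1.congr fun s => ?_
    rw [epv_norm_sq d hd]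
  exact h2

end H52BC
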