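import Pool.Agent.H52.BC.EjS
import Pool.Agent.H52.BC.EpV

/-!
Row EtR.  The exact trace vector `Ω` of the window (formula (1.2)).

`V_k = tens (gk d k)`, `q = mulOp (win d)`.
(a) Claim: if `WCom M U A` and `A * q = A` then `‖star A (V_0 ζ)‖ = ‖mulOp (wm d) (A (mulOp (wp d) (V_0 ζ)))‖`.
    `star A = q * star A`, so by `parseval` `‖star A V_0 ζ‖² = Σ_j ‖V_j* (star A) V_0 ζ‖²`, `V_j* (star A) V_0 = star (slice A g_0 g_j)` (`slice_star`), and
    `‖star (slice A g_0 g_j) ζ‖ = ‖J (star (slice A g_0 g_j) ζ)‖ = ‖V_0* m(wm) A m(wp) V_j ζ‖ = ‖slice B g_0 g_j ζ‖` with `B = mulOp (wm d) * A * mulOp (wp d)`, `WCom M U B`.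
    With `r = -j/d`: `U r (slice B g_0 g_j) U (-r) = slice B g_{-j} g_0` (`slice_sigma`, `gk_shift'`), and `U` is isometric and fixes `ζ` (`U_norm_apply`, `hU.fix`): so the `j`-th term is
    `‖V_{-j}* B V_0 ζ‖²`; sum over `j` (`Equiv.neg ℤ`): `‖q B V_0 ζ‖² = ‖B V_0 ζ‖²` (`win_wm`).
(b) Apply (a) to `A' = mulOp (wp d) * A`: `star A' = star A * mulOp (wp d)` (`wp_star`), so the left side is `‖star A Ω‖`, the right side is
    `‖mulOp (wm d) (mulOp (wp d) (A Ω))‖ = ‖q A Ω‖ = ‖A Ω‖` (`wm_wp`, `hq1`).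
-/

open MeasureTheory Filter Topology

noncomputable section

namespace H52BC

variable {H : Type*} [NormedAddCommGroup H] [InnerProductSpace ℂ H] [CompleteSpace H]
variable {M N : VonNeumannAlgebra H} {ζ : H} {U : ℝ → H →L[ℂ] H} {J : H ≃ₗᵢ⋆[ℂ] H}

/-- the vector `Ω = (e^{π s} g_0) ⊗ ζ` -/
def Om (d : ℝ) (ζ : H) : L2 H := mulOp (wp d) (tens (gk d 0) ζ)

theorem EtR_key (hU : IsModularGroup M ζ U) (hJ : IsModConj M ζ U J) (d : ℝ) (hd : 0 < d)
    {A : L2 H →L[ℂ] L2 H} (hA : WCom M U A) (hq2 : A * mulOp (win d) = A) :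
    ‖star A (tens (gk d 0) ζ)‖ =
      ‖mulOp (wm d) (A (mulOp (wp d) (tens (gk d 0) ζ)))‖ := by
  obtain ⟨B, hB⟩ : ∃ B : L2 H →L[ℂ] L2 H, B = mulOp (wm d) * A * mulOp (wp d) := ⟨_, rfl⟩
  have hBW : WCom M U B := by
    rw [hB]
    exact ((WCom.mulOp' (BM_wm d)).mul hA).mul (WCom.mulOp' (BM_wp d))
  have hBa : ∀ F : L2 H, B F = mulOp (wm d) (A (mulOp (wp d) F)) := by
    intro F
    rw [hB]
    rfl
  have hsA : (mulOp (win d) : L2 H →L[ℂ] L2 H) * star A = star A := by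
    have h := congrArg star hq2
    rw [star_mul, win_star] at h
    exact h
  have hqB : (mulOp (win d) : L2 H →L[ℂ] L2 H) * B = B := by
    rw [hB, ← mul_assoc, ← mul_assoc, win_wm]
  have h1 := parseval d hd (star A (tens (gk d 0) ζ))
  have h1' : mulOp (win d) (star A (tens (gk d 0) ζ)) = star A (tens (gk d 0) ζ) :=
    congrArg (fun T : L2 H →L[ℂ] L2 H => T (tens (gk d 0) ζ)) hsA
  rw [h1'] at h1
  have h2 := parseval d hd (B (tens (gk d 0) ζ))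
  have h2' : mulOp (win d) (B (tens (gk d 0) ζ)) = B (tens (gk d 0) ζ) :=
    congrArg (fun T : L2 H →L[ℂ] L2 H => T (tens (gk d 0) ζ)) hqB
  rw [h2'] at h2
  have h3 := (Equiv.neg ℤ).hasSum_iff.2 h2
  have key : ∀ j : ℤ,
      ‖(ContinuousLinearMap.adjoint (tens (gk d j) : H →L[ℂ] L2 H))
        (star A (tens (gk d 0) ζ))‖ =
      ‖(ContinuousLinearMap.adjoint (tens (gk d (-j)) : H →L[ℂ] L2 H))
        (B (tens (gk d 0) ζ))‖ := by
    intro j
    have e1 : (ContinuousLinearMap.adjoint (tens (gk d j) : H →L[ℂ] L2 H))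
        (star A (tens (gk d 0) ζ)) = star (slice A (gk d 0) (gk d j)) ζ := by
      rw [slice_star]
      rfl
    have e2 := slice_J hU hJ hA d (memLp_gk d 0) (memLp_gk d j) (gk_support d 0)
      (gk_support d j)
    have e3 : ‖star (slice A (gk d 0) (gk d j)) ζ‖ = ‖slice B (gk d 0) (gk d j) ζ‖ := by
      rw [← J.norm_map, e2, ← hBa]
      rfl
    have e4 := slice_sigma hU hBW (memLp_gk d 0) (memLp_gk d j) (((-j : ℤ) : ℝ) / d)
    rw [gk_shift' d hd 0 (-j), gk_shift' d hd j (-j), zero_add, add_neg_cancel] at e4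
    have e5 : slice B (gk d (-j)) (gk d 0) ζ =
        U (((-j : ℤ) : ℝ) / d) (slice B (gk d 0) (gk d j) ζ) := by
      rw [← e4]
      show U (((-j : ℤ) : ℝ) / d) (slice B (gk d 0) (gk d j) (U (-(((-j : ℤ) : ℝ) / d)) ζ)) = _
      rw [hU.fix]
    rw [e1, e3, ← U_norm_apply hU (((-j : ℤ) : ℝ) / d) (slice B (gk d 0) (gk d j) ζ), ← e5]
    rfl
  have h4 : HasSum (fun j : ℤ =>
      ‖(ContinuousLinearMap.adjoint (tens (gk d j) : H →L[ℂ] L2 H))
        (star A (tens (gk d 0) ζ))‖ ^ 2) (‖B (tens (gk d 0) ζ)‖ ^ 2) := by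
    have e : (fun j : ℤ => ‖(ContinuousLinearMap.adjoint (tens (gk d j) : H →L[ℂ] L2 H))
        (star A (tens (gk d 0) ζ))‖ ^ 2) = fun j : ℤ =>
        ‖(ContinuousLinearMap.adjoint (tens (gk d (-j)) : H →L[ℂ] L2 H))
        (B (tens (gk d 0) ζ))‖ ^ 2 := by
      funext j
      rw [key j]
    rw [e]
    exact h3
  have h5 := h1.unique h4
  rw [hBa] at h5
  exact (sq_eq_sq₀ (norm_nonneg _) (norm_nonneg _)).1 h5

theorem trace_vec (hU : IsModularGroup M ζ U) (hJ : IsModConj M ζ U J) (d : ℝ) (hd : 0 < d)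
    {A : L2 H →L[ℂ] L2 H} (hA : WCom M U A) (hq1 : mulOp (win d) * A = A)
    (hq2 : A * mulOp (win d) = A) :
    ‖A (Om d ζ)‖ = ‖star A (Om d ζ)‖ := by
  obtain ⟨A', hAd⟩ : ∃ A' : L2 H →L[ℂ] L2 H, A' = mulOp (wp d) * A := ⟨_, rfl⟩
  have hA' : WCom M U A' := by
    rw [hAd]
    exact (WCom.mulOp' (BM_wp d)).mul hA
  have h1 := EtR_key hU hJ d hd hA' (by rw [hAd, mul_assoc, hq2])
  have e1 : star A' (tens (gk d 0) ζ) = star A (Om d ζ) := by
    rw [hAd, star_mul, wp_star]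
    rfl
  have e2 : mulOp (wm d) (A' (mulOp (wp d) (tens (gk d 0) ζ))) = A (Om d ζ) := by
    have h2 : mulOp (wm d) (A' (mulOp (wp d) (tens (gk d 0) ζ))) =
        (mulOp (wm d) * mulOp (wp d) * A : L2 H →L[ℂ] L2 H) (Om d ζ) := by
      rw [hAd]
      rfl
    rw [h2, wm_wp, hq1]
  rw [e1, e2] at h1
  exact h1.symm

end H52BC
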