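import Pool.Agent.H52.BC.Tech

/-!
Row LdA.  An integrable function with vanishing Fourier transform is zero a.e. (uniqueness theorem for the Fourier transform on `L¹(ℝ)`).

`ee r s = exp(2πi r s)`.  For every `C_c^∞` (or Schwartz) function `g`, `g = 𝓕 (𝓕⁻¹ g)` and Fubini give
`∫ g a = ∫ 𝓕⁻¹g · 𝓕 a = 0`, and `ae_eq_zero_of_integral_contDiff_smul_eq_zero`.
-/

open MeasureTheory Filter Topology

noncomputable section

namespace H52BC

variable {H : Type*} [NormedAddCommGroup H] [InnerProductSpace ℂ H] [CompleteSpace H]

open scoped FourierTransform SchwartzMap ContDiff in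
/-- an integrable function whose Fourier transform vanishes is zero -/
theorem L1_fourier_inj (a : ℝ → ℂ) (ha : Integrable a (volume : Measure ℝ))
    (h : ∀ r : ℝ, ∫ s, ee r s * a s = 0) : a =ᵐ[volume] 0 := by
  have hF : ∀ r : ℝ, VectorFourier.fourierIntegral Real.fourierChar volume
      (innerₗ ℝ).flip a r = 0 := by
    intro r
    have h1 := h (-r)
    rw [VectorFourier.fourierIntegral]
    rw [← h1]
    refine integral_congr_ae (Eventually.of_forall fun s => ?_)
    simp only [ee, Circle.smul_def, Real.fourierChar_apply, smul_eq_mul]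
    congr 2
    simp
    ring
  have key : ∀ φ : 𝓢(ℝ, ℂ), ∫ s, (𝓕 φ) s • a s = 0 := by
    intro φ
    have := VectorFourier.integral_fourierIntegral_smul_eq_flip (L := innerₗ ℝ)
      (μ := volume) (ν := volume) (f := (φ : ℝ → ℂ)) (g := a)
      Real.continuous_fourierChar continuous_inner φ.integrable ha
    have h2 : ∫ x, (φ x) • (VectorFourier.fourierIntegral Real.fourierChar volume
        (innerₗ ℝ).flip a x) = 0 := by
      simp only [hF, smul_zero, integral_zero]
    rw [h2] at this
    rw [← this]
    refine integral_congr_ae (Eventually.of_forall fun s => ?_)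
    simp only [SchwartzMap.fourier_coe]
    rfl
  refine ae_eq_zero_of_integral_contDiff_smul_eq_zero ha.locallyIntegrable ?_
  intro g g_smooth g_cpt
  have hg₁ : HasCompactSupport (Complex.ofRealCLM ∘ g) := g_cpt.comp_left rfl
  have hg₂ : ContDiff ℝ ∞ (Complex.ofRealCLM ∘ g) := by fun_prop
  have h3 := key (𝓕⁻ (hg₁.toSchwartzMap hg₂))
  rw [FourierTransform.fourier_fourierInv_eq] at h3
  rw [← h3]
  refine integral_congr_ae (Eventually.of_forall fun s => ?_)
  simp

end H52BC
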