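import Pool.Agent.H52.BC.EtR
import Pool.Agent.H52.BC.EdM
import Pool.Agent.H52.BC.LdA

/-!
Row EtT.  Totality of the vectors `const(y) G_r Ω` (`y ∈ M'`, `r ∈ ℝ`) in the window (formula (1.3)).

* `total_Om`: `const(y) const(U r) m(ee r) Ω = tens (ee r · wp d · gk d 0) (y ζ)` (`mul_tens`, `const_tens`, `hU.fix`).  So by `inner_tens`, for all `r`:
  `∫ conj (ee r s) conj (wp d s · gk d 0 s) ⟪y ζ, F s⟫ ds = 0`; `conj (ee r s) = ee (-r) s`, the function `conj(wp gk0) ⟪y ζ, F s⟫` is integrable (product of two `L²` functions), so it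
  vanishes a.e. (`L1_fourier_inj`); on `(0,d]` the factor `wp · gk0` is `≠ 0`, so `⟪y ζ, F s⟫ = 0` for a.e. `s ∈ (0,d]`, and for a.e. `s ∉ (0,d]` `F s = 0` because `mulOp (win d) F = F`.
  Hence for `S` measurable of finite measure and `y ∈ M'`: `⟪tens 1_S (y ζ), F⟫ = ∫_S ⟪y ζ, F s⟫ = 0`; `M' ζ` is dense (`dense_commutant`) and both sides are continuous, so
  `⟪tens 1_S ξ, F⟫ = 0` for all `ξ`; `ext_tens`.
* `op_eq_of_Om`: `T` kills all `R Ω`, so kills the closed span; with `total_Om` the closed span of the `R Ω` is the range of `q`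
  (if `η ∈ range q` is orthogonal to all `R Ω` then `η = 0`; use `Submodule.topologicalClosure_eq_top`-type argument for the submodule `span {R Ω} ⊔ ker q`, or: `T* v` for any `v`: 
  `⟪R Ω, star T v⟫ = ⟪T R Ω, v⟫ = ⟪R T Ω, v⟫ = 0` so with `F = star T v = q star T v` we get `star T v = 0`).
-/

open MeasureTheory Filter Topology

noncomputable section

namespace H52BC

variable {H : Type*} [NormedAddCommGroup H] [InnerProductSpace ℂ H] [CompleteSpace H]
variable {M N : VonNeumannAlgebra H} {ζ : H} {U : ℝ → H →L[ℂ] H}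

private theorem ett_vec (hU : IsModularGroup M ζ U) (d : ℝ) (y : H →L[ℂ] H) (r : ℝ) :
    constOp y (constOp (U r) (mulOp (ee r) (Om d ζ))) =
      tens (fun s => ee r s * (wp d s * gk d 0 s)) (y ζ) := by
  have h0 := memLp_gk d 0
  have h1 := memLp_mul h0 (BM_wp d)
  have h2 := memLp_mul h1 (BM_ee r)
  have e1 : Om d ζ = tens (fun s => wp d s * gk d 0 s) ζ :=
    DFunLike.congr_fun (mul_tens (H := H) h0 (BM_wp d)) ζ
  have e2 : mulOp (ee r) (tens (fun s => wp d s * gk d 0 s) ζ) =
      tens (fun s => ee r s * (wp d s * gk d 0 s)) ζ :=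
    DFunLike.congr_fun (mul_tens (H := H) h1 (BM_ee r)) ζ
  have e3 : constOp (U r) (tens (fun s => ee r s * (wp d s * gk d 0 s)) ζ) =
      tens (fun s => ee r s * (wp d s * gk d 0 s)) (U r ζ) :=
    DFunLike.congr_fun (const_tens (H := H) h2 (U r)) ζ
  have e4 : constOp y (tens (fun s => ee r s * (wp d s * gk d 0 s)) ζ) =
      tens (fun s => ee r s * (wp d s * gk d 0 s)) (y ζ) :=
    DFunLike.congr_fun (const_tens (H := H) h2 y) ζ
  rw [e1, e2, e3, hU.fix, e4]

private theorem ett_ee (r s : ℝ) : (starRingEnd ℂ) (ee r s) = ee (-r) s := by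
  unfold ee
  rw [← Complex.exp_conj]
  congr 1
  simp only [map_mul, Complex.conj_ofReal, Complex.conj_I, map_ofNat, Complex.ofReal_neg]
  ring

private theorem ett_ne (d : ℝ) (hd : 0 < d) (s : ℝ) (hs : s ∈ Set.Ioc 0 d) :
    wp d s * gk d 0 s ≠ 0 := by
  unfold wp gk
  rw [Set.indicator_of_mem hs, Set.indicator_of_mem hs]
  have h1 : ((Real.sqrt d : ℝ) : ℂ)⁻¹ ≠ 0 := by
    apply inv_ne_zero
    exact_mod_cast (Real.sqrt_pos.2 hd).ne'
  exact mul_ne_zero (Complex.exp_ne_zero _) (mul_ne_zero h1 (Complex.exp_ne_zero _))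

theorem total_Om (hU : IsModularGroup M ζ U) (hsep : ∀ x ∈ M, x ζ = 0 → x = 0) (d : ℝ)
    (hd : 0 < d) (F : L2 H) (hF : mulOp (win d) F = F)
    (h : ∀ y ∈ M.commutant, ∀ r : ℝ,
      inner ℂ (constOp y (constOp (U r) (mulOp (ee r) (Om d ζ)))) F = 0) : F = 0 := by
  have hFm : MemLp (F : ℝ → H) 2 (volume : Measure ℝ) := Lp.memLp F
  have h0 := memLp_gk d 0
  have h1 := memLp_mul h0 (BM_wp d)
  have hwin : ∀ᵐ s ∂(volume : Measure ℝ), (F : ℝ → H) s = win d s • (F : ℝ → H) s := by
    have := mulOp_ae (BM_win d) F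
    rw [hF] at this
    exact this
  have key : ∀ y ∈ M.commutant, ∀ᵐ s ∂(volume : Measure ℝ),
      inner ℂ (y ζ) ((F : ℝ → H) s) = 0 := by
    intro y hy
    have hin : MemLp (fun s => inner ℂ (y ζ) ((F : ℝ → H) s)) 2 (volume : Measure ℝ) :=
      hFm.const_inner (y ζ)
    have hgc : MemLp (fun s => (starRingEnd ℂ) (wp d s * gk d 0 s)) 2 (volume : Measure ℝ) :=
      h1.star
    have hint : Integrable (fun s => (starRingEnd ℂ) (wp d s * gk d 0 s) *
        inner ℂ (y ζ) ((F : ℝ → H) s)) (volume : Measure ℝ) := MemLp.integrable_mul hgc hin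
    have hz := L1_fourier_inj _ hint (by
      intro r
      have h3 := h y hy (-r)
      rw [ett_vec hU, inner_tens (memLp_mul h1 (BM_ee (-r)))] at h3
      rw [← h3]
      refine integral_congr_ae (Filter.Eventually.of_forall fun s => ?_)
      simp only
      rw [map_mul (starRingEnd ℂ) (ee (-r) s), ett_ee, neg_neg, mul_assoc])
    filter_upwards [hz, hwin] with s hs1 hs2
    by_cases hs : s ∈ Set.Ioc 0 d
    · have h4 : (starRingEnd ℂ) (wp d s * gk d 0 s) ≠ 0 :=
        (map_ne_zero (starRingEnd ℂ)).2 (ett_ne d hd s hs)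
      exact (mul_eq_zero.1 hs1).resolve_left h4
    · have h5 : win d s = 0 := Set.indicator_of_notMem hs _
      rw [h5, zero_smul] at hs2
      rw [hs2, inner_zero_right]
  refine ext_tens F fun S hS hfin ξ => ?_
  have hmem : MemLp (Set.indicator S fun _ => (1 : ℂ)) 2 (volume : Measure ℝ) :=
    memLp_indicator_const 2 hS 1 (Or.inr hfin.ne)
  have hc : Continuous fun ξ : H => inner ℂ (tens (Set.indicator S fun _ => (1 : ℂ)) ξ) F :=
    Continuous.inner ((tens (Set.indicator S fun _ => (1 : ℂ))).continuous) continuous_const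
  have heq : (fun ξ : H => inner ℂ (tens (Set.indicator S fun _ => (1 : ℂ)) ξ) F) =
      fun _ => (0 : ℂ) := by
    refine Continuous.ext_on (dense_commutant hsep) hc continuous_const ?_
    rintro ξ' ⟨y, hy, rfl⟩
    simp only
    rw [inner_tens hmem]
    rw [integral_eq_zero_of_ae]
    filter_upwards [key y hy] with s hs
    rw [hs, mul_zero]
    rfl
  exact congrFun heq ξ

theorem op_eq_of_Om (hU : IsModularGroup M ζ U) (hsep : ∀ x ∈ M, x ζ = 0 → x = 0) (d : ℝ)
    (hd : 0 < d) {T : L2 H →L[ℂ] L2 H} (hT : WCom M U T) (hq : T * mulOp (win d) = T)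
    (h0 : T (Om d ζ) = 0) : T = 0 := by
  have hstar : ∀ v, (star T) v = 0 := by
    intro v
    refine total_Om hU hsep d hd ((star T) v) ?_ ?_
    · have h1 : star (T * mulOp (win d)) = star T := by rw [hq]
      rw [star_mul, win_star] at h1
      exact DFunLike.congr_fun h1 v
    · intro y hy r
      rw [ContinuousLinearMap.star_eq_adjoint, ContinuousLinearMap.adjoint_inner_right]
      have h2 : T (constOp y (constOp (U r) (mulOp (ee r) (Om d ζ)))) =
          constOp y (T (constOp (U r) (mulOp (ee r) (Om d ζ)))) :=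
        DFunLike.congr_fun (hT.cst y hy) _
      have h3 : T (constOp (U r) (mulOp (ee r) (Om d ζ))) =
          constOp (U r) (mulOp (ee r) (T (Om d ζ))) :=
        DFunLike.congr_fun (hT.grp r) (Om d ζ)
      rw [h2, h3, h0, map_zero, map_zero, map_zero, inner_zero_left]
  have h4 : star T = 0 := ContinuousLinearMap.ext hstar
  exact star_eq_zero.1 h4

end H52BC
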