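import Pool.Agent.H52.BC.Tech

/-!
Row MdT.  The smoothing map `T : L¹(ℝ) → M`, `T f ξ = ∫ f(t) • U t (x (U (-t) ξ)) dt`.

For `f ∈ L¹` and `ξ ∈ H` the function `t ↦ U t (x (U (-t) ξ))` is continuous (joint continuity of `(t, ξ) ↦ U t ξ`: `‖U t‖ ≤ 1`, since
`star (U t) * U t = U (-t) * U t = 1`, and strong continuity) and bounded by `‖x‖ ‖ξ‖`; so `f(t) • ...` is integrable
(`Integrable.smul_of_...`/`Integrable.bdd_mul'`).  Linear in `ξ` and in `f`, norm `≤ ‖f‖₁ ‖x‖ ‖ξ‖` (`norm_integral_le_integral_norm`).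
Build `T` with `LinearMap.mkContinuous` twice (`LinearMap.mkContinuous₂`).
`T f ∈ M`: `M = M''` (`M.commutant_commutant`, `VonNeumannAlgebra.mem_commutant_iff`); for `y ∈ M'`: `y ∫ f(t) σ_t(x) ξ = ∫ f(t) σ_t(x) y ξ`
(`ContinuousLinearMap.integral_comp_comm`), since `σ_t(x) = U t * x * U (-t) ∈ M` (`hU.mem`).
Covariance: `U s (T f (U (-s) ξ)) = ∫ f(t) U (s+t) x U (-(s+t)) ξ dt = ∫ f(t - s) σ_t(x) ξ dt`
(`integral_sub_right_eq_self`/`MeasureTheory.integral_add_left_eq_self`), stated for a.e. equal representatives.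
-/

open MeasureTheory Filter Topology

noncomputable section

namespace H52BC

variable {H : Type*} [NormedAddCommGroup H] [InnerProductSpace ℂ H] [CompleteSpace H]
variable {M : VonNeumannAlgebra H} {ζ : H} {U : ℝ → H →L[ℂ] H}

theorem U_norm_le (hU : IsModularGroup M ζ U) (t : ℝ) : ‖U t‖ ≤ 1 := by
  have h1 : star (U t) * U t = 1 := by
    rw [hU.star_eq, ← hU.add, neg_add_cancel, hU.zero]
  have h2 : ‖star (U t) * U t‖ = ‖U t‖ * ‖U t‖ := CStarRing.norm_star_mul_self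
  rw [h1] at h2
  have h3 : ‖(1 : H →L[ℂ] H)‖ ≤ 1 := ContinuousLinearMap.norm_id_le
  rw [h2] at h3
  by_contra hcon
  push Not at hcon
  nlinarith

theorem MdT_inv (hU : IsModularGroup M ζ U) (t : ℝ) (ξ : H) : U (-t) (U t ξ) = ξ := by
  have h : U (-t) * U t = 1 := by rw [← hU.add, neg_add_cancel, hU.zero]
  have := congrArg (fun A : H →L[ℂ] H => A ξ) h
  simpa using this

theorem MdT_add (hU : IsModularGroup M ζ U) (s t : ℝ) (ξ : H) : U s (U t ξ) = U (s + t) ξ := by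
  rw [hU.add]; rfl

theorem MdT_le (hU : IsModularGroup M ζ U) (t : ℝ) (ξ : H) : ‖U t ξ‖ ≤ ‖ξ‖ := by
  have h := (U t).le_opNorm ξ
  have h1 := U_norm_le hU t
  have h2 := norm_nonneg ξ
  nlinarith

theorem U_norm_apply (hU : IsModularGroup M ζ U) (t : ℝ) (ξ : H) : ‖U t ξ‖ = ‖ξ‖ := by
  apply le_antisymm (MdT_le hU t ξ)
  have h := MdT_le hU (-t) (U t ξ)
  rwa [MdT_inv hU] at h

/-- joint continuity -/
theorem U_cont2 (hU : IsModularGroup M ζ U) : Continuous fun p : ℝ × H => U p.1 p.2 := by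
  rw [continuous_iff_continuousAt]
  rintro ⟨t0, ξ0⟩
  unfold ContinuousAt
  rw [tendsto_iff_norm_sub_tendsto_zero]
  have hb : ∀ p : ℝ × H, ‖U p.1 p.2 - U t0 ξ0‖ ≤ ‖p.2 - ξ0‖ + ‖U p.1 ξ0 - U t0 ξ0‖ := by
    intro p
    have e : U p.1 p.2 - U t0 ξ0 = U p.1 (p.2 - ξ0) + (U p.1 ξ0 - U t0 ξ0) := by
      rw [map_sub]; abel
    rw [e]
    refine (norm_add_le _ _).trans ?_
    gcongr
    exact MdT_le hU _ _
  have ht : Tendsto (fun p : ℝ × H => ‖p.2 - ξ0‖ + ‖U p.1 ξ0 - U t0 ξ0‖) (𝓝 (t0, ξ0)) (𝓝 0) := by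
    have c : Continuous (fun p : ℝ × H => ‖p.2 - ξ0‖ + ‖U p.1 ξ0 - U t0 ξ0‖) :=
      (continuous_snd.sub continuous_const).norm.add
        (((hU.cont ξ0).comp continuous_fst).sub continuous_const).norm
    have := c.tendsto (t0, ξ0)
    simpa using this
  exact squeeze_zero (fun p => norm_nonneg _) hb ht

theorem MdT_gcont (hU : IsModularGroup M ζ U) (x : H →L[ℂ] H) (ξ : H) :
    Continuous fun t : ℝ => U t (x (U (-t) ξ)) := by
  have c1 : Continuous fun t : ℝ => U (-t) ξ := (hU.cont ξ).comp continuous_neg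
  have c2 : Continuous fun t : ℝ => (t, x (U (-t) ξ)) := continuous_id.prodMk (x.continuous.comp c1)
  exact (U_cont2 hU).comp c2

theorem MdT_gbd (hU : IsModularGroup M ζ U) (x : H →L[ℂ] H) (ξ : H) (t : ℝ) :
    ‖U t (x (U (-t) ξ))‖ ≤ ‖x‖ * ‖ξ‖ := by
  rw [U_norm_apply hU]
  refine (x.le_opNorm _).trans ?_
  rw [U_norm_apply hU]

theorem MdT_int (hU : IsModularGroup M ζ U) (x : H →L[ℂ] H) (f : Lp ℂ 1 (volume : Measure ℝ))
    (ξ : H) : Integrable (fun t => (f : ℝ → ℂ) t • U t (x (U (-t) ξ))) volume := by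
  have hf : Integrable (f : ℝ → ℂ) volume := L1.integrable_coeFn f
  refine Integrable.mono' (hf.norm.mul_const (‖x‖ * ‖ξ‖)) ?_ ?_
  · exact hf.aestronglyMeasurable.smul (MdT_gcont hU x ξ).aestronglyMeasurable
  · refine Eventually.of_forall (fun t => ?_)
    rw [norm_smul]
    exact mul_le_mul_of_nonneg_left (MdT_gbd hU x ξ t) (norm_nonneg _)

theorem exists_T (hU : IsModularGroup M ζ U) (x : H →L[ℂ] H) (hx : x ∈ M) :
    ∃ T : (Lp ℂ 1 (volume : Measure ℝ)) →L[ℂ] (H →L[ℂ] H), ‖T‖ ≤ ‖x‖ ∧ (∀ f, T f ∈ M) ∧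
      (∀ (f : Lp ℂ 1 (volume : Measure ℝ)) (ξ : H),
        T f ξ = ∫ t, (f : ℝ → ℂ) t • U t (x (U (-t) ξ))) ∧
      (∀ (f g : Lp ℂ 1 (volume : Measure ℝ)) (s : ℝ),
        ((g : ℝ → ℂ) =ᵐ[volume] fun t => (f : ℝ → ℂ) (t - s)) → U s * T f * U (-s) = T g) := by
  let B : (Lp ℂ 1 (volume : Measure ℝ)) →ₗ[ℂ] H →ₗ[ℂ] H := LinearMap.mk₂ ℂ
    (fun f ξ => ∫ t, (f : ℝ → ℂ) t • U t (x (U (-t) ξ)))
    (fun f g ξ => by
      rw [← integral_add (MdT_int hU x f ξ) (MdT_int hU x g ξ)]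
      refine integral_congr_ae ?_
      filter_upwards [Lp.coeFn_add f g] with t ht
      rw [ht, Pi.add_apply, add_smul])
    (fun c f ξ => by
      rw [← integral_smul]
      refine integral_congr_ae ?_
      filter_upwards [Lp.coeFn_smul c f] with t ht
      rw [ht, Pi.smul_apply, smul_eq_mul, mul_smul])
    (fun f ξ η => by
      rw [← integral_add (MdT_int hU x f ξ) (MdT_int hU x f η)]
      refine integral_congr_ae (Eventually.of_forall fun t => ?_)
      simp only [map_add, smul_add])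
    (fun c f ξ => by
      rw [← integral_smul]
      refine integral_congr_ae (Eventually.of_forall fun t => ?_)
      simp only [map_smul]
      rw [smul_comm])
  have hB : ∀ f ξ, ‖B f ξ‖ ≤ ‖x‖ * ‖f‖ * ‖ξ‖ := by
    intro f ξ
    have h1 : B f ξ = ∫ t, (f : ℝ → ℂ) t • U t (x (U (-t) ξ)) := rfl
    rw [h1]
    refine (norm_integral_le_integral_norm _).trans ?_
    have h2 : ∫ t, ‖(f : ℝ → ℂ) t • U t (x (U (-t) ξ))‖ ≤ ∫ t, ‖(f : ℝ → ℂ) t‖ * (‖x‖ * ‖ξ‖) := by
      refine integral_mono (MdT_int hU x f ξ).norm ((L1.integrable_coeFn f).norm.mul_const _) ?_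
      intro t
      simp only [norm_smul]
      exact mul_le_mul_of_nonneg_left (MdT_gbd hU x ξ t) (norm_nonneg _)
    refine h2.trans (le_of_eq ?_)
    rw [integral_mul_const, ← L1.norm_eq_integral_norm]
    ring
  let T := LinearMap.mkContinuous₂ B ‖x‖ hB
  have hT : ∀ (f : Lp ℂ 1 (volume : Measure ℝ)) (ξ : H),
      T f ξ = ∫ t, (f : ℝ → ℂ) t • U t (x (U (-t) ξ)) := fun f ξ => rfl
  refine ⟨T, LinearMap.mkContinuous₂_norm_le B (norm_nonneg x) hB, ?_, hT, ?_⟩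
  · intro f
    rw [← M.commutant_commutant, VonNeumannAlgebra.mem_commutant_iff]
    intro y hy
    rw [VonNeumannAlgebra.mem_commutant_iff] at hy
    ext ξ
    change y (T f ξ) = T f (y ξ)
    rw [hT, hT, ← ContinuousLinearMap.integral_comp_comm y (MdT_int hU x f ξ)]
    refine integral_congr_ae (Eventually.of_forall fun t => ?_)
    have h1 := hy _ (hU.mem t x hx)
    have h2 := congrArg (fun A : H →L[ℂ] H => A ξ) h1
    have h3 : U t (x (U (-t) (y ξ))) = y (U t (x (U (-t) ξ))) := h2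
    simp only [map_smul]
    rw [h3]
  · intro f g s hg
    ext ξ
    change U s (T f (U (-s) ξ)) = T g ξ
    rw [hT, hT, ← ContinuousLinearMap.integral_comp_comm (U s) (MdT_int hU x f _)]
    have h1 : ∫ t, (g : ℝ → ℂ) t • U t (x (U (-t) ξ)) =
        ∫ t, (f : ℝ → ℂ) (t - s) • U t (x (U (-t) ξ)) := by
      refine integral_congr_ae ?_
      filter_upwards [hg] with t ht
      rw [ht]
    rw [h1]
    have h2 := integral_sub_right_eq_self
      (fun t : ℝ => (f : ℝ → ℂ) t • U (t + s) (x (U (-(t + s)) ξ))) s (μ := volume)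
    simp only [sub_add_cancel] at h2
    rw [h2]
    refine integral_congr_ae (Eventually.of_forall fun t => ?_)
    simp only [map_smul]
    rw [MdT_add hU, MdT_add hU, add_comm s t, neg_add]

end H52BC
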