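import Pool.Agent.H52.BC.LtO
import Pool.Agent.H52.BC.MdT

/-!
Row EwC.  Operators on `L²(ℝ,H)` commuting with `const(M')` and with the unitaries `G_r = constOp (U r) * mulOp (ee r)`; their slices.

* `WCom.mul`: clear.  `WCom.star'`: take `star` of the identities for `star y ∈ M'` and for `-r`:
  `star (constOp (U r) * mulOp (ee r)) = mulOp (ee (-r)) * constOp (U (-r)) = constOp (U (-r)) * mulOp (ee (-r))` (`constOp_star`, `mulOp_star`, `mulOp_const`,
  `conj (ee r s) = ee (-r) s`).  `WCom.mulOp'`: `mulOp_const`, `mulOp_comm`.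
* `slice_mem`: `V_f* A V_g` commutes with every `y ∈ M'` (`adj_tens_const`, `cst`, `const_tens`), and `M = M''`
  (`VonNeumannAlgebra.commutant_commutant`, `VonNeumannAlgebra.mem_commutant_iff`).
* `slice_sigma`: `U r V_f* A V_g U(-r) = V_f* const(U r) A const(U (-r)) V_g` and, with `G_r` as above, `const(U r) = mulOp (ee (-r)) G_r`, `const(U(-r)) = G_{-r} mulOp (ee r)`,
  so `const(U r) A const(U(-r)) = mulOp (ee (-r)) A mulOp (ee r)`; `V_f* mulOp (ee (-r)) = V_{ee r f}*` (`adj_tens_mul`), `mulOp (ee r) V_g = V_{ee r g}` (`mul_tens`).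
* `slice_star`: adjoint.
-/

open MeasureTheory Filter Topology

noncomputable section

namespace H52BC

variable {H : Type*} [NormedAddCommGroup H] [InnerProductSpace ℂ H] [CompleteSpace H]
variable {M N : VonNeumannAlgebra H} {ζ : H} {U : ℝ → H →L[ℂ] H}
variable {CM CN : Set (L2 H →L[ℂ] L2 H)}

/-- `A` commutes with `const(M')` and with the unitaries `G_r`. -/
structure WCom (M : VonNeumannAlgebra H) (U : ℝ → H →L[ℂ] H) (A : L2 H →L[ℂ] L2 H) : Prop where
  cst : ∀ y ∈ M.commutant, A * constOp y = constOp y * A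
  grp : ∀ r : ℝ, A * (constOp (U r) * mulOp (ee r)) = (constOp (U r) * mulOp (ee r)) * A

theorem WindowData.wcom (hW : WindowData M N ζ U CM CN) {A : L2 H →L[ℂ] L2 H} (hA : A ∈ CM) :
    WCom M U A :=
  ⟨fun y hy => hW.constM A hA y hy, fun r => hW.grp A hA r⟩

theorem EwC_conj (r s : ℝ) : (starRingEnd ℂ) (ee (-r) s) = ee r s := by
  unfold ee
  rw [← Complex.exp_conj]
  congr 1
  simp only [map_mul, Complex.conj_I, Complex.conj_ofReal, map_ofNat]
  push_cast
  ring

theorem EwC_inv (r s : ℝ) : ee (-r) s * ee r s = 1 := by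
  unfold ee
  rw [← Complex.exp_add]
  rw [show 2 * (Real.pi : ℂ) * Complex.I * ((-r : ℝ) : ℂ) * (s : ℂ) +
    2 * (Real.pi : ℂ) * Complex.I * (r : ℂ) * (s : ℂ) = 0 by push_cast; ring]
  exact Complex.exp_zero

theorem WCom.mul {A B : L2 H →L[ℂ] L2 H} (hA : WCom M U A) (hB : WCom M U B) :
    WCom M U (A * B) := by
  constructor
  · intro y hy
    rw [mul_assoc, hB.cst y hy, ← mul_assoc, hA.cst y hy, mul_assoc]
  · intro r
    rw [mul_assoc, hB.grp r, ← mul_assoc, hA.grp r, mul_assoc]

theorem WCom.star' (hU : IsModularGroup M ζ U) {A : L2 H →L[ℂ] L2 H} (hA : WCom M U A) :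
    WCom M U (star A) := by
  constructor
  · intro y hy
    have h1 := hA.cst (star y) (star_mem hy)
    have h2 := congrArg star h1
    rw [star_mul, star_mul, constOp_star, star_star] at h2
    exact h2.symm
  · intro r
    have h1 := hA.grp (-r)
    have h2 := congrArg star h1
    have h3 : star (constOp (U (-r)) * mulOp (ee (-r)) : L2 H →L[ℂ] L2 H) =
        constOp (U r) * mulOp (ee r) := by
      rw [star_mul, constOp_star, hU.star_eq, neg_neg, mulOp_star (BM_ee (-r))]
      have h4 : (fun s => (starRingEnd ℂ) (ee (-r) s)) = ee r := by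
        funext s
        exact EwC_conj r s
      rw [h4, mulOp_const (BM_ee r)]
    rw [star_mul A, star_mul _ A, h3] at h2
    exact h2.symm

theorem WCom.mulOp' {g : ℝ → ℂ} (hg : BM g) : WCom M U (mulOp g : L2 H →L[ℂ] L2 H) := by
  constructor
  · intro y _
    exact mulOp_const hg y
  · intro r
    rw [← mul_assoc, mulOp_const hg, mul_assoc, mulOp_comm hg (BM_ee r), mul_assoc]

theorem EwC_adj {f : ℝ → ℂ} (hf : MemLp f 2 (volume : Measure ℝ)) (B : H →L[ℂ] H) (F : L2 H) :
    ContinuousLinearMap.adjoint (tens f : H →L[ℂ] L2 H) (constOp B F) =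
      B (ContinuousLinearMap.adjoint (tens f : H →L[ℂ] L2 H) F) :=
  congrFun (congrArg DFunLike.coe (adj_tens_const hf B)) F

theorem EwC_tens {f : ℝ → ℂ} (hf : MemLp f 2 (volume : Measure ℝ)) (B : H →L[ℂ] H) (ξ : H) :
    constOp B (tens f ξ) = tens f (B ξ) :=
  congrFun (congrArg DFunLike.coe (const_tens hf B)) ξ

theorem slice_mem {A : L2 H →L[ℂ] L2 H} (hA : ∀ y ∈ M.commutant, A * constOp y = constOp y * A)
    {f g : ℝ → ℂ} (hf : MemLp f 2 (volume : Measure ℝ)) (hg : MemLp g 2 (volume : Measure ℝ)) :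
    slice A f g ∈ M := by
  rw [← M.commutant_commutant, VonNeumannAlgebra.mem_commutant_iff]
  intro y hy
  refine ContinuousLinearMap.ext fun ξ => ?_
  have h2 : ∀ F : L2 H, A (constOp y F) = constOp y (A F) := fun F =>
    congrFun (congrArg DFunLike.coe (hA y hy)) F
  show y (ContinuousLinearMap.adjoint (tens f : H →L[ℂ] L2 H) (A (tens g ξ))) =
    ContinuousLinearMap.adjoint (tens f : H →L[ℂ] L2 H) (A (tens g (y ξ)))
  rw [← EwC_adj hf, ← h2, EwC_tens hg]

theorem EwC_sig (hU : IsModularGroup M ζ U) {A : L2 H →L[ℂ] L2 H} (hA : WCom M U A) (r : ℝ) :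
    constOp (U r) * A * constOp (U (-r)) = mulOp (ee (-r)) * A * mulOp (ee r) := by
  have h1 : (mulOp (ee (-r)) : L2 H →L[ℂ] L2 H) * (constOp (U r) * mulOp (ee r)) =
      constOp (U r) := by
    rw [← mul_assoc, mulOp_const (BM_ee (-r)), mul_assoc, mulOp_mul (BM_ee (-r)) (BM_ee r)]
    have h4 : (fun s => ee (-r) s * ee r s) = fun _ => (1 : ℂ) := by
      funext s
      exact EwC_inv r s
    rw [h4, mulOp_one, mul_one]
  have h2 : constOp (U r) * constOp (U (-r)) = (1 : L2 H →L[ℂ] L2 H) := by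
    rw [← constOp_mul, ← hU.add, add_neg_cancel, hU.zero, constOp_one]
  calc constOp (U r) * A * constOp (U (-r))
      = mulOp (ee (-r)) * ((constOp (U r) * mulOp (ee r)) * A) * constOp (U (-r)) := by
        rw [← mul_assoc (mulOp (ee (-r))), h1]
    _ = mulOp (ee (-r)) * A * (constOp (U r) * (mulOp (ee r) * constOp (U (-r)))) := by
        rw [← hA.grp r]
        simp only [mul_assoc]
    _ = mulOp (ee (-r)) * A * mulOp (ee r) := by
        rw [mulOp_const (BM_ee r), ← mul_assoc (constOp (U r)), h2, one_mul]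

theorem slice_sigma (hU : IsModularGroup M ζ U) {A : L2 H →L[ℂ] L2 H} (hA : WCom M U A)
    {f g : ℝ → ℂ} (hf : MemLp f 2 (volume : Measure ℝ)) (hg : MemLp g 2 (volume : Measure ℝ))
    (r : ℝ) :
    U r * slice A f g * U (-r) = slice A (fun s => ee r s * f s) (fun s => ee r s * g s) := by
  refine ContinuousLinearMap.ext fun ξ => ?_
  show U r (ContinuousLinearMap.adjoint (tens f : H →L[ℂ] L2 H) (A (tens g (U (-r) ξ)))) =
    ContinuousLinearMap.adjoint (tens (fun s => ee r s * f s) : H →L[ℂ] L2 H)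
      (A (tens (fun s => ee r s * g s) ξ))
  rw [← EwC_adj hf, ← EwC_tens hg]
  have h1 : constOp (U r) (A (constOp (U (-r)) (tens g ξ))) =
      mulOp (ee (-r)) (A (mulOp (ee r) (tens g ξ))) :=
    congrFun (congrArg DFunLike.coe (EwC_sig hU hA r)) (tens g ξ)
  have h2 : mulOp (ee r) (tens g ξ : L2 H) = tens (fun s => ee r s * g s) ξ :=
    congrFun (congrArg DFunLike.coe (mul_tens hg (BM_ee r))) ξ
  have h3 : ∀ F : L2 H, ContinuousLinearMap.adjoint (tens f : H →L[ℂ] L2 H)
      (mulOp (ee (-r)) F) =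
      ContinuousLinearMap.adjoint (tens (fun s => ee r s * f s) : H →L[ℂ] L2 H) F := by
    intro F
    have h4 := congrFun (congrArg DFunLike.coe (adj_tens_mul (H := H) hf (BM_ee (-r)))) F
    have h5 : (fun s => (starRingEnd ℂ) (ee (-r) s) * f s) = fun s => ee r s * f s := by
      funext s
      rw [EwC_conj]
    rw [h5] at h4
    exact h4
  rw [h1, h2, h3]

theorem slice_star (A : L2 H →L[ℂ] L2 H) (f g : ℝ → ℂ) :
    star (slice A f g) = slice (star A) g f := by
  unfold slice
  rw [ContinuousLinearMap.star_eq_adjoint, ContinuousLinearMap.star_eq_adjoint,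
    ContinuousLinearMap.adjoint_comp, ContinuousLinearMap.adjoint_comp,
    ContinuousLinearMap.adjoint_adjoint]
  rfl

end H52BC
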