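import Pool.Agent.H52.BC.FmN
import Pool.Agent.H52.BC.EdM

/-!
Row FcC.  The relative commutant of a corner (general).

`A ⊆ B` star-closed double commutants on `K` with `A' ∩ B = ℂ`, `q ∈ A` a projection, `Z = star Z ∈ B`, `q Z = Z = Z q`, `Z` commutes with `q A q`.  Then `Z = c q`, `c` real.

Proof.  For real `a` let `T = Z - a q` (self-adjoint), `P = T⁺`, `Q = T⁻` (positive and negative part in the C*-algebra `K →L[ℂ] K`; Mathlib `CFC.posPart`, `T⁺`, `T⁻`, lemmas
`CFC.posPart_sub_negPart`, `CFC.posPart_mul_negPart`; an alternative is `|T| = CFC.abs T`, `P = (|T| + T)/2`, `Q = (|T| - T)/2`): `P, Q ≥ 0`, `P - Q = T`, `P Q = 0 = Q P`;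
every operator commuting with `T` commutes with `P` and `Q` (`Commute.cfcₙ_real`, ...; for the double commutant: elements of `B'` commute with `T ∈ B`), so `P, Q ∈ B'' = B` and `P, Q` commute with
`q A q` (elements of `q A q` commute with `Z` and `q`).  `(1-q) P = 0`: `P² = P T`, `(1-q) P² (1-q) = (1-q) P T (1-q) = 0` as `T (1-q) = 0`; so `P (1-q) = 0`; same for `Q`.
Let `p` be the projection onto the closed span of `{X P ξ : X ∈ A}`: `exists_span_proj` with `S = {X * P * W | X ∈ A, W}`: it commutes with every `T ∈ A` and every `T ∈ B'`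
(`T X P W = X T P W = X P (T W)`), so `p ∈ B'' = B` and `p ∈ A'`: `p = c • 1` and `p * p = p`, so `p = 0` or `p = 1`.
If `p = 0`: `P = p * P = 0` (`1 ∈ A`).  If `p = 1`: for `X ∈ A`: `Q * (X * P * W) = Q q X q P W = (q X q) Q P W = 0` (`Q = Q q`, `P = q P`), so `Q * p = 0` (last clause), `Q = 0`.
So for every real `a`: `Z - a q = -Q ≤ 0` or `Z - a q = P ≥ 0`.  So for `ξ, η` unit vectors in the range of `q`: `⟪ξ,Zξ⟫ < a < ⟪η,Zη⟫` is impossible, so `⟪ξ, Z ξ⟫ = c` (real) for all unit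
vectors `ξ = q ξ` (if `q = 0` take `c = 0`), so `⟪ξ, (Z - c q) ξ⟫ = ⟪qξ, (Z - c) qξ⟫ = 0` for all `ξ` and `Z = c q` (`inner_map_self_eq_zero`, `ext_inner_map`).
-/

open Filter Topology

noncomputable section

namespace H52BC

theorem FcC_split {K : Type*} [NormedAddCommGroup K] [InnerProductSpace ℂ K] [CompleteSpace K]
    (T : K →L[ℂ] K) (hT : star T = T) :
    ∃ P Q : K →L[ℂ] K, (∀ ξ, 0 ≤ (inner ℂ ξ (P ξ)).re) ∧ (∀ ξ, 0 ≤ (inner ℂ ξ (Q ξ)).re) ∧
      star P = P ∧ star Q = Q ∧ T = P - Q ∧ P * Q = 0 ∧ Q * P = 0 ∧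
      (∀ X : K →L[ℂ] K, X * T = T * X → X * P = P * X ∧ X * Q = Q * X) := by
  have hsa : IsSelfAdjoint T := hT
  have hP : (0 : K →L[ℂ] K) ≤ T⁺ := CFC.posPart_nonneg T
  have hQ : (0 : K →L[ℂ] K) ≤ T⁻ := CFC.negPart_nonneg T
  have key : ∀ R : K →L[ℂ] K, 0 ≤ R → ∀ ξ, 0 ≤ (inner ℂ ξ (R ξ)).re := by
    intro R hR ξ
    rw [ContinuousLinearMap.nonneg_iff_isPositive] at hR
    have := hR.re_inner_nonneg_right ξ
    simpa using this
  refine ⟨T⁺, T⁻, key _ hP, key _ hQ, ?_, ?_, (CFC.posPart_sub_negPart T hsa).symm,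
    CFC.posPart_mul_negPart T, CFC.negPart_mul_posPart T, ?_⟩
  · exact (IsSelfAdjoint.of_nonneg hP).star_eq
  · exact (IsSelfAdjoint.of_nonneg hQ).star_eq
  · intro X hX
    have hc : Commute T X := hX.symm
    constructor
    · have := hc.cfcₙ_real (fun x : ℝ => x⁺)
      exact this.eq.symm
    · have := hc.cfcₙ_real (fun x : ℝ => x⁻)
      exact this.eq.symm

theorem FcC_zero_of_sq {K : Type*} [NormedAddCommGroup K] [InnerProductSpace ℂ K]
    [CompleteSpace K] (R : K →L[ℂ] K) (h : star R * R = 0) : R = 0 :=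
  CStarRing.star_mul_self_eq_zero_iff R |>.mp h

theorem FcC_dich {K : Type*} [NormedAddCommGroup K] [InnerProductSpace ℂ K] [CompleteSpace K]
    (A B : Set (K →L[ℂ] K)) (hA : Set.centralizer (Set.centralizer A) = A)
    (hB : Set.centralizer (Set.centralizer B) = B)
    (hAs : ∀ X ∈ A, star X ∈ A) (hBs : ∀ X ∈ B, star X ∈ B) (hAB : A ⊆ B)
    (hirr : ∀ Z ∈ B, (∀ Y ∈ A, Y * Z = Z * Y) → ∃ c : ℂ, Z = c • (1 : K →L[ℂ] K))
    (q : K →L[ℂ] K) (hq : q ∈ A) (hqs : star q = q) (hqq : q * q = q)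
    (Z : K →L[ℂ] K) (hZB : Z ∈ B) (hZs : star Z = Z) (hZ1 : q * Z = Z) (hZ2 : Z * q = Z)
    (hZ : ∀ X ∈ A, q * X = X → X * q = X → X * Z = Z * X) (a : ℝ) :
    (∀ ξ, (inner ℂ ξ ((Z - (a : ℂ) • q) ξ)).re ≤ 0) ∨
      (∀ ξ, 0 ≤ (inner ℂ ξ ((Z - (a : ℂ) • q) ξ)).re) := by
  obtain ⟨hA1, hAm, -, hAc, hAsub, -⟩ := dc_closed A hA
  obtain ⟨hB1, hBm, -, hBc, hBsub, -⟩ := dc_closed B hB
  set T : K →L[ℂ] K := Z - (a : ℂ) • q with hTdef
  have hTs : star T = T := by
    rw [hTdef, star_sub, star_smul, hqs, hZs]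
    simp
  have hTB : T ∈ B := hBsub _ hZB _ (hBc _ _ (hAB hq))
  have hTq : T * q = T := by
    rw [hTdef, sub_mul, hZ2, smul_mul_assoc, hqq]
  have hqT : q * T = T := by
    rw [hTdef, mul_sub, hZ1, mul_smul_comm, hqq]
  obtain ⟨P, Q, hP0, hQ0, hPs, hQs, hTPQ, hPQ, hQP, hcomm⟩ := FcC_split T hTs
  have hPB : P ∈ B := by
    rw [← hB]
    intro Y hY
    have h1 : Y * T = T * Y := (hY T hTB).symm
    exact (hcomm Y h1).1
  have hQB : Q ∈ B := by
    rw [← hB]
    intro Y hY
    have h1 : Y * T = T * Y := (hY T hTB).symm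
    exact (hcomm Y h1).2
  have hTP : T * P = P * P := by rw [hTPQ, sub_mul, hQP, sub_zero]
  have hPT : P * T = P * P := by rw [hTPQ, mul_sub, hPQ, sub_zero]
  have hTQ : T * Q = -(Q * Q) := by rw [hTPQ, sub_mul, hPQ, zero_sub]
  have hQT : Q * T = -(Q * Q) := by rw [hTPQ, mul_sub, hQP, zero_sub]
  have hT1q : T * (1 - q) = 0 := by rw [mul_sub, mul_one, hTq, sub_self]
  have hP1q : P * (1 - q) = 0 := by
    apply FcC_zero_of_sq
    rw [star_mul, star_sub, star_one, hqs, hPs]
    calc (1 - q) * P * (P * (1 - q)) = (1 - q) * (P * P) * (1 - q) := by noncomm_ring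
      _ = (1 - q) * (P * T) * (1 - q) := by rw [hPT]
      _ = (1 - q) * P * (T * (1 - q)) := by noncomm_ring
      _ = 0 := by rw [hT1q, mul_zero]
  have hQ1q : Q * (1 - q) = 0 := by
    apply FcC_zero_of_sq
    rw [star_mul, star_sub, star_one, hqs, hQs]
    calc (1 - q) * Q * (Q * (1 - q)) = (1 - q) * (Q * Q) * (1 - q) := by noncomm_ring
      _ = (1 - q) * (-(Q * T)) * (1 - q) := by rw [hQT, neg_neg]
      _ = -((1 - q) * Q * (T * (1 - q))) := by noncomm_ring
      _ = 0 := by rw [hT1q, mul_zero, neg_zero]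
  have hPq : P * q = P := by
    have : P - P * q = 0 := by rw [← hP1q]; noncomm_ring
    exact (sub_eq_zero.mp this).symm
  have hQq : Q * q = Q := by
    have : Q - Q * q = 0 := by rw [← hQ1q]; noncomm_ring
    exact (sub_eq_zero.mp this).symm
  have hqP : q * P = P := by
    have := congrArg star hPq
    rwa [star_mul, hPs, hqs] at this
  have hqQ : q * Q = Q := by
    have := congrArg star hQq
    rwa [star_mul, hQs, hqs] at this
  have hcorner : ∀ X ∈ A, Q * (q * X * q) = (q * X * q) * Q := by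
    intro X hX
    have hm : q * X * q ∈ A := hAm _ (hAm _ hq _ hX) _ hq
    have h1 : q * (q * X * q) = q * X * q := by
      rw [← mul_assoc, ← mul_assoc, hqq]
    have h2 : (q * X * q) * q = q * X * q := by
      rw [mul_assoc, hqq]
    have h3 := hZ _ hm h1 h2
    have h4 : (q * X * q) * T = T * (q * X * q) := by
      rw [hTdef, mul_sub, sub_mul, h3, mul_smul_comm, smul_mul_assoc, h1, h2]
    exact (hcomm _ h4).2.symm
  let S : Set (K →L[ℂ] K) := {R | ∃ X ∈ A, ∃ W : K →L[ℂ] K, R = X * P * W}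
  obtain ⟨p, hps, hpp, hpS, hpcomm, hpzero⟩ := exists_span_proj S
  have hstarcen : ∀ Y ∈ Set.centralizer B, star Y ∈ Set.centralizer B := by
    intro Y hY X hX
    have h1 := hY (star X) (hBs X hX)
    have h2 := congrArg star h1
    rw [star_mul, star_mul, star_star] at h2
    exact h2.symm
  have hpA : ∀ Y ∈ A, Y * p = p * Y := by
    intro Y hY
    apply hpcomm
    rintro R ⟨X, hX, W, rfl⟩
    exact ⟨⟨Y * X, hAm _ hY _ hX, W, by noncomm_ring⟩,
      ⟨star Y * X, hAm _ (hAs _ hY) _ hX, W, by noncomm_ring⟩⟩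
  have hSB : ∀ Y ∈ Set.centralizer B, ∀ R ∈ S, Y * R ∈ S := by
    rintro Y hY R ⟨X, hX, W, rfl⟩
    refine ⟨X, hX, Y * W, ?_⟩
    have h1 : X * Y = Y * X := hY X (hAB hX)
    have h2 : P * Y = Y * P := hY P hPB
    calc Y * (X * P * W) = (Y * X) * P * W := by noncomm_ring
      _ = X * Y * P * W := by rw [h1]
      _ = X * (Y * P) * W := by noncomm_ring
      _ = X * (P * Y) * W := by rw [h2]
      _ = X * P * (Y * W) := by noncomm_ring
  have hpB : p ∈ B := by
    rw [← hB]
    intro Y hY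
    apply hpcomm
    intro R hR
    exact ⟨hSB Y hY R hR, hSB _ (hstarcen Y hY) R hR⟩
  obtain ⟨c, hc⟩ := hirr p hpB hpA
  have hPin : P ∈ S := ⟨1, hA1, 1, by simp⟩
  have hpP : p * P = P := hpS P hPin
  by_cases hP : P = 0
  · left
    intro ξ
    rw [hTPQ, hP, zero_sub]
    simp only [neg_apply, inner_neg_right, Complex.neg_re]
    linarith [hQ0 ξ]
  · right
    have hc1 : c = 1 := by
      rw [hc] at hpP
      rw [smul_mul_assoc, one_mul] at hpP
      have h1 : (c - 1) • P = 0 := by rw [sub_smul, one_smul, hpP, sub_self]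
      rcases smul_eq_zero.mp h1 with h2 | h2
      · exact sub_eq_zero.mp h2
      · exact absurd h2 hP
    have hp1 : p = 1 := by rw [hc, hc1, one_smul]
    have hQp : Q * p = 0 := by
      apply hpzero
      rintro R ⟨X, hX, W, rfl⟩
      calc Q * (X * P * W) = (Q * q) * X * (q * P) * W := by
            rw [hQq, hqP]; noncomm_ring
        _ = (Q * (q * X * q)) * P * W := by noncomm_ring
        _ = ((q * X * q) * Q) * P * W := by rw [hcorner X hX]
        _ = (q * X * q) * (Q * P) * W := by noncomm_ring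
        _ = 0 := by rw [hQP]; simp
    have hQz : Q = 0 := by rw [hp1, mul_one] at hQp; exact hQp
    intro ξ
    rw [hTPQ, hQz, sub_zero]
    exact hP0 ξ

theorem corner_scalar {K : Type*} [NormedAddCommGroup K] [InnerProductSpace ℂ K] [CompleteSpace K]
    (A B : Set (K →L[ℂ] K)) (hA : Set.centralizer (Set.centralizer A) = A)
    (hB : Set.centralizer (Set.centralizer B) = B)
    (hAs : ∀ X ∈ A, star X ∈ A) (hBs : ∀ X ∈ B, star X ∈ B) (hAB : A ⊆ B)
    (hirr : ∀ Z ∈ B, (∀ Y ∈ A, Y * Z = Z * Y) → ∃ c : ℂ, Z = c • (1 : K →L[ℂ] K))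
    (q : K →L[ℂ] K) (hq : q ∈ A) (hqs : star q = q) (hqq : q * q = q)
    (Z : K →L[ℂ] K) (hZB : Z ∈ B) (hZs : star Z = Z) (hZ1 : q * Z = Z) (hZ2 : Z * q = Z)
    (hZ : ∀ X ∈ A, q * X = X → X * q = X → X * Z = Z * X) :
    ∃ c : ℝ, Z = (c : ℂ) • q := by
  have hd := FcC_dich A B hA hB hAs hBs hAB hirr q hq hqs hqq Z hZB hZs hZ1 hZ2 hZ
  have hsm : ∀ (a : ℝ) (ξ : K), q ξ = ξ →
      (inner ℂ ξ ((Z - (a : ℂ) • q) ξ)).re = (inner ℂ ξ (Z ξ)).re - a * ‖ξ‖ ^ 2 := by
    intro a ξ hξ
    have h1 : (Z - (a : ℂ) • q) ξ = Z ξ - (a : ℂ) • ξ := by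
      simp [hξ]
    rw [h1, inner_sub_right, inner_smul_right, inner_self_eq_norm_sq_to_K]
    have h2 : ((a : ℂ) * ((‖ξ‖ : ℝ) : ℂ) ^ 2) = ((a * ‖ξ‖ ^ 2 : ℝ) : ℂ) := by push_cast; ring
    rw [Complex.sub_re]
    congr 1
    have h3 := congrArg Complex.re h2
    rw [Complex.ofReal_re] at h3
    exact h3
  by_cases hex : ∃ ξ0 : K, q ξ0 = ξ0 ∧ ξ0 ≠ 0
  · obtain ⟨ξ0, hξ0, hne⟩ := hex
    have hn0 : 0 < ‖ξ0‖ ^ 2 := by
      have := norm_pos_iff.mpr hne
      positivity
    refine ⟨(inner ℂ ξ0 (Z ξ0)).re / ‖ξ0‖ ^ 2, ?_⟩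
    set c : ℝ := (inner ℂ ξ0 (Z ξ0)).re / ‖ξ0‖ ^ 2 with hcdef
    have hf0 : (inner ℂ ξ0 (Z ξ0)).re = c * ‖ξ0‖ ^ 2 := by
      rw [hcdef]; field_simp
    have hall : ∀ η : K, q η = η → (inner ℂ η (Z η)).re = c * ‖η‖ ^ 2 := by
      intro η hη
      by_cases h0 : η = 0
      · simp [h0]
      have hn : 0 < ‖η‖ ^ 2 := by
        have := norm_pos_iff.mpr h0
        positivity
      set d : ℝ := (inner ℂ η (Z η)).re / ‖η‖ ^ 2 with hddef
      have hf1 : (inner ℂ η (Z η)).re = d * ‖η‖ ^ 2 := by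
        rw [hddef]; field_simp
      rw [hf1]
      have hcd : d = c := by
        rcases lt_trichotomy d c with h | h | h
        · exfalso
          rcases hd ((c + d) / 2) with h1 | h1
          · have h2 := h1 ξ0
            rw [hsm _ _ hξ0, hf0] at h2
            nlinarith
          · have h2 := h1 η
            rw [hsm _ _ hη, hf1] at h2
            nlinarith
        · exact h
        · exfalso
          rcases hd ((c + d) / 2) with h1 | h1
          · have h2 := h1 η
            rw [hsm _ _ hη, hf1] at h2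
            nlinarith
          · have h2 := h1 ξ0
            rw [hsm _ _ hξ0, hf0] at h2
            nlinarith
      rw [hcd]
    have hqa : ∀ x y : K, inner ℂ (q x) y = inner ℂ x (q y) := by
      intro x y
      have := ContinuousLinearMap.adjoint_inner_left q y x
      rw [← ContinuousLinearMap.star_eq_adjoint, hqs] at this
      exact this
    have hqap : ∀ x : K, q (q x) = q x := by
      intro x
      have := congrArg (fun f : K →L[ℂ] K => f x) hqq
      simpa using this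
    have hZq : ∀ x : K, Z x = q (Z (q x)) := by
      intro x
      have h1 := congrArg (fun f : K →L[ℂ] K => f x) hZ2
      have h2 := congrArg (fun f : K →L[ℂ] K => f (q x)) hZ1
      simp only [ContinuousLinearMap.mul_apply] at h1 h2
      rw [h2, h1]
    have hZa : ∀ x y : K, inner ℂ (Z x) y = inner ℂ x (Z y) := by
      intro x y
      have := ContinuousLinearMap.adjoint_inner_left Z y x
      rw [← ContinuousLinearMap.star_eq_adjoint, hZs] at this
      exact this
    have hzero : ∀ x : K, inner ℂ ((Z - (c : ℂ) • q) x) x = 0 := by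
      intro x
      have hre : (inner ℂ x ((Z - (c : ℂ) • q) x)).re = 0 := by
        have h1 : inner ℂ x ((Z - (c : ℂ) • q) x)
            = inner ℂ (q x) ((Z - (c : ℂ) • q) (q x)) := by
          rw [hqa]
          congr 1
          simp only [ContinuousLinearMap.sub_apply, ContinuousLinearMap.smul_apply, map_sub,
            map_smul, hqap]
          rw [← hZq]
        rw [h1, hsm _ _ (hqap x), hall _ (hqap x), sub_self]
      have him : (inner ℂ x ((Z - (c : ℂ) • q) x)).im = 0 := by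
        have h1 : inner ℂ ((Z - (c : ℂ) • q) x) x = inner ℂ x ((Z - (c : ℂ) • q) x) := by
          simp only [ContinuousLinearMap.sub_apply, ContinuousLinearMap.smul_apply,
            inner_sub_left, inner_sub_right, inner_smul_left, inner_smul_right, hZa, hqa]
          simp
        have h2 : (starRingEnd ℂ) (inner ℂ x ((Z - (c : ℂ) • q) x))
            = inner ℂ x ((Z - (c : ℂ) • q) x) := by
          rw [inner_conj_symm, h1]
        exact Complex.conj_eq_iff_im.mp h2
      have h3 : inner ℂ x ((Z - (c : ℂ) • q) x) = 0 := Complex.ext hre him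
      rw [← inner_conj_symm, h3, map_zero]
    have h4 : (Z - (c : ℂ) • q) = 0 := by
      have h5 : ((Z - (c : ℂ) • q : K →L[ℂ] K) : K →ₗ[ℂ] K) = 0 := by
        rw [← inner_map_self_eq_zero]
        exact hzero
      ext x
      have := congrArg (fun f : K →ₗ[ℂ] K => f x) h5
      simpa using this
    exact sub_eq_zero.mp h4
  · push Not at hex
    refine ⟨0, ?_⟩
    have hq0 : q = 0 := by
      ext x
      have h1 : q (q x) = q x := by
        have := congrArg (fun f : K →L[ℂ] K => f x) hqq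
        simpa using this
      simpa using hex (q x) h1
    rw [← hZ1, hq0]
    simp

end H52BC
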