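import Mathlib

/-!
Row WkA.  Small unitaries `exp(i K / 2)` on a Hilbert space.

`K` bounded self-adjoint, `‖K‖ ≤ 2`, `W = exp((i/2) • K)`.
* `W` unitary: `star (exp a) = exp (star a)`, `star ((i/2) K) = -(i/2) K` (or `selfAdjoint.expUnitary`).
* `‖W ξ - ξ‖ ≤ ‖K ξ‖/2` and `‖W ξ - ξ‖ ≥ ‖K ξ‖/4`.
  Proof by the differential equation: `w(t) = exp(t (i/2) K) ξ - ξ`, `w'(t) = exp(t (i/2) K) ((i/2) K ξ)` has norm `‖K ξ‖/2`; mean value inequality
  (`norm_image_sub_le_of_norm_deriv_le_segment'`/`Convex.norm_image_sub_le...`) gives `‖w(1)‖ ≤ ‖K ξ‖/2`.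
  Apply this to the vector `K ξ`: `‖exp(t (i/2) K) K ξ - K ξ‖ ≤ t ‖K² ξ‖/2 ≤ t ‖K ξ‖` (`‖K² ξ‖ ≤ 2 ‖K ξ‖`), so for `v(t) = exp(t (i/2)K) ξ - ξ - t (i/2) K ξ`:
  `‖v'(t)‖ = ½ ‖exp(t..) K ξ - K ξ‖ ≤ t ‖K ξ‖ / 2`, hence `‖v(1)‖ ≤ ‖K ξ‖/4` (mean value inequality with the bound function `t² ‖K ξ‖/4`:
  `image_norm_le_of_norm_deriv_right_le_deriv_boundary`), and `‖W ξ - ξ‖ ≥ ‖K ξ‖/2 - ‖K ξ‖/4`.
-/

noncomputable section

namespace H52BC

variable {H : Type*} [NormedAddCommGroup H] [InnerProductSpace ℂ H] [CompleteSpace H]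

theorem exp_unitary (K : H →L[ℂ] H) (hK : star K = K) (c : ℝ) :
    star (NormedSpace.exp ((Complex.I * c) • K)) * NormedSpace.exp ((Complex.I * c) • K) = 1 ∧
      NormedSpace.exp ((Complex.I * c) • K) * star (NormedSpace.exp ((Complex.I * c) • K)) = 1 ∧
      star (NormedSpace.exp ((Complex.I * c) • K)) = NormedSpace.exp ((Complex.I * (-c : ℝ)) • K) := by
  let _ : NormedAlgebra ℚ (H →L[ℂ] H) := NormedAlgebra.restrictScalars ℚ ℝ (H →L[ℂ] H)
  have h1 : star (NormedSpace.exp ((Complex.I * c) • K)) =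
      NormedSpace.exp ((Complex.I * (-c : ℝ)) • K) := by
    rw [NormedSpace.star_exp, star_smul, hK]
    congr 2
    simp
  have h2 : (Complex.I * (-c : ℝ)) • K + (Complex.I * c) • K = 0 := by
    rw [← add_smul]
    have : Complex.I * ((-c : ℝ) : ℂ) + Complex.I * c = 0 := by
      push_cast
      ring
    rw [this, zero_smul]
  have hc : Commute ((Complex.I * (-c : ℝ)) • K) ((Complex.I * c) • K) :=
    ((Commute.refl K).smul_left _).smul_right _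
  refine ⟨?_, ?_, h1⟩
  · rw [h1, ← NormedSpace.exp_add_of_commute hc, h2, NormedSpace.exp_zero]
  · rw [h1, ← NormedSpace.exp_add_of_commute hc.symm, add_comm, h2, NormedSpace.exp_zero]

/-- the one-parameter group preserves the norm -/
theorem WkA_norm (K : H →L[ℂ] H) (hK : star K = K) (c : ℝ) (η : H) :
    ‖NormedSpace.exp ((Complex.I * c) • K) η‖ = ‖η‖ := by
  obtain ⟨h1, h2, -⟩ := exp_unitary K hK c
  exact Unitary.norm_map (⟨NormedSpace.exp ((Complex.I * c) • K),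
    (Unitary.mem_iff).2 ⟨h1, h2⟩⟩ : unitary (H →L[ℂ] H)) η

omit [CompleteSpace H] in
theorem WkA_smul (K : H →L[ℂ] H) (t : ℝ) :
    t • ((Complex.I * (1 / 2 : ℝ)) • K) = (Complex.I * (t / 2 : ℝ)) • K := by
  rw [← Complex.coe_smul, smul_smul]
  congr 1
  push_cast
  ring

theorem WkA_deriv (K : H →L[ℂ] H) (ξ : H) (t : ℝ) :
    HasDerivAt (fun t : ℝ => NormedSpace.exp (t • ((Complex.I * (1 / 2 : ℝ)) • K)) ξ)
      (NormedSpace.exp (t • ((Complex.I * (1 / 2 : ℝ)) • K)) (((Complex.I * (1 / 2 : ℝ)) • K) ξ)) t := by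
  have h := hasDerivAt_exp_smul_const (𝕂 := ℝ) ((Complex.I * (1 / 2 : ℝ)) • K) t
  have h2 := ((ContinuousLinearMap.apply ℂ H ξ).restrictScalars ℝ).hasFDerivAt.comp_hasDerivAt t h
  exact h2

/-- upper bound for all times -/
theorem WkA_upper (K : H →L[ℂ] H) (hK : star K = K) (ξ : H) (t : ℝ) (ht : 0 ≤ t) :
    ‖NormedSpace.exp (t • ((Complex.I * (1 / 2 : ℝ)) • K)) ξ - ξ‖ ≤ t * (‖K ξ‖ / 2) := by
  have hd : ∀ x ∈ Set.Icc (0 : ℝ) t, HasDerivWithinAt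
      (fun t : ℝ => NormedSpace.exp (t • ((Complex.I * (1 / 2 : ℝ)) • K)) ξ)
      (NormedSpace.exp (x • ((Complex.I * (1 / 2 : ℝ)) • K)) (((Complex.I * (1 / 2 : ℝ)) • K) ξ))
      (Set.Icc 0 t) x := fun x _ => (WkA_deriv K ξ x).hasDerivWithinAt
  have hb : ∀ x ∈ Set.Ico (0 : ℝ) t,
      ‖NormedSpace.exp (x • ((Complex.I * (1 / 2 : ℝ)) • K)) (((Complex.I * (1 / 2 : ℝ)) • K) ξ)‖ ≤
        ‖K ξ‖ / 2 := by
    intro x _
    rw [WkA_smul K x, WkA_norm K hK, ContinuousLinearMap.smul_apply, norm_smul]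
    refine le_of_eq ?_
    rw [norm_mul, Complex.norm_I, Complex.norm_real, one_mul]
    norm_num
    ring
  have h := norm_image_sub_le_of_norm_deriv_le_segment' hd hb t (Set.right_mem_Icc.2 ht)
  rw [zero_smul, NormedSpace.exp_zero, ContinuousLinearMap.one_apply, sub_zero] at h
  linarith

theorem exp_upper (K : H →L[ℂ] H) (hK : star K = K) (ξ : H) :
    ‖NormedSpace.exp ((Complex.I * (1 / 2 : ℝ)) • K) ξ - ξ‖ ≤ ‖K ξ‖ / 2 := by
  have h := WkA_upper K hK ξ 1 zero_le_one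
  rwa [one_smul, one_mul] at h

theorem exp_lower (K : H →L[ℂ] H) (hK : star K = K) (hn : ∀ ξ, ‖K ξ‖ ≤ 2 * ‖ξ‖) (ξ : H) :
    ‖K ξ‖ / 4 ≤ ‖NormedSpace.exp ((Complex.I * (1 / 2 : ℝ)) • K) ξ - ξ‖ := by
  set A : H →L[ℂ] H := (Complex.I * (1 / 2 : ℝ)) • K with hA
  set v : ℝ → H := fun t => NormedSpace.exp (t • A) ξ - ξ - t • A ξ with hv
  have hAn : ∀ η, ‖A η‖ = ‖K η‖ / 2 := by
    intro η
    rw [hA, ContinuousLinearMap.smul_apply, norm_smul, norm_mul, Complex.norm_I, Complex.norm_real,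
      one_mul]
    norm_num
    ring
  have hd : ∀ t : ℝ, HasDerivAt v (NormedSpace.exp (t • A) (A ξ) - A ξ) t := by
    intro t
    have h1 := (WkA_deriv K ξ t).sub_const ξ
    have h2 := (hasDerivAt_id t).smul_const (A ξ)
    have h3 := h1.sub h2
    rw [one_smul] at h3
    exact h3
  have hb : ∀ t ∈ Set.Ico (0 : ℝ) 1, ‖NormedSpace.exp (t • A) (A ξ) - A ξ‖ ≤ t * (‖K ξ‖ / 2) := by
    intro t ht
    have h1 := WkA_upper K hK (A ξ) t ht.1
    have h2 : ‖K (A ξ)‖ ≤ ‖K ξ‖ := by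
      have := hn (A ξ)
      rw [hAn] at this
      linarith
    refine h1.trans (mul_le_mul_of_nonneg_left ?_ ht.1)
    linarith
  have hB : ∀ t : ℝ, HasDerivAt (fun t : ℝ => t ^ 2 * (‖K ξ‖ / 4)) (t * (‖K ξ‖ / 2)) t := by
    intro t
    have h1 := (hasDerivAt_pow 2 t).mul_const (‖K ξ‖ / 4)
    have h2 : t * (‖K ξ‖ / 2) = ((2 : ℕ) : ℝ) * t ^ (2 - 1) * (‖K ξ‖ / 4) := by
      rw [show (2 - 1 : ℕ) = 1 from rfl, pow_one]
      push_cast
      ring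
    rw [h2]
    exact h1
  have h := image_norm_le_of_norm_deriv_right_le_deriv_boundary (f := v) (a := 0) (b := 1)
    (fun t _ => (hd t).continuousAt.continuousWithinAt) (fun t _ => (hd t).hasDerivWithinAt)
    (B := fun t : ℝ => t ^ 2 * (‖K ξ‖ / 4)) (by
      simp only [hv, zero_smul, NormedSpace.exp_zero, ContinuousLinearMap.one_apply, sub_self, norm_zero]
      positivity) hB hb (Set.right_mem_Icc.2 zero_le_one)
  simp only [hv, one_smul, one_pow, one_mul] at h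
  have h2 : ‖A ξ‖ ≤ ‖NormedSpace.exp A ξ - ξ‖ + ‖NormedSpace.exp A ξ - ξ - A ξ‖ := by
    have := norm_sub_le (NormedSpace.exp A ξ - ξ) (NormedSpace.exp A ξ - ξ - A ξ)
    rwa [sub_sub_cancel] at this
  rw [hAn] at h2
  linarith

end H52BC
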