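import Pool.Agent.H52.BC.FmN
import Pool.Agent.H52.BC.WkA

/-!
Row FuC.  Commuting with the unitaries of a corner implies commuting with the corner (general).

`A` a star-closed double commutant, `q ∈ A` a projection.  For `B ∈ A` with `star B = B`, `q B = B = B q` and real `τ`: `Y_τ = q * exp((i τ) • B)`; `exp` commutes with `q`
(`q` commutes with `B`), so `Y_τ ∈ A` (`dc_closed`), `q Y_τ = Y_τ = Y_τ q`, `star Y_τ Y_τ = exp(-iτB) q exp(iτB) = q` (`exp_unitary`), same for `Y_τ star Y_τ`.  By hypothesis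
`Y_τ Z = Z Y_τ` for all `τ`; differentiate at `τ = 0` (`hasDerivAt_exp_smul_const`, or: the difference quotient): `q (i B) Z = Z q (i B)`, i.e. `B Z = Z B`.
General `B = q B q ∈ A`: `B = B₁ + i B₂`, `B₁ = (B + B*)/2`, `B₂ = (B - B*)/(2i)`.
-/

open Filter Topology

noncomputable section

namespace H52BC

private theorem fuc_sa {K : Type*} [NormedAddCommGroup K] [InnerProductSpace ℂ K]
    [CompleteSpace K]
    (A : Set (K →L[ℂ] K)) (hA : Set.centralizer (Set.centralizer A) = A)
    (q : K →L[ℂ] K) (hq : q ∈ A) (hqs : star q = q)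
    (hqq : q * q = q) (Z : K →L[ℂ] K)
    (hZ : ∀ Y ∈ A, q * Y = Y → Y * q = Y → star Y * Y = q → Y * star Y = q → Y * Z = Z * Y)
    (B : K →L[ℂ] K) (hB : B ∈ A) (hBs : star B = B) (hqB : q * B = B) (hBq : B * q = B) :
    B * Z = Z * B := by
  obtain ⟨-, hmul, -, -, -, hexp⟩ := dc_closed A hA
  have hcomm : Commute q B := by
    show q * B = B * q
    rw [hqB, hBq]
  have hτ : ∀ τ : ℝ, (q * NormedSpace.exp (τ • (Complex.I • B))) * Z =
      Z * (q * NormedSpace.exp (τ • (Complex.I • B))) := by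
    intro τ
    have hsm : τ • (Complex.I • B) = (Complex.I * τ) • B := by
      rw [← Complex.coe_smul, smul_smul, mul_comm]
    rw [hsm]
    obtain ⟨e1, e2, -⟩ := exp_unitary B hBs τ
    set E := NormedSpace.exp ((Complex.I * τ) • B) with hE
    have hqE : q * E = E * q := ((hcomm.smul_right (Complex.I * (τ : ℂ))).exp_right).eq
    have hEA : E ∈ A := hexp _ B hB
    refine hZ (q * E) (hmul q hq E hEA) ?_ ?_ ?_ ?_
    · rw [← mul_assoc, hqq]
    · rw [mul_assoc, ← hqE, ← mul_assoc, hqq]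
    · rw [star_mul, hqs, mul_assoc, ← mul_assoc q q E, hqq, hqE, ← mul_assoc, e1, one_mul]
    · rw [star_mul, hqs, mul_assoc, ← mul_assoc E (star E) q, e2, one_mul, hqq]
  have h1 : HasDerivAt (fun τ : ℝ => NormedSpace.exp (τ • (Complex.I • B)))
      (NormedSpace.exp ((0 : ℝ) • (Complex.I • B)) * (Complex.I • B)) 0 :=
    hasDerivAt_exp_smul_const (Complex.I • B) (0 : ℝ)
  rw [zero_smul, NormedSpace.exp_zero, one_mul] at h1
  have h2 := h1.const_mul q
  have h3 := h2.mul_const Z
  have h4 := h2.const_mul Z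
  have h5 : (fun τ : ℝ => (q * NormedSpace.exp (τ • (Complex.I • B))) * Z) =
      fun τ : ℝ => Z * (q * NormedSpace.exp (τ • (Complex.I • B))) := funext hτ
  rw [h5] at h3
  have h6 := h3.unique h4
  rw [mul_smul_comm, hqB, smul_mul_assoc, mul_smul_comm] at h6
  exact smul_right_injective _ Complex.I_ne_zero h6

theorem corner_comm {K : Type*} [NormedAddCommGroup K] [InnerProductSpace ℂ K] [CompleteSpace K]
    (A : Set (K →L[ℂ] K)) (hA : Set.centralizer (Set.centralizer A) = A)
    (hAs : ∀ B ∈ A, star B ∈ A) (q : K →L[ℂ] K) (hq : q ∈ A) (hqs : star q = q)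
    (hqq : q * q = q) (Z : K →L[ℂ] K) (hZ1 : q * Z = Z) (hZ2 : Z * q = Z)
    (hZ : ∀ Y ∈ A, q * Y = Y → Y * q = Y → star Y * Y = q → Y * star Y = q → Y * Z = Z * Y) :
    ∀ B ∈ A, q * B = B → B * q = B → B * Z = Z * B := by
  intro B hB hqB hBq
  obtain ⟨-, -, hadd, hsmul, hsub, -⟩ := dc_closed A hA
  have hsA := hAs B hB
  have hs1 : q * star B = star B := by
    have := congrArg star hBq
    rwa [star_mul, hqs] at this
  have hs2 : star B * q = star B := by
    have := congrArg star hqB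
    rwa [star_mul, hqs] at this
  have h1 := fuc_sa A hA q hq hqs hqq Z hZ ((1 / 2 : ℂ) • (B + star B))
    (hsmul _ _ (hadd _ hB _ hsA))
    (by
      rw [star_smul, star_add, star_star, add_comm]
      congr 1
      simp)
    (by rw [mul_smul_comm, mul_add, hqB, hs1])
    (by rw [smul_mul_assoc, add_mul, hBq, hs2])
  have h2 := fuc_sa A hA q hq hqs hqq Z hZ ((-(Complex.I / 2) : ℂ) • (B - star B))
    (hsmul _ _ (hsub _ hB _ hsA))
    (by
      rw [star_smul, star_sub, star_star, ← neg_sub B (star B), smul_neg, ← neg_smul]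
      congr 1
      simp [neg_div])
    (by rw [mul_smul_comm, mul_sub, hqB, hs1])
    (by rw [smul_mul_assoc, sub_mul, hBq, hs2])
  have hdec : B = (1 / 2 : ℂ) • (B + star B) + Complex.I • ((-(Complex.I / 2) : ℂ) • (B - star B)) := by
    rw [smul_smul]
    have : Complex.I * (-(Complex.I / 2)) = 1 / 2 := by
      linear_combination (-(1 / 2 : ℂ)) * Complex.I_mul_I
    rw [this, ← smul_add, add_add_sub_cancel, ← two_smul ℂ B, smul_smul]
    norm_num
  rw [hdec, add_mul, mul_add, h1, smul_mul_assoc Complex.I, mul_smul_comm Complex.I, h2]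

end H52BC
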