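import Pool.Agent.H52.BC.FzE
import Pool.Agent.H52.BC.FuC
import Pool.Agent.H52.BC.FcC

/-!
Row FcL.  The CLAIM of section 2.

`X = constOp x ∈ CM` (`hW.fixd`), `star X = X` (`constOp_star`), `X q = q X` (`mulOp_const`).  `exists_Z`, `corner_comm` (with `A = CN`), `corner_scalar` (`A = CN`, `B = CM`): `Z = c q`.
`q Ω = Ω` (`win_wp`), so `Z Ω = c Ω` and `‖c Ω - X Ω‖ ≤ ε`; `X Ω = mulOp (wp d) (tens (gk d 0) (x ζ))` (`mulOp_const`, `const_tens`), so `c Ω - X Ω = mulOp (wp d) (tens (gk d 0) (c ζ - x ζ))`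
and `wp_tens_lower` gives `‖c ζ - x ζ‖ ≤ ε`.
-/

open MeasureTheory Filter Topology

noncomputable section

namespace H52BC

variable {H : Type*} [NormedAddCommGroup H] [InnerProductSpace ℂ H] [CompleteSpace H]
variable {M N : VonNeumannAlgebra H} {ζ : H} {U : ℝ → H →L[ℂ] H} {J : H ≃ₗᵢ⋆[ℂ] H}
variable {CM CN : Set (L2 H →L[ℂ] L2 H)}

theorem window_claim (hW : WindowData M N ζ U CM CN) (hU : IsModularGroup M ζ U)
    (hJ : IsModConj M ζ U J) (hsep : ∀ x ∈ M, x ζ = 0 → x = 0) (d : ℝ) (hd : 0 < d)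
    (x : H →L[ℂ] H) (hx : x ∈ M) (hxs : star x = x) (hxf : ∀ t : ℝ, U t * x * U (-t) = x)
    (ε : ℝ) (hε : ∀ Y ∈ UU CN d, ‖(Y * constOp x - constOp x * Y) (Om d ζ)‖ ≤ ε) :
    ∃ c : ℝ, ‖(c : ℂ) • ζ - x ζ‖ ≤ ε := by
  have hXM : (constOp x : L2 H →L[ℂ] L2 H) ∈ CM := hW.fixd x hx hxf
  have hXs : star (constOp x : L2 H →L[ℂ] L2 H) = constOp x := by rw [constOp_star, hxs]
  have hXq : (constOp x : L2 H →L[ℂ] L2 H) * mulOp (win d) = mulOp (win d) * constOp x :=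
    (mulOp_const (BM_win d) x).symm
  obtain ⟨Z, hZM, hZs, hZ1, hZ2, hZY, hZε⟩ :=
    exists_Z hW hU hJ hsep d hd (constOp x) hXM hXs hXq ε hε
  have hqN : (mulOp (win d) : L2 H →L[ℂ] L2 H) ∈ CN := hW.mul _ (BM_win d)
  have hcomm := corner_comm CN hW.dcN hW.starN (mulOp (win d)) hqN (win_star d) (win_mul d) Z
    hZ1 hZ2 (fun Y h1 h2 h3 h4 h5 => hZY Y ⟨h1, h2, h3, h4, h5⟩)
  obtain ⟨c, hc⟩ := corner_scalar CN CM hW.dcN hW.dcM hW.starN hW.starM hW.sub hW.irr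
    (mulOp (win d)) hqN (win_star d) (win_mul d) Z hZM hZs hZ1 hZ2 hcomm
  refine ⟨c, ?_⟩
  have hqΩ : mulOp (win d) (Om d ζ) = Om d ζ :=
    congrArg (fun W : L2 H →L[ℂ] L2 H => W (tens (gk d 0) ζ)) (win_wp d)
  have h1 : Z (Om d ζ) = (c : ℂ) • Om d ζ := by
    rw [hc, smul_apply, hqΩ]
  have h2 : constOp x (Om d ζ) = mulOp (wp d) (tens (gk d 0) (x ζ)) := by
    have e1 : constOp x (mulOp (wp d) (tens (gk d 0) ζ)) =
        mulOp (wp d) (constOp x (tens (gk d 0) ζ)) :=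
      congrArg (fun W : L2 H →L[ℂ] L2 H => W (tens (gk d 0) ζ)) (mulOp_const (BM_wp d) x).symm
    have e2 : constOp x (tens (gk d 0) ζ) = tens (gk d 0) (x ζ) :=
      congrArg (fun W : H →L[ℂ] L2 H => W ζ) (const_tens (memLp_gk d 0) x)
    show constOp x (mulOp (wp d) (tens (gk d 0) ζ)) = _
    rw [e1, e2]
  have h3 : (c : ℂ) • Om d ζ - constOp x (Om d ζ) =
      mulOp (wp d) (tens (gk d 0) ((c : ℂ) • ζ - x ζ)) := by
    rw [h2, map_sub, map_sub, map_smul, map_smul]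
    rfl
  calc ‖(c : ℂ) • ζ - x ζ‖ ≤ ‖mulOp (wp d) (tens (gk d 0) ((c : ℂ) • ζ - x ζ))‖ :=
        wp_tens_lower d hd _
    _ = ‖Z (Om d ζ) - constOp x (Om d ζ)‖ := by rw [← h3, ← h1]
    _ ≤ ε := hZε

end H52BC
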