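import Mathlib

/-!
Row FmN.  Abstract minimal norm point and bounded strong limits (general Hilbert space tools, nothing about von Neumann algebras).

* `min_point`: `C = closure (convexHull ℝ S)` for a nonempty set `S` of a (real or complex) Hilbert space: there is `v ∈ C` with `‖v‖ ≤ ‖w‖` for all `w ∈ C`
  (`exists_norm_eq_iInf_of_complete_convex` with `u = 0`) and every `w ∈ C` with `‖w‖ ≤ ‖v‖` equals `v` (parallelogram: `(v+w)/2 ∈ C`, `‖(v+w)/2‖² = (‖v‖²+‖w‖²)/2 - ‖v-w‖²/4`).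
* `strong_limit`: `Z n` with `‖Z n ξ‖ ≤ C ‖ξ‖`, and `Z n ξ` convergent for `ξ` in a set `D` whose span is dense: then the set of `ξ` with `Z n ξ` Cauchy is a closed submodule,
  so it is everything (`C ‖ξ - ξ'‖` argument), and the pointwise limit is a bounded operator (`LinearMap.mkContinuous`, or `continuousLinearMapOfTendsto`).
* `strong_star`: `⟪Z ξ, η⟫ = lim ⟪Z n ξ, η⟫ = lim ⟪ξ, Z n η⟫ = ⟪ξ, Z η⟫`.
-/

open Filter Topology

noncomputable section

namespace H52BC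

theorem min_point {K : Type*} [NormedAddCommGroup K] [InnerProductSpace ℂ K] [CompleteSpace K]
    (C : Set K) (hne : C.Nonempty) (hc : IsClosed C) (hconv : Convex ℝ C) :
    ∃ v ∈ C, (∀ w ∈ C, ‖v‖ ≤ ‖w‖) ∧ ∀ w ∈ C, ‖w‖ ≤ ‖v‖ → w = v := by
  let : InnerProductSpace ℝ K := InnerProductSpace.complexToReal
  obtain ⟨v, hv, hmin⟩ := exists_norm_eq_iInf_of_complete_convex hne hc.isComplete hconv 0
  have hle : ∀ w ∈ C, ‖v‖ ≤ ‖w‖ := by
    intro w hw
    have h1 : (⨅ w : C, ‖(0 : K) - w‖) ≤ ‖(0 : K) - w‖ :=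
      ciInf_le (f := fun w : C => ‖(0 : K) - w‖) ⟨0, by rintro _ ⟨x, rfl⟩; exact norm_nonneg _⟩
        ⟨w, hw⟩
    rw [← hmin] at h1
    simpa using h1
  refine ⟨v, hv, hle, ?_⟩
  intro w hw hwv
  have hm : ((1 / 2 : ℝ) • v + (1 / 2 : ℝ) • w) ∈ C :=
    hconv hv hw (by norm_num) (by norm_num) (by norm_num)
  have h2 := hle _ hm
  rw [← smul_add, norm_smul, Real.norm_of_nonneg (by norm_num : (0 : ℝ) ≤ 1 / 2)] at h2
  have h3 := parallelogram_law_with_norm ℝ v w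
  have h4 : ‖w‖ * ‖w‖ ≤ ‖v‖ * ‖v‖ := mul_self_le_mul_self (norm_nonneg _) hwv
  have h5 : (2 * ‖v‖) * (2 * ‖v‖) ≤ ‖v + w‖ * ‖v + w‖ :=
    mul_self_le_mul_self (by positivity) (by linarith)
  have h6 : ‖v - w‖ * ‖v - w‖ ≤ 0 := by nlinarith
  have h7 : ‖v - w‖ = 0 := by
    have := mul_self_nonneg ‖v - w‖
    exact mul_self_eq_zero.mp (le_antisymm h6 this)
  exact (sub_eq_zero.mp (norm_eq_zero.mp h7)).symm

theorem strong_limit {K : Type*} [NormedAddCommGroup K] [InnerProductSpace ℂ K] [CompleteSpace K]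
    (Z : ℕ → K →L[ℂ] K) (C : ℝ) (hC : ∀ n ξ, ‖Z n ξ‖ ≤ C * ‖ξ‖) (D : Set K)
    (hD : ∀ F : K, (∀ ξ ∈ D, inner ℂ ξ F = 0) → F = 0)
    (hconv : ∀ ξ ∈ D, ∃ w, Tendsto (fun n => Z n ξ) atTop (𝓝 w)) :
    ∃ T : K →L[ℂ] K, ∀ ξ, Tendsto (fun n => Z n ξ) atTop (𝓝 (T ξ)) := by
  let S : Submodule ℂ K :=
    { carrier := {ξ | ∃ w, Tendsto (fun n => Z n ξ) atTop (𝓝 w)}
      add_mem' := by
        rintro a b ⟨u, hu⟩ ⟨v, hv⟩
        exact ⟨u + v, by simpa [map_add] using hu.add hv⟩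
      zero_mem' := ⟨0, by simp⟩
      smul_mem' := by
        rintro c a ⟨u, hu⟩
        exact ⟨c • u, by simpa [map_smul] using hu.const_smul c⟩ }
  have hperp : Sᗮ = ⊥ := by
    rw [Submodule.eq_bot_iff]
    intro F hF
    apply hD
    intro ξ hξ
    exact (Submodule.mem_orthogonal S F).mp hF ξ (hconv ξ hξ)
  have htop : S.topologicalClosure = ⊤ := Submodule.topologicalClosure_eq_top_iff.mpr hperp
  have hC0 : ∀ n ξ, ‖Z n ξ‖ ≤ (|C| + 1) * ‖ξ‖ := fun n ξ =>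
    (hC n ξ).trans (mul_le_mul_of_nonneg_right (by linarith [le_abs_self C]) (norm_nonneg _))
  have hall : ∀ ξ : K, CauchySeq (fun n => Z n ξ) := by
    intro ξ
    have hξ : ξ ∈ closure (S : Set K) := by
      have : ξ ∈ S.topologicalClosure := by rw [htop]; trivial
      exact this
    rw [Metric.cauchySeq_iff]
    intro ε hε
    have hpos : 0 < ε / (4 * (|C| + 1)) := by positivity
    obtain ⟨ξ', hξ', hd⟩ := Metric.mem_closure_iff.mp hξ _ hpos
    obtain ⟨w, hw⟩ := hξ'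
    obtain ⟨N, hN⟩ := Metric.cauchySeq_iff.mp hw.cauchySeq (ε / 2) (by positivity)
    refine ⟨N, fun m hm n hn => ?_⟩
    have hd' : ‖ξ - ξ'‖ < ε / (4 * (|C| + 1)) := by rwa [dist_eq_norm] at hd
    have h1 : ∀ k, ‖Z k ξ - Z k ξ'‖ < ε / 4 := by
      intro k
      rw [← map_sub]
      calc ‖Z k (ξ - ξ')‖ ≤ (|C| + 1) * ‖ξ - ξ'‖ := hC0 _ _
        _ < (|C| + 1) * (ε / (4 * (|C| + 1))) := mul_lt_mul_of_pos_left hd' (by positivity)
        _ = ε / 4 := by field_simp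
    have h2 := hN m hm n hn
    rw [dist_eq_norm] at h2 ⊢
    have h3 : Z m ξ - Z n ξ = (Z m ξ - Z m ξ') + (Z m ξ' - Z n ξ') - (Z n ξ - Z n ξ') := by abel
    rw [h3]
    calc ‖(Z m ξ - Z m ξ') + (Z m ξ' - Z n ξ') - (Z n ξ - Z n ξ')‖
        ≤ ‖(Z m ξ - Z m ξ') + (Z m ξ' - Z n ξ')‖ + ‖Z n ξ - Z n ξ'‖ := norm_sub_le _ _
      _ ≤ ‖Z m ξ - Z m ξ'‖ + ‖Z m ξ' - Z n ξ'‖ + ‖Z n ξ - Z n ξ'‖ := by
          gcongr; exact norm_add_le _ _
      _ < ε / 4 + ε / 2 + ε / 4 := by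
          have := h1 m; have := h1 n; linarith
      _ = ε := by ring
  have hlim : ∀ ξ : K, ∃ w, Tendsto (fun n => Z n ξ) atTop (𝓝 w) :=
    fun ξ => cauchySeq_tendsto_of_complete (hall ξ)
  choose f hf using hlim
  refine ⟨continuousLinearMapOfTendsto Z (f := f) (tendsto_pi_nhds.mpr hf), fun ξ => ?_⟩
  exact hf ξ

theorem strong_star {K : Type*} [NormedAddCommGroup K] [InnerProductSpace ℂ K] [CompleteSpace K]
    (Z : ℕ → K →L[ℂ] K) (T : K →L[ℂ] K) (hs : ∀ n, star (Z n) = Z n)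
    (hT : ∀ ξ, Tendsto (fun n => Z n ξ) atTop (𝓝 (T ξ))) : star T = T := by
  apply ContinuousLinearMap.ext
  intro ξ
  apply ext_inner_right ℂ
  intro η
  have h1 : inner ℂ ((star T) ξ) η = inner ℂ ξ (T η) := by
    rw [ContinuousLinearMap.star_eq_adjoint, ContinuousLinearMap.adjoint_inner_left]
  rw [h1]
  have h2 : Tendsto (fun n => inner ℂ ξ (Z n η)) atTop (𝓝 (inner ℂ ξ (T η))) :=
    (tendsto_const_nhds).inner (hT η)
  have h3 : Tendsto (fun n => inner ℂ (Z n ξ) η) atTop (𝓝 (inner ℂ (T ξ) η)) :=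
    (hT ξ).inner tendsto_const_nhds
  have h4 : (fun n => inner ℂ ξ (Z n η)) = (fun n => inner ℂ (Z n ξ) η) := by
    funext n
    have := ContinuousLinearMap.adjoint_inner_left (Z n) η ξ
    rw [← ContinuousLinearMap.star_eq_adjoint, hs n] at this
    exact this.symm
  rw [h4] at h2
  exact tendsto_nhds_unique h2 h3

/-- the double commutant is closed under pointwise limits -/
theorem strong_mem {K : Type*} [NormedAddCommGroup K] [InnerProductSpace ℂ K] [CompleteSpace K]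
    (A : Set (K →L[ℂ] K)) (hA : Set.centralizer (Set.centralizer A) = A)
    (Z : ℕ → K →L[ℂ] K) (T : K →L[ℂ] K) (hm : ∀ n, Z n ∈ A)
    (hT : ∀ ξ, Tendsto (fun n => Z n ξ) atTop (𝓝 (T ξ))) : T ∈ A := by
  rw [← hA]
  intro B hB
  apply ContinuousLinearMap.ext
  intro ξ
  change B (T ξ) = T (B ξ)
  have h1 : Tendsto (fun n => B (Z n ξ)) atTop (𝓝 (B (T ξ))) :=
    (B.continuous.tendsto _).comp (hT ξ)
  have h2 : (fun n => B (Z n ξ)) = fun n => Z n (B ξ) := by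
    funext n
    have h3 : Z n * B = B * Z n := hB (Z n) (hm n)
    have h4 := DFunLike.congr_fun h3 ξ
    exact h4.symm
  rw [h2] at h1
  exact tendsto_nhds_unique h1 (hT (B ξ))

/-- a double commutant is a closed subalgebra -/
theorem dc_closed {K : Type*} [NormedAddCommGroup K] [InnerProductSpace ℂ K] [CompleteSpace K]
    (A : Set (K →L[ℂ] K)) (hA : Set.centralizer (Set.centralizer A) = A) :
    (1 : K →L[ℂ] K) ∈ A ∧ (∀ X ∈ A, ∀ Y ∈ A, X * Y ∈ A) ∧ (∀ X ∈ A, ∀ Y ∈ A, X + Y ∈ A) ∧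
      (∀ (c : ℂ), ∀ X ∈ A, c • X ∈ A) ∧ (∀ X ∈ A, ∀ Y ∈ A, X - Y ∈ A) ∧
      (∀ (c : ℂ), ∀ X ∈ A, NormedSpace.exp (c • X) ∈ A) := by
  have key : ∀ X : K →L[ℂ] K, X ∈ A ↔ ∀ B ∈ Set.centralizer A, Commute B X := by
    intro X
    constructor
    · intro hX B hB
      exact (hB X hX).symm
    · intro h
      rw [← hA]
      exact fun B hB => h B hB
  refine ⟨?_, ?_, ?_, ?_, ?_, ?_⟩
  · exact (key _).mpr fun B _ => Commute.one_right B
  · intro X hX Y hY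
    exact (key _).mpr fun B hB => ((key _).mp hX B hB).mul_right ((key _).mp hY B hB)
  · intro X hX Y hY
    exact (key _).mpr fun B hB => ((key _).mp hX B hB).add_right ((key _).mp hY B hB)
  · intro c X hX
    exact (key _).mpr fun B hB => ((key _).mp hX B hB).smul_right c
  · intro X hX Y hY
    exact (key _).mpr fun B hB => ((key _).mp hX B hB).sub_right ((key _).mp hY B hB)
  · intro c X hX
    refine (key _).mpr fun B hB => ?_
    have h1 : Commute B (c • X) := ((key _).mp hX B hB).smul_right c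
    exact h1.exp_right

end H52BC
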