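import Pool.Agent.H52.BC.EtT
import Pool.Agent.H52.BC.FmN

/-!
Row FzE.  The minimal norm element (first half of the proof of the CLAIM in section 2 of /team-store/H52_853c37.md).

`q = mulOp (win d) ∈ CN ⊆ CM` (`hW.mul`, `BM_win`), `X ∈ CM`, `star X = X`, `X q = q X`.  `UU` = unitaries of the window.
`S0 = {star Y * X * Y | Y ∈ UU}`, `CH = convexHull ℝ S0`; every `Z' ∈ CH` satisfies (convex conditions, true on `S0`): `Z' ∈ CM`, `star Z' = Z'`, `q Z' = Z' = Z' q`,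
`‖Z' ξ‖ ≤ ‖X‖ ‖ξ‖` (`‖Y‖ ≤ 1`: `‖Y ξ‖² = ⟪ξ, q ξ⟫ = ‖qξ‖² ≤ ‖ξ‖²`), `‖Z' Ω - X Ω‖ ≤ ε` (`star Y X Y Ω - X Ω = star Y (X Y - Y X) Ω`, as `star Y Y X Ω = q X Ω = X q Ω = XΩ`).
`C = closure {Z' Ω | Z' ∈ CH}` is closed, convex, nonempty (`q ∈ UU`); `v ∈ C` of minimal norm (`min_point`); choose `Z_n ∈ CH` with `Z_n Ω → v`.
For `R = const(y) G_r`: `Z_n R Ω = R Z_n Ω` converges; with `D = {R Ω} ∪ {ξ | q ξ = 0}` `strong_limit` applies (`hD`: if `F ⟂ D` then `F - q F` is in the kernel of `q` so `⟪F - qF, F⟫ = 0`,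
i.e. `‖F - q F‖² = 0`, so `F = q F` and `total_Om`; on `q ξ = 0`: `Z_n ξ = Z_n q ξ = 0`).  The limit `Z` is in `CM` (`strong_mem`), `star Z = Z` (`strong_star`), `q Z = Z`, `Z q = Z`, `Z Ω = v`.
For `Y ∈ UU`: `star Y Z_n Y ∈ CH` (the map `W ↦ star Y * W * Y` is linear and maps `S0` into `S0`: `Y' Y ∈ UU`; `LinearMap.image_convexHull` or `convexHull_min`), so
`star Y Z Y Ω = lim star Y Z_n Y Ω ∈ C`.  Its norm is `‖Z Y Ω‖` (`star Y` is isometric on the range of `q`: `‖star Y ξ‖² = ⟪ξ, Y star Y ξ⟫ = ⟪ξ, q ξ⟫`)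
`= ‖star (Z Y) Ω‖` (`trace_vec` for `A = Z * Y`) `= ‖star Y Z Ω‖ = ‖Z Ω‖ = ‖v‖`.  So `star Y Z Y Ω = v = Z Ω`, `op_eq_of_Om` for `T = star Y * Z * Y - Z` (`WCom` is closed under differences: direct)
gives `star Y Z Y = Z`; multiply by `Y` from the left: `q Z Y = Y Z`, i.e. `Z Y = Y Z`.
-/

open MeasureTheory Filter Topology

noncomputable section

namespace H52BC

variable {H : Type*} [NormedAddCommGroup H] [InnerProductSpace ℂ H] [CompleteSpace H]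
variable {M N : VonNeumannAlgebra H} {ζ : H} {U : ℝ → H →L[ℂ] H} {J : H ≃ₗᵢ⋆[ℂ] H}
variable {CM CN : Set (L2 H →L[ℂ] L2 H)}

/-- unitaries of the window of `CN` -/
def UU (CN : Set (L2 H →L[ℂ] L2 H)) (d : ℝ) : Set (L2 H →L[ℂ] L2 H) :=
  {Y | Y ∈ CN ∧ mulOp (win d) * Y = Y ∧ Y * mulOp (win d) = Y ∧
    star Y * Y = mulOp (win d) ∧ Y * star Y = mulOp (win d)}

section FzE_abstract

variable {K : Type*} [NormedAddCommGroup K] [InnerProductSpace ℂ K] [CompleteSpace K]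

private theorem FzE_smul (a : ℝ) (W : K →L[ℂ] K) : a • W = (a : ℂ) • W := by
  ext ξ
  show a • W ξ = (a : ℂ) • W ξ
  rw [Complex.coe_smul]

private theorem FzE_proj {q : K →L[ℂ] K} (hq : q * q = q) (hqs : star q = q) (ξ : K) :
    ‖q ξ‖ ≤ ‖ξ‖ := by
  have h1 : (inner ℂ (q ξ) (q ξ) : ℂ) = inner ℂ ξ (q ξ) := by
    have h2 : (inner ℂ (q ξ) (q ξ) : ℂ) = inner ℂ ((star q) ξ) (q ξ) := by rw [hqs]
    rw [h2, ContinuousLinearMap.star_eq_adjoint, ContinuousLinearMap.adjoint_inner_left]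
    have h3 : q (q ξ) = (q * q) ξ := rfl
    rw [h3, hq]
  have h4 : ‖q ξ‖ * ‖q ξ‖ ≤ ‖ξ‖ * ‖q ξ‖ := by
    calc ‖q ξ‖ * ‖q ξ‖ = ‖(inner ℂ (q ξ) (q ξ) : ℂ)‖ := by
          rw [inner_self_eq_norm_sq_to_K]
          simp [sq]
      _ = ‖(inner ℂ ξ (q ξ) : ℂ)‖ := by rw [h1]
      _ ≤ ‖ξ‖ * ‖q ξ‖ := norm_inner_le_norm _ _
  rcases (norm_nonneg (q ξ)).eq_or_lt with h5 | h5
  · rw [← h5]
    exact norm_nonneg _
  · exact le_of_mul_le_mul_right h4 h5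

private theorem FzE_contr {q Y : K →L[ℂ] K} (hq : q * q = q) (hqs : star q = q)
    (hY : star Y * Y = q) (ξ : K) : ‖Y ξ‖ ≤ ‖ξ‖ := by
  have h1 : (inner ℂ (Y ξ) (Y ξ) : ℂ) = inner ℂ (q ξ) ξ := by
    rw [← hY]
    show _ = inner ℂ ((star Y) (Y ξ)) ξ
    rw [ContinuousLinearMap.star_eq_adjoint, ContinuousLinearMap.adjoint_inner_left]
  have h2 : ‖Y ξ‖ * ‖Y ξ‖ ≤ ‖ξ‖ * ‖ξ‖ := by
    calc ‖Y ξ‖ * ‖Y ξ‖ = ‖(inner ℂ (Y ξ) (Y ξ) : ℂ)‖ := by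
          rw [inner_self_eq_norm_sq_to_K]
          simp [sq]
      _ = ‖(inner ℂ (q ξ) ξ : ℂ)‖ := by rw [h1]
      _ ≤ ‖q ξ‖ * ‖ξ‖ := norm_inner_le_norm _ _
      _ ≤ ‖ξ‖ * ‖ξ‖ := mul_le_mul_of_nonneg_right (FzE_proj hq hqs ξ) (norm_nonneg _)
  exact (mul_self_le_mul_self_iff (norm_nonneg _) (norm_nonneg _)).2 h2

private theorem FzE_abs (CMs UUs D0 : Set (K →L[ℂ] K)) (q X : K →L[ℂ] K) (Ω : K) (ε : ℝ)
    (hdc : Set.centralizer (Set.centralizer CMs) = CMs)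
    (hq : q * q = q) (hqs : star q = q) (hqM : q ∈ CMs) (hqΩ : q Ω = Ω)
    (hX : X ∈ CMs) (hXs : star X = X) (hXq : X * q = q * X)
    (hU : ∀ Y ∈ UUs, Y ∈ CMs ∧ star Y ∈ CMs ∧ q * Y = Y ∧ Y * q = Y ∧ star Y * Y = q ∧
      Y * star Y = q)
    (hU1 : q ∈ UUs) (hUm : ∀ Y ∈ UUs, ∀ Y' ∈ UUs, Y * Y' ∈ UUs)
    (hε : ∀ Y ∈ UUs, ‖(Y * X - X * Y) Ω‖ ≤ ε)
    (hcomm : ∀ R ∈ D0, ∀ A ∈ CMs, A * R = R * A)
    (htot : ∀ F : K, q F = F → (∀ R ∈ D0, inner ℂ (R Ω) F = 0) → F = 0)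
    (htr : ∀ A ∈ CMs, q * A = A → A * q = A → ‖A Ω‖ = ‖star A Ω‖)
    (huniq : ∀ T ∈ CMs, T * q = T → T Ω = 0 → T = 0) :
    ∃ Z ∈ CMs, star Z = Z ∧ q * Z = Z ∧ Z * q = Z ∧ (∀ Y ∈ UUs, Y * Z = Z * Y) ∧
      ‖Z Ω - X Ω‖ ≤ ε := by
  obtain ⟨_, hmul, hadd, hsmul, hsub, _⟩ := dc_closed CMs hdc
  have hc1 : ∀ Y ∈ UUs, ∀ ξ, ‖Y ξ‖ ≤ ‖ξ‖ := fun Y hY ξ =>
    FzE_contr hq hqs (hU Y hY).2.2.2.2.1 ξ
  have hc2 : ∀ Y ∈ UUs, ∀ ξ, ‖(star Y) ξ‖ ≤ ‖ξ‖ := fun Y hY ξ =>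
    FzE_contr hq hqs (by rw [star_star]; exact (hU Y hY).2.2.2.2.2) ξ
  have hqsY : ∀ Y ∈ UUs, q * star Y = star Y := by
    intro Y hY
    have h1 := congrArg star (hU Y hY).2.2.2.1
    rw [star_mul, hqs] at h1
    exact h1
  -- the convex set of operators
  obtain ⟨S0, hS0⟩ : ∃ S0 : Set (K →L[ℂ] K), S0 = {W | ∃ Y ∈ UUs, W = star Y * X * Y} := ⟨_, rfl⟩
  obtain ⟨CH, hCH⟩ : ∃ CH : Set (K →L[ℂ] K), CH = convexHull ℝ S0 := ⟨_, rfl⟩
  obtain ⟨P, hP⟩ : ∃ P : Set (K →L[ℂ] K), P = {W | W ∈ CMs ∧ star W = W ∧ q * W = W ∧ W * q = W ∧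
    (∀ ξ, ‖W ξ‖ ≤ ‖X‖ * ‖ξ‖) ∧ ‖W Ω - X Ω‖ ≤ ε} := ⟨_, rfl⟩
  have hS0P : S0 ⊆ P := by
    intro W hW
    rw [hS0] at hW
    obtain ⟨Y, hY, rfl⟩ := hW
    obtain ⟨hYM, hYsM, hqY, hYq, hYY, hYY'⟩ := hU Y hY
    rw [hP]
    refine ⟨hmul _ (hmul _ hYsM _ hX) _ hYM, ?_, ?_, ?_, ?_, ?_⟩
    · rw [star_mul, star_mul, star_star, hXs, mul_assoc]
    · rw [← mul_assoc, ← mul_assoc, hqsY Y hY]
    · rw [mul_assoc, hYq]
    · intro ξ
      calc ‖(star Y * X * Y) ξ‖ = ‖(star Y) (X (Y ξ))‖ := rfl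
        _ ≤ ‖X (Y ξ)‖ := hc2 Y hY _
        _ ≤ ‖X‖ * ‖Y ξ‖ := X.le_opNorm _
        _ ≤ ‖X‖ * ‖ξ‖ := mul_le_mul_of_nonneg_left (hc1 Y hY ξ) (norm_nonneg _)
    · have h1 : (star Y * X * Y) Ω - X Ω = (star Y) ((X * Y - Y * X) Ω) := by
        have h2 : (star Y) (Y (X Ω)) = X Ω := by
          have h3 : (star Y) (Y (X Ω)) = (star Y * Y * X) Ω := rfl
          rw [h3, hYY, ← hXq]
          show X (q Ω) = X Ω
          rw [hqΩ]
        have h4 : (X * Y - Y * X) Ω = X (Y Ω) - Y (X Ω) := rfl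
        rw [h4, map_sub, h2]
        rfl
      rw [h1]
      calc ‖(star Y) ((X * Y - Y * X) Ω)‖ ≤ ‖(X * Y - Y * X) Ω‖ := hc2 Y hY _
        _ = ‖(Y * X - X * Y) Ω‖ := by
          have h5 : (X * Y - Y * X) Ω = -((Y * X - X * Y) Ω) := by
            rw [← neg_sub (Y * X) (X * Y)]
            rfl
          rw [h5, norm_neg]
        _ ≤ ε := hε Y hY
  have hPc : Convex ℝ P := by
    intro W1 h1 W2 h2 a b ha hb hab
    rw [hP] at h1 h2 ⊢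
    obtain ⟨m1, s1, l1, r1, n1, e1⟩ := h1
    obtain ⟨m2, s2, l2, r2, n2, e2⟩ := h2
    refine ⟨?_, ?_, ?_, ?_, ?_, ?_⟩
    · rw [FzE_smul, FzE_smul]
      exact hadd _ (hsmul _ _ m1) _ (hsmul _ _ m2)
    · rw [FzE_smul, FzE_smul, star_add, star_smul, star_smul, s1, s2]
      simp
    · rw [FzE_smul, FzE_smul, mul_add, mul_smul_comm, mul_smul_comm, l1, l2]
    · rw [FzE_smul, FzE_smul, add_mul, smul_mul_assoc, smul_mul_assoc, r1, r2]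
    · intro ξ
      have h3 : (a • W1 + b • W2) ξ = a • W1 ξ + b • W2 ξ := rfl
      rw [h3]
      calc ‖a • W1 ξ + b • W2 ξ‖ ≤ ‖a • W1 ξ‖ + ‖b • W2 ξ‖ := norm_add_le _ _
        _ = a * ‖W1 ξ‖ + b * ‖W2 ξ‖ := by
          rw [norm_smul, norm_smul, Real.norm_of_nonneg ha, Real.norm_of_nonneg hb]
        _ ≤ a * (‖X‖ * ‖ξ‖) + b * (‖X‖ * ‖ξ‖) := by
          have := mul_le_mul_of_nonneg_left (n1 ξ) ha
          have := mul_le_mul_of_nonneg_left (n2 ξ) hb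
          linarith
        _ = ‖X‖ * ‖ξ‖ := by rw [← add_mul, hab, one_mul]
    · have h3 : (a • W1 + b • W2) Ω - X Ω = a • (W1 Ω - X Ω) + b • (W2 Ω - X Ω) := by
        have h4 : (a • W1 + b • W2) Ω = a • W1 Ω + b • W2 Ω := rfl
        have h5 : X Ω = a • X Ω + b • X Ω := by rw [← add_smul, hab, one_smul]
        rw [h4, smul_sub, smul_sub]
        nth_rewrite 1 [h5]
        abel
      rw [h3]
      calc ‖a • (W1 Ω - X Ω) + b • (W2 Ω - X Ω)‖ ≤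
            ‖a • (W1 Ω - X Ω)‖ + ‖b • (W2 Ω - X Ω)‖ := norm_add_le _ _
        _ = a * ‖W1 Ω - X Ω‖ + b * ‖W2 Ω - X Ω‖ := by
          rw [norm_smul, norm_smul, Real.norm_of_nonneg ha, Real.norm_of_nonneg hb]
        _ ≤ a * ε + b * ε := by
          have := mul_le_mul_of_nonneg_left e1 ha
          have := mul_le_mul_of_nonneg_left e2 hb
          linarith
        _ = ε := by rw [← add_mul, hab, one_mul]
  have hCHP : CH ⊆ P := by
    rw [hCH]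
    exact convexHull_min hS0P hPc
  have hCHc : Convex ℝ CH := by
    rw [hCH]
    exact convex_convexHull ℝ S0
  have hS0CH : S0 ⊆ CH := by
    rw [hCH]
    exact subset_convexHull ℝ S0
  have hCHY : ∀ Y ∈ UUs, ∀ W ∈ CH, star Y * W * Y ∈ CH := by
    intro Y hY
    have h1 : CH ⊆ {W | star Y * W * Y ∈ CH} := by
      nth_rewrite 1 [hCH]
      refine convexHull_min ?_ ?_
      · intro W hW
        rw [hS0] at hW
        obtain ⟨Y', hY', rfl⟩ := hW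
        apply hS0CH
        rw [hS0]
        refine ⟨Y' * Y, hUm _ hY' _ hY, ?_⟩
        rw [star_mul]
        simp only [mul_assoc]
      · intro W1 h1 W2 h2 a b ha hb hab
        have h3 : star Y * (a • W1 + b • W2) * Y =
            a • (star Y * W1 * Y) + b • (star Y * W2 * Y) := by
          simp only [FzE_smul, mul_add, add_mul, mul_smul_comm, smul_mul_assoc]
        show star Y * (a • W1 + b • W2) * Y ∈ CH
        rw [h3]
        exact hCHc h1 h2 ha hb hab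
    exact fun W hW => h1 hW
  -- the vectors
  obtain ⟨C, hC⟩ : ∃ C : Set K, C = closure ((fun W : K →L[ℂ] K => W Ω) '' CH) := ⟨_, rfl⟩
  have hCcl : IsClosed C := by
    rw [hC]
    exact isClosed_closure
  have hqCH : star q * X * q ∈ CH := hS0CH (by rw [hS0]; exact ⟨q, hU1, rfl⟩)
  have hCne : C.Nonempty := by
    rw [hC]
    exact ⟨_, subset_closure ⟨_, hqCH, rfl⟩⟩
  have hCconv : Convex ℝ C := by
    rw [hC]
    apply Convex.closure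
    rintro _ ⟨W1, h1, rfl⟩ _ ⟨W2, h2, rfl⟩ a b ha hb hab
    exact ⟨a • W1 + b • W2, hCHc h1 h2 ha hb hab, rfl⟩
  obtain ⟨v, hvC, hvmin, hvuniq⟩ := min_point C hCne hCcl hCconv
  have hv' := hvC
  rw [hC, mem_closure_iff_seq_limit] at hv'
  obtain ⟨x, hx, hxlim⟩ := hv'
  choose Zn hZn hZnx using hx
  have hZnP : ∀ n, Zn n ∈ P := fun n => hCHP (hZn n)
  rw [hP] at hZnP
  have hZlim : Tendsto (fun n => Zn n Ω) atTop (𝓝 v) := by
    have h1 : (fun n => Zn n Ω) = x := by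
      funext n
      exact hZnx n
    rw [h1]
    exact hxlim
  obtain ⟨Z, hZ⟩ := strong_limit Zn ‖X‖ (fun n ξ => (hZnP n).2.2.2.2.1 ξ)
    {ξ | (∃ R ∈ D0, ξ = R Ω) ∨ q ξ = 0} (by
      intro F hF
      have h1 : q F = F := by
        have h2 : q (F - q F) = 0 := by
          rw [map_sub]
          have h3 : q (q F) = (q * q) F := rfl
          rw [h3, hq, sub_self]
        have h4 : (inner ℂ (F - q F) F : ℂ) = 0 := hF _ (Or.inr h2)
        have h5 : (inner ℂ (F - q F) (q F) : ℂ) = 0 := by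
          have h6 : (inner ℂ (F - q F) (q F) : ℂ) = inner ℂ ((star q) (F - q F)) F := by
            rw [ContinuousLinearMap.star_eq_adjoint, ContinuousLinearMap.adjoint_inner_left]
          rw [h6, hqs, h2, inner_zero_left]
        have h7 : (inner ℂ (F - q F) (F - q F) : ℂ) = 0 := by
          rw [inner_sub_right, h4, h5, sub_zero]
        have h8 := inner_self_eq_zero.1 h7
        exact (sub_eq_zero.1 h8).symm
      exact htot F h1 fun R hR => hF _ (Or.inl ⟨R, hR, rfl⟩)) (by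
      rintro ξ (⟨R, hR, rfl⟩ | hξ)
      · refine ⟨R v, ?_⟩
        have h1 : (fun n => Zn n (R Ω)) = fun n => R (Zn n Ω) := by
          funext n
          have h2 := hcomm R hR (Zn n) (hZnP n).1
          exact congrArg (fun W : K →L[ℂ] K => W Ω) h2
        rw [h1]
        exact (R.continuous.tendsto v).comp hZlim
      · refine ⟨0, ?_⟩
        have h1 : (fun n => Zn n ξ) = fun _ => 0 := by
          funext n
          have h2 : Zn n ξ = (Zn n * q) ξ := by rw [(hZnP n).2.2.2.1]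
          rw [h2]
          show Zn n (q ξ) = 0
          rw [hξ, map_zero]
        rw [h1]
        exact tendsto_const_nhds)
  have hZM : Z ∈ CMs := strong_mem CMs hdc Zn Z (fun n => (hZnP n).1) hZ
  have hZs : star Z = Z := strong_star Zn Z (fun n => (hZnP n).2.1) hZ
  have hqZ : q * Z = Z := by
    ext ξ
    have h1 : Tendsto (fun n => q (Zn n ξ)) atTop (𝓝 (q (Z ξ))) :=
      (q.continuous.tendsto _).comp (hZ ξ)
    have h2 : (fun n => q (Zn n ξ)) = fun n => Zn n ξ := by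
      funext n
      exact congrArg (fun W : K →L[ℂ] K => W ξ) (hZnP n).2.2.1
    rw [h2] at h1
    exact tendsto_nhds_unique h1 (hZ ξ)
  have hZq : Z * q = Z := by
    ext ξ
    have h1 := hZ (q ξ)
    have h2 : (fun n => Zn n (q ξ)) = fun n => Zn n ξ := by
      funext n
      exact congrArg (fun W : K →L[ℂ] K => W ξ) (hZnP n).2.2.2.1
    rw [h2] at h1
    exact tendsto_nhds_unique h1 (hZ ξ)
  have hZΩ : Z Ω = v := tendsto_nhds_unique (hZ Ω) hZlim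
  refine ⟨Z, hZM, hZs, hqZ, hZq, ?_, ?_⟩
  · intro Y hY
    obtain ⟨hYM, hYsM, hqY, hYq, hYY, hYY'⟩ := hU Y hY
    have h1 : (star Y) (Z (Y Ω)) ∈ C := by
      have h2 : Tendsto (fun n => (star Y) (Zn n (Y Ω))) atTop (𝓝 ((star Y) (Z (Y Ω)))) :=
        ((star Y).continuous.tendsto _).comp (hZ (Y Ω))
      refine hCcl.mem_of_tendsto h2 (Filter.Eventually.of_forall fun n => ?_)
      rw [hC]
      exact subset_closure ⟨star Y * Zn n * Y, hCHY Y hY _ (hZn n), rfl⟩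
    have h3 : ‖(star Y) (Z (Y Ω))‖ ≤ ‖v‖ := by
      calc ‖(star Y) (Z (Y Ω))‖ ≤ ‖(Z * Y) Ω‖ := hc2 Y hY _
        _ = ‖star (Z * Y) Ω‖ := htr _ (hmul _ hZM _ hYM) (by rw [← mul_assoc, hqZ])
          (by rw [mul_assoc, hYq])
        _ = ‖(star Y) (Z Ω)‖ := by
          rw [star_mul, hZs]
          rfl
        _ ≤ ‖Z Ω‖ := hc2 Y hY _
        _ = ‖v‖ := by rw [hZΩ]
    have h4 := hvuniq _ h1 h3
    have h5 : star Y * Z * Y - Z = 0 := by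
      apply huniq _ (hsub _ (hmul _ (hmul _ hYsM _ hZM) _ hYM) _ hZM)
      · rw [sub_mul, mul_assoc, hYq, hZq]
      · show (star Y) (Z (Y Ω)) - Z Ω = 0
        rw [h4, hZΩ, sub_self]
    have h6 : star Y * Z * Y = Z := sub_eq_zero.1 h5
    calc Y * Z = Y * (star Y * Z * Y) := by rw [h6]
      _ = (Y * star Y) * Z * Y := by simp only [mul_assoc]
      _ = Z * Y := by rw [hYY', hqZ]
  · have h1 : Tendsto (fun n => ‖Zn n Ω - X Ω‖) atTop (𝓝 ‖Z Ω - X Ω‖) :=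
      ((hZ Ω).sub_const _).norm
    exact le_of_tendsto h1 (Filter.Eventually.of_forall fun n => (hZnP n).2.2.2.2.2)

end FzE_abstract

theorem exists_Z (hW : WindowData M N ζ U CM CN) (hU : IsModularGroup M ζ U)
    (hJ : IsModConj M ζ U J) (hsep : ∀ x ∈ M, x ζ = 0 → x = 0) (d : ℝ) (hd : 0 < d)
    (X : L2 H →L[ℂ] L2 H) (hX : X ∈ CM) (hXs : star X = X)
    (hXq : X * mulOp (win d) = mulOp (win d) * X) (ε : ℝ)
    (hε : ∀ Y ∈ UU CN d, ‖(Y * X - X * Y) (Om d ζ)‖ ≤ ε) :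
    ∃ Z ∈ CM, star Z = Z ∧ mulOp (win d) * Z = Z ∧ Z * mulOp (win d) = Z ∧
      (∀ Y ∈ UU CN d, Y * Z = Z * Y) ∧ ‖Z (Om d ζ) - X (Om d ζ)‖ ≤ ε := by
  have hqN : (mulOp (win d) : L2 H →L[ℂ] L2 H) ∈ CN := hW.mul _ (BM_win d)
  have hqΩ : mulOp (win d) (Om d ζ) = Om d ζ :=
    congrArg (fun W : L2 H →L[ℂ] L2 H => W (tens (gk d 0) ζ)) (win_wp d)
  obtain ⟨_, hmulN, _, _, _, _⟩ := dc_closed CN hW.dcN
  refine FzE_abs CM (UU CN d)
    {R | ∃ y ∈ M.commutant, ∃ r : ℝ, R = constOp y * (constOp (U r) * mulOp (ee r))}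
    (mulOp (win d)) X (Om d ζ) ε hW.dcM (win_mul d) (win_star d) (hW.sub hqN) hqΩ hX hXs hXq
    ?_ ?_ ?_ hε ?_ ?_ ?_ ?_
  · intro Y hY
    exact ⟨hW.sub hY.1, hW.sub (hW.starN _ hY.1), hY.2.1, hY.2.2.1, hY.2.2.2.1, hY.2.2.2.2⟩
  · refine ⟨hqN, win_mul d, win_mul d, ?_, ?_⟩
    · rw [win_star, win_mul]
    · rw [win_star, win_mul]
  · rintro Y ⟨h1, h2, h3, h4, h5⟩ Y' ⟨k1, k2, k3, k4, k5⟩
    refine ⟨hmulN _ h1 _ k1, ?_, ?_, ?_, ?_⟩
    · rw [← mul_assoc, h2]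
    · rw [mul_assoc, k3]
    · rw [star_mul, mul_assoc, ← mul_assoc (star Y), h4, k2, k4]
    · rw [star_mul, mul_assoc, ← mul_assoc Y', k5, ← mul_assoc, h3, h5]
  · rintro R ⟨y, hy, r, rfl⟩ A hA
    rw [← mul_assoc, hW.constM A hA y hy, mul_assoc, hW.grp A hA r, ← mul_assoc]
  · intro F hF h
    refine total_Om hU hsep d hd F hF fun y hy r => ?_
    exact h _ ⟨y, hy, r, rfl⟩
  · intro A hA h1 h2
    exact trace_vec hU hJ d hd (hW.wcom hA) h1 h2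
  · intro T hT h1 h2
    exact op_eq_of_Om hU hsep d hd (hW.wcom hT) h1 h2

end H52BC
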