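import Pool.Agent.H52.BC.FcL

/-!
Row GaJ.  The matrix coefficients `a_jk = slice Y (gk d j) (gk d k)` of a window unitary `Y ∈ UU CN d` (section 3).

Notation `V_k = tens (gk d k)`, `q = mulOp (win d)`, `e = exp(π d) - 1`.
* `coef_mem`: `slice_mem` for `N` (`hW.constN`), `memLp_gk`.
* `coef_col`: `Σ_j ‖V_j* Y V_k ξ‖² = ‖q Y V_k ξ‖² = ‖Y V_k ξ‖² = ⟪V_k ξ, star Y Y V_k ξ⟫ = ⟪V_k ξ, q V_k ξ⟫ = ‖ξ‖²` (`parseval`, `win_gk`, `gk_norm`); finite partial sums are `≤` (`sum_le_hasSum`).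
* `coef_row`: `star (a_jk) = V_k* (star Y) V_j` (`slice_star`); same argument with `star Y` (`star Y = q star Y`, `Y star Y = q`).
* `coef_near`: `br J (a_jk) ζ = a_jk ζ - J (star a_jk ζ)` (`J ζ = ζ`) `= V_j* (Y - m(wm) Y m(wp)) V_k ζ` (`slice_J`); sum over `j` (finite partial sums of `parseval`):
  `≤ ‖q (Y V_k ζ - m(wm) Y m(wp) V_k ζ)‖² ≤ ‖Y V_k ζ - m(wm) Y m(wp) V_k ζ‖²`, and
  `‖Y v - m(wm) Y m(wp) v‖ ≤ ‖q Y v - m(wm) Y v‖ + ‖m(wm) Y (v - m(wp) v)‖ ≤ e ‖Y v‖ + e ‖v‖ ≤ 2 e ‖v‖` with `v = V_k ζ = q v` (`wm_sub_norm`, `wp_sub_norm`, `wm_norm`, `‖Y v‖ ≤ ‖v‖`).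
-/

open MeasureTheory Filter Topology

noncomputable section

namespace H52BC

variable {H : Type*} [NormedAddCommGroup H] [InnerProductSpace ℂ H] [CompleteSpace H]
variable {M N : VonNeumannAlgebra H} {ζ : H} {U : ℝ → H →L[ℂ] H} {J : H ≃ₗᵢ⋆[ℂ] H}
variable {CM CN : Set (L2 H →L[ℂ] L2 H)}

/-- `a_jk` -/
def coef (Y : L2 H →L[ℂ] L2 H) (d : ℝ) (j k : ℤ) : H →L[ℂ] H := slice Y (gk d j) (gk d k)

theorem GaJ_norm (d : ℝ) {Y : L2 H →L[ℂ] L2 H} (hY : star Y * Y = mulOp (win d)) (v : L2 H) :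
    ‖Y v‖ = ‖mulOp (win d) v‖ := by
  have h1 := ContinuousLinearMap.apply_norm_sq_eq_inner_adjoint_left Y v
  have h2 := ContinuousLinearMap.apply_norm_sq_eq_inner_adjoint_left
    (mulOp (win d) : L2 H →L[ℂ] L2 H) v
  rw [← ContinuousLinearMap.star_eq_adjoint] at h1 h2
  rw [win_star] at h2
  have e1 : (star Y ∘L Y) = (mulOp (win d) : L2 H →L[ℂ] L2 H) := hY
  have e2 : ((mulOp (win d) : L2 H →L[ℂ] L2 H) ∘L mulOp (win d)) = mulOp (win d) := win_mul d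
  rw [e1] at h1
  rw [e2] at h2
  have h3 : ‖Y v‖ ^ 2 = ‖mulOp (win d) v‖ ^ 2 := by rw [h1, h2]
  exact (sq_eq_sq₀ (norm_nonneg _) (norm_nonneg _)).1 h3

theorem GaJ_norm_le (d : ℝ) {Y : L2 H →L[ℂ] L2 H} (hY : star Y * Y = mulOp (win d)) (v : L2 H) :
    ‖Y v‖ ≤ ‖v‖ := by
  rw [GaJ_norm d hY v]
  exact win_norm d v

theorem GaJ_sum (d : ℝ) (hd : 0 < d) (W : L2 H) (F : Finset ℤ) :
    ∑ j ∈ F, ‖(ContinuousLinearMap.adjoint (tens (gk d j) : H →L[ℂ] L2 H)) W‖ ^ 2 ≤ ‖W‖ ^ 2 := by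
  have h1 := sum_le_hasSum F (fun j _ => sq_nonneg
    ‖(ContinuousLinearMap.adjoint (tens (gk d j) : H →L[ℂ] L2 H)) W‖) (parseval d hd W)
  exact h1.trans (pow_le_pow_left₀ (norm_nonneg _) (win_norm d W) 2)

theorem GaJ_col (d : ℝ) (hd : 0 < d) {Y : L2 H →L[ℂ] L2 H} (hY : star Y * Y = mulOp (win d))
    (k : ℤ) (F : Finset ℤ) (ξ : H) : ∑ j ∈ F, ‖slice Y (gk d j) (gk d k) ξ‖ ^ 2 ≤ ‖ξ‖ ^ 2 := by
  have h1 := GaJ_sum d hd (Y (tens (gk d k) ξ)) F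
  refine (le_of_eq ?_).trans (h1.trans ?_)
  · rfl
  · refine pow_le_pow_left₀ (norm_nonneg _) ?_ 2
    exact (GaJ_norm_le d hY _).trans (le_of_eq (gk_norm d hd k ξ))

theorem coef_mem (hW : WindowData M N ζ U CM CN) (d : ℝ) {Y : L2 H →L[ℂ] L2 H}
    (hY : Y ∈ UU CN d) (j k : ℤ) : coef Y d j k ∈ N := by
  exact slice_mem (fun y hy => hW.constN Y hY.1 y hy) (memLp_gk d j) (memLp_gk d k)

theorem coef_col (d : ℝ) (hd : 0 < d) {Y : L2 H →L[ℂ] L2 H} (hY : Y ∈ UU CN d) (k : ℤ)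
    (F : Finset ℤ) (ξ : H) : ∑ j ∈ F, ‖coef Y d j k ξ‖ ^ 2 ≤ ‖ξ‖ ^ 2 := by
  exact GaJ_col d hd hY.2.2.2.1 k F ξ

theorem coef_row (d : ℝ) (hd : 0 < d) {Y : L2 H →L[ℂ] L2 H} (hY : Y ∈ UU CN d) (j : ℤ)
    (F : Finset ℤ) (ξ : H) : ∑ k ∈ F, ‖star (coef Y d j k) ξ‖ ^ 2 ≤ ‖ξ‖ ^ 2 := by
  have h1 := GaJ_col (Y := star Y) d hd (by rw [star_star]; exact hY.2.2.2.2) j F ξ
  refine (le_of_eq ?_).trans h1
  refine Finset.sum_congr rfl fun k _ => ?_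
  rw [coef, slice_star]

theorem coef_near (hW : WindowData M N ζ U CM CN) (hU : IsModularGroup M ζ U)
    (hJ : IsModConj M ζ U J) (hζ : ‖ζ‖ = 1) (d : ℝ) (hd : 0 < d) {Y : L2 H →L[ℂ] L2 H}
    (hY : Y ∈ UU CN d) (k : ℤ) (F : Finset ℤ) :
    ∑ j ∈ F, ‖br J (coef Y d j k) ζ‖ ^ 2 ≤ (2 * (Real.exp (Real.pi * d) - 1)) ^ 2 := by
  have hYY := hY.2.2.2.1
  have hwc : WCom M U Y := hW.wcom (hW.sub hY.1)
  set v : L2 H := tens (gk d k) ζ with hv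
  have hvn : ‖v‖ = 1 := by rw [hv, gk_norm d hd k ζ, hζ]
  have hqv : mulOp (win d) v = v := win_gk d k ζ
  have he0 : 0 ≤ Real.exp (Real.pi * d) - 1 := by
    have : 1 ≤ Real.exp (Real.pi * d) := Real.one_le_exp (by positivity)
    linarith
  have hterm : ∀ j : ℤ, br J (coef Y d j k) ζ =
      (ContinuousLinearMap.adjoint (tens (gk d j) : H →L[ℂ] L2 H))
        (Y v - mulOp (wm d) (Y (mulOp (wp d) v))) := by
    intro j
    unfold br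
    rw [hJ.fix, map_sub, coef, slice_J hU hJ hwc d (memLp_gk d j) (memLp_gk d k)
      (gk_support d j) (gk_support d k)]
    rfl
  have h1 := GaJ_sum d hd (Y v - mulOp (wm d) (Y (mulOp (wp d) v))) F
  have h2 : ∑ j ∈ F, ‖br J (coef Y d j k) ζ‖ ^ 2 ≤
      ‖Y v - mulOp (wm d) (Y (mulOp (wp d) v))‖ ^ 2 := by
    refine (le_of_eq ?_).trans h1
    exact Finset.sum_congr rfl fun j _ => by rw [hterm j]
  refine h2.trans (pow_le_pow_left₀ (norm_nonneg _) ?_ 2)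
  have hqY : mulOp (win d) (Y v) = Y v := by
    have := congrArg (fun T : L2 H →L[ℂ] L2 H => T v) hY.2.1
    simpa using this
  have h3 : Y v - mulOp (wm d) (Y (mulOp (wp d) v)) =
      -(mulOp (wm d) (Y v) - mulOp (win d) (Y v))
        + -(mulOp (wm d) (Y (mulOp (wp d) v - mulOp (win d) v))) := by
    rw [hqY, hqv, map_sub, map_sub]
    abel
  have h4 : ‖mulOp (wm d) (Y v) - mulOp (win d) (Y v)‖ ≤ Real.exp (Real.pi * d) - 1 := by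
    refine (wm_sub_norm d hd (Y v)).trans ?_
    have := (GaJ_norm_le d hYY v)
    rw [hvn] at this
    calc (Real.exp (Real.pi * d) - 1) * ‖Y v‖ ≤ (Real.exp (Real.pi * d) - 1) * 1 :=
          mul_le_mul_of_nonneg_left this he0
      _ = _ := mul_one _
  have h5 : ‖mulOp (wm d) (Y (mulOp (wp d) v - mulOp (win d) v))‖ ≤
      Real.exp (Real.pi * d) - 1 := by
    refine (wm_norm d _).trans ((GaJ_norm_le d hYY _).trans ((wp_sub_norm d hd v).trans ?_))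
    rw [hvn, mul_one]
  rw [h3]
  refine (norm_add_le _ _).trans ?_
  rw [norm_neg, norm_neg]
  linarith

end H52BC
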