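import Pool.Agent.H52.BC.GaJ

/-!
Row GaK.  The Toeplitz property and the total mass of the commutators with `x`.

Notation `V_k = tens (gk d k)`, `q = mulOp (win d)`, `e = exp(π d) - 1`, `a_jk = coef Y d j k = slice Y (gk d j) (gk d k)`.
* `coef_toep`: `a_{j+1,k+1} = U (1/d) a_jk U (-(1/d))` (`slice_sigma`, `gk_shift`), `x = U r x U (-r)`, `U (-r) ζ = ζ`, `U r` isometric: so
  `‖(a_{j+1,k+1} x - x a_{j+1,k+1}) ζ‖ = ‖(a_jk x - x a_jk) ζ‖`; put `b l = ‖(a_{l,0} x - x a_{l,0}) ζ‖²` and induct (`Int.induction_on`).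
* `coef_sum`: `(a_{j,0} x - x a_{j,0}) ζ = V_j* (Y X - X Y) V_0 ζ`, `X = constOp x` (`const_tens`, `adj_tens_const`); `q (Y X - X Y) = Y X - X Y` (`q Y = Y`, `q X = X q`); `parseval`:
  `HasSum b ‖(YX - XY) V_0 ζ‖²`, and `‖(YX - XY) V_0 ζ‖ ≥ ‖(YX-XY) Ω‖ - ‖(YX-XY)(Ω - V_0 ζ)‖ ≥ δ - 2 ‖x‖ e ‖ζ‖` (`Ω - V_0 ζ = (m(wp) - q) V_0 ζ`).
-/

open MeasureTheory Filter Topology

noncomputable section

namespace H52BC

variable {H : Type*} [NormedAddCommGroup H] [InnerProductSpace ℂ H] [CompleteSpace H]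
variable {M N : VonNeumannAlgebra H} {ζ : H} {U : ℝ → H →L[ℂ] H} {J : H ≃ₗᵢ⋆[ℂ] H}
variable {CM CN : Set (L2 H →L[ℂ] L2 H)}

theorem coef_toep (hW : WindowData M N ζ U CM CN) (hU : IsModularGroup M ζ U)
    (d : ℝ) (hd : 0 < d) {Y : L2 H →L[ℂ] L2 H}
    (hY : Y ∈ UU CN d) (x : H →L[ℂ] H) (hxf : ∀ t : ℝ, U t * x * U (-t) = x) (j k : ℤ) :
    ‖(coef Y d j k * x - x * coef Y d j k) ζ‖ =
      ‖(coef Y d (j - k) 0 * x - x * coef Y d (j - k) 0) ζ‖ := by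
  have hwc := hW.wcom (hW.sub hY.1)
  have h1 : U ((k : ℝ) / d) * coef Y d (j - k) 0 * U (-((k : ℝ) / d)) = coef Y d j k := by
    unfold coef
    rw [slice_sigma hU hwc (memLp_gk d (j - k)) (memLp_gk d 0) ((k : ℝ) / d),
      gk_shift' d hd (j - k) k, gk_shift' d hd 0 k, sub_add_cancel, zero_add]
  have h2 : U (-((k : ℝ) / d)) * U ((k : ℝ) / d) = 1 := by
    rw [← hU.add, neg_add_cancel, hU.zero]
  have h3 := hxf ((k : ℝ) / d)
  generalize ((k : ℝ) / d) = r at h1 h2 h3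
  have e1 : coef Y d j k * x = U r * (coef Y d (j - k) 0 * x) * U (-r) := by
    calc coef Y d j k * x
        = (U r * coef Y d (j - k) 0 * U (-r)) * (U r * x * U (-r)) := by rw [h1, h3]
      _ = U r * coef Y d (j - k) 0 * (U (-r) * U r) * x * U (-r) := by simp only [mul_assoc]
      _ = U r * (coef Y d (j - k) 0 * x) * U (-r) := by rw [h2, mul_one]; simp only [mul_assoc]
  have e2 : x * coef Y d j k = U r * (x * coef Y d (j - k) 0) * U (-r) := by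
    calc x * coef Y d j k
        = (U r * x * U (-r)) * (U r * coef Y d (j - k) 0 * U (-r)) := by rw [h1, h3]
      _ = U r * x * (U (-r) * U r) * coef Y d (j - k) 0 * U (-r) := by simp only [mul_assoc]
      _ = U r * (x * coef Y d (j - k) 0) * U (-r) := by rw [h2, mul_one]; simp only [mul_assoc]
  have h4 : (coef Y d j k * x - x * coef Y d j k) ζ =
      U r ((coef Y d (j - k) 0 * x - x * coef Y d (j - k) 0) ζ) := by
    rw [e1, e2, ← sub_mul, ← mul_sub]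
    change U r ((coef Y d (j - k) 0 * x - x * coef Y d (j - k) 0) (U (-r) ζ)) = _
    rw [hU.fix]
  rw [h4, U_norm_apply hU]

theorem GaK_Y_norm {d : ℝ} {Y : L2 H →L[ℂ] L2 H} (hY : Y ∈ UU CN d) (v : L2 H) :
    ‖Y v‖ ≤ ‖v‖ := by
  have h1 : star Y * Y = mulOp (win d) := hY.2.2.2.1
  have h3 : inner ℂ (Y v) (Y v) = inner ℂ v ((mulOp (win d) : L2 H →L[ℂ] L2 H) v) := by
    rw [← h1]
    change _ = inner ℂ v ((star Y) (Y v))
    rw [ContinuousLinearMap.star_eq_adjoint, ContinuousLinearMap.adjoint_inner_right]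
  have h4 : ‖Y v‖ ^ 2 = ‖(inner ℂ (Y v) (Y v) : ℂ)‖ := by
    rw [inner_self_eq_norm_sq_to_K]
    simp
  have h5 : ‖Y v‖ ^ 2 ≤ ‖v‖ ^ 2 := by
    rw [h4, h3, pow_two]
    exact (norm_inner_le_norm _ _).trans
      (mul_le_mul_of_nonneg_left (win_norm d v) (norm_nonneg _))
  exact (sq_le_sq₀ (norm_nonneg _) (norm_nonneg _)).1 h5

theorem GaK_const_norm (x : H →L[ℂ] H) (v : L2 H) : ‖constOp x v‖ ≤ ‖x‖ * ‖v‖ :=
  ((constOp x).le_opNorm v).trans
    (mul_le_mul_of_nonneg_right (constOp_norm_le x) (norm_nonneg _))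

theorem GaK_comm_norm {d : ℝ} {Y : L2 H →L[ℂ] L2 H} (hY : Y ∈ UU CN d) (x : H →L[ℂ] H)
    (v : L2 H) : ‖(Y * constOp x - constOp x * Y) v‖ ≤ 2 * ‖x‖ * ‖v‖ := by
  change ‖Y (constOp x v) - constOp x (Y v)‖ ≤ _
  have h1 : ‖Y (constOp x v)‖ ≤ ‖x‖ * ‖v‖ := (GaK_Y_norm hY _).trans (GaK_const_norm x v)
  have h2 : ‖constOp x (Y v)‖ ≤ ‖x‖ * ‖v‖ :=
    (GaK_const_norm x _).trans (mul_le_mul_of_nonneg_left (GaK_Y_norm hY v) (norm_nonneg _))
  have h3 := norm_sub_le (Y (constOp x v)) (constOp x (Y v))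
  linarith

theorem coef_sum (hζ : ‖ζ‖ = 1) (d : ℝ) (hd : 0 < d) {Y : L2 H →L[ℂ] L2 H}
    (hY : Y ∈ UU CN d) (x : H →L[ℂ] H) (δ : ℝ)
    (hδ : δ ≤ ‖(Y * constOp x - constOp x * Y) (Om d ζ)‖) :
    ∃ B : ℝ, HasSum (fun l : ℤ => ‖(coef Y d l 0 * x - x * coef Y d l 0) ζ‖ ^ 2) (B ^ 2) ∧
      δ - 2 * ‖x‖ * (Real.exp (Real.pi * d) - 1) ≤ B := by
  have hq1 : mulOp (win d) * Y = Y := hY.2.1
  have hF : (mulOp (win d) : L2 H →L[ℂ] L2 H)
      ((Y * constOp x - constOp x * Y) (tens (gk d 0) ζ)) =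
      (Y * constOp x - constOp x * Y) (tens (gk d 0) ζ) := by
    have e : (mulOp (win d) : L2 H →L[ℂ] L2 H) * (Y * constOp x - constOp x * Y) =
        Y * constOp x - constOp x * Y := by
      rw [mul_sub, ← mul_assoc, hq1, ← mul_assoc, mulOp_const (BM_win d) x, mul_assoc, hq1]
    exact congrArg (fun T : L2 H →L[ℂ] L2 H => T (tens (gk d 0) ζ)) e
  have hterm : ∀ l : ℤ, (coef Y d l 0 * x - x * coef Y d l 0) ζ =
      (ContinuousLinearMap.adjoint (tens (gk d l) : H →L[ℂ] L2 H))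
        ((Y * constOp x - constOp x * Y) (tens (gk d 0) ζ)) := by
    intro l
    have c1 : constOp x (tens (gk d 0) ζ) = tens (gk d 0) (x ζ) :=
      congrArg (fun T : H →L[ℂ] L2 H => T ζ) (const_tens (memLp_gk d 0) x)
    have c2 : (ContinuousLinearMap.adjoint (tens (gk d l) : H →L[ℂ] L2 H))
        (constOp x (Y (tens (gk d 0) ζ))) =
        x ((ContinuousLinearMap.adjoint (tens (gk d l) : H →L[ℂ] L2 H)) (Y (tens (gk d 0) ζ))) :=
      congrArg (fun T : L2 H →L[ℂ] H => T (Y (tens (gk d 0) ζ))) (adj_tens_const (memLp_gk d l) x)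
    change slice Y (gk d l) (gk d 0) (x ζ) - x (slice Y (gk d l) (gk d 0) ζ) =
      (ContinuousLinearMap.adjoint (tens (gk d l) : H →L[ℂ] L2 H))
        (Y (constOp x (tens (gk d 0) ζ)) - constOp x (Y (tens (gk d 0) ζ)))
    rw [map_sub, c1, c2]
    rfl
  have hsum := parseval d hd ((Y * constOp x - constOp x * Y) (tens (gk d 0) ζ) : L2 H)
  rw [hF] at hsum
  refine ⟨‖(Y * constOp x - constOp x * Y) (tens (gk d 0) ζ)‖, ?_, ?_⟩
  · have e : (fun l : ℤ => ‖(coef Y d l 0 * x - x * coef Y d l 0) ζ‖ ^ 2) =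
        fun l : ℤ => ‖(ContinuousLinearMap.adjoint (tens (gk d l) : H →L[ℂ] L2 H))
          ((Y * constOp x - constOp x * Y) (tens (gk d 0) ζ))‖ ^ 2 := by
      funext l
      rw [hterm l]
    rw [e]
    exact hsum
  · have h1 : ‖Om d ζ - tens (gk d 0) ζ‖ ≤ Real.exp (Real.pi * d) - 1 := by
      have h2 := wp_sub_norm d hd (tens (gk d 0) ζ : L2 H)
      rw [win_gk, gk_norm d hd, hζ, mul_one] at h2
      exact h2
    have h3 := GaK_comm_norm hY x (Om d ζ - tens (gk d 0) ζ)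
    have h4 : (Y * constOp x - constOp x * Y) (Om d ζ) =
        (Y * constOp x - constOp x * Y) (tens (gk d 0) ζ) +
          (Y * constOp x - constOp x * Y) (Om d ζ - tens (gk d 0) ζ) := by
      rw [← map_add, add_sub_cancel]
    have h5 : ‖(Y * constOp x - constOp x * Y) (Om d ζ)‖ ≤
        ‖(Y * constOp x - constOp x * Y) (tens (gk d 0) ζ)‖ +
          ‖(Y * constOp x - constOp x * Y) (Om d ζ - tens (gk d 0) ζ)‖ := by
      rw [h4]
      exact norm_add_le _ _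
    have h6 : 2 * ‖x‖ * ‖Om d ζ - tens (gk d 0) ζ‖ ≤ 2 * ‖x‖ * (Real.exp (Real.pi * d) - 1) :=
      mul_le_mul_of_nonneg_left h1 (by positivity)
    linarith

end H52BC
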