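import Mathlib

/-!
Row GbS.  Toeplitz sums (elementary real analysis).

`b ≥ 0` on `ℤ` with sum `B`, `c < B`: for `m` large `Σ_{j,k < m} b(j-k) ≥ m c`.
Proof: choose a finite set `F ⊆ [-L, L]` with `Σ_F b ≥ c' ` where `c < c' < B` (`HasSum`, or `c'` with `tsum`), then for `m > L`: each `l` with `|l| ≤ L` occurs at least `m - L` times as
`j - k` (`k` from `max 0 (-l)` ..), so the sum is `≥ (m - L) c'`, and `(m - L) c' ≥ m c` for `m ≥ L c'/(c' - c)` (if `c ≤ 0` trivial).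
-/

open Filter Topology

noncomputable section

namespace H52BC

theorem toeplitz_sum (b : ℤ → ℝ) (hb : ∀ l, 0 ≤ b l) (B c : ℝ) (hB : HasSum b B) (hc : c < B) :
    ∃ m : ℕ, 0 < m ∧
      (m : ℝ) * c ≤ ∑ j : Fin m, ∑ k : Fin m, b ((j : ℕ) - (k : ℕ) : ℤ) := by
  by_cases hc0 : c ≤ 0
  · refine ⟨1, one_pos, ?_⟩
    have h1 : (0 : ℝ) ≤ ∑ j : Fin 1, ∑ k : Fin 1, b ((j : ℕ) - (k : ℕ) : ℤ) :=
      Finset.sum_nonneg fun j _ => Finset.sum_nonneg fun k _ => hb _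
    have h2 : ((1 : ℕ) : ℝ) * c ≤ 0 := by simpa using hc0
    exact h2.trans h1
  push Not at hc0
  obtain ⟨c', hc1, hc2⟩ := exists_between hc
  -- a finite set of large sum
  obtain ⟨F, hF⟩ : ∃ F : Finset ℤ, c' < ∑ l ∈ F, b l :=
    ((hB.eventually (lt_mem_nhds hc2)).exists)
  -- bound of the set
  obtain ⟨L, hL⟩ : ∃ L : ℕ, ∀ l ∈ F, l.natAbs ≤ L :=
    ⟨F.sup Int.natAbs, fun l hl => Finset.le_sup (f := Int.natAbs) hl⟩
  -- the choice of m
  obtain ⟨M, hM⟩ := exists_nat_ge (2 * (L : ℝ) * c' / (c' - c))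
  have hpos : 0 < c' - c := sub_pos.2 hc1
  set m : ℕ := M + 2 * L + 1 with hm
  refine ⟨m, by omega, ?_⟩
  have key : ∀ k ∈ Finset.Ico L (m - L),
      c' ≤ ∑ j ∈ Finset.range m, b ((j : ℤ) - (k : ℤ)) := by
    intro k hk
    rw [Finset.mem_Ico] at hk
    have hinj : Set.InjOn (fun l : ℤ => (l + (k : ℤ)).toNat) (F : Set ℤ) := by
      intro l₁ h₁ l₂ h₂ h
      have e₁ := hL l₁ h₁
      have e₂ := hL l₂ h₂
      simp only at h
      omega
    have hsum : ∑ l ∈ F, b l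
        = ∑ j ∈ F.image (fun l : ℤ => (l + (k : ℤ)).toNat), b ((j : ℤ) - (k : ℤ)) := by
      rw [Finset.sum_image hinj]
      refine Finset.sum_congr rfl fun l hl => ?_
      have e := hL l hl
      congr 1
      omega
    have hsub : F.image (fun l : ℤ => (l + (k : ℤ)).toNat) ⊆ Finset.range m := by
      intro j hj
      obtain ⟨l, hl, rfl⟩ := Finset.mem_image.1 hj
      have e := hL l hl
      rw [Finset.mem_range]
      omega
    calc c' ≤ ∑ l ∈ F, b l := hF.le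
      _ = _ := hsum
      _ ≤ _ := Finset.sum_le_sum_of_subset_of_nonneg hsub fun j _ _ => hb _
  have hswap : ∑ j : Fin m, ∑ k : Fin m, b ((j : ℕ) - (k : ℕ) : ℤ)
      = ∑ k ∈ Finset.range m, ∑ j ∈ Finset.range m, b ((j : ℤ) - (k : ℤ)) := by
    rw [Finset.sum_comm, Finset.sum_range]
    refine Finset.sum_congr rfl fun k _ => ?_
    rw [Finset.sum_range]
  rw [hswap]
  have hsub2 : Finset.Ico L (m - L) ⊆ Finset.range m := by
    intro k hk
    rw [Finset.mem_Ico] at hk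
    rw [Finset.mem_range]
    omega
  have hcard : (Finset.Ico L (m - L)).card = M + 1 := by
    rw [Nat.card_Ico]
    omega
  have h3 : ((M + 1 : ℕ) : ℝ) * c' ≤
      ∑ k ∈ Finset.range m, ∑ j ∈ Finset.range m, b ((j : ℤ) - (k : ℤ)) := by
    calc ((M + 1 : ℕ) : ℝ) * c' = ∑ _k ∈ Finset.Ico L (m - L), c' := by
          rw [Finset.sum_const, hcard, nsmul_eq_mul]
      _ ≤ ∑ k ∈ Finset.Ico L (m - L), ∑ j ∈ Finset.range m, b ((j : ℤ) - (k : ℤ)) :=
          Finset.sum_le_sum key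
      _ ≤ _ := Finset.sum_le_sum_of_subset_of_nonneg hsub2
          fun k _ _ => Finset.sum_nonneg fun j _ => hb _
  refine le_trans ?_ h3
  have hM' : 2 * (L : ℝ) * c' ≤ M * (c' - c) := (div_le_iff₀ hpos).1 hM
  have hmr : (m : ℝ) = M + 2 * L + 1 := by rw [hm]; push_cast; ring
  rw [hmr]
  push_cast
  have hL0 : (0 : ℝ) ≤ L := Nat.cast_nonneg _
  nlinarith [mul_nonneg hL0 hpos.le]

end H52BC
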