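import Pool.Agent.H52.BC.MdI

/-!
Row GhF.  From a finite matrix `(a_jk)` to a finite family of self-adjoint elements (section 3).

`h (j,k,true) = (1/(2√m)) • (a + star a)`, `h (j,k,false) = (1/(2√m)) • ((-i) • (a - star a))`, `a = a_jk`, index set `ι = Fin m × Fin m × Bool`.
* parallelogram law: `‖u+v‖² + ‖u-v‖² = 2 (‖u‖² + ‖v‖²)`; `|−i| = 1`.  So `Σ_{h} ‖h ξ‖² = (1/(2m)) Σ_{jk} (‖a ξ‖² + ‖star a ξ‖²) ≤ (1/(2m)) (m ‖ξ‖² + m ‖ξ‖²) = ‖ξ‖²`.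
* `br J` is linear in `a`: `br J (a + b) = br J a + br J b`, `br J (c • a) ξ = c • br J a ξ` (`star (c • a) = conj c • star a`, `J` conjugate linear).  Hence
  `Σ_h ‖br J h ξ‖² = (1/(2m)) Σ_{jk} (‖br J a ξ‖² + ‖br J (star a) ξ‖²)`.
* `ξ = ζ`, `J ζ = ζ`: `br J (star a) ζ = star a ζ - J (a ζ) = -J (br J a ζ)`, so `‖br J (star a) ζ‖ = ‖br J a ζ‖` and the sum is `(1/m) Σ_jk ‖br J a_jk ζ‖² ≤ e`.
* `ξ = x ζ`: `J (star a (J (x ζ))) = x (J (star a (J ζ)))` (`hcomm` with `star a` and `x`; `a ∈ N ≤ M` star closed), so `br J a (x ζ) = (a x - x a) ζ + x (br J a ζ)`,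
  `‖u + v‖² ≥ ‖u‖²/2 - ‖v‖²`, so `Σ_h ‖br J h (xζ)‖² ≥ (1/(2m)) Σ_jk (‖(a x - x a) ζ‖²/2 - ‖x‖² ‖br J a ζ‖²) ≥ (1/(2m)) (m c/2 - m ‖x‖² e) = c/4 - ‖x‖² e/2`.
-/

open Filter Topology

noncomputable section

namespace H52BC

variable {H : Type*} [NormedAddCommGroup H] [InnerProductSpace ℂ H] [CompleteSpace H]
variable {M N : VonNeumannAlgebra H} {ζ : H} {U : ℝ → H →L[ℂ] H} {J : H ≃ₗᵢ⋆[ℂ] H}

omit [CompleteSpace H] in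
theorem ghf_par (c0 : ℝ) (u v : H) :
    ‖((c0 : ℝ) : ℂ) • (u + v)‖ ^ 2 + ‖((c0 : ℝ) : ℂ) • ((-Complex.I) • (u - v))‖ ^ 2 =
      2 * c0 ^ 2 * (‖u‖ ^ 2 + ‖v‖ ^ 2) := by
  have h := parallelogram_law_with_norm ℂ u v
  rw [norm_smul, norm_smul, norm_smul, norm_neg, Complex.norm_I, one_mul, Complex.norm_real,
    mul_pow, mul_pow, Real.norm_eq_abs, sq_abs]
  rw [← mul_add, h]
  ring

theorem ghf_br_add (J : H ≃ₗᵢ⋆[ℂ] H) (a b : H →L[ℂ] H) (ξ : H) :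
    br J (a + b) ξ = br J a ξ + br J b ξ := by
  unfold br
  rw [star_add]
  change a ξ + b ξ - J (star a (J ξ) + star b (J ξ)) = _
  rw [map_add]
  abel

theorem ghf_br_smul (J : H ≃ₗᵢ⋆[ℂ] H) (c : ℂ) (a : H →L[ℂ] H) (ξ : H) :
    br J (c • a) ξ = c • br J a ξ := by
  unfold br
  rw [star_smul]
  change c • a ξ - J (star c • star a (J ξ)) = _
  rw [map_smulₛₗ, smul_sub]
  congr 2
  exact Complex.conj_conj c

theorem ghf_br_sub (J : H ≃ₗᵢ⋆[ℂ] H) (a b : H →L[ℂ] H) (ξ : H) :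
    br J (a - b) ξ = br J a ξ - br J b ξ := by
  unfold br
  rw [star_sub]
  change a ξ - b ξ - J (star a (J ξ) - star b (J ξ)) = _
  rw [map_sub]
  abel

/-- The self-adjoint family. -/
def ghf_h {m : ℕ} (c0 : ℝ) (a : Fin m → Fin m → H →L[ℂ] H) (i : Fin m × Fin m × Bool) :
    H →L[ℂ] H :=
  if i.2.2 = true then ((c0 : ℝ) : ℂ) • (a i.1 i.2.1 + star (a i.1 i.2.1))
  else ((c0 : ℝ) : ℂ) • ((-Complex.I) • (a i.1 i.2.1 - star (a i.1 i.2.1)))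

theorem ghf_sum {m : ℕ} (c0 : ℝ) (a : Fin m → Fin m → H →L[ℂ] H) (L : (H →L[ℂ] H) → H)
    (hadd : ∀ x y, L (x + y) = L x + L y) (hsub : ∀ x y, L (x - y) = L x - L y)
    (hsmul : ∀ (c : ℂ) x, L (c • x) = c • L x) :
    ∑ i, ‖L (ghf_h c0 a i)‖ ^ 2 =
      2 * c0 ^ 2 * ((∑ j, ∑ k, ‖L (a j k)‖ ^ 2) + ∑ j, ∑ k, ‖L (star (a j k))‖ ^ 2) := by
  rw [Fintype.sum_prod_type]
  rw [← Finset.sum_add_distrib, Finset.mul_sum]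
  refine Finset.sum_congr rfl fun j _ => ?_
  rw [Fintype.sum_prod_type, ← Finset.sum_add_distrib, Finset.mul_sum]
  refine Finset.sum_congr rfl fun k _ => ?_
  rw [Fintype.sum_bool]
  have e1 : ghf_h c0 a (j, k, true) = ((c0 : ℝ) : ℂ) • (a j k + star (a j k)) := by
    unfold ghf_h
    rw [if_pos rfl]
  have e2 : ghf_h c0 a (j, k, false) =
      ((c0 : ℝ) : ℂ) • ((-Complex.I) • (a j k - star (a j k))) := by
    unfold ghf_h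
    rw [if_neg (by simp)]
  rw [e1, e2, hsmul, hsmul, hsmul, hadd, hsub, ghf_par]

theorem ghf_star_star (J : H ≃ₗᵢ⋆[ℂ] H) (hJJ : ∀ ξ, J (J ξ) = ξ) (hfix : J ζ = ζ)
    (a : H →L[ℂ] H) : ‖br J (star a) ζ‖ = ‖br J a ζ‖ := by
  have e : br J (star a) ζ = -J (br J a ζ) := by
    unfold br
    rw [hfix, star_star, map_sub, hJJ]
    abel
  rw [e, norm_neg, J.norm_map]

omit [InnerProductSpace ℂ H] [CompleteSpace H] in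
theorem ghf_lower (u v : H) : ‖u‖ ^ 2 / 2 - ‖v‖ ^ 2 ≤ ‖u + v‖ ^ 2 := by
  have h1 : ‖u‖ ≤ ‖u + v‖ + ‖v‖ := by
    have := norm_sub_le (u + v) v
    rwa [add_sub_cancel_right] at this
  have h2 : ‖u‖ ^ 2 ≤ (‖u + v‖ + ‖v‖) ^ 2 := pow_le_pow_left₀ (norm_nonneg _) h1 2
  nlinarith [sq_nonneg (‖u + v‖ - ‖v‖)]

theorem family_of_matrix (hNM : N ≤ M) (hJ : IsModConj M ζ U J) (x : H →L[ℂ] H) (hx : x ∈ M)
    (m : ℕ) (hm : 0 < m) (a : Fin m → Fin m → H →L[ℂ] H) (ha : ∀ j k, a j k ∈ N)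
    (hcol : ∀ k ξ, ∑ j, ‖a j k ξ‖ ^ 2 ≤ ‖ξ‖ ^ 2)
    (hrow : ∀ j ξ, ∑ k, ‖star (a j k) ξ‖ ^ 2 ≤ ‖ξ‖ ^ 2) (e c : ℝ)
    (hnear : ∀ k, ∑ j, ‖br J (a j k) ζ‖ ^ 2 ≤ e)
    (hc : (m : ℝ) * c ≤ ∑ j, ∑ k, ‖(a j k * x - x * a j k) ζ‖ ^ 2) :
    ∃ h : Fin m × Fin m × Bool → H →L[ℂ] H, (∀ i, h i ∈ N) ∧ (∀ i, star (h i) = h i) ∧
      (∀ ξ : H, ∑ i, ‖h i ξ‖ ^ 2 ≤ ‖ξ‖ ^ 2) ∧ (∑ i, ‖br J (h i) ζ‖ ^ 2 ≤ e) ∧
      c / 4 - ‖x‖ ^ 2 * e / 2 ≤ ∑ i, ‖br J (h i) (x ζ)‖ ^ 2 := by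
  have hm0 : (0 : ℝ) < m := Nat.cast_pos.2 hm
  obtain ⟨c0, hc0, hc1⟩ : ∃ c0 : ℝ, 0 ≤ c0 ∧ 2 * c0 ^ 2 * (2 * m) = 1 := by
    refine ⟨1 / (2 * Real.sqrt m), by positivity, ?_⟩
    have hs : Real.sqrt m ^ 2 = m := Real.sq_sqrt hm0.le
    have hs0 : Real.sqrt m ≠ 0 := (Real.sqrt_pos.2 hm0).ne'
    field_simp
    rw [hs]
  have hc2 : 0 ≤ 2 * c0 ^ 2 := by positivity
  have hJJ := hJ.invol
  have hswap : ∀ f : Fin m → Fin m → ℝ, ∑ j, ∑ k, f j k = ∑ k, ∑ j, f j k := fun f =>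
    Finset.sum_comm
  have hb1 : ∑ j, ∑ k, ‖br J (a j k) ζ‖ ^ 2 ≤ m * e := by
    rw [hswap]
    refine (Finset.sum_le_sum fun k _ => hnear k).trans ?_
    rw [Finset.sum_const, Finset.card_univ, Fintype.card_fin, nsmul_eq_mul]
  refine ⟨ghf_h c0 a, ?_, ?_, ?_, ?_, ?_⟩
  · intro i
    have h1 := ha i.1 i.2.1
    have h2 : star (a i.1 i.2.1) ∈ N := star_mem h1
    unfold ghf_h
    by_cases hi : i.2.2 = true
    · rw [if_pos hi]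
      exact N.toStarSubalgebra.smul_mem (add_mem h1 h2) _
    · rw [if_neg hi]
      exact N.toStarSubalgebra.smul_mem (N.toStarSubalgebra.smul_mem (sub_mem h1 h2) _) _
  · intro i
    unfold ghf_h
    by_cases hi : i.2.2 = true
    · rw [if_pos hi, star_smul, star_add, star_star, add_comm]
      congr 1
      exact Complex.conj_ofReal c0
    · rw [if_neg hi, star_smul, star_smul, star_sub, star_star]
      have e1 : star ((c0 : ℝ) : ℂ) = ((c0 : ℝ) : ℂ) := Complex.conj_ofReal c0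
      have e2 : star (-Complex.I) = Complex.I := by
        rw [star_neg]
        have : star Complex.I = -Complex.I := Complex.conj_I
        rw [this, neg_neg]
      rw [e1, e2, neg_smul, ← smul_neg, neg_sub]
  · intro ξ
    have h := ghf_sum c0 a (fun b => b ξ) (fun _ _ => rfl) (fun _ _ => rfl) (fun _ _ => rfl)
    rw [h]
    have h1 : ∑ j, ∑ k, ‖a j k ξ‖ ^ 2 ≤ m * ‖ξ‖ ^ 2 := by
      rw [hswap]
      refine (Finset.sum_le_sum fun k _ => hcol k ξ).trans ?_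
      rw [Finset.sum_const, Finset.card_univ, Fintype.card_fin, nsmul_eq_mul]
    have h2 : ∑ j, ∑ k, ‖star (a j k) ξ‖ ^ 2 ≤ m * ‖ξ‖ ^ 2 := by
      refine (Finset.sum_le_sum fun j _ => hrow j ξ).trans ?_
      rw [Finset.sum_const, Finset.card_univ, Fintype.card_fin, nsmul_eq_mul]
    calc 2 * c0 ^ 2 * ((∑ j, ∑ k, ‖a j k ξ‖ ^ 2) + ∑ j, ∑ k, ‖star (a j k) ξ‖ ^ 2)
        ≤ 2 * c0 ^ 2 * (m * ‖ξ‖ ^ 2 + m * ‖ξ‖ ^ 2) :=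
          mul_le_mul_of_nonneg_left (add_le_add h1 h2) hc2
      _ = (2 * c0 ^ 2 * (2 * m)) * ‖ξ‖ ^ 2 := by ring
      _ = ‖ξ‖ ^ 2 := by rw [hc1, one_mul]
  · have h := ghf_sum c0 a (fun b => br J b ζ) (fun _ _ => ghf_br_add J _ _ _)
      (fun _ _ => ghf_br_sub J _ _ _) (fun _ _ => ghf_br_smul J _ _ _)
    rw [h]
    have h2 : ∑ j, ∑ k, ‖br J (star (a j k)) ζ‖ ^ 2 = ∑ j, ∑ k, ‖br J (a j k) ζ‖ ^ 2 := by
      refine Finset.sum_congr rfl fun j _ => Finset.sum_congr rfl fun k _ => ?_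
      rw [ghf_star_star J hJJ hJ.fix]
    rw [h2]
    calc 2 * c0 ^ 2 * ((∑ j, ∑ k, ‖br J (a j k) ζ‖ ^ 2) + ∑ j, ∑ k, ‖br J (a j k) ζ‖ ^ 2)
        ≤ 2 * c0 ^ 2 * (m * e + m * e) :=
          mul_le_mul_of_nonneg_left (add_le_add hb1 hb1) hc2
      _ = (2 * c0 ^ 2 * (2 * m)) * e := by ring
      _ = e := by rw [hc1, one_mul]
  · have h := ghf_sum c0 a (fun b => br J b (x ζ)) (fun _ _ => ghf_br_add J _ _ _)
      (fun _ _ => ghf_br_sub J _ _ _) (fun _ _ => ghf_br_smul J _ _ _)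
    rw [h]
    have hpt : ∀ j k, ‖(a j k * x - x * a j k) ζ‖ ^ 2 / 2 - ‖x‖ ^ 2 * ‖br J (a j k) ζ‖ ^ 2 ≤
        ‖br J (a j k) (x ζ)‖ ^ 2 := by
      intro j k
      have haM : star (a j k) ∈ M := star_mem (hNM (ha j k))
      have h1 := hJ.mem (star (a j k)) haM x hx ζ
      have h2 : br J (a j k) (x ζ) = (a j k * x - x * a j k) ζ + x (br J (a j k) ζ) := by
        unfold br
        rw [h1, map_sub]
        change _ = (a j k (x ζ) - x (a j k ζ)) + (x (a j k ζ) - x (J (star (a j k) (J ζ))))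
        abel
      rw [h2]
      refine le_trans ?_ (ghf_lower _ _)
      have h3 : ‖x (br J (a j k) ζ)‖ ^ 2 ≤ ‖x‖ ^ 2 * ‖br J (a j k) ζ‖ ^ 2 := by
        rw [← mul_pow]
        exact pow_le_pow_left₀ (norm_nonneg _) (x.le_opNorm _) 2
      linarith
    have h4 : ∑ j, ∑ k, (‖(a j k * x - x * a j k) ζ‖ ^ 2 / 2 - ‖x‖ ^ 2 * ‖br J (a j k) ζ‖ ^ 2) ≤
        ∑ j, ∑ k, ‖br J (a j k) (x ζ)‖ ^ 2 :=
      Finset.sum_le_sum fun j _ => Finset.sum_le_sum fun k _ => hpt j k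
    have h5 : ∑ j, ∑ k, (‖(a j k * x - x * a j k) ζ‖ ^ 2 / 2 - ‖x‖ ^ 2 * ‖br J (a j k) ζ‖ ^ 2) =
        (∑ j, ∑ k, ‖(a j k * x - x * a j k) ζ‖ ^ 2) / 2 -
          ‖x‖ ^ 2 * ∑ j, ∑ k, ‖br J (a j k) ζ‖ ^ 2 := by
      simp only [Finset.sum_sub_distrib, Finset.sum_div, Finset.mul_sum]
    have h6 : ‖x‖ ^ 2 * ∑ j, ∑ k, ‖br J (a j k) ζ‖ ^ 2 ≤ ‖x‖ ^ 2 * (m * e) :=
      mul_le_mul_of_nonneg_left hb1 (sq_nonneg _)
    have h7 : 0 ≤ ∑ j, ∑ k, ‖br J (star (a j k)) (x ζ)‖ ^ 2 :=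
      Finset.sum_nonneg fun j _ => Finset.sum_nonneg fun k _ => sq_nonneg _
    have h8 : m * c / 2 - ‖x‖ ^ 2 * (m * e) ≤
        (∑ j, ∑ k, ‖br J (a j k) (x ζ)‖ ^ 2) + ∑ j, ∑ k, ‖br J (star (a j k)) (x ζ)‖ ^ 2 := by
      linarith
    calc c / 4 - ‖x‖ ^ 2 * e / 2
        = (2 * c0 ^ 2 * (2 * m)) * (c / 4 - ‖x‖ ^ 2 * e / 2) := by rw [hc1, one_mul]
      _ = 2 * c0 ^ 2 * (m * c / 2 - ‖x‖ ^ 2 * (m * e)) := by ring
      _ ≤ _ := mul_le_mul_of_nonneg_left h8 hc2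

end H52BC
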