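import Pool.Agent.H52.BC.GaK
import Pool.Agent.H52.BC.GbS
import Pool.Agent.H52.BC.GhF

/-!
Row GfA.  The finite families (end of section 3).

Given `e0 > 0` choose `d > 0` so small that with `e = exp(π d) - 1` (tends to `0`): `(2 e)² ≤ e0`, `2 ‖x‖ e ≤ D/4`, `‖x‖² (2e)²/2 ≤ D²/512`.
By `window_claim` (contrapositive, `ε = D/2`: for real `c` `‖c ζ - x ζ‖ ≥ D > D/2`) there is `Y ∈ UU CN d` with `‖(YX - XY) Ω‖ > D/2`.  `coef_sum` with `δ = D/2`: `B ≥ D/4`, `HasSum b (B²)`, `B² ≥ D²/16`.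
`toeplitz_sum` with `c = D²/64 < B²`: `m`.  `a j k = coef Y d j k` (`j k : Fin m`, cast to `ℤ`), `coef_toep`; `family_of_matrix` with `(2e)²` and `c = D²/64`:
`Σ ‖br J h (xζ)‖² ≥ D²/256 - ‖x‖² (2e)²/2 ≥ D²/512`.  (`coef_col` etc. are for sums over `Finset ℤ`: use the image of `Fin m`, `Finset.sum_map`/`Finset.sum_image`.)
-/

open MeasureTheory Filter Topology

noncomputable section

namespace H52BC

variable {H : Type*} [NormedAddCommGroup H] [InnerProductSpace ℂ H] [CompleteSpace H]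
variable {M N : VonNeumannAlgebra H} {ζ : H} {U : ℝ → H →L[ℂ] H} {J : H ≃ₗᵢ⋆[ℂ] H}
variable {CM CN : Set (L2 H →L[ℂ] L2 H)}

theorem exists_family (hNM : N ≤ M) (hW : WindowData M N ζ U CM CN) (hU : IsModularGroup M ζ U)
    (hJ : IsModConj M ζ U J) (hζ : ‖ζ‖ = 1) (hsep : ∀ x ∈ M, x ζ = 0 → x = 0)
    (x : H →L[ℂ] H) (hx : x ∈ M) (hxs : star x = x) (hxf : ∀ t : ℝ, U t * x * U (-t) = x)
    (D : ℝ) (hD : 0 < D) (hDx : ∀ c : ℝ, D ≤ ‖(c : ℂ) • ζ - x ζ‖) (e0 : ℝ) (he0 : 0 < e0) :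
    ∃ (m : ℕ) (_ : 0 < m) (h : Fin m × Fin m × Bool → H →L[ℂ] H), (∀ i, h i ∈ N) ∧
      (∀ i, star (h i) = h i) ∧ (∀ ξ : H, ∑ i, ‖h i ξ‖ ^ 2 ≤ ‖ξ‖ ^ 2) ∧
      (∑ i, ‖br J (h i) ζ‖ ^ 2 ≤ e0) ∧ D ^ 2 / 512 ≤ ∑ i, ‖br J (h i) (x ζ)‖ ^ 2 := by
  have h1 : ∀ᶠ d : ℝ in 𝓝 0, (2 * (Real.exp (Real.pi * d) - 1)) ^ 2 < e0 := by
    have hc : Continuous fun d : ℝ => (2 * (Real.exp (Real.pi * d) - 1)) ^ 2 := by fun_prop
    have := hc.tendsto 0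
    refine this.eventually (gt_mem_nhds ?_)
    simpa using he0
  have h2 : ∀ᶠ d : ℝ in 𝓝 0, 2 * ‖x‖ * (Real.exp (Real.pi * d) - 1) < D / 4 := by
    have hc : Continuous fun d : ℝ => 2 * ‖x‖ * (Real.exp (Real.pi * d) - 1) := by fun_prop
    have := hc.tendsto 0
    refine this.eventually (gt_mem_nhds ?_)
    simpa using hD
  have h3 : ∀ᶠ d : ℝ in 𝓝 0,
      ‖x‖ ^ 2 * (2 * (Real.exp (Real.pi * d) - 1)) ^ 2 / 2 < D ^ 2 / 512 := by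
    have hc : Continuous fun d : ℝ => ‖x‖ ^ 2 * (2 * (Real.exp (Real.pi * d) - 1)) ^ 2 / 2 := by
      fun_prop
    have := hc.tendsto 0
    refine this.eventually (gt_mem_nhds ?_)
    have : 0 < D ^ 2 / 512 := by positivity
    simpa using this
  obtain ⟨d, ⟨⟨h1d, h2d⟩, h3d⟩, hd⟩ :=
    (((eventually_nhdsWithin_of_eventually_nhds (s := Set.Ioi (0 : ℝ)) ((h1.and h2).and h3)).and
      self_mem_nhdsWithin)).exists
  have hd : 0 < d := hd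
  have hex : ∃ Y ∈ UU CN d, D / 2 < ‖(Y * constOp x - constOp x * Y) (Om d ζ)‖ := by
    by_contra hcon
    push Not at hcon
    obtain ⟨c, hc⟩ := window_claim hW hU hJ hsep d hd x hx hxs hxf (D / 2) hcon
    have := hDx c
    linarith
  obtain ⟨Y, hY, hYD⟩ := hex
  obtain ⟨B, hB, hBD⟩ := coef_sum hζ d hd hY x (D / 2) hYD.le
  have hB4 : D / 4 ≤ B := by linarith
  have hB2 : D ^ 2 / 64 < B ^ 2 := by nlinarith
  obtain ⟨m, hm, hmS⟩ := toeplitz_sum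
    (fun l : ℤ => ‖(coef Y d l 0 * x - x * coef Y d l 0) ζ‖ ^ 2) (fun l => by positivity)
    (B ^ 2) (D ^ 2 / 64) hB hB2
  have hinj : Function.Injective (fun j : Fin m => ((j : ℕ) : ℤ)) := by
    intro a b hab
    have hab' : ((a : ℕ) : ℤ) = ((b : ℕ) : ℤ) := hab
    exact Fin.ext (by exact_mod_cast hab')
  have hsum : ∀ f : ℤ → ℝ, ∑ j : Fin m, f ((j : ℕ) : ℤ) =
      ∑ j ∈ (Finset.univ.map ⟨fun j : Fin m => ((j : ℕ) : ℤ), hinj⟩), f j := by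
    intro f
    rw [Finset.sum_map]
    rfl
  obtain ⟨h, hN, hs, hle, hn, hb⟩ := family_of_matrix hNM hJ x hx m hm
    (fun j k => coef Y d ((j : ℕ) : ℤ) ((k : ℕ) : ℤ)) (fun j k => coef_mem hW d hY _ _)
    (fun k ξ => by
      rw [hsum fun j => ‖coef Y d j ((k : ℕ) : ℤ) ξ‖ ^ 2]
      exact coef_col d hd hY _ _ ξ)
    (fun j ξ => by
      rw [hsum fun k => ‖star (coef Y d ((j : ℕ) : ℤ) k) ξ‖ ^ 2]
      exact coef_row d hd hY _ _ ξ)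
    ((2 * (Real.exp (Real.pi * d) - 1)) ^ 2) (D ^ 2 / 64)
    (fun k => by
      rw [hsum fun j => ‖br J (coef Y d j ((k : ℕ) : ℤ)) ζ‖ ^ 2]
      exact coef_near hW hU hJ hζ d hd hY _ _)
    (by
      refine hmS.trans (le_of_eq ?_)
      refine Finset.sum_congr rfl fun j _ => Finset.sum_congr rfl fun k _ => ?_
      exact congrArg (fun r : ℝ => r ^ 2)
        (coef_toep hW hU d hd hY x hxf ((j : ℕ) : ℤ) ((k : ℕ) : ℤ)).symm)
  exact ⟨m, hm, h, hN, hs, hle, hn.trans h1d.le, by linarith⟩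

end H52BC
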