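import Pool.Agent.H52.BC.HsC

/-!
Final assembly (PI).
-/

open MeasureTheory Filter Topology

noncomputable section

namespace H52BC

variable {H : Type*} [NormedAddCommGroup H] [InnerProductSpace ℂ H] [CompleteSpace H]

theorem main_theorem (M N : VonNeumannAlgebra H) (hNM : N ≤ M) (ζ : H) (hζ : ‖ζ‖ = 1)
    (hcyc : Dense {ξ : H | ∃ x ∈ M, ξ = x ζ}) (hsep : ∀ x ∈ M, x ζ = 0 → x = 0)
    (E : (H →L[ℂ] H) → (H →L[ℂ] H)) (hE : IsCondExp M N ζ E)
    (U : ℝ → H →L[ℂ] H) (hU : IsModularGroup M ζ U)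
    (hirr : ∀ Z ∈ core M U, (∀ Y ∈ core N U, Y * Z = Z * Y) →
      ∃ c : ℂ, Z = c • (1 : L2 H →L[ℂ] L2 H)) :
    ∀ x ∈ relBicentralizer N M ζ, (∀ t : ℝ, U t * x * U (-t) = x) →
      ∃ c : ℂ, x = c • (1 : H →L[ℂ] H) := by
  intro x hx hxf
  obtain ⟨J, hJ⟩ := exists_modConj hU hcyc
  have hinv := condExp_invariant hNM hcyc hsep hU hE
  obtain ⟨CM, CN, hW⟩ := exists_windowData hNM hU hinv hirr
  have hxs := rel_star hx
  have hsf : ∀ t : ℝ, U t * star x * U (-t) = star x := by
    intro t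
    have h := congrArg star (hxf t)
    rw [star_mul, star_mul, hU.star_eq, hU.star_eq, neg_neg, ← mul_assoc] at h
    exact h
  -- real part
  have h1 := fixed_scalar hNM hW hU hJ hζ hsep (x + star x) (rel_add hx hxs)
    (by rw [star_add, star_star, add_comm])
    (by
      intro t
      rw [mul_add, add_mul, hxf t, hsf t])
  have h2 := fixed_scalar hNM hW hU hJ hζ hsep (Complex.I • (x - star x))
    (by
      have := rel_smul Complex.I (rel_add hx (rel_smul (-1) hxs))
      have e : x + (-1 : ℂ) • star x = x - star x := by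
        rw [neg_one_smul, sub_eq_add_neg]
      rwa [e] at this)
    (by
      rw [star_smul, star_sub, star_star]
      have : star Complex.I = -Complex.I := by
        rw [Complex.star_def, Complex.conj_I]
      rw [this, neg_smul, ← smul_neg, neg_sub])
    (by
      intro t
      rw [mul_smul_comm, smul_mul_assoc, mul_sub, sub_mul, hxf t, hsf t])
  obtain ⟨a, ha⟩ := h1
  obtain ⟨b, hb⟩ := h2
  refine ⟨(a + -Complex.I * b) / 2, ?_⟩
  have hb' : x - star x = (-Complex.I * b) • (1 : H →L[ℂ] H) := by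
    rw [mul_smul, ← hb, smul_smul]
    simp
  have : (2 : ℂ) • x = (a + -Complex.I * b) • (1 : H →L[ℂ] H) := by
    rw [add_smul, ← ha, ← hb', two_smul]
    abel
  rw [div_eq_inv_mul, mul_smul, ← this, smul_smul]
  simp

end H52BC
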