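import Pool.Agent.H52.BC.Tech

/-!
Row HrB.  `B(N ⊆ M, φ)` is closed under `star`, sums, scalars (only these are needed).
-/

open MeasureTheory Filter Topology

noncomputable section

namespace H52BC

variable {H : Type*} [NormedAddCommGroup H] [InnerProductSpace ℂ H] [CompleteSpace H]
variable {M N : VonNeumannAlgebra H} {ζ : H}

theorem vst_star_aux (z : H →L[ℂ] H) : vst ζ (star z) = (starRingEnd ℂ) (vst ζ z) := by
  unfold vst
  rw [ContinuousLinearMap.star_eq_adjoint, ContinuousLinearMap.adjoint_inner_right,
    inner_conj_symm]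

theorem rel_star {x : H →L[ℂ] H} (hx : x ∈ relBicentralizer N M ζ) :
    star x ∈ relBicentralizer N M ζ := by
  obtain ⟨hxM, h⟩ := hx
  refine ⟨star_mem hxM, fun a haN hab hst ξ => ?_⟩
  obtain ⟨C, hC⟩ := hab
  obtain ⟨ε, hε, hb⟩ := hst
  have key := h (fun n => star (a n)) (fun n => star_mem (haN n))
    ⟨C, fun n => by rw [norm_star]; exact hC n⟩ ⟨ε, hε, fun n y hy => ?_⟩ ξ
  · have e1 : ∀ n, a n * star x - star x * a n = -star (star (a n) * x - x * star (a n)) := by
      intro n
      simp only [star_sub, star_mul, star_star]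
      abel
    have e2 : ∀ n, star (a n * star x - star x * a n) = -(star (a n) * x - x * star (a n)) := by
      intro n
      simp only [star_sub, star_mul, star_star]
      abel
    constructor
    · have := key.2.neg
      simp only [neg_zero] at this
      refine this.congr fun n => ?_
      rw [e1 n]
      simp
    · have := key.1.neg
      simp only [neg_zero] at this
      refine this.congr fun n => ?_
      rw [e2 n]
      simp
  · have h1 := hb n (star y) (star_mem hy)
    have e3 : vst ζ (y * star (a n)) = (starRingEnd ℂ) (vst ζ (a n * star y)) := by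
      rw [← vst_star_aux]
      simp only [star_mul, star_star]
    have e4 : vst ζ (star (a n) * y) = (starRingEnd ℂ) (vst ζ (star y * a n)) := by
      rw [← vst_star_aux]
      simp only [star_mul, star_star]
    show ‖vst ζ (y * star (a n)) - vst ζ (star (a n) * y)‖ ≤ ε n * ‖y‖
    rw [e3, e4, ← map_sub, RCLike.norm_conj, norm_sub_rev]
    rw [norm_star] at h1
    exact h1

theorem rel_add {x y : H →L[ℂ] H} (hx : x ∈ relBicentralizer N M ζ)
    (hy : y ∈ relBicentralizer N M ζ) : x + y ∈ relBicentralizer N M ζ := by
  obtain ⟨hxM, h⟩ := hx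
  obtain ⟨hyM, h'⟩ := hy
  refine ⟨add_mem hxM hyM, fun a haN hab hst ξ => ?_⟩
  have k1 := h a haN hab hst ξ
  have k2 := h' a haN hab hst ξ
  have e1 : ∀ n, a n * (x + y) - (x + y) * a n = (a n * x - x * a n) + (a n * y - y * a n) := by
    intro n
    rw [mul_add, add_mul]
    abel
  constructor
  · have := k1.1.add k2.1
    rw [add_zero] at this
    refine this.congr fun n => ?_
    rw [e1 n]
    rfl
  · have := k1.2.add k2.2
    rw [add_zero] at this
    refine this.congr fun n => ?_
    rw [e1 n, star_add]
    rfl

theorem rel_smul {x : H →L[ℂ] H} (c : ℂ) (hx : x ∈ relBicentralizer N M ζ) :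
    c • x ∈ relBicentralizer N M ζ := by
  obtain ⟨hxM, h⟩ := hx
  refine ⟨?_, fun a haN hab hst ξ => ?_⟩
  · exact M.smul_mem hxM c
  have k1 := h a haN hab hst ξ
  have e1 : ∀ n, a n * (c • x) - (c • x) * a n = c • (a n * x - x * a n) := by
    intro n
    rw [mul_smul_comm, smul_mul_assoc, smul_sub]
  constructor
  · have := k1.1.const_smul c
    rw [smul_zero] at this
    refine this.congr fun n => ?_
    rw [e1 n]
    rfl
  · have := k1.2.const_smul (star c)
    rw [smul_zero] at this
    refine this.congr fun n => ?_
    rw [e1 n, star_smul]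
    rfl

end H52BC
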