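import Pool.Agent.H52.BC.MdI

/-!
Row HuN.  A unitary `V ∈ N` and the vectors `ζ`, `x ζ` (section 5, elementary Hilbert space estimates).

`C ξ := V (J (V (J ξ)))` is an isometry (`V` unitary, `J` isometric), so `‖C ξ - ξ‖² = 2 (‖ξ‖² - re ⟪ξ, C ξ⟫)`.
* `unit_zeta`: `J ζ = ζ`: `C ζ - ζ = V (J (V ζ)) - V (star V ζ) = V (J (V ζ) - star V ζ)` and `J (V ζ) - star V ζ = J (V ζ - J (star V ζ))`, so
  `‖V ζ - J (star V ζ)‖² = ‖C ζ - ζ‖² = 2 (‖ζ‖² - re ⟪ζ, C ζ⟫)`.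
* `unit_eta`: `η = x ζ`.  `C η - η = V (J (V (J η)) - star V η)`; put `w := V η - J (star V (J η))`.  `J V J` commutes with `V` and `J (V (J (J (star V (J η))))) = η`, so
  `J (V (J w)) = V (J (V (J η))) - η = C η - η` and `‖w‖ = ‖C η - η‖`.  `J (star V (J (x ζ))) = x (J (star V (J ζ)))` (`hJ.mem`), so
  `w = (V x - x V) ζ + x (V ζ - J (star V ζ))`.  So `‖C η - η‖ ≤ ‖(V x - x V) ζ‖ + ‖x‖ ‖V ζ - J (star V ζ)‖`.
-/

open Filter Topology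

noncomputable section

namespace H52BC

variable {H : Type*} [NormedAddCommGroup H] [InnerProductSpace ℂ H] [CompleteSpace H]
variable {M N : VonNeumannAlgebra H} {ζ : H} {U : ℝ → H →L[ℂ] H} {J : H ≃ₗᵢ⋆[ℂ] H}

theorem hun_iso (V : H →L[ℂ] H) (hV : star V * V = 1) (x : H) : ‖V x‖ = ‖x‖ := by
  have h1 : inner ℂ (V x) (V x) = inner ℂ x x := by
    rw [← ContinuousLinearMap.adjoint_inner_right, ← ContinuousLinearMap.star_eq_adjoint]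
    have h2 : star V (V x) = (star V * V) x := rfl
    rw [h2, hV]
    rfl
  rw [inner_self_eq_norm_sq_to_K, inner_self_eq_norm_sq_to_K] at h1
  have h3 : ‖V x‖ ^ 2 = ‖x‖ ^ 2 := by
    have h4 : (((‖V x‖ ^ 2 : ℝ)) : ℂ) = ((‖x‖ ^ 2 : ℝ) : ℂ) := by
      push_cast
      exact h1
    exact_mod_cast h4
  exact (pow_left_inj₀ (norm_nonneg _) (norm_nonneg _) two_ne_zero).1 h3

theorem unit_sq (J : H ≃ₗᵢ⋆[ℂ] H) (V : H →L[ℂ] H) (hV : star V * V = 1) (ξ : H) :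
    ‖V (J (V (J ξ))) - ξ‖ ^ 2 = 2 * (‖ξ‖ ^ 2 - (inner ℂ ξ (V (J (V (J ξ))))).re) := by
  have h1 : ‖V (J (V (J ξ)))‖ = ‖ξ‖ := by
    rw [hun_iso V hV, J.norm_map, hun_iso V hV, J.norm_map]
  rw [norm_sub_rev, norm_sub_sq (𝕜 := ℂ), h1]
  have h2 : RCLike.re (inner ℂ ξ (V (J (V (J ξ))))) = (inner ℂ ξ (V (J (V (J ξ))))).re := rfl
  rw [h2]
  ring

theorem unit_zeta (hJ : IsModConj M ζ U J) (V : H →L[ℂ] H) (hV : star V * V = 1)
    (hV' : V * star V = 1) :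
    ‖V ζ - J (star V ζ)‖ ^ 2 = 2 * (‖ζ‖ ^ 2 - (inner ℂ ζ (V (J (V (J ζ))))).re) := by
  rw [← unit_sq J V hV]
  congr 1
  have h1 : V (star V ζ) = ζ := by
    have h2 : V (star V ζ) = (V * star V) ζ := rfl
    rw [h2, hV']
    rfl
  calc ‖V ζ - J (star V ζ)‖ = ‖J (V ζ - J (star V ζ))‖ := (J.norm_map _).symm
    _ = ‖J (V ζ) - star V ζ‖ := by rw [map_sub, hJ.invol]
    _ = ‖V (J (V ζ) - star V ζ)‖ := (hun_iso V hV _).symm
    _ = ‖V (J (V (J ζ))) - ζ‖ := by rw [map_sub, h1, hJ.fix]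

theorem unit_eta (hJ : IsModConj M ζ U J) (V : H →L[ℂ] H) (hVM : V ∈ M)
    (hV : star V * V = 1) (hV' : V * star V = 1) (x : H →L[ℂ] H) (hx : x ∈ M) :
    2 * (‖x ζ‖ ^ 2 - (inner ℂ (x ζ) (V (J (V (J (x ζ)))))).re) ≤
      (‖(V * x - x * V) ζ‖ + ‖x‖ * ‖V ζ - J (star V ζ)‖) ^ 2 := by
  rw [← unit_sq J V hV]
  have h1 : ∀ ξ, V (star V ξ) = ξ := by
    intro ξ
    have h2 : V (star V ξ) = (V * star V) ξ := rfl
    rw [h2, hV']
    rfl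
  have h3 : J (V (J (V (x ζ) - J (star V (J (x ζ)))))) = V (J (V (J (x ζ)))) - x ζ := by
    rw [map_sub, hJ.invol, map_sub, h1, map_sub, hJ.invol, hJ.mem V hVM V hVM]
  have h4 : ‖V (x ζ) - J (star V (J (x ζ)))‖ = ‖V (J (V (J (x ζ)))) - x ζ‖ := by
    rw [← h3, J.norm_map, hun_iso V hV, J.norm_map]
  have h5 : V (x ζ) - J (star V (J (x ζ))) =
      (V * x - x * V) ζ + x (V ζ - J (star V ζ)) := by
    rw [hJ.mem (star V) (star_mem hVM) x hx, hJ.fix, map_sub]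
    have h6 : (V * x - x * V) ζ = V (x ζ) - x (V ζ) := rfl
    rw [h6]
    abel
  rw [← h4, h5]
  have h7 : ‖(V * x - x * V) ζ + x (V ζ - J (star V ζ))‖ ≤
      ‖(V * x - x * V) ζ‖ + ‖x‖ * ‖V ζ - J (star V ζ)‖ :=
    (norm_add_le _ _).trans (add_le_add le_rfl (x.le_opNorm _))
  exact pow_le_pow_left₀ (norm_nonneg _) h7 2

end H52BC
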