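import Pool.Agent.H52.BC.LmO
import Pool.Agent.H52.BC.MdT

/-!
Row LcC.  What commutes with the core.

Let `S` be the generating set of `core N U`; if an operator `B` commutes with all elements of `S` (`B ∈ S'`), it commutes with all of `core N U = S''`.
* `core_const`: `B = constOp y`, `y ∈ N.commutant`, `σ_t(N) ⊆ N`: for `A` with `IsPi U x A`, `x ∈ N`:
  `(A (constOp y F))(t) = U(-t) x U t y F t = (U(-t) * x * U(t)) y F(t) = y U(-t) x U(t) F(t)` because `U (-t) * x * U t ∈ N` (invariance at `-t`) commutes with `y`.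
  For shifts: `shiftOp_const`.
* `core_grp`: `B = constOp (U r) * shiftOp (-r)`, `(B F)(t) = U r F(t + r)`.  For `A` with `IsPi U x A`: `(A B F)(t) = U(-t) x U(t) U(r) F(t+r) = U(-t) x U(t+r) F(t+r)` and
  `(B A F)(t) = U(r) (A F)(t+r) = U(r) U(-(t+r)) x U(t+r) F(t+r) = U(-t) x U(t+r) F(t+r)`.  A.e. identities are transported by `t ↦ t + r`
  (`(measurePreserving_add_right volume r).quasiMeasurePreserving.ae_eq_comp`).  For shifts: `shiftOp_add`, `shiftOp_const`.
* `core_fixed`: if `w ∈ N` and `U t * w * U (-t) = w` for all `t`, then `U(-t) w U(t) = w`, so `IsPi U w (constOp w)` (`constOp_ae`) and `constOp w ∈ S ⊆ S''`.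
* `core_shift`: `shiftOp r ∈ S ⊆ S''`.
* `core_mono`: `N ≤ M` gives `S_N ⊆ S_M`, so `S_N'' ⊆ S_M''`.
* `core_dc`: `S''' = S'`, so `(S'')'' = S''` (`Set.centralizer_centralizer_centralizer`).
-/

open MeasureTheory Filter Topology

noncomputable section

namespace H52BC

variable {H : Type*} [NormedAddCommGroup H] [InnerProductSpace ℂ H] [CompleteSpace H]
variable {M N : VonNeumannAlgebra H} {ζ : H} {U : ℝ → H →L[ℂ] H}

theorem LcC_of_comm (A B : L2 H →L[ℂ] L2 H) (hA : A ∈ core N U)
    (h1 : ∀ C : L2 H →L[ℂ] L2 H, ∀ x ∈ N, IsPi U x C → C * B = B * C)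
    (h2 : ∀ C : L2 H →L[ℂ] L2 H, ∀ r : ℝ, IsShift r C → C * B = B * C) :
    A * B = B * A := by
  have hB : B ∈ Set.centralizer
      {A : L2 H →L[ℂ] L2 H | (∃ x ∈ N, IsPi U x A) ∨ ∃ r : ℝ, IsShift r A} := by
    rw [Set.mem_centralizer_iff]
    intro C hC
    rcases hC with ⟨x, hx, hC⟩ | ⟨r, hC⟩
    · exact h1 C x hx hC
    · exact h2 C r hC
  unfold core at hA
  rw [Set.mem_centralizer_iff] at hA
  exact (hA B hB).symm

theorem core_const (hinv : ∀ t : ℝ, ∀ x ∈ N, U t * x * U (-t) ∈ N) (A : L2 H →L[ℂ] L2 H)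
    (hA : A ∈ core N U) (y : H →L[ℂ] H) (hy : y ∈ N.commutant) :
    A * constOp y = constOp y * A := by
  refine LcC_of_comm A (constOp y) hA ?_ ?_
  · intro C x hx hC
    refine ContinuousLinearMap.ext fun F => ?_
    rw [mul_apply_eq_comp, mul_apply_eq_comp]
    apply Lp.ext
    filter_upwards [hC (constOp y F), constOp_ae y F, constOp_ae y (C F), hC F]
      with t e1 e2 e3 e4
    rw [e1, e2, e3, e4]
    have hz := hinv (-t) x hx
    rw [neg_neg] at hz
    have hc := (VonNeumannAlgebra.mem_commutant_iff.1 hy) _ hz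
    have hc2 := congrArg (fun Z : H →L[ℂ] H => Z ((F : ℝ → H) t)) hc
    exact hc2
  · intro C r hC
    rw [hC.eq]
    exact shiftOp_const r y

theorem core_grp (hU : IsModularGroup M ζ U) (A : L2 H →L[ℂ] L2 H)
    (hA : A ∈ core N U) (r : ℝ) :
    A * (constOp (U r) * shiftOp (-r)) = (constOp (U r) * shiftOp (-r)) * A := by
  refine LcC_of_comm A _ hA ?_ ?_
  · intro C x hx hC
    have hB : ∀ G : L2 H, ((constOp (U r) * shiftOp (-r) : L2 H →L[ℂ] L2 H) G : ℝ → H) =ᵐ[volume]
        fun t => U r ((G : ℝ → H) (t - (-r))) := by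
      intro G
      rw [mul_apply_eq_comp]
      filter_upwards [constOp_ae (U r) (shiftOp (-r) G), isShift_shiftOp (-r) G] with t e1 e2
      rw [e1, e2]
    have hq : Measure.QuasiMeasurePreserving (fun t : ℝ => t - (-r)) volume volume :=
      (measurePreserving_sub_right (volume : Measure ℝ) (-r)).quasiMeasurePreserving
    refine ContinuousLinearMap.ext fun F => ?_
    rw [mul_apply_eq_comp C, mul_apply_eq_comp _ C]
    apply Lp.ext
    have hCF := hq.ae (hC F)
    filter_upwards [hC ((constOp (U r) * shiftOp (-r) : L2 H →L[ℂ] L2 H) F), hB F, hB (C F), hCF]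
      with t e1 e2 e3 e4
    rw [e1, e2, e3, e4]
    have k1 : ∀ ξ : H, U t (U r ξ) = U (t - (-r)) ξ := by
      intro ξ
      have : U (t - (-r)) = U t * U r := by
        rw [← hU.add]
        congr 1
        ring
      rw [this]
      rfl
    have k2 : ∀ ξ : H, U r (U (-(t - (-r))) ξ) = U (-t) ξ := by
      intro ξ
      have : U (-t) = U r * U (-(t - (-r))) := by
        rw [← hU.add]
        congr 1
        ring
      rw [this]
      rfl
    rw [k1, k2]
  · intro C s hC
    rw [hC.eq, ← mul_assoc, shiftOp_const, mul_assoc, mul_assoc, ← shiftOp_add, ← shiftOp_add,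
      add_comm]

theorem core_fixed (hU : IsModularGroup M ζ U) (w : H →L[ℂ] H) (hw : w ∈ N)
    (hf : ∀ t : ℝ, U t * w * U (-t) = w) : constOp w ∈ core N U := by
  refine Set.subset_centralizer_centralizer ?_
  refine Or.inl ⟨w, hw, ?_⟩
  intro F
  filter_upwards [constOp_ae w F] with t e1
  rw [e1]
  have h1 := hf (-t)
  rw [neg_neg] at h1
  have h2 := congrArg (fun Z : H →L[ℂ] H => Z ((F : ℝ → H) t)) h1
  exact h2.symm

theorem core_shift (N : VonNeumannAlgebra H) (U : ℝ → H →L[ℂ] H) (r : ℝ) :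
    (shiftOp r : L2 H →L[ℂ] L2 H) ∈ core N U := by
  exact Set.subset_centralizer_centralizer (Or.inr ⟨r, isShift_shiftOp r⟩)

theorem core_mono (h : N ≤ M) : core N U ⊆ core M U := by
  refine Set.centralizer_subset (Set.centralizer_subset ?_)
  rintro A (⟨x, hx, hA⟩ | ⟨r, hA⟩)
  · exact Or.inl ⟨x, h hx, hA⟩
  · exact Or.inr ⟨r, hA⟩

theorem core_dc (N : VonNeumannAlgebra H) (U : ℝ → H →L[ℂ] H) :
    Set.centralizer (Set.centralizer (core N U)) = core N U := by
  unfold core
  rw [Set.centralizer_centralizer_centralizer]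

end H52BC
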