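import Pool.Agent.H52.BC.LmO
import Pool.Agent.H52.BC.LdA

/-!
Row LdC.  An operator on `L²(ℝ,H)` which commutes with all characters `mulOp (ee r)` commutes with all bounded measurable multiplications.
-/

open MeasureTheory Filter Topology

noncomputable section

namespace H52BC

variable {H : Type*} [NormedAddCommGroup H] [InnerProductSpace ℂ H] [CompleteSpace H]

private theorem inner_mulOp_aux {g : ℝ → ℂ} (hg : BM g) (F G : L2 H) :
    inner ℂ G (mulOp g F) = ∫ s, g s * inner ℂ ((G : ℝ → H) s) ((F : ℝ → H) s) := by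
  rw [L2.inner_def]
  refine integral_congr_ae ?_
  filter_upwards [mulOp_ae hg F] with s hs
  rw [hs, inner_smul_right]

theorem comm_mul_of_ee (B : L2 H →L[ℂ] L2 H)
    (h : ∀ r : ℝ, B * mulOp (ee r) = mulOp (ee r) * B) (g : ℝ → ℂ) (hg : BM g) :
    B * mulOp g = mulOp g * B := by
  refine ContinuousLinearMap.ext fun F => ?_
  refine ext_inner_left ℂ fun G => ?_
  have hadj : ∀ K : L2 H, inner ℂ G (B K) = inner ℂ ((star B) G) K := by
    intro K
    rw [ContinuousLinearMap.star_eq_adjoint, ContinuousLinearMap.adjoint_inner_left]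
  have ha : Integrable (fun s => inner ℂ ((G : ℝ → H) s) ((B F : L2 H) s)) (volume : Measure ℝ) :=
    L2.integrable_inner G (B F)
  have hb : Integrable (fun s => inner ℂ (((star B) G : L2 H) s) ((F : ℝ → H) s))
      (volume : Measure ℝ) := L2.integrable_inner ((star B) G) F
  have hbdd : ∀ {f : ℝ → ℂ} (_ : BM f) {u : ℝ → ℂ} (_ : Integrable u (volume : Measure ℝ)),
      Integrable (fun s => f s * u s) (volume : Measure ℝ) := by
    intro f hf u hu
    obtain ⟨hm, C, hC⟩ := hf
    exact hu.bdd_mul hm.aestronglyMeasurable (Filter.Eventually.of_forall hC)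
  have hz := L1_fourier_inj
    (fun s => inner ℂ ((G : ℝ → H) s) ((B F : L2 H) s) - inner ℂ (((star B) G : L2 H) s) ((F : ℝ → H) s))
    (ha.sub hb) (by
      intro r
      have e1 := inner_mulOp_aux (BM_ee r) (B F) G
      have e2 := inner_mulOp_aux (BM_ee r) F ((star B) G)
      have e3 : inner ℂ G (mulOp (ee r) (B F)) = inner ℂ ((star B) G) (mulOp (ee r) F) := by
        rw [← hadj]
        have := congrArg (fun T : L2 H →L[ℂ] L2 H => T F) (h r)
        exact congrArg (inner ℂ G) this.symm
      rw [e1, e2] at e3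
      simp only [mul_sub]
      rw [integral_sub (hbdd (BM_ee r) ha) (hbdd (BM_ee r) hb), e3, sub_self])
  have e1 := inner_mulOp_aux hg (B F) G
  have e2 := inner_mulOp_aux hg F ((star B) G)
  show inner ℂ G (B (mulOp g F)) = inner ℂ G (mulOp g (B F))
  rw [hadj, e1, e2]
  refine integral_congr_ae ?_
  filter_upwards [hz] with s hs
  have : inner ℂ ((G : ℝ → H) s) ((B F : L2 H) s) = inner ℂ (((star B) G : L2 H) s) ((F : ℝ → H) s) :=
    sub_eq_zero.mp hs
  rw [this]

end H52BC
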