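import Pool.Agent.H52.BC.LmO

open MeasureTheory Filter Topology

noncomputable section

namespace H52BC

variable {H : Type*} [NormedAddCommGroup H] [InnerProductSpace ℂ H] [CompleteSpace H]

/-- the Fourier transform on `L²(ℝ, H)` -/
def FT (H : Type*) [NormedAddCommGroup H] [InnerProductSpace ℂ H] [CompleteSpace H] :
    L2 H ≃ₗᵢ[ℂ] L2 H :=
  Lp.fourierTransformₗᵢ ℝ H

open SchwartzMap FourierTransform

theorem FT_toLp (f : SchwartzMap ℝ H) : FT H (f.toLp 2 volume) = (𝓕 f).toLp 2 volume :=
  SchwartzMap.toLp_fourier_eq f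

theorem FT_ind {p : L2 H → Prop} (hc : IsClosed {F | p F})
    (h : ∀ f : SchwartzMap ℝ H, p (f.toLp 2 volume)) (F : L2 H) : p F :=
  DenseRange.induction_on (p := p)
    (SchwartzMap.denseRange_toLpCLM (E := ℝ) (F := H) (p := 2) (μ := volume)
      ENNReal.ofNat_ne_top) F hc h

theorem constOp_toLp (B : H →L[ℂ] H) (f : SchwartzMap ℝ H) :
    constOp B (f.toLp 2 volume) = (SchwartzMap.postcompCLM B f).toLp 2 volume := by
  apply Lp.ext
  filter_upwards [constOp_ae B (f.toLp 2 volume), f.coeFn_toLp 2 volume,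
    (SchwartzMap.postcompCLM B f).coeFn_toLp 2 volume] with s h1 h2 h3
  rw [h1, h2, h3, SchwartzMap.postcompCLM_apply]

theorem four_const (B : H →L[ℂ] H) (F : L2 H) : FT H (constOp B F) = constOp B (FT H F) := by
  refine FT_ind (p := fun F => FT H (constOp B F) = constOp B (FT H F)) ?_ ?_ F
  · exact isClosed_eq ((FT H).continuous.comp (constOp B).continuous)
      ((constOp B).continuous.comp (FT H).continuous)
  · intro f
    show FT H (constOp B (f.toLp 2 volume)) = constOp B (FT H (f.toLp 2 volume))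
    rw [constOp_toLp, FT_toLp, FT_toLp, constOp_toLp]
    congr 1
    ext x
    rw [SchwartzMap.postcompCLM_apply, SchwartzMap.fourier_coe, SchwartzMap.fourier_coe]
    rw [Real.fourier_eq, Real.fourier_eq]
    have := B.integral_comp_comm (μ := volume) (φ := fun v => (Real.fourierChar (-inner ℝ v x)) • f v) ?_
    · rw [← this]
      congr 1
      ext v
      rw [SchwartzMap.postcompCLM_apply]
      simp [Circle.smul_def]
    · exact (Real.fourierIntegral_convergent_iff x).2 f.integrable

theorem shiftOp_toLp (r : ℝ) (f : SchwartzMap ℝ H) :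
    shiftOp r (f.toLp 2 volume) = (SchwartzMap.compSubConstCLM ℂ r f).toLp 2 volume := by
  apply Lp.ext
  have hq : Tendsto (fun s : ℝ => s - r) (ae volume) (ae volume) :=
    (measurePreserving_sub_right volume r).quasiMeasurePreserving.tendsto_ae
  filter_upwards [isShift_shiftOp r (f.toLp 2 volume), hq.eventually (f.coeFn_toLp 2 volume),
    (SchwartzMap.compSubConstCLM ℂ r f).coeFn_toLp 2 volume] with s h1 h2 h3
  rw [h1, h3, SchwartzMap.compSubConstCLM_apply]
  exact h2

theorem four_shift (r : ℝ) (F : L2 H) : FT H (shiftOp r F) = mulOp (ee (-r)) (FT H F) := by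
  refine FT_ind (p := fun F => FT H (shiftOp r F) = mulOp (ee (-r)) (FT H F)) ?_ ?_ F
  · exact isClosed_eq ((FT H).continuous.comp (shiftOp r).continuous)
      ((mulOp (ee (-r))).continuous.comp (FT H).continuous)
  · intro f
    show FT H (shiftOp r (f.toLp 2 volume)) = mulOp (ee (-r)) (FT H (f.toLp 2 volume))
    rw [shiftOp_toLp, FT_toLp, FT_toLp]
    apply Lp.ext
    filter_upwards [mulOp_ae (BM_ee (-r)) ((𝓕 f).toLp 2 volume), (𝓕 f).coeFn_toLp 2 volume,
      (𝓕 (SchwartzMap.compSubConstCLM ℂ r f)).coeFn_toLp 2 volume] with s h1 h2 h3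
    rw [h1, h2, h3, SchwartzMap.fourier_coe, SchwartzMap.fourier_coe, Real.fourier_eq,
      Real.fourier_eq]
    have h4 : ∀ v, (SchwartzMap.compSubConstCLM ℂ r f) v = f (v - r) := fun v =>
      SchwartzMap.compSubConstCLM_apply ..
    simp_rw [h4]
    rw [← integral_smul]
    rw [← integral_sub_right_eq_self (fun v => ee (-r) s • Real.fourierChar (-inner ℝ v s) • f v) r]
    congr 1
    ext v
    have h5 : ((Real.fourierChar (-inner ℝ v s) : Circle) : ℂ) =
        ee (-r) s * ((Real.fourierChar (-inner ℝ (v - r) s) : Circle) : ℂ) := by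
      rw [Real.fourierChar_apply, Real.fourierChar_apply, ee, ← Complex.exp_add]
      congr 1
      simp only [RCLike.inner_apply, conj_trivial]
      push_cast
      ring
    rw [Circle.smul_def, Circle.smul_def, h5, smul_smul]

end H52BC
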