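import Pool.Agent.H52.BC.LpI
import Pool.Agent.H52.BC.LcC
import Pool.Agent.H52.BC.LfT
import Pool.Agent.H52.BC.LdC

/-!
Row LwD.  The window data: transport of the cores by the Fourier transform.

`Φ A = FT ∘ A ∘ FT⁻¹` (a star automorphism of `B(L²(ℝ,H))`), `CM = Φ '' core M U`, `CN = Φ '' core N U`.
* `dcM/dcN`: `Φ` is an automorphism, so `(Φ '' S)' = Φ '' S'`; `core_dc`.
* `starM/starN`: `core_star`.  `sub`: `core_mono`.
* `constM/constN`: `core_const` and `Φ (constOp y) = constOp y` (`four_const`); for `M` the invariance is `hU.mem`, for `N` it is `hinv`.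
* `grp`: `core_grp` and `Φ (constOp (U r) * shiftOp (-r)) = constOp (U r) * mulOp (ee r)` (`four_shift`).
* `fixd`: `core_fixed`.
* `mul`: `mulOp g ∈ CN = CN''`: let `B` commute with `CN`; `Φ (shiftOp r) = mulOp (ee (-r)) ∈ CN` (`core_shift`), so `B` commutes with all `mulOp (ee r)`, hence with `mulOp g`
  (`comm_mul_of_ee`).
* `irr`: transport of `hirr`.
-/

open MeasureTheory Filter Topology

noncomputable section

namespace H52BC

variable {H : Type*} [NormedAddCommGroup H] [InnerProductSpace ℂ H] [CompleteSpace H]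
variable {M N : VonNeumannAlgebra H} {ζ : H} {U : ℝ → H →L[ℂ] H}

/-- conjugation by the Fourier transform -/
private def LwD_phi (H : Type*) [NormedAddCommGroup H] [InnerProductSpace ℂ H] [CompleteSpace H] :
    (L2 H →L[ℂ] L2 H) ≃* (L2 H →L[ℂ] L2 H) where
  toFun A := ((FT H).toContinuousLinearEquiv : L2 H →L[ℂ] L2 H) ∘L A ∘L
    ((FT H).symm.toContinuousLinearEquiv : L2 H →L[ℂ] L2 H)
  invFun A := ((FT H).symm.toContinuousLinearEquiv : L2 H →L[ℂ] L2 H) ∘L A ∘L
    ((FT H).toContinuousLinearEquiv : L2 H →L[ℂ] L2 H)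
  left_inv A := by
    refine ContinuousLinearMap.ext fun F => ?_
    change (FT H).symm ((FT H) (A ((FT H).symm ((FT H) F)))) = A F
    rw [LinearIsometryEquiv.symm_apply_apply, LinearIsometryEquiv.symm_apply_apply]
  right_inv A := by
    refine ContinuousLinearMap.ext fun F => ?_
    change (FT H) ((FT H).symm (A ((FT H) ((FT H).symm F)))) = A F
    rw [LinearIsometryEquiv.apply_symm_apply, LinearIsometryEquiv.apply_symm_apply]
  map_mul' A B := by
    refine ContinuousLinearMap.ext fun F => ?_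
    change (FT H) (A (B ((FT H).symm F))) = (FT H) (A ((FT H).symm ((FT H) (B ((FT H).symm F)))))
    rw [LinearIsometryEquiv.symm_apply_apply]

private theorem LwD_phi_apply (A : L2 H →L[ℂ] L2 H) (F : L2 H) :
    LwD_phi H A F = FT H (A ((FT H).symm F)) := rfl

private theorem LwD_phi_star (A : L2 H →L[ℂ] L2 H) :
    star (LwD_phi H A) = LwD_phi H (star A) := by
  refine ContinuousLinearMap.ext fun F => ?_
  refine ext_inner_left ℂ fun G => ?_
  rw [ContinuousLinearMap.star_eq_adjoint, ContinuousLinearMap.adjoint_inner_right,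
    LwD_phi_apply, LwD_phi_apply, ContinuousLinearMap.star_eq_adjoint]
  have h1 : inner ℂ ((FT H) (A ((FT H).symm G))) F =
      inner ℂ (A ((FT H).symm G)) ((FT H).symm F) := by
    conv_lhs => rw [← LinearIsometryEquiv.apply_symm_apply (FT H) F]
    exact LinearIsometryEquiv.inner_map_map (FT H) _ _
  have h2 : inner ℂ G ((FT H) ((ContinuousLinearMap.adjoint A) ((FT H).symm F))) =
      inner ℂ ((FT H).symm G) ((ContinuousLinearMap.adjoint A) ((FT H).symm F)) := by
    conv_lhs => rw [← LinearIsometryEquiv.apply_symm_apply (FT H) G]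
    exact LinearIsometryEquiv.inner_map_map (FT H) _ _
  rw [h1, h2, ContinuousLinearMap.adjoint_inner_right]

private theorem LwD_phi_const (B : H →L[ℂ] H) : LwD_phi H (constOp B) = constOp B := by
  refine ContinuousLinearMap.ext fun F => ?_
  rw [LwD_phi_apply, four_const, LinearIsometryEquiv.apply_symm_apply]

private theorem LwD_phi_shift (r : ℝ) :
    LwD_phi H (shiftOp r) = mulOp (ee (-r)) := by
  refine ContinuousLinearMap.ext fun F => ?_
  rw [LwD_phi_apply, four_shift, LinearIsometryEquiv.apply_symm_apply]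

private theorem LwD_centralizer {R : Type*} [Mul R] (e : R ≃* R) (S : Set R) :
    Set.centralizer (e '' S) = e '' Set.centralizer S := by
  ext x
  constructor
  · intro hx
    refine ⟨e.symm x, ?_, e.apply_symm_apply x⟩
    rw [Set.mem_centralizer_iff] at hx ⊢
    intro m hm
    have h := hx (e m) ⟨m, hm, rfl⟩
    apply e.injective
    rw [map_mul, map_mul, e.apply_symm_apply]
    exact h
  · rintro ⟨y, hy, rfl⟩
    rw [Set.mem_centralizer_iff] at hy ⊢
    rintro _ ⟨m, hm, rfl⟩
    rw [← map_mul, ← map_mul, hy m hm]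

theorem exists_windowData (hNM : N ≤ M) (hU : IsModularGroup M ζ U)
    (hinv : ∀ t : ℝ, ∀ x ∈ N, U t * x * U (-t) ∈ N)
    (hirr : ∀ Z ∈ core M U, (∀ Y ∈ core N U, Y * Z = Z * Y) →
      ∃ c : ℂ, Z = c • (1 : L2 H →L[ℂ] L2 H)) :
    ∃ CM CN : Set (L2 H →L[ℂ] L2 H), WindowData M N ζ U CM CN := by
  have hdc : ∀ P : VonNeumannAlgebra H, Set.centralizer (Set.centralizer
      (LwD_phi H '' core P U)) = LwD_phi H '' core P U := by
    intro P
    rw [LwD_centralizer, LwD_centralizer, core_dc]
  refine ⟨LwD_phi H '' core M U, LwD_phi H '' core N U,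
    { dcM := hdc M
      dcN := hdc N
      starM := ?_
      starN := ?_
      sub := Set.image_mono (core_mono hNM)
      constM := ?_
      constN := ?_
      grp := ?_
      fixd := ?_
      mul := ?_
      irr := ?_ }⟩
  · rintro _ ⟨A, hA, rfl⟩
    rw [LwD_phi_star]
    exact ⟨_, core_star hU M A hA, rfl⟩
  · rintro _ ⟨A, hA, rfl⟩
    rw [LwD_phi_star]
    exact ⟨_, core_star hU N A hA, rfl⟩
  · rintro _ ⟨A, hA, rfl⟩ y hy
    rw [← LwD_phi_const y, ← map_mul, ← map_mul, core_const hU.mem A hA y hy]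
  · rintro _ ⟨A, hA, rfl⟩ y hy
    rw [← LwD_phi_const y, ← map_mul, ← map_mul, core_const hinv A hA y hy]
  · rintro _ ⟨A, hA, rfl⟩ r
    have h1 : constOp (U r) * mulOp (ee r) =
        LwD_phi H (constOp (U r) * shiftOp (-r)) := by
      rw [map_mul, LwD_phi_const, LwD_phi_shift, neg_neg]
    rw [h1, ← map_mul, ← map_mul, core_grp hU A hA r]
  · intro w hw hf
    exact ⟨constOp w, core_fixed hU w hw hf, LwD_phi_const w⟩
  · intro g hg
    rw [← hdc N, Set.mem_centralizer_iff]
    intro B hB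
    rw [Set.mem_centralizer_iff] at hB
    refine comm_mul_of_ee B (fun r => ?_) g hg
    have h1 : (mulOp (ee r) : L2 H →L[ℂ] L2 H) = LwD_phi H (shiftOp (-r)) := by
      rw [LwD_phi_shift, neg_neg]
    exact (hB (mulOp (ee r)) ⟨shiftOp (-r), core_shift N U (-r), h1.symm⟩).symm
  · rintro _ ⟨Z, hZ, rfl⟩ hY
    obtain ⟨c, hc⟩ := hirr Z hZ (fun Y hYN => by
      apply (LwD_phi H).injective
      rw [map_mul, map_mul]
      exact hY _ ⟨Y, hYN, rfl⟩)
    refine ⟨c, ?_⟩
    rw [hc]
    refine ContinuousLinearMap.ext fun F => ?_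
    rw [LwD_phi_apply]
    change FT H (c • (FT H).symm F) = c • F
    rw [map_smul, LinearIsometryEquiv.apply_symm_apply]

end H52BC
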