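import Pool.Agent.H52.BC.Tech

/-!
Row MdI.  Conjugate linear isometric involutions, and the estimate `near_central`.

* `inner_J`: polarisation (both sides sesquilinear with the same quadratic form `‖J ξ‖² = ‖ξ‖²`); e.g. expand `‖J (ξ + c η)‖² = ‖ξ + c η‖²` for `c = 1, i`.
* `inner_J'`: `⟪ξ, J η⟫ = ⟪J (J ξ), J η⟫ = ⟪η, J ξ⟫`.
* `cj_star`: `⟪cj J a ξ, η⟫ = ⟪J a J ξ, η⟫ = ⟪J η, a J ξ⟫ = ⟪star a J η, J ξ⟫ = ⟪ξ, J (star a (J η))⟫`.
* `near_central`: `⟪ζ, y (J (star u (J ζ)))⟫ = ⟪ζ, J (star u (J (y ζ)))⟫` (field `mem` with `x = star u`) `= ⟪star u (J (y ζ)), J ζ⟫ = ⟪J (y ζ), u (J ζ)⟫ = ⟪J (y ζ), u ζ⟫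
  = ⟪J (u ζ), y ζ⟫`, and `vst (u y) = ⟪star u ζ, y ζ⟫`, `vst (y u) = ⟪ζ, y (u ζ)⟫`.  So
  `|vst (y u) - vst (u y)| ≤ |⟪ζ, y (u ζ - J (star u ζ))⟫| + |⟪J (u ζ) - star u ζ, y ζ⟫| ≤ ‖y‖ e + ‖y‖ e`, since `J (u ζ) - star u ζ = J (u ζ - J (star u ζ))`.
-/

open MeasureTheory Filter Topology

noncomputable section

namespace H52BC

variable {H : Type*} [NormedAddCommGroup H] [InnerProductSpace ℂ H] [CompleteSpace H]
variable {M : VonNeumannAlgebra H} {ζ : H} {U : ℝ → H →L[ℂ] H}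

theorem inner_J (J : H ≃ₗᵢ⋆[ℂ] H) (ξ η : H) : inner ℂ (J ξ) (J η) = inner ℂ η ξ := by
  have h1 := inner_eq_sum_norm_sq_div_four (𝕜 := ℂ) (J ξ) (J η)
  have h2 := inner_eq_sum_norm_sq_div_four (𝕜 := ℂ) ξ η
  simp only [RCLike.I_to_complex] at h1 h2
  have e1 : J ξ + J η = J (ξ + η) := (map_add J _ _).symm
  have e2 : J ξ - J η = J (ξ - η) := (map_sub J _ _).symm
  have e3 : J ξ - Complex.I • J η = J (ξ + Complex.I • η) := by
    rw [map_add, map_smulₛₗ, Complex.conj_I, neg_smul, sub_eq_add_neg]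
  have e4 : J ξ + Complex.I • J η = J (ξ - Complex.I • η) := by
    rw [map_sub, map_smulₛₗ, Complex.conj_I, neg_smul, sub_neg_eq_add]
  rw [e1, e2, e3, e4, J.norm_map, J.norm_map, J.norm_map, J.norm_map] at h1
  rw [← inner_conj_symm η ξ, h2, h1]
  simp only [map_div₀, map_add, map_sub, map_mul, map_pow, Complex.conj_I, Complex.conj_ofReal,
    map_ofNat, Complex.coe_algebraMap]
  ring

theorem inner_J' (J : H ≃ₗᵢ⋆[ℂ] H) (hJ : ∀ ξ, J (J ξ) = ξ) (ξ η : H) :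
    inner ℂ ξ (J η) = inner ℂ η (J ξ) := by
  conv_lhs => rw [← hJ ξ]
  rw [inner_J]

theorem mdi_left (J : H ≃ₗᵢ⋆[ℂ] H) (hJ : ∀ ξ, J (J ξ) = ξ) (ξ η : H) :
    inner ℂ (J ξ) η = inner ℂ (J η) ξ := by
  rw [← inner_conj_symm (J ξ) η, inner_J' J hJ, inner_conj_symm]

theorem cj_star (J : H ≃ₗᵢ⋆[ℂ] H) (hJ : ∀ ξ, J (J ξ) = ξ) (a : H →L[ℂ] H) :
    star (cj J a) = cj J (star a) := by
  ext ξ
  refine ext_inner_right ℂ (fun η => ?_)
  rw [ContinuousLinearMap.star_eq_adjoint, ContinuousLinearMap.adjoint_inner_left, cj_apply,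
    cj_apply, inner_J' J hJ, mdi_left J hJ, ContinuousLinearMap.star_eq_adjoint,
    ContinuousLinearMap.adjoint_inner_right]

theorem cj_mul (J : H ≃ₗᵢ⋆[ℂ] H) (hJ : ∀ ξ, J (J ξ) = ξ) (a b : H →L[ℂ] H) :
    cj J (a * b) = cj J a * cj J b := by
  ext ξ
  change J (a (b (J ξ))) = J (a (J (J (b (J ξ)))))
  rw [hJ]

theorem cj_one (J : H ≃ₗᵢ⋆[ℂ] H) (hJ : ∀ ξ, J (J ξ) = ξ) : cj J (1 : H →L[ℂ] H) = 1 := by
  ext ξ
  change J (J ξ) = ξ
  rw [hJ]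

theorem cj_add (J : H ≃ₗᵢ⋆[ℂ] H) (a b : H →L[ℂ] H) : cj J (a + b) = cj J a + cj J b := by
  ext ξ
  change J (a (J ξ) + b (J ξ)) = J (a (J ξ)) + J (b (J ξ))
  rw [map_add]

theorem cj_smul (J : H ≃ₗᵢ⋆[ℂ] H) (c : ℂ) (a : H →L[ℂ] H) :
    cj J (c • a) = (starRingEnd ℂ) c • cj J a := by
  ext ξ
  change J (c • a (J ξ)) = (starRingEnd ℂ) c • J (a (J ξ))
  rw [map_smulₛₗ]

theorem cj_norm_le (J : H ≃ₗᵢ⋆[ℂ] H) (a : H →L[ℂ] H) : ‖cj J a‖ ≤ ‖a‖ := by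
  refine ContinuousLinearMap.opNorm_le_bound _ (norm_nonneg _) (fun ξ => ?_)
  rw [cj_apply, J.norm_map]
  refine (a.le_opNorm _).trans ?_
  rw [J.norm_map]

/-- `cj J` is a continuous ring homomorphism, so it commutes with `exp`; `c = i τ`: `conj c = - i τ` -/
theorem cj_exp (J : H ≃ₗᵢ⋆[ℂ] H) (hJ : ∀ ξ, J (J ξ) = ξ) (a : H →L[ℂ] H) :
    cj J (NormedSpace.exp a) = NormedSpace.exp (cj J a) := by
  let f : (H →L[ℂ] H) →+* (H →L[ℂ] H) :=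
    { toFun := cj J
      map_one' := cj_one J hJ
      map_mul' := cj_mul J hJ
      map_zero' := by
        ext ξ
        change J 0 = 0
        exact map_zero J
      map_add' := cj_add J }
  have hf : Continuous f := by
    refine AddMonoidHomClass.continuous_of_bound f 1 (fun x => ?_)
    rw [one_mul]
    exact cj_norm_le J x
  letI : NormedAlgebra ℚ (H →L[ℂ] H) := NormedAlgebra.restrictScalars ℚ ℂ _
  exact NormedSpace.map_exp f hf a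

theorem near_central {J : H ≃ₗᵢ⋆[ℂ] H} (hJ : IsModConj M ζ U J) (hζ : ‖ζ‖ = 1) (u : H →L[ℂ] H) (hu : u ∈ M) (e : ℝ)
    (h : ‖u ζ - J (star u ζ)‖ ≤ e) (y : H →L[ℂ] H) (hy : y ∈ M) :
    ‖vst ζ (y * u) - vst ζ (u * y)‖ ≤ 2 * e * ‖y‖ := by
  have hJJ := hJ.invol
  have h1 : inner ℂ ζ (y (J (star u ζ))) = inner ℂ (J (u ζ)) (y ζ) := by
    have h2 := hJ.mem (star u) (star_mem hu) y hy ζ
    rw [hJ.fix] at h2
    rw [← h2, inner_J' J hJJ, hJ.fix, ContinuousLinearMap.star_eq_adjoint,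
      ContinuousLinearMap.adjoint_inner_left, mdi_left J hJJ]
  have h3 : vst ζ (u * y) = inner ℂ (star u ζ) (y ζ) := by
    unfold vst
    rw [ContinuousLinearMap.star_eq_adjoint, ContinuousLinearMap.adjoint_inner_left]
    rfl
  have h4 : vst ζ (y * u) = inner ℂ ζ (y (u ζ)) := rfl
  have h5 : vst ζ (y * u) - vst ζ (u * y) =
      inner ℂ ζ (y (u ζ - J (star u ζ))) + inner ℂ (J (u ζ - J (star u ζ))) (y ζ) := by
    rw [h3, h4, map_sub, map_sub, hJJ, inner_sub_right, inner_sub_left, h1]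
    ring
  rw [h5]
  have h6 : ‖inner ℂ ζ (y (u ζ - J (star u ζ)))‖ ≤ e * ‖y‖ := by
    refine (norm_inner_le_norm _ _).trans ?_
    rw [hζ, one_mul]
    refine (y.le_opNorm _).trans ?_
    rw [mul_comm]
    exact mul_le_mul_of_nonneg_right h (norm_nonneg _)
  have h7 : ‖inner ℂ (J (u ζ - J (star u ζ))) (y ζ)‖ ≤ e * ‖y‖ := by
    refine (norm_inner_le_norm _ _).trans ?_
    rw [J.norm_map]
    have h8 : ‖y ζ‖ ≤ ‖y‖ := by
      have := y.le_opNorm ζ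
      rwa [hζ, mul_one] at this
    exact mul_le_mul h h8 (norm_nonneg _) ((norm_nonneg _).trans h)
  refine (norm_add_le _ _).trans ?_
  linarith

end H52BC
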