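import Pool.Agent.H52.BC.MdJ
import Pool.Agent.H52.BC.MdI

/-!
Row MdO.  Field `ana` of `IsModConj` (`Δ^{1/2} x ζ = J x* ζ` for entire extensions).

`J` is the involution of `exists_J`.  Let `Ψ` be entire, `Ψ t = U t (x ζ)`.  For `Y` with orbit `G_Y` (orbit of `star Y`: `z ↦ star (G_Y (conj z))`):
`z ↦ ⟪Y ζ, Ψ z⟫` is entire (inner product is linear in the second argument), for real `t` it is `⟪U (-t) Y ζ, x ζ⟫ = ⟪G_Y (-t) ζ, x ζ⟫ = vst (star (G_Y (-t)) * x)`;
the function `z ↦ vst (star (G_Y (conj (-z))) * x)` is entire (`IsOrbit.star'`, field `diff`, composed with `z ↦ -z`); equal on reals so everywhere (`entire_eq`).  At `z = -i/2`: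
`⟪Y ζ, Ψ(-i/2)⟫ = vst (star (G_Y (conj (i/2))) * x) = vst (G_{Y*}(i/2) * x) = vst (x * G_{Y*}(-i/2))` (`kms_orbit` for `star Y` at `z = -i/2`)
`= vst (x * star (G_Y (i/2))) = ⟪star x ζ, star (G_Y(i/2)) ζ⟫ = ⟪star x ζ, J (Y ζ)⟫ = ⟪Y ζ, J (star x ζ)⟫` (`inner_J'`).  Dense `Y ζ` (`dense_orbit`) ⇒ equality of the vectors.
-/

open MeasureTheory Filter Topology

noncomputable section

namespace H52BC

variable {H : Type*} [NormedAddCommGroup H] [InnerProductSpace ℂ H] [CompleteSpace H]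
variable {M : VonNeumannAlgebra H} {ζ : H} {U : ℝ → H →L[ℂ] H} {J : H ≃ₗᵢ⋆[ℂ] H}

theorem J_ana (hU : IsModularGroup M ζ U) (hcyc : Dense {ξ : H | ∃ x ∈ M, ξ = x ζ})
    (hJJ : ∀ ξ, J (J ξ) = ξ)
    (hJX : ∀ X G, IsOrbit M U X G → J (X ζ) = star (G (Complex.I / 2)) ζ) :
    ∀ x ∈ M, ∀ Ψ : ℂ → H, Differentiable ℂ Ψ → (∀ t : ℝ, Ψ t = U t (x ζ)) →
      Ψ (-(Complex.I / 2)) = J (star x ζ) := by
  intro x hx Ψ hΨ hΨt
  have hd := dense_orbit hU hcyc
  have key : ∀ Y G, IsOrbit M U Y G →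
      inner ℂ (Y ζ) (Ψ (-(Complex.I / 2))) = inner ℂ (Y ζ) (J (star x ζ)) := by
    intro Y G hG
    have hG' := hG.star' hU
    have e1 : Differentiable ℂ (fun z : ℂ => inner ℂ (Y ζ) (Ψ z)) :=
      (innerSL ℂ (Y ζ)).differentiable.comp hΨ
    have e2 : Differentiable ℂ (fun z : ℂ =>
        vst ζ ((fun w => star (G ((starRingEnd ℂ) w))) (-z) * x)) := by
      have d1 : Differentiable ℂ (fun z : ℂ => (fun w => star (G ((starRingEnd ℂ) w))) (-z)) :=
        hG'.diff.comp differentiable_neg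
      have d2 : Differentiable ℂ (fun z : ℂ =>
          ((fun w => star (G ((starRingEnd ℂ) w))) (-z)) (x ζ)) :=
        fun z => (d1 z).clm_apply (differentiableAt_const _)
      exact (innerSL ℂ ζ).differentiable.comp d2
    have e3 := entire_eq e1 e2 (by
      intro t
      show inner ℂ (Y ζ) (Ψ (t : ℂ)) = vst ζ (star (G ((starRingEnd ℂ) (-(t : ℂ)))) * x)
      have c1 : (starRingEnd ℂ) (-(t : ℂ)) = ((-t : ℝ) : ℂ) := by
        rw [map_neg, Complex.conj_ofReal]; push_cast; ring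
      rw [c1, hG.real, hΨt, neg_neg]
      show inner ℂ (Y ζ) (U t (x ζ)) = inner ℂ ζ ((star (U (-t) * Y * U t)) (x ζ))
      rw [ContinuousLinearMap.star_eq_adjoint (U (-t) * Y * U t),
        ContinuousLinearMap.adjoint_inner_right]
      show inner ℂ (Y ζ) (U t (x ζ)) = inner ℂ (U (-t) (Y (U t ζ))) (x ζ)
      rw [hU.fix, ← hU.star_eq, ContinuousLinearMap.star_eq_adjoint,
        ContinuousLinearMap.adjoint_inner_left])
    have e4 := congrFun e3 (-(Complex.I / 2))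
    have e5 := kms_orbit hU hG' x hx (-(Complex.I / 2))
    have c2 : -(Complex.I / 2) + Complex.I = -(-(Complex.I / 2)) := by ring
    rw [c2] at e5
    have e6 : inner ℂ (Y ζ) (Ψ (-(Complex.I / 2))) =
        vst ζ (x * star (G ((starRingEnd ℂ) (-(Complex.I / 2))))) := e4.trans e5
    have c3 : (starRingEnd ℂ) (-(Complex.I / 2)) = Complex.I / 2 := by
      rw [map_neg, map_div₀, Complex.conj_I, map_ofNat]; ring
    rw [e6, c3]
    show inner ℂ ζ (x (star (G (Complex.I / 2)) ζ)) = _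
    rw [← hJX Y G hG, ← ContinuousLinearMap.adjoint_inner_left,
      ← ContinuousLinearMap.star_eq_adjoint, inner_J' J hJJ]
  have hfun : (fun v : H => inner ℂ v (Ψ (-(Complex.I / 2)))) =
      fun v : H => inner ℂ v (J (star x ζ)) := by
    refine Continuous.ext_on hd (by fun_prop) (by fun_prop) ?_
    rintro _ ⟨Y, G, hG, rfl⟩
    exact key Y G hG
  exact ext_inner_left ℂ fun v => congrFun hfun v

end H52BC
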