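import Pool.Agent.H52.BC.MdC
import Pool.Agent.H52.BC.MdO

/-!
Existence of the modular conjugation (assembly, PI).
-/

open MeasureTheory Filter Topology

noncomputable section

namespace H52BC

variable {H : Type*} [NormedAddCommGroup H] [InnerProductSpace ℂ H] [CompleteSpace H]
variable {M : VonNeumannAlgebra H} {ζ : H} {U : ℝ → H →L[ℂ] H}

theorem exists_modConj (hU : IsModularGroup M ζ U) (hcyc : Dense {ξ : H | ∃ x ∈ M, ξ = x ζ}) :
    ∃ J : H ≃ₗᵢ⋆[ℂ] H, IsModConj M ζ U J := by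
  obtain ⟨J, hJJ, hJX⟩ := exists_J hU hcyc
  refine ⟨J, hJJ, ?_, J_comm hU hcyc hJX, J_mem hU hcyc hJX, J_ana hU hcyc hJJ hJX⟩
  have := hJX 1 (fun _ => 1) (IsOrbit.one hU)
  simpa using this

end H52BC
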