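import Pool.Agent.H52.BC.Tech

/-!
Row MdE.  Conditional expectation as a projection.

(a) `condExp_star`: `E (star x) = star (E x)`.  For `n ∈ N`: `vst (E(x*) n) = vst (E(x* n)) = vst (x* n)` (`bimod` with `a = 1`, `state`), and
    `vst (star (E x) n) = conj (vst (star n (E x))) = conj (vst (E (star n x))) = conj (vst (star n x)) = vst (star x n)` (`vst (star a) = conj (vst a)`).
    So for `a = E(x*) - star (E x) ∈ N`: `vst (a * star a) = 0`, i.e. `‖star a ζ‖ = 0`, so `star a = 0` (`hsep`).
(b) `exists_V`: let `K` be the closure of `{n ζ : n ∈ N}` (a closed submodule: `Submodule.topologicalClosure` of the range), `P` the orthogonal projection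
    (`Submodule.starProjection`).  `P (x ζ) = E x ζ`: `E x ζ ∈ K` and `x ζ - E x ζ ⊥ n ζ`:
    `⟪n ζ, x ζ⟫ = vst (star n * x) = vst (E (star n * x)) = vst (star n * E x) = ⟪n ζ, E x ζ⟫`.
-/

open MeasureTheory Filter Topology

noncomputable section

namespace H52BC

variable {H : Type*} [NormedAddCommGroup H] [InnerProductSpace ℂ H] [CompleteSpace H]
variable {M N : VonNeumannAlgebra H} {ζ : H} {U : ℝ → H →L[ℂ] H} {E : (H →L[ℂ] H) → (H →L[ℂ] H)}

omit [CompleteSpace H] in
theorem mdE_vst_sub (a b : H →L[ℂ] H) : vst ζ (a - b) = vst ζ a - vst ζ b := by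
  simp [vst]

theorem mdE_vst_star (a : H →L[ℂ] H) : vst ζ (star a) = starRingEnd ℂ (vst ζ a) := by
  rw [vst, vst, ContinuousLinearMap.star_eq_adjoint, ContinuousLinearMap.adjoint_inner_right,
    inner_conj_symm]

theorem condExp_star (hNM : N ≤ M) (hsep : ∀ x ∈ M, x ζ = 0 → x = 0) (hE : IsCondExp M N ζ E)
    (x : H →L[ℂ] H) (hx : x ∈ M) : E (star x) = star (E x) := by
  have hsx : star x ∈ M := star_mem hx
  have he : E x ∈ N := hE.mem x hx
  have hes : E (star x) ∈ N := hE.mem _ hsx
  have h1N : (1 : H →L[ℂ] H) ∈ N := one_mem N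
  have key : ∀ n ∈ N, vst ζ ((E (star x) - star (E x)) * n) = 0 := by
    intro n hn
    have hnM : n ∈ M := hNM hn
    have e1 : vst ζ (E (star x) * n) = vst ζ (star x * n) := by
      have h := hE.bimod 1 h1N (star x) hsx n hn
      rw [one_mul, one_mul] at h
      rw [← h, hE.state _ (mul_mem hsx hnM)]
    have e2 : vst ζ (star (E x) * n) = vst ζ (star x * n) := by
      have h := hE.bimod (star n) (star_mem hn) x hx 1 h1N
      rw [mul_one, mul_one] at h
      have h3 : vst ζ (star n * E x) = vst ζ (star n * x) := by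
        rw [← h, hE.state _ (mul_mem (star_mem hnM) hx)]
      have h4 : star (E x) * n = star (star n * E x) := by rw [star_mul, star_star]
      have h5 : star x * n = star (star n * x) := by rw [star_mul, star_star]
      rw [h4, h5, mdE_vst_star, mdE_vst_star, h3]
    rw [sub_mul, mdE_vst_sub, e1, e2, sub_self]
  have haN : E (star x) - star (E x) ∈ N := sub_mem hes (star_mem he)
  set a := E (star x) - star (E x) with ha
  have h0 := key (star a) (star_mem haN)
  have h1 : (star a) ζ = 0 := by
    have : inner ℂ ((star a) ζ) ((star a) ζ) = (0 : ℂ) := by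
      calc inner ℂ ((star a) ζ) ((star a) ζ) = inner ℂ ζ (a ((star a) ζ)) := by
            rw [ContinuousLinearMap.star_eq_adjoint, ContinuousLinearMap.adjoint_inner_left]
        _ = 0 := h0
    exact inner_self_eq_zero.mp this
  have h2 : star a = 0 := hsep _ (star_mem (hNM haN)) h1
  have h3 : a = 0 := by
    rw [← star_star a, h2, star_zero]
  exact sub_eq_zero.mp h3

theorem exists_V (hNM : N ≤ M) (hsep : ∀ x ∈ M, x ζ = 0 → x = 0) (hE : IsCondExp M N ζ E) :
    ∃ P : H →L[ℂ] H, star P = P ∧ P * P = P ∧ (∀ x ∈ M, P (x ζ) = E x ζ) := by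
  let K0 : Submodule ℂ H :=
    { carrier := {v | ∃ n ∈ N, v = n ζ}
      add_mem' := by
        rintro _ _ ⟨a, ha, rfl⟩ ⟨b, hb, rfl⟩
        exact ⟨a + b, add_mem ha hb, rfl⟩
      zero_mem' := ⟨0, zero_mem N, rfl⟩
      smul_mem' := by
        rintro c _ ⟨a, ha, rfl⟩
        exact ⟨c • a, N.toStarSubalgebra.smul_mem ha c, rfl⟩ }
  let K : Submodule ℂ H := K0.topologicalClosure
  have : CompleteSpace K := (Submodule.isClosed_topologicalClosure K0).completeSpace_coe
  refine ⟨K.starProjection, ?_, ?_, ?_⟩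
  · exact (isSelfAdjoint_starProjection K).star_eq
  · exact K.isIdempotentElem_starProjection
  · intro x hx
    have he : E x ∈ N := hE.mem x hx
    refine Submodule.eq_starProjection_of_mem_orthogonal ?_ ?_
    · exact K0.le_topologicalClosure ⟨E x, he, rfl⟩
    · change x ζ - E x ζ ∈ K0.topologicalClosureᗮ
      rw [Submodule.orthogonal_closure, Submodule.mem_orthogonal]
      rintro _ ⟨n, hn, rfl⟩
      have hnM : n ∈ M := hNM hn
      have h := hE.bimod (star n) (star_mem hn) x hx 1 (one_mem N)
      rw [mul_one, mul_one] at h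
      have h3 : vst ζ (star n * E x) = vst ζ (star n * x) := by
        rw [← h, hE.state _ (mul_mem (star_mem hnM) hx)]
      have h4 : ∀ y : H →L[ℂ] H, inner ℂ (n ζ) (y ζ) = vst ζ (star n * y) := by
        intro y
        change inner ℂ (n ζ) (y ζ) = inner ℂ ζ ((star n) (y ζ))
        rw [ContinuousLinearMap.star_eq_adjoint, ContinuousLinearMap.adjoint_inner_right]
      rw [inner_sub_right, h4, h4, h3, sub_self]

end H52BC
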