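import Pool.Agent.H52.BC.MdJ
import Pool.Agent.H52.BC.MdE

/-!
Row MdV.  Takesaki's theorem: a `φ`-preserving conditional expectation onto `N` forces `σ_t(N) ⊆ N`.

(`condExp_star` and `exists_V` are in MdE: `P` selfadjoint projection with `P (x ζ) = E x ζ`; put `V = 2 P - 1`, so `V x ζ = (2 • E x - x) ζ`.)
(c) (B1) for `X` with orbit `G` and `y ∈ M`: `⟪y ζ, G (-i) ζ⟫ = vst (star y * G(-i)) = vst (G 0 * star y) = vst (X * star y) = ⟪star X ζ, star y ζ⟫` (`kms_orbit` at `z = -i`).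
(d) For `X, Y` with orbits `G, G'` put `F z = ⟪V (G' (conj z) ζ), G z ζ⟫`: entire (`z ↦ G z ζ` holomorphic, `z ↦ V (G'(conj z) ζ)` antiholomorphic in the conjugate linear slot;
    e.g. write it as `vst (star ((2 E(A) - A)) ...)`; or `F z = ⟪ζ, star (G' (conj z)) (V (G z ζ))⟫ = ` value of the entire operator function `z ↦ star (G' (conj z)) * V * G z`), bounded on strips.
    With `x_V := 2 • E x - x` (so `V x ζ = x_V ζ`, `(star x)_V = star (x_V)`, `x_V ∈ M`):
    `F (z - i) = ⟪(G'(conj z + i))_V ζ, G (z - i) ζ⟫ = ⟪star (G z) ζ, (star (G' (conj z + i)))_V ζ⟫`  [(c) for the element `G z` with orbit `G (· + z)` and `y = (G'(conj z + i))_V`]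
    `= ⟪(star (G z))_V ζ, star (G' (conj z + i)) ζ⟫`  [`V` selfadjoint]; the element `A = star (G' (conj z))` has orbit `w ↦ star (G' (conj (w + z)))`, at `w = -i`:
    `star (G' (conj z + i))`; so by (c) again `= ⟪star A ζ, star ((star (G z))_V) ζ⟫ = ⟪G' (conj z) ζ, (G z)_V ζ⟫ = ⟪G'(conj z) ζ, V (G z ζ)⟫ = F z`.
    An entire function bounded on `|Im z| ≤ 1` with period `i` is bounded, so constant (Liouville: `Differentiable.apply_eq_apply_of_bounded`).
    So `⟪V U t Y ζ, U t X ζ⟫ = ⟪V Y ζ, X ζ⟫` for all entire `X, Y` (`G' t ζ = U t Y ζ`), i.e. `U (-t) V U t = V` by density (`dense_orbit`).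
(e) So `P` commutes with `U t`.  For `n ∈ N`, `m := U t * n * U (-t) ∈ M`: `E m ζ = P (m ζ) = P (U t (n ζ)) = U t (P (n ζ)) = U t (n ζ) = m ζ`, so `m = E m ∈ N` (`hsep`).
-/

open MeasureTheory Filter Topology

noncomputable section

namespace H52BC

variable {H : Type*} [NormedAddCommGroup H] [InnerProductSpace ℂ H] [CompleteSpace H]
variable {M N : VonNeumannAlgebra H} {ζ : H} {U : ℝ → H →L[ℂ] H} {E : (H →L[ℂ] H) → (H →L[ℂ] H)}

theorem mdv_sa {P : H →L[ℂ] H} (hP : star P = P) (a b : H) :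
    inner ℂ (P a) b = inner ℂ a (P b) := by
  conv_lhs => rw [← hP]
  rw [ContinuousLinearMap.star_eq_adjoint, ContinuousLinearMap.adjoint_inner_left]

theorem kms_B1 (hU : IsModularGroup M ζ U) {X : H →L[ℂ] H} {G : ℂ → H →L[ℂ] H}
    (hX : IsOrbit M U X G) (y : H →L[ℂ] H) (hy : y ∈ M) :
    inner ℂ (y ζ) (G (-Complex.I) ζ) = inner ℂ (star X ζ) (star y ζ) := by
  have h1 := kms_orbit hU hX (star y) (star_mem hy) (-Complex.I)
  rw [neg_add_cancel, IsOrbit.zero_eq hU hX] at h1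
  have h2 : inner ℂ (y ζ) (G (-Complex.I) ζ) = vst ζ (star y * G (-Complex.I)) := by
    unfold vst
    rw [ContinuousLinearMap.mul_apply, ContinuousLinearMap.star_eq_adjoint,
      ContinuousLinearMap.adjoint_inner_right]
  have h3 : inner ℂ (star X ζ) (star y ζ) = vst ζ (X * star y) := by
    unfold vst
    rw [ContinuousLinearMap.mul_apply, ContinuousLinearMap.star_eq_adjoint X,
      ContinuousLinearMap.adjoint_inner_left]
  rw [h2, h3, h1]

theorem mdv_main (hNM : N ≤ M) (hsep : ∀ x ∈ M, x ζ = 0 → x = 0) (hU : IsModularGroup M ζ U)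
    (hE : IsCondExp M N ζ E) {P : H →L[ℂ] H} (hPs : star P = P)
    (hPx : ∀ x ∈ M, P (x ζ) = E x ζ) {X Y : H →L[ℂ] H} {G G' : ℂ → H →L[ℂ] H}
    (hX : IsOrbit M U X G) (hY : IsOrbit M U Y G') (t : ℝ) :
    inner ℂ (P (U t (Y ζ))) (U t (X ζ)) = inner ℂ (P (Y ζ)) (X ζ) := by
  obtain ⟨F, hF⟩ : ∃ F : ℂ → ℂ, ∀ z, F z = inner ℂ (P (G' ((starRingEnd ℂ) z) ζ)) (G z ζ) :=
    ⟨_, fun _ => rfl⟩
  have hdiff : Differentiable ℂ F := by
    have h1 := (IsOrbit.star' hU hY).diff
    have h2 : Differentiable ℂ (fun z => star (G' ((starRingEnd ℂ) z)) * P * G z) :=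
      (h1.mul_const P).mul hX.diff
    have h3 : Differentiable ℂ
        (fun z => (innerSL ℂ ζ) ((star (G' ((starRingEnd ℂ) z)) * P * G z) ζ)) :=
      (innerSL ℂ ζ).differentiable.comp (h2.clm_apply (differentiable_const ζ))
    have e : F = fun z => (innerSL ℂ ζ) ((star (G' ((starRingEnd ℂ) z)) * P * G z) ζ) := by
      funext z
      rw [hF, innerSL_apply_apply, ContinuousLinearMap.mul_apply, ContinuousLinearMap.mul_apply,
        ContinuousLinearMap.star_eq_adjoint, ContinuousLinearMap.adjoint_inner_right, mdv_sa hPs]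
    rw [e]
    exact h3
  have hper : ∀ z, F (z - Complex.I) = F z := by
    intro z
    have hconj : (starRingEnd ℂ) (z - Complex.I) = (starRingEnd ℂ) z + Complex.I := by
      rw [map_sub, Complex.conj_I, sub_neg_eq_add]
    have hB : G' ((starRingEnd ℂ) z + Complex.I) ∈ M := hY.mem _
    have s1 := kms_B1 hU (IsOrbit.shift hU hX z) (E (G' ((starRingEnd ℂ) z + Complex.I)))
      (hNM (hE.mem _ hB))
    have s2 := kms_B1 hU (IsOrbit.shift hU (IsOrbit.star' hU hY) z) (E (star (G z)))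
      (hNM (hE.mem _ (star_mem (hX.mem z))))
    have hz1 : -Complex.I + z = z - Complex.I := by ring
    simp only [hz1, hconj] at s1 s2
    rw [star_star] at s2
    have hc1 := condExp_star hNM hsep hE _ hB
    have hc2 := condExp_star hNM hsep hE _ (star_mem (hX.mem z))
    rw [star_star] at hc2
    calc F (z - Complex.I)
        = inner ℂ (P (G' ((starRingEnd ℂ) z + Complex.I) ζ)) (G (z - Complex.I) ζ) := by
          rw [hF, hconj]
      _ = inner ℂ (E (G' ((starRingEnd ℂ) z + Complex.I)) ζ) (G (z - Complex.I) ζ) := by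
          rw [hPx _ hB]
      _ = inner ℂ (star (G z) ζ) (star (E (G' ((starRingEnd ℂ) z + Complex.I))) ζ) := s1
      _ = inner ℂ (star (G z) ζ) (P (star (G' ((starRingEnd ℂ) z + Complex.I)) ζ)) := by
          rw [← hc1, hPx _ (star_mem hB)]
      _ = inner ℂ (P (star (G z) ζ)) (star (G' ((starRingEnd ℂ) z + Complex.I)) ζ) := by
          rw [mdv_sa hPs]
      _ = inner ℂ (E (star (G z)) ζ) (star (G' ((starRingEnd ℂ) z + Complex.I)) ζ) := by
          rw [hPx _ (star_mem (hX.mem z))]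
      _ = inner ℂ (G' ((starRingEnd ℂ) z) ζ) (star (E (star (G z))) ζ) := s2
      _ = inner ℂ (G' ((starRingEnd ℂ) z) ζ) (P (G z ζ)) := by
          rw [← hc2, hPx _ (hX.mem z)]
      _ = F z := by rw [hF, mdv_sa hPs]
  obtain ⟨C1, hC1⟩ := hX.bdd 1
  obtain ⟨C2, hC2⟩ := hY.bdd 1
  have hb : ∀ z : ℂ, |z.im| ≤ 1 → ‖F z‖ ≤ (‖P‖ * (C2 * ‖ζ‖)) * (C1 * ‖ζ‖) := by
    intro z hz
    have h1 : ‖G z ζ‖ ≤ C1 * ‖ζ‖ := (G z).le_of_opNorm_le (hC1 z hz) ζ
    have h2 : ‖G' ((starRingEnd ℂ) z) ζ‖ ≤ C2 * ‖ζ‖ :=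
      (G' _).le_of_opNorm_le (hC2 _ (by rw [Complex.conj_im, abs_neg]; exact hz)) ζ
    have h3 : ‖P (G' ((starRingEnd ℂ) z) ζ)‖ ≤ ‖P‖ * (C2 * ‖ζ‖) :=
      (P.le_opNorm _).trans (mul_le_mul_of_nonneg_left h2 (norm_nonneg _))
    rw [hF]
    exact (norm_inner_le_norm _ _).trans
      (mul_le_mul h3 h1 (norm_nonneg _) ((norm_nonneg _).trans h3))
  have hp : Function.Periodic F Complex.I := fun z => by
    have h := hper (z + Complex.I)
    rw [add_sub_cancel_right] at h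
    exact h.symm
  have hbd : Bornology.IsBounded (Set.range F) := by
    rw [isBounded_iff_forall_norm_le]
    refine ⟨(‖P‖ * (C2 * ‖ζ‖)) * (C1 * ‖ζ‖), ?_⟩
    rintro _ ⟨z, rfl⟩
    have h := hp.sub_zsmul_eq (x := z) ⌊z.im⌋
    rw [← h]
    apply hb
    have h2 : (z - ⌊z.im⌋ • Complex.I).im = z.im - ⌊z.im⌋ := by simp
    rw [h2, abs_le]
    constructor <;> linarith [Int.floor_le z.im, Int.lt_floor_add_one z.im]
  have hconst := hdiff.apply_eq_apply_of_bounded hbd (t : ℂ) 0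
  rw [hF, hF, map_zero, IsOrbit.zero_eq hU hX, IsOrbit.zero_eq hU hY, Complex.conj_ofReal,
    hX.real, hY.real] at hconst
  have e1 : ∀ A : H →L[ℂ] H, (U t * A * U (-t)) ζ = U t (A ζ) := by
    intro A
    rw [ContinuousLinearMap.mul_apply, ContinuousLinearMap.mul_apply, hU.fix]
  rw [e1, e1] at hconst
  exact hconst

theorem condExp_invariant (hNM : N ≤ M) (hcyc : Dense {ξ : H | ∃ x ∈ M, ξ = x ζ})
    (hsep : ∀ x ∈ M, x ζ = 0 → x = 0) (hU : IsModularGroup M ζ U) (hE : IsCondExp M N ζ E) :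
    ∀ t : ℝ, ∀ x ∈ N, U t * x * U (-t) ∈ N := by
  obtain ⟨P, hPs, -, hPx⟩ := exists_V hNM hsep hE
  have hd := dense_orbit hU hcyc
  have h1 : ∀ (t : ℝ) (η ξ : H), inner ℂ (P (U t η)) (U t ξ) = inner ℂ (P η) ξ := by
    intro t η ξ
    have hfix : ∀ X G, IsOrbit M U X G → ∀ η : H,
        inner ℂ (P (U t η)) (U t (X ζ)) = inner ℂ (P η) (X ζ) := by
      intro X G hX η
      have h := Continuous.ext_on hd
        (f := fun η : H => inner ℂ (P (U t η)) (U t (X ζ)))
        (g := fun η : H => inner ℂ (P η) (X ζ)) (by fun_prop) (by fun_prop) (by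
          rintro _ ⟨Y, G', hY, rfl⟩
          exact mdv_main hNM hsep hU hE hPs hPx hX hY t)
      exact congrFun h η
    have h := Continuous.ext_on hd
      (f := fun ξ : H => inner ℂ (P (U t η)) (U t ξ))
      (g := fun ξ : H => inner ℂ (P η) ξ) (by fun_prop) (by fun_prop) (by
        rintro _ ⟨X, G, hX, rfl⟩
        exact hfix X G hX η)
    exact congrFun h ξ
  have hUU : ∀ (t : ℝ) (ξ : H), U t (U (-t) ξ) = ξ := by
    intro t ξ
    have h := hU.add t (-t)
    rw [add_neg_cancel, hU.zero] at h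
    have h2 := congrArg (fun A : H →L[ℂ] H => A ξ) h
    simpa using h2.symm
  have h2 : ∀ (t : ℝ) (η : H), P (U t η) = U t (P η) := by
    intro t η
    refine ext_inner_right ℂ (fun v => ?_)
    have h := h1 t η (U (-t) v)
    rw [hUU] at h
    rw [h, ← hU.star_eq, ContinuousLinearMap.star_eq_adjoint,
      ContinuousLinearMap.adjoint_inner_right]
  intro t x hx
  have hm : U t * x * U (-t) ∈ M := hU.mem t x (hNM hx)
  have h3 : E (U t * x * U (-t)) ζ = (U t * x * U (-t)) ζ := by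
    rw [← hPx _ hm, ContinuousLinearMap.mul_apply, ContinuousLinearMap.mul_apply, hU.fix, h2,
      hPx _ (hNM hx), hE.id x hx]
  have h4 : E (U t * x * U (-t)) - U t * x * U (-t) = 0 := by
    apply hsep
    · exact sub_mem (hNM (hE.mem _ hm)) hm
    · rw [ContinuousLinearMap.sub_apply, h3, sub_self]
  rw [← sub_eq_zero.1 h4]
  exact hE.mem _ hm

end H52BC
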