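import Mathlib

/-!
Row WkB.  Powers of `1 - A` for a positive operator with `n A ≤ 1`.

`A` bounded self-adjoint, `0 ≤ ⟪ξ, A ξ⟫ ≤ (1/n) ‖ξ‖²`.  Claim: `(n/2) ⟪ξ,Aξ⟫ ≤ ‖ξ‖² - ⟪ξ,(1-A)^n ξ⟫ ≤ n ⟪ξ,Aξ⟫`.

Proof.  In the C*-algebra `B(H)`: `0 ≤ A ≤ (1/n) • 1` (Loewner order, `ContinuousLinearMap.IsPositive`), spectrum of `A` in `[0, 1/n]`; for `a ∈ [0,1/n]`:
`n a / 2 ≤ 1 - (1-a)^n ≤ n a` (Bernoulli `1 - n a ≤ (1-a)^n`; and `(1-a)^n ≤ exp(-n a) ≤ 1 - n a + (n a)²/2 ≤ 1 - n a/2`).  Use the continuous functional calculus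
(`cfc_mono`, `cfc_pow`, `cfc_le_iff`), or elementary: `1 - (1-A)^n = Σ_{k<n} A (1-A)^k`; all operators commute; `B_k = A^{1/2}(1-A)^k A^{1/2}` satisfies
`A(1 - kA) ≤ B_k ≤ A`, and `Σ_{k<n} k A² ≤ (n²/2) A² ≤ (n/2) A`.
-/

noncomputable section

namespace H52BC

variable {H : Type*} [NormedAddCommGroup H] [InnerProductSpace ℂ H] [CompleteSpace H]

theorem wkB_scal (n : ℕ) (hn : 0 < n) (a : ℝ) (h0 : 0 ≤ a) (h1 : (n : ℝ) * a ≤ 1) :
    (n / 2 : ℝ) * a ≤ 1 - (1 - a) ^ n ∧ 1 - (1 - a) ^ n ≤ (n : ℝ) * a := by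
  have hn1 : (1 : ℝ) ≤ n := by exact_mod_cast hn
  have ha1 : a ≤ 1 := by nlinarith
  constructor
  · have e1 : (1 - a) ^ n ≤ Real.exp (-((n : ℝ) * a)) := by
      have h2 : 1 - a ≤ Real.exp (-a) := by
        have := Real.add_one_le_exp (-a)
        linarith
      calc (1 - a) ^ n ≤ (Real.exp (-a)) ^ n := pow_le_pow_left₀ (by linarith) h2 n
        _ = Real.exp (-((n : ℝ) * a)) := by
          rw [← Real.exp_nat_mul]
          congr 1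
          ring
    set t : ℝ := (n : ℝ) * a with ht
    have ht0 : 0 ≤ t := by positivity
    have e2 : Real.exp (-t) ≤ 1 - t / 2 := by
      have h3 : (1 : ℝ) + t ≤ Real.exp t := by
        have := Real.add_one_le_exp t
        linarith
      have h4 : (1 + t) * (1 - t / 2) ≥ 1 := by nlinarith
      have h5 : 0 < Real.exp t := Real.exp_pos t
      rw [Real.exp_neg]
      rw [inv_le_iff_one_le_mul₀ h5]
      have h6 : 0 ≤ 1 - t / 2 := by linarith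
      nlinarith [mul_le_mul_of_nonneg_left h3 h6]
    have : (n / 2 : ℝ) * a = t / 2 := by rw [ht]; ring
    rw [this]
    linarith
  · have h2 := one_add_mul_le_pow (a := -a) (by linarith) n
    have h3 : (1 + -a) ^ n = (1 - a) ^ n := by ring_nf
    rw [h3] at h2
    linarith

theorem wkB_re (A : H →L[ℂ] H) (h : (0 : H →L[ℂ] H) ≤ A) (ξ : H) :
    0 ≤ (inner ℂ ξ (A ξ)).re := by
  rw [ContinuousLinearMap.nonneg_iff_isPositive] at h
  have := h.re_inner_nonneg_right ξ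
  simpa using this

theorem wkB_nonneg (A : H →L[ℂ] H) (hA : star A = A) (h0 : ∀ ξ : H, 0 ≤ (inner ℂ ξ (A ξ)).re) :
    (0 : H →L[ℂ] H) ≤ A := by
  rw [ContinuousLinearMap.nonneg_iff_isPositive]
  refine (ContinuousLinearMap.isPositive_def').2 ⟨hA, fun ξ => ?_⟩
  rw [ContinuousLinearMap.reApplyInnerSelf_apply]
  have h := h0 ξ
  have e := inner_re_symm (𝕜 := ℂ) ξ (A ξ)
  simp only [RCLike.re_to_complex] at e ⊢
  rw [← e]
  exact h

theorem pow_bounds (A : H →L[ℂ] H) (hA : star A = A) (n : ℕ) (hn : 0 < n)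
    (h0 : ∀ ξ : H, 0 ≤ (inner ℂ ξ (A ξ)).re)
    (h1 : ∀ ξ : H, n * (inner ℂ ξ (A ξ)).re ≤ ‖ξ‖ ^ 2) (ξ : H) :
    (n / 2 : ℝ) * (inner ℂ ξ (A ξ)).re ≤ ‖ξ‖ ^ 2 - (inner ℂ ξ (((1 - A) ^ n) ξ)).re ∧
      ‖ξ‖ ^ 2 - (inner ℂ ξ (((1 - A) ^ n) ξ)).re ≤ (n : ℝ) * (inner ℂ ξ (A ξ)).re := by
  have hsa : IsSelfAdjoint A := hA
  have hnr : (0 : ℝ) < n := by exact_mod_cast hn
  have hA0 : (0 : H →L[ℂ] H) ≤ A := wkB_nonneg A hA h0
  have hA1 : A ≤ algebraMap ℝ (H →L[ℂ] H) (1 / n) := by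
    rw [← sub_nonneg]
    apply wkB_nonneg
    · rw [star_sub, hA]
      congr 1
      rw [← algebraMap_star_comm]
      simp
    · intro ζ
      have e : (algebraMap ℝ (H →L[ℂ] H) (1 / n) - A) ζ = ((1 / n : ℝ) : ℂ) • ζ - A ζ := by
        rw [ContinuousLinearMap.sub_apply, Algebra.algebraMap_eq_smul_one, ContinuousLinearMap.smul_apply,
          ContinuousLinearMap.one_apply, Complex.coe_smul]
      rw [e, inner_sub_right, inner_smul_right, inner_self_eq_norm_sq_to_K]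
      have h2 := h1 ζ
      have e3 : (((1 / n : ℝ) : ℂ) * ((‖ζ‖ : ℂ)) ^ 2).re = (1 / n) * ‖ζ‖ ^ 2 := by
        rw [← Complex.ofReal_pow, ← Complex.ofReal_mul, Complex.ofReal_re]
      have e4 : (inner ℂ ζ (A ζ)).re ≤ (1 / n) * ‖ζ‖ ^ 2 := by
        rw [one_div, inv_mul_eq_div, le_div_iff₀ hnr]
        linarith
      rw [Complex.sub_re]
      have e5 : (((1 / n : ℝ) : ℂ) * ((RCLike.ofReal ‖ζ‖ : ℂ)) ^ 2).re = (1 / n) * ‖ζ‖ ^ 2 := e3
      rw [e5]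
      linarith
  have hs0 : ∀ x ∈ spectrum ℝ A, 0 ≤ x := fun x hx => spectrum_nonneg_of_nonneg hA0 hx
  have hs1 : ∀ x ∈ spectrum ℝ A, x ≤ 1 / n := (le_algebraMap_iff_spectrum_le (ha := hsa)).1 hA1
  have hsc : ∀ x ∈ spectrum ℝ A, (n / 2 : ℝ) * x ≤ 1 - (1 - x) ^ n ∧ 1 - (1 - x) ^ n ≤ (n : ℝ) * x := by
    intro x hx
    apply wkB_scal n hn x (hs0 x hx)
    have := hs1 x hx
    rw [le_div_iff₀ hnr] at this
    linarith
  have e1 : cfc (fun x : ℝ => 1 - (1 - x) ^ n) A = 1 - (1 - A) ^ n := by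
    rw [cfc_sub (fun _ : ℝ => (1 : ℝ)) (fun x : ℝ => (1 - x) ^ n) A, cfc_const_one ℝ A, cfc_pow (fun x : ℝ => 1 - x) n A,
      cfc_sub (fun _ : ℝ => (1 : ℝ)) (fun x : ℝ => x) A, cfc_const_one ℝ A, cfc_id' ℝ A]
  have e2 : ∀ r : ℝ, cfc (fun x : ℝ => r * x) A = r • A := by
    intro r
    rw [cfc_const_mul r (fun x : ℝ => x) A, cfc_id' ℝ A]
  have l1 : (n / 2 : ℝ) • A ≤ 1 - (1 - A) ^ n := by
    rw [← e1, ← e2]
    exact cfc_mono (fun x hx => (hsc x hx).1)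
  have l2 : 1 - (1 - A) ^ n ≤ (n : ℝ) • A := by
    rw [← e1, ← e2]
    exact cfc_mono (fun x hx => (hsc x hx).2)
  have m1 := wkB_re _ (sub_nonneg.2 l1) ξ
  have m2 := wkB_re _ (sub_nonneg.2 l2) ξ
  have hsq : (inner ℂ ξ ξ).re = ‖ξ‖ ^ 2 := by
    have := inner_self_eq_norm_sq (𝕜 := ℂ) ξ
    simpa using this
  have hs : ∀ r : ℝ, (inner ℂ ξ ((r • A) ξ)).re = r * (inner ℂ ξ (A ξ)).re := by
    intro r
    rw [ContinuousLinearMap.smul_apply, ← Complex.coe_smul, inner_smul_right]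
    simp
  rw [ContinuousLinearMap.sub_apply, inner_sub_right, Complex.sub_re, hs, ContinuousLinearMap.sub_apply, inner_sub_right,
    Complex.sub_re, ContinuousLinearMap.one_apply, hsq] at m1 m2
  constructor
  · linarith
  · linarith

end H52BC
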