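import Mathlib

/-!
Row WkC.  Average of words (pigeonhole).

`R` a ring with a real functional, `c : κ → R` finitely many elements, `S = (1/|κ|) Σ c k` (we write it as: `Λ (S * W) = (1/|κ|) Σ Λ (c k * W)` for all additive
functionals of a given type).  For every `n` there is a word `k_1, …, k_n` with `Λ (c k_1 * … * c k_n) ≥ Λ (S ^ n)`.

Proof by induction on `n` for ALL `ℝ`-linear `Λ : A →ₗ[ℝ] ℝ`: `Λ(S^{n+1}) = Λ(S * S^n) = (1/|κ|) Σ_k Λ(c k * S^n)`, so some `k` has `Λ(c k * S^n) ≥ Λ(S^{n+1})`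
(`Finset.exists_le_of_sum_le` / `Finset.exists_le_of_...`); apply the induction hypothesis to `Λ' = Λ ∘ (c k * ·)`.
-/

noncomputable section

namespace H52BC

theorem word_avg {A : Type*} [Ring A] [Algebra ℝ A] {κ : Type*} [Fintype κ] [Nonempty κ]
    (c : κ → A) (n : ℕ) (Λ : A →ₗ[ℝ] ℝ) :
    ∃ w : List κ, w.length = n ∧
      Λ (((Fintype.card κ : ℝ)⁻¹ • ∑ k, c k) ^ n) ≤ Λ ((w.map c).prod) := by
  induction n generalizing Λ with
  | zero => exact ⟨[], rfl, by simp⟩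
  | succ n ih =>
    set S : A := (Fintype.card κ : ℝ)⁻¹ • ∑ k, c k with hS
    have hcard : (0 : ℝ) < (Fintype.card κ : ℝ) := by
      exact_mod_cast Fintype.card_pos
    have hexp : Λ (S ^ (n + 1)) = (Fintype.card κ : ℝ)⁻¹ * ∑ k, Λ (c k * S ^ n) := by
      have h1 : S ^ (n + 1) = (Fintype.card κ : ℝ)⁻¹ • ∑ k, c k * S ^ n := by
        rw [pow_succ', ← Finset.sum_mul]
        conv_lhs => rw [hS]
        rw [smul_mul_assoc]
      rw [h1, map_smul, map_sum, smul_eq_mul]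
    obtain ⟨k, -, hk⟩ : ∃ k ∈ (Finset.univ : Finset κ), Λ (S ^ (n + 1)) ≤ Λ (c k * S ^ n) := by
      apply Finset.exists_le_of_sum_le Finset.univ_nonempty
      rw [Finset.sum_const, Finset.card_univ, nsmul_eq_mul, hexp, ← mul_assoc,
        mul_inv_cancel₀ hcard.ne', one_mul]
    obtain ⟨w, hw, hw'⟩ := ih (Λ ∘ₗ LinearMap.mulLeft ℝ (c k))
    refine ⟨k :: w, by simp [hw], ?_⟩
    have h2 : Λ (c k * S ^ n) ≤ Λ (c k * (w.map c).prod) := hw'
    rw [List.map_cons, List.prod_cons]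
    exact hk.trans h2

end H52BC
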