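import Pool.Agent.H52.BC.WkE
import Pool.Agent.H52.BC.WkB
import Pool.Agent.H52.BC.WkC

/-!
Row WkD.  The random walk theorem (section 4 of /team-store/H52_853c37.md).

Setting: `J` conjugate linear isometric involution, `J a J` commutes with `b` for `a, b ∈ N`.  For `u ∈ N` put `C u = u * cj J u`.
(The lemmas `exp_mem K_star K_br C_exp C_mul K_sum` of WkE do steps 1-3.)
1. `C (u * v) = C u * C v` (`C_mul`), so for a word the product of the `C`'s is `C` of the product; for a list `w` of unitaries in `N` the product is a unitary in `N`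
   (`N` is closed under multiplication).
2. For `h ∈ N`, `star h = h`: `u_± = exp((± i/2) h) ∈ N` (`exp` of an element of a von Neumann algebra: commutes with the commutant,
   `NormedSpace.exp_...Commute`/`Commute.exp_right`; `N = N''`).  `cj J (exp((i/2) h)) = exp(-(i/2) cj J h)` (`cj_exp`, `cj_smul`), so
   `C u_± = exp((± i/2) K)`, `K = h - cj J h` (`NormedSpace.exp_add_of_commute`), `star K = K`, `K ξ = br J h ξ` (as `star h = h`).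
3. `Σ ‖K_i ξ‖² ≤ 2 Σ (‖h_i ξ‖² + ‖cj J h_i ξ‖²) ≤ 4 ‖ξ‖²` (`‖cj J h ξ‖ = ‖h (J ξ)‖`, `hsum` for `ξ` and `J ξ`); in particular `‖K_i ξ‖ ≤ 2 ‖ξ‖`.
4. `κ = ι × Bool`, `c (i, ±) = C u_{i,±}`, `r = |ι|`, `S = (1/(2r)) Σ c`, `A = 1 - S`: self-adjoint (`star` exchanges `±`),
   `re ⟪ξ, A ξ⟫ = (1/(2r)) Σ_i ‖exp((i/2)K_i) ξ - ξ‖²` (for a unitary `W`: `‖Wξ - ξ‖² = 2 (‖ξ‖² - re⟪ξ, Wξ⟫)`, and the same for `star W`), so by `exp_upper/lower`
   `(1/(32 r)) Σ ‖K_i ξ‖² ≤ re ⟪ξ, Aξ⟫ ≤ (1/(8r)) Σ ‖K_i ξ‖² ≤ (1/(2r)) ‖ξ‖²`.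
5. `n = 2 r`: `pow_bounds` gives for every `ξ`: `(1/32) Σ ‖K_i ξ‖² ≤ ‖ξ‖² - re⟪ξ, S^n ξ⟫ ≤ (1/4) Σ ‖K_i ξ‖²`.
6. `word_avg` with `Λ W = - re⟪η, W η⟫ + lam * re⟪ζ, W ζ⟫` (an `ℝ`-linear functional on `B(H)`), `n = 2r`: word `w`, `V =` product of the `u`'s:
   `‖η‖² - re⟪η, C V η⟫ - lam (‖ζ‖² - re⟪ζ, C V ζ⟫) ≥ ‖η‖² - re⟪η, S^n η⟫ - lam (‖ζ‖² - re⟪ζ, S^n ζ⟫)`, use 5.
   `C V η = V (J (V (J η)))`.
-/

noncomputable section

namespace H52BC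

variable {H : Type*} [NormedAddCommGroup H] [InnerProductSpace ℂ H] [CompleteSpace H]

/-- the unitaries of the walk -/
def WkD_u {ι : Type*} (h : ι → H →L[ℂ] H) (k : ι × Bool) : H →L[ℂ] H :=
  NormedSpace.exp ((Complex.I * ((if k.2 then (1 / 2 : ℝ) else -(1 / 2 : ℝ) : ℝ) : ℂ)) • h k.1)

theorem WkD_unit (W : H →L[ℂ] H) (h1 : star W * W = 1) (h2 : W * star W = 1) (ξ : H) :
    ‖W ξ - ξ‖ ^ 2 = 2 * (‖ξ‖ ^ 2 - (inner ℂ ξ (W ξ)).re) := by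
  have hn : ‖W ξ‖ = ‖ξ‖ := Unitary.norm_map (⟨W, (Unitary.mem_iff).2 ⟨h1, h2⟩⟩ : unitary (H →L[ℂ] H)) ξ
  have e := norm_sub_sq (𝕜 := ℂ) (W ξ) ξ
  have e2 := inner_re_symm (𝕜 := ℂ) ξ (W ξ)
  simp only [RCLike.re_to_complex] at e e2
  rw [e, hn, ← e2]
  ring

theorem WkD_star_re (W : H →L[ℂ] H) (ξ : H) : (inner ℂ ξ ((star W) ξ)).re = (inner ℂ ξ (W ξ)).re := by
  rw [ContinuousLinearMap.star_eq_adjoint, ContinuousLinearMap.adjoint_inner_right]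
  have e2 := inner_re_symm (𝕜 := ℂ) (W ξ) ξ
  simpa using e2

theorem WkD_C {ι : Type*} (N : VonNeumannAlgebra H) (J : H ≃ₗᵢ⋆[ℂ] H)
    (hJ : ∀ ξ, J (J ξ) = ξ) (hcomm : ∀ a ∈ N, ∀ b ∈ N, ∀ ξ, J (a (J (b ξ))) = b (J (a (J ξ))))
    (h : ι → H →L[ℂ] H) (hmem : ∀ i, h i ∈ N) (k : ι × Bool) :
    WkD_u h k * cj J (WkD_u h k) =
      NormedSpace.exp ((Complex.I * ((if k.2 then (1 / 2 : ℝ) else -(1 / 2 : ℝ) : ℝ) : ℂ)) • (h k.1 - cj J (h k.1))) := by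
  unfold WkD_u
  exact C_exp N J hJ hcomm (h k.1) (hmem k.1) _

theorem WkD_word {ι : Type*} (N : VonNeumannAlgebra H) (J : H ≃ₗᵢ⋆[ℂ] H)
    (hJ : ∀ ξ, J (J ξ) = ξ) (hcomm : ∀ a ∈ N, ∀ b ∈ N, ∀ ξ, J (a (J (b ξ))) = b (J (a (J ξ))))
    (h : ι → H →L[ℂ] H) (hmem : ∀ i, h i ∈ N) (hsa : ∀ i, star (h i) = h i) (w : List (ι × Bool)) :
    (w.map (WkD_u h)).prod ∈ N ∧ star ((w.map (WkD_u h)).prod) * (w.map (WkD_u h)).prod = 1 ∧
      (w.map (WkD_u h)).prod * star ((w.map (WkD_u h)).prod) = 1 ∧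
      (w.map (WkD_u h)).prod * cj J ((w.map (WkD_u h)).prod) =
        (w.map (fun k => WkD_u h k * cj J (WkD_u h k))).prod := by
  induction w with
  | nil =>
    refine ⟨?_, ?_, ?_, ?_⟩
    · simp only [List.map_nil, List.prod_nil]
      exact one_mem N
    · simp
    · simp
    · simp only [List.map_nil, List.prod_nil]
      rw [cj_one J hJ, one_mul]
  | cons k w ih =>
    obtain ⟨i1, i2, i3, i4⟩ := ih
    have hu : WkD_u h k ∈ N := exp_mem N (h k.1) (hmem k.1) _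
    obtain ⟨u1, u2, -⟩ := exp_unitary (h k.1) (hsa k.1) (if k.2 then (1 / 2 : ℝ) else -(1 / 2 : ℝ))
    have u1' : star (WkD_u h k) * WkD_u h k = 1 := u1
    have u2' : WkD_u h k * star (WkD_u h k) = 1 := u2
    simp only [List.map_cons, List.prod_cons]
    set P := (w.map (WkD_u h)).prod with hP
    refine ⟨mul_mem hu i1, ?_, ?_, ?_⟩
    · rw [star_mul]
      calc star P * star (WkD_u h k) * (WkD_u h k * P) = star P * (star (WkD_u h k) * WkD_u h k) * P := by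
            simp only [mul_assoc]
        _ = 1 := by rw [u1', mul_one, i2]
    · rw [star_mul]
      calc WkD_u h k * P * (star P * star (WkD_u h k)) = WkD_u h k * (P * star P) * star (WkD_u h k) := by
            simp only [mul_assoc]
        _ = 1 := by rw [i3, mul_one, u2']
    · rw [C_mul N J hJ hcomm _ _ hu i1, i4]

theorem walk {ι : Type*} [Fintype ι] [Nonempty ι] (N : VonNeumannAlgebra H) (J : H ≃ₗᵢ⋆[ℂ] H)
    (hJ : ∀ ξ, J (J ξ) = ξ) (hcomm : ∀ a ∈ N, ∀ b ∈ N, ∀ ξ, J (a (J (b ξ))) = b (J (a (J ξ))))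
    (h : ι → H →L[ℂ] H) (hmem : ∀ i, h i ∈ N) (hsa : ∀ i, star (h i) = h i)
    (hsum : ∀ ξ : H, ∑ i, ‖h i ξ‖ ^ 2 ≤ ‖ξ‖ ^ 2) (η ζ : H) (lam : ℝ) (hlam : 0 ≤ lam) :
    ∃ V ∈ N, star V * V = 1 ∧ V * star V = 1 ∧
      (1 / 32) * ∑ i, ‖br J (h i) η‖ ^ 2 - lam / 4 * ∑ i, ‖br J (h i) ζ‖ ^ 2 ≤
        (‖η‖ ^ 2 - (inner ℂ η (V (J (V (J η))))).re) -
          lam * (‖ζ‖ ^ 2 - (inner ℂ ζ (V (J (V (J ζ))))).re) := by
  classical
  set K : ι → H →L[ℂ] H := fun i => h i - cj J (h i) with hK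
  have hKs : ∀ i, star (K i) = K i := fun i => K_star J hJ (h i) (hsa i)
  have hKb : ∀ i ξ, K i ξ = br J (h i) ξ := fun i ξ => K_br J (h i) (hsa i) ξ
  have hKsum : ∀ ξ : H, ∑ i, ‖K i ξ‖ ^ 2 ≤ 4 * ‖ξ‖ ^ 2 := fun ξ => K_sum J h hsa hsum ξ
  have hK2 : ∀ i ξ, ‖K i ξ‖ ≤ 2 * ‖ξ‖ := by
    intro i ξ
    have h1 : ‖K i ξ‖ ^ 2 ≤ ∑ i, ‖K i ξ‖ ^ 2 :=
      Finset.single_le_sum (f := fun i => ‖K i ξ‖ ^ 2) (fun j _ => sq_nonneg _) (Finset.mem_univ i)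
    have h2 := hKsum ξ
    apply le_of_sq_le_sq _ (by positivity)
    nlinarith
  set W : ι → H →L[ℂ] H := fun i => NormedSpace.exp ((Complex.I * (1 / 2 : ℝ)) • K i) with hW
  have hWu : ∀ i, star (W i) * W i = 1 ∧ W i * star (W i) = 1 ∧
      star (W i) = NormedSpace.exp ((Complex.I * (-(1 / 2 : ℝ) : ℝ)) • K i) :=
    fun i => exp_unitary (K i) (hKs i) (1 / 2)
  set c : ι × Bool → H →L[ℂ] H := fun k => WkD_u h k * cj J (WkD_u h k) with hc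
  have hct : ∀ i, c (i, true) = W i := by
    intro i
    rw [hc]
    have e := WkD_C N J hJ hcomm h hmem (i, true)
    simp only [if_true] at e
    exact e
  have hcf : ∀ i, c (i, false) = star (W i) := by
    intro i
    rw [hc]
    have e := WkD_C N J hJ hcomm h hmem (i, false)
    rw [(hWu i).2.2]
    simpa using e
  have hsumc : ∑ k, c k = ∑ i, (W i + star (W i)) := by
    rw [Fintype.sum_prod_type]
    refine Finset.sum_congr rfl (fun i _ => ?_)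
    rw [Fintype.sum_bool, hct, hcf]
  set n : ℕ := Fintype.card (ι × Bool) with hn
  have hnr : (n : ℝ) = 2 * (Fintype.card ι : ℝ) := by
    rw [hn, Fintype.card_prod, Fintype.card_bool]
    push_cast
    ring
  have hnpos : 0 < n := Fintype.card_pos
  have hnp : (0 : ℝ) < n := by exact_mod_cast hnpos
  set S : H →L[ℂ] H := ((n : ℝ)⁻¹) • ∑ k, c k with hS
  set A : H →L[ℂ] H := 1 - S with hA
  have hSs : star S = S := by
    rw [hS, hsumc, star_smul, star_sum, star_trivial]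
    congr 1
    refine Finset.sum_congr rfl (fun i _ => ?_)
    rw [star_add, star_star, add_comm]
  have hAs : star A = A := by rw [hA, star_sub, star_one, hSs]
  have hre : ∀ ξ : H, (n : ℝ) * (inner ℂ ξ (A ξ)).re = ∑ i, ‖W i ξ - ξ‖ ^ 2 := by
    intro ξ
    have hsq : (inner ℂ ξ ξ).re = ‖ξ‖ ^ 2 := by
      have := inner_self_eq_norm_sq (𝕜 := ℂ) ξ
      simpa using this
    have e1 : (inner ℂ ξ (S ξ)).re = (n : ℝ)⁻¹ * ∑ i, 2 * (inner ℂ ξ (W i ξ)).re := by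
      rw [hS, hsumc, ContinuousLinearMap.smul_apply, ← Complex.coe_smul, inner_smul_right,
        Complex.re_ofReal_mul, ContinuousLinearMap.sum_apply, inner_sum, Complex.re_sum]
      congr 1
      refine Finset.sum_congr rfl (fun i _ => ?_)
      rw [ContinuousLinearMap.add_apply, inner_add_right, Complex.add_re, WkD_star_re]
      ring
    rw [hA, ContinuousLinearMap.sub_apply, ContinuousLinearMap.one_apply, inner_sub_right, Complex.sub_re, hsq, e1,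
      mul_sub, ← mul_assoc, mul_inv_cancel₀ hnp.ne', one_mul]
    have e2 : ∀ i, ‖W i ξ - ξ‖ ^ 2 = 2 * ‖ξ‖ ^ 2 - 2 * (inner ℂ ξ (W i ξ)).re := by
      intro i
      rw [WkD_unit (W i) (hWu i).1 (hWu i).2.1 ξ]
      ring
    rw [Finset.sum_congr rfl (fun i _ => e2 i), Finset.sum_sub_distrib, Finset.sum_const, Finset.card_univ,
      nsmul_eq_mul, hnr]
    ring
  have hlo : ∀ ξ : H, (1 / 16) * ∑ i, ‖K i ξ‖ ^ 2 ≤ (n : ℝ) * (inner ℂ ξ (A ξ)).re := by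
    intro ξ
    rw [hre, Finset.mul_sum]
    refine Finset.sum_le_sum (fun i _ => ?_)
    have := exp_lower (K i) (hKs i) (hK2 i) ξ
    have h0 := norm_nonneg (K i ξ)
    have h1 : (‖K i ξ‖ / 4) ^ 2 ≤ ‖W i ξ - ξ‖ ^ 2 := pow_le_pow_left₀ (by positivity) this 2
    linarith [h1, (by ring : (‖K i ξ‖ / 4) ^ 2 = (1 / 16) * ‖K i ξ‖ ^ 2)]
  have hup : ∀ ξ : H, (n : ℝ) * (inner ℂ ξ (A ξ)).re ≤ (1 / 4) * ∑ i, ‖K i ξ‖ ^ 2 := by
    intro ξ
    rw [hre, Finset.mul_sum]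
    refine Finset.sum_le_sum (fun i _ => ?_)
    have := exp_upper (K i) (hKs i) ξ
    have h1 : ‖W i ξ - ξ‖ ^ 2 ≤ (‖K i ξ‖ / 2) ^ 2 := pow_le_pow_left₀ (norm_nonneg _) this 2
    linarith [h1, (by ring : (‖K i ξ‖ / 2) ^ 2 = (1 / 4) * ‖K i ξ‖ ^ 2)]
  have h0 : ∀ ξ : H, 0 ≤ (inner ℂ ξ (A ξ)).re := by
    intro ξ
    have h1 := hlo ξ
    have h2 : 0 ≤ ∑ i, ‖K i ξ‖ ^ 2 := Finset.sum_nonneg (fun i _ => sq_nonneg _)
    by_contra hlt
    push Not at hlt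
    have := mul_neg_of_pos_of_neg hnp hlt
    linarith
  have h1 : ∀ ξ : H, n * (inner ℂ ξ (A ξ)).re ≤ ‖ξ‖ ^ 2 := by
    intro ξ
    have h1 := hup ξ
    have h2 := hKsum ξ
    linarith
  have hpb := pow_bounds A hAs n hnpos h0 h1
  have hSA : (1 : H →L[ℂ] H) - A = S := by rw [hA, sub_sub_cancel]
  rw [hSA] at hpb
  let Λ : (H →L[ℂ] H) →ₗ[ℝ] ℝ :=
    { toFun := fun X => -(inner ℂ η (X η)).re + lam * (inner ℂ ζ (X ζ)).re
      map_add' := fun X Y => by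
        simp only [ContinuousLinearMap.add_apply, inner_add_right, Complex.add_re]
        ring
      map_smul' := fun r X => by
        simp only [ContinuousLinearMap.smul_apply, ← Complex.coe_smul, inner_smul_right, Complex.re_ofReal_mul,
          RingHom.id_apply, smul_eq_mul]
        ring }
  obtain ⟨w, -, hw⟩ := word_avg c n Λ
  obtain ⟨w1, w2, w3, w4⟩ := WkD_word N J hJ hcomm h hmem hsa w
  refine ⟨(w.map (WkD_u h)).prod, w1, w2, w3, ?_⟩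
  have hcw : (w.map c).prod = (w.map (WkD_u h)).prod * cj J ((w.map (WkD_u h)).prod) := w4.symm
  have hw' : -(inner ℂ η ((S ^ n) η)).re + lam * (inner ℂ ζ ((S ^ n) ζ)).re ≤
      -(inner ℂ η (((w.map c).prod) η)).re + lam * (inner ℂ ζ (((w.map c).prod) ζ)).re := hw
  rw [hcw] at hw'
  have eV : ∀ ξ : H, ((w.map (WkD_u h)).prod * cj J ((w.map (WkD_u h)).prod)) ξ =
      (w.map (WkD_u h)).prod (J ((w.map (WkD_u h)).prod (J ξ))) := fun ξ => rfl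
  rw [eV, eV] at hw'
  have b1 := (hpb η).1
  have b2 := (hpb ζ).2
  have b3 := hlo η
  have b4 := hup ζ
  have b5 : ∑ i, ‖br J (h i) η‖ ^ 2 = ∑ i, ‖K i η‖ ^ 2 :=
    Finset.sum_congr rfl (fun i _ => by rw [hKb])
  have b6 : ∑ i, ‖br J (h i) ζ‖ ^ 2 = ∑ i, ‖K i ζ‖ ^ 2 :=
    Finset.sum_congr rfl (fun i _ => by rw [hKb])
  rw [b5, b6]
  have b7 : lam * (‖ζ‖ ^ 2 - (inner ℂ ζ ((S ^ n) ζ)).re) ≤ lam * ((1 / 4) * ∑ i, ‖K i ζ‖ ^ 2) :=
    mul_le_mul_of_nonneg_left (b2.trans b4) hlam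
  have b8 : (1 / 32) * ∑ i, ‖K i η‖ ^ 2 ≤ ‖η‖ ^ 2 - (inner ℂ η ((S ^ n) η)).re := by
    have : (n / 2 : ℝ) * (inner ℂ η (A η)).re = (1 / 2) * ((n : ℝ) * (inner ℂ η (A η)).re) := by ring
    rw [this] at b1
    linarith
  nlinarith

end H52BC
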