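import Pool.Agent.H52.BC.GfA
import Pool.Agent.H52.BC.WkD
import Pool.Agent.H52.BC.HrB
import Pool.Agent.H52.BC.HuN
import Pool.Agent.H52.BC.MdM
import Pool.Agent.H52.BC.MdV
import Pool.Agent.H52.BC.LwD

/-!
End of the proof (section 5 of the paper proof): from the finite families and the random walk to the theorem.
-/

open MeasureTheory Filter Topology

noncomputable section

namespace H52BC

variable {H : Type*} [NormedAddCommGroup H] [InnerProductSpace ℂ H] [CompleteSpace H]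
variable {M N : VonNeumannAlgebra H} {ζ : H} {U : ℝ → H →L[ℂ] H} {J : H ≃ₗᵢ⋆[ℂ] H}
variable {CM CN : Set (L2 H →L[ℂ] L2 H)}

theorem isom_of_unit (V : H →L[ℂ] H) (hV : star V * V = 1) (ξ : H) : ‖V ξ‖ = ‖ξ‖ := by
  have h1 : (inner ℂ (V ξ) (V ξ) : ℂ) = inner ℂ ξ ξ := by
    rw [← ContinuousLinearMap.adjoint_inner_right V ξ (V ξ)]
    have : (ContinuousLinearMap.adjoint V) (V ξ) = ξ := by
      have := congrArg (fun T : H →L[ℂ] H => T ξ) hV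
      simpa [ContinuousLinearMap.star_eq_adjoint] using this
    rw [this]
  have h2 : ‖V ξ‖ ^ 2 = ‖ξ‖ ^ 2 := by
    rw [← inner_self_eq_norm_sq (𝕜 := ℂ) (V ξ), ← inner_self_eq_norm_sq (𝕜 := ℂ) ξ, h1]
  exact (sq_eq_sq₀ (norm_nonneg _) (norm_nonneg _)).mp h2

/-- strong form: unitaries of `N` almost centralising `φ` which do not almost commute with `x` -/
theorem exists_unitary (hNM : N ≤ M) (hW : WindowData M N ζ U CM CN) (hU : IsModularGroup M ζ U)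
    (hJ : IsModConj M ζ U J) (hζ : ‖ζ‖ = 1) (hsep : ∀ x ∈ M, x ζ = 0 → x = 0)
    (x : H →L[ℂ] H) (hx : x ∈ M) (hxs : star x = x) (hxf : ∀ t : ℝ, U t * x * U (-t) = x)
    (D : ℝ) (hD : 0 < D) (hDx : ∀ c : ℝ, D ≤ ‖(c : ℂ) • ζ - x ζ‖) (e0 : ℝ) (he0 : 0 < e0) :
    ∃ V ∈ N, star V * V = 1 ∧ V * star V = 1 ∧ ‖V ζ - J (star V ζ)‖ ≤ e0 ∧
      D / 256 ≤ ‖(V * x - x * V) ζ‖ + ‖x‖ * ‖V ζ - J (star V ζ)‖ := by
  set η : H := x ζ with hη
  set c1 : ℝ := D ^ 2 / 16384 with hc1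
  have hc1p : 0 < c1 := by positivity
  set e : ℝ := e0 ^ 2 * c1 / (2 * (‖η‖ ^ 2 + 1)) with he
  have hep : 0 < e := by positivity
  obtain ⟨m, hm, h, hmem, hsa, hsum, hnear, hbig⟩ :=
    exists_family hNM hW hU hJ hζ hsep x hx hxs hxf D hD hDx e hep
  have : Nonempty (Fin m) := ⟨⟨0, hm⟩⟩
  have hcomm : ∀ a ∈ N, ∀ b ∈ N, ∀ ξ, J (a (J (b ξ))) = b (J (a (J ξ))) :=
    fun a ha b hb ξ => hJ.mem a (hNM ha) b (hNM hb) ξ
  have hlam : 0 ≤ 2 * c1 / e := by positivity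
  obtain ⟨V, hVN, hV1, hV2, hVb⟩ := walk N J hJ.invol hcomm h hmem hsa hsum η ζ (2 * c1 / e) hlam
  set A : ℝ := ‖η‖ ^ 2 - (inner ℂ η (V (J (V (J η))))).re with hA
  set B : ℝ := ‖ζ‖ ^ 2 - (inner ℂ ζ (V (J (V (J ζ))))).re with hB
  have hAsq := unit_sq J V hV1 η
  have hBsq := unit_sq J V hV1 ζ
  rw [← hA] at hAsq
  rw [← hB] at hBsq
  have hA0 : 0 ≤ A := by nlinarith [sq_nonneg ‖V (J (V (J η))) - η‖]
  have hB0 : 0 ≤ B := by nlinarith [sq_nonneg ‖V (J (V (J ζ))) - ζ‖]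
  have hA2 : A ≤ 2 * ‖η‖ ^ 2 := by
    have h1 : |(inner ℂ η (V (J (V (J η))))).re| ≤ ‖η‖ * ‖η‖ := by
      calc |(inner ℂ η (V (J (V (J η))))).re| ≤ ‖(inner ℂ η (V (J (V (J η)))) : ℂ)‖ :=
            Complex.abs_re_le_norm _
        _ ≤ ‖η‖ * ‖V (J (V (J η)))‖ := norm_inner_le_norm _ _
        _ = ‖η‖ * ‖η‖ := by
            rw [isom_of_unit V hV1, J.norm_map, isom_of_unit V hV1, J.norm_map]
    have h2 := (abs_le.mp h1).1
    rw [hA]; nlinarith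
  have hle : e * (2 * c1 / e) = 2 * c1 := by field_simp
  have hlow : c1 / 2 ≤ A - 2 * c1 / e * B := by
    refine le_trans ?_ hVb
    have h1 : 2 * c1 / e / 4 * ∑ i, ‖br J (h i) ζ‖ ^ 2 ≤ 2 * c1 / e / 4 * e :=
      mul_le_mul_of_nonneg_left hnear (by positivity)
    have h2 : 2 * c1 / e / 4 * e = c1 / 2 := by field_simp; norm_num
    have h3 : c1 ≤ (1 / 32) * ∑ i, ‖br J (h i) η‖ ^ 2 := by
      rw [hc1]
      linarith
    linarith
  have hlamB : 2 * c1 / e * B ≤ 2 * ‖η‖ ^ 2 := by linarith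
  have hBe : c1 * B ≤ ‖η‖ ^ 2 * e := by
    have h1 : e * (2 * c1 / e * B) ≤ e * (2 * ‖η‖ ^ 2) := mul_le_mul_of_nonneg_left hlamB hep.le
    have h2 : e * (2 * c1 / e * B) = 2 * c1 * B := by
      rw [← mul_assoc, hle]
    rw [h2] at h1
    linarith
  have hBe2 : 2 * B ≤ e0 ^ 2 := by
    have h1 : ‖η‖ ^ 2 * e ≤ c1 * (e0 ^ 2 / 2) := by
      rw [he]
      have h0 : 0 < ‖η‖ ^ 2 + 1 := by positivity
      rw [show ‖η‖ ^ 2 * (e0 ^ 2 * c1 / (2 * (‖η‖ ^ 2 + 1))) =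
        (c1 * (e0 ^ 2 / 2)) * (‖η‖ ^ 2 / (‖η‖ ^ 2 + 1)) by field_simp]
      apply mul_le_of_le_one_right (by positivity)
      rw [div_le_one h0]; linarith
    have h2 : c1 * B ≤ c1 * (e0 ^ 2 / 2) := hBe.trans h1
    have h3 := le_of_mul_le_mul_left h2 hc1p
    linarith
  have hz := unit_zeta hJ V hV1 hV2
  rw [← hB] at hz
  have hze : ‖V ζ - J (star V ζ)‖ ≤ e0 := by
    have : ‖V ζ - J (star V ζ)‖ ^ 2 ≤ e0 ^ 2 := by rw [hz]; exact hBe2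
    exact (pow_le_pow_iff_left₀ (norm_nonneg _) he0.le (by norm_num)).mp this
  have het := unit_eta hJ V (hNM hVN) hV1 hV2 x hx
  rw [← hη, ← hA] at het
  refine ⟨V, hVN, hV1, hV2, hze, ?_⟩
  have hq : (D / 128) ^ 2 ≤ (‖(V * x - x * V) ζ‖ + ‖x‖ * ‖V ζ - J (star V ζ)‖) ^ 2 := by
    refine le_trans ?_ het
    have h0 : 0 ≤ 2 * c1 / e * B := by positivity
    have : c1 ≤ 2 * A := by linarith
    rw [hc1] at this
    nlinarith
  have h0 : 0 ≤ ‖(V * x - x * V) ζ‖ + ‖x‖ * ‖V ζ - J (star V ζ)‖ := by positivity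
  have h1 := (pow_le_pow_iff_left₀ (by positivity) h0 (by norm_num)).mp hq
  linarith

theorem fixed_scalar (hNM : N ≤ M) (hW : WindowData M N ζ U CM CN) (hU : IsModularGroup M ζ U)
    (hJ : IsModConj M ζ U J) (hζ : ‖ζ‖ = 1) (hsep : ∀ x ∈ M, x ζ = 0 → x = 0)
    (x : H →L[ℂ] H) (hx : x ∈ relBicentralizer N M ζ) (hxs : star x = x)
    (hxf : ∀ t : ℝ, U t * x * U (-t) = x) : ∃ c : ℂ, x = c • (1 : H →L[ℂ] H) := by
  by_contra hcon0
  have hcon : ∀ c : ℂ, x ≠ c • (1 : H →L[ℂ] H) := fun c hc => hcon0 ⟨c, hc⟩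
  set c0 : ℝ := (inner ℂ ζ (x ζ)).re with hc0
  set D : ℝ := ‖(c0 : ℂ) • ζ - x ζ‖ with hDdef
  have hone : (1 : H →L[ℂ] H) ∈ M := one_mem M
  have hD : 0 < D := by
    rw [hDdef, norm_pos_iff]
    intro h0
    have h1 : ((c0 : ℂ) • (1 : H →L[ℂ] H) - x) ζ = 0 := by
      simpa using h0
    have h2 : (c0 : ℂ) • (1 : H →L[ℂ] H) - x ∈ M :=
      sub_mem (M.toStarSubalgebra.toSubalgebra.smul_mem hone _) hx.1
    have h3 := hsep _ h2 h1
    exact hcon c0 (sub_eq_zero.mp h3).symm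
  have hDx : ∀ c : ℝ, D ≤ ‖(c : ℂ) • ζ - x ζ‖ := by
    intro c
    have h1 : (c : ℂ) • ζ - x ζ = ((c0 : ℂ) • ζ - x ζ) + ((c - c0 : ℝ) : ℂ) • ζ := by
      push_cast
      rw [sub_smul]; abel
    have h2 : ‖(c : ℂ) • ζ - x ζ‖ ^ 2 = D ^ 2 + (c - c0) ^ 2 := by
      rw [h1, @norm_add_sq ℂ, norm_smul, hζ, inner_smul_right, inner_sub_left, inner_smul_left]
      have h3 : (inner ℂ ζ ζ : ℂ) = 1 := by
        rw [inner_self_eq_norm_sq_to_K, hζ]; simp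
      have h4 : (inner ℂ (x ζ) ζ : ℂ).re = c0 := by
        rw [hc0, ← inner_conj_symm, Complex.conj_re]
      rw [h3]
      simp only [Complex.conj_ofReal, mul_one, RCLike.re_to_complex, Complex.re_ofReal_mul,
        Complex.sub_re, Complex.ofReal_re, h4, sub_self, mul_zero, add_zero, Complex.norm_real,
        Real.norm_eq_abs, sq_abs]
      rw [← hDdef]
    have h5 : D ^ 2 ≤ ‖(c : ℂ) • ζ - x ζ‖ ^ 2 := by rw [h2]; nlinarith [sq_nonneg (c - c0)]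
    exact (pow_le_pow_iff_left₀ hD.le (norm_nonneg _) (by norm_num)).mp h5
  have hex : ∀ n : ℕ, ∃ V ∈ N, star V * V = 1 ∧ V * star V = 1 ∧
      ‖V ζ - J (star V ζ)‖ ≤ 1 / ((n : ℝ) + 1) ∧
      D / 256 ≤ ‖(V * x - x * V) ζ‖ + ‖x‖ * ‖V ζ - J (star V ζ)‖ := fun n =>
    exists_unitary hNM hW hU hJ hζ hsep x hx.1 hxs hxf D hD hDx (1 / ((n : ℝ) + 1)) (by positivity)
  choose V hVN hV1 hV2 hVe hVb using hex
  have hlim : Tendsto (fun n : ℕ => 1 / ((n : ℝ) + 1)) atTop (𝓝 0) :=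
    tendsto_one_div_add_atTop_nhds_zero_nat
  have hkey := hx.2 V hVN
    ⟨1, fun n => ContinuousLinearMap.opNorm_le_bound _ zero_le_one
      (fun ξ => by rw [isom_of_unit (V n) (hV1 n), one_mul])⟩
    ⟨fun n => 2 * (1 / ((n : ℝ) + 1)), by simpa using hlim.const_mul 2, fun n y hy =>
      near_central hJ hζ (V n) (hNM (hVN n)) _ (hVe n) y hy⟩ ζ
  have h1 := hkey.1.norm
  rw [norm_zero] at h1
  have h2 : Tendsto (fun n => ‖(V n * x - x * V n) ζ‖ + ‖x‖ * (1 / ((n : ℝ) + 1))) atTop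
      (𝓝 (0 + ‖x‖ * 0)) := h1.add (hlim.const_mul _)
  rw [mul_zero, add_zero] at h2
  have h3 : D / 256 ≤ 0 := by
    refine ge_of_tendsto' h2 fun n => ?_
    refine (hVb n).trans ?_
    have := mul_le_mul_of_nonneg_left (hVe n) (norm_nonneg x)
    linarith
  linarith

end H52BC
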