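import Pool.Agent.H52.BC.Defs

/-!
Named form of the irreducibility of the inclusion of continuous cores.
-/

open MeasureTheory Filter Topology

noncomputable section

namespace H52BC

variable {H : Type*} [NormedAddCommGroup H] [InnerProductSpace ℂ H] [CompleteSpace H]

/-- `A` is a scalar multiple of the identity of `L²(ℝ, H)`. -/
def IsScalarOp (A : L2 H →L[ℂ] L2 H) : Prop := ∃ c : ℂ, ∀ F : L2 H, A F = c • F

/-- `c(N)' ∩ c(M) = ℂ 1`. -/
def IrreducibleCores (M N : VonNeumannAlgebra H) (U : ℝ → H →L[ℂ] H) : Prop :=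
  ∀ Z ∈ core M U ∩ Set.centralizer (core N U), IsScalarOp Z

end H52BC
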