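import Pool.Agent.H52.BC.Tech

/-!
Row LcO.  Pointwise application of a bounded operator on `L²(ℝ,H)`: `constOp B = B.compLpL 2 volume`
(`ContinuousLinearMap.coeFn_compLpL`).  All identities by `Lp.ext` and a.e. equality.
-/

open MeasureTheory Filter Topology

noncomputable section

namespace H52BC

variable {H : Type*} [NormedAddCommGroup H] [InnerProductSpace ℂ H] [CompleteSpace H]

theorem constOp_ae (B : H →L[ℂ] H) (F : L2 H) :
    (constOp B F : ℝ → H) =ᵐ[volume] fun s => B ((F : ℝ → H) s) :=
  ContinuousLinearMap.coeFn_compLpL B F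

theorem constOp_one : constOp (1 : H →L[ℂ] H) = 1 := by
  ext1 F
  apply Lp.ext
  filter_upwards [constOp_ae (1 : H →L[ℂ] H) F] with s hs
  simpa using hs

theorem constOp_mul (A B : H →L[ℂ] H) : constOp (A * B) = constOp A * constOp B := by
  ext1 F
  apply Lp.ext
  have e : (constOp A * constOp B) F = constOp A (constOp B F) := rfl
  rw [e]
  filter_upwards [constOp_ae (A * B) F, constOp_ae A (constOp B F), constOp_ae B F] with s h1 h2 h3
  rw [h1, h2, h3]
  rfl

theorem constOp_add (A B : H →L[ℂ] H) : constOp (A + B) = constOp A + constOp B := by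
  ext1 F
  apply Lp.ext
  have e : (constOp A + constOp B) F = constOp A F + constOp B F := rfl
  rw [e]
  filter_upwards [constOp_ae (A + B) F, constOp_ae A F, constOp_ae B F,
    Lp.coeFn_add (constOp A F) (constOp B F)] with s h1 h2 h3 h4
  rw [h1, h4, Pi.add_apply, h2, h3]
  rfl

theorem constOp_smul (c : ℂ) (A : H →L[ℂ] H) : constOp (c • A) = c • constOp A := by
  ext1 F
  apply Lp.ext
  have e : (c • constOp A) F = c • constOp A F := rfl
  rw [e]
  filter_upwards [constOp_ae (c • A) F, constOp_ae A F,
    Lp.coeFn_smul c (constOp A F)] with s h1 h2 h4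
  rw [h1, h4, Pi.smul_apply, h2]
  rfl

theorem constOp_star (A : H →L[ℂ] H) : star (constOp A) = constOp (star A) := by
  rw [ContinuousLinearMap.star_eq_adjoint]
  symm
  rw [ContinuousLinearMap.eq_adjoint_iff]
  intro F G
  rw [MeasureTheory.L2.inner_def, MeasureTheory.L2.inner_def]
  apply integral_congr_ae
  filter_upwards [constOp_ae (star A) F, constOp_ae A G] with s h1 h2
  rw [h1, h2, ContinuousLinearMap.star_eq_adjoint, ContinuousLinearMap.adjoint_inner_left]

theorem constOp_norm_le (A : H →L[ℂ] H) : ‖constOp A‖ ≤ ‖A‖ := by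
  apply ContinuousLinearMap.opNorm_le_bound _ (norm_nonneg _)
  intro F
  exact ContinuousLinearMap.norm_compLp_le A F

end H52BC
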