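import Pool.Agent.H52.BC.LcO

/-!
Row LmO.  Multiplication operators and translations on `L²(ℝ,H)`.

`mulOp g` for `BM g` (measurable, bounded by `C`): for `F ∈ L²`, `s ↦ g s • F s` is a.e. strongly measurable and `‖g s • F s‖ ≤ C ‖F s‖`, so it is in `L²`
(`MemLp.of_le_mul`), linear, bounded by `C`: this gives the operator needed for the `dif_pos` branch (`LinearMap.mkContinuous`; additivity with `MemLp.toLp_add`,
`Lp.coeFn_add`, ...).  Then `mulOp_ae` is `Exists.choose_spec`.  All identities by `Lp.ext` + a.e. equality.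
`star (mulOp g) = mulOp (conj g)`: `L2.inner_def`, `inner_smul_left/right`.
`shiftOp r`: `F ↦ F(· - r)` is isometric (`Lp.compMeasurePreservingₗᵢ` / `MeasurePreserving (· - r)`, `measurePreserving_sub_right`).
If `A` satisfies `IsShift r A` then `A = shiftOp r` (`Lp.ext`).  `shiftOp_add`: a.e. identities transported by the quasi measure preserving map `(· - r)`.
-/

open MeasureTheory Filter Topology

noncomputable section

namespace H52BC

variable {H : Type*} [NormedAddCommGroup H] [InnerProductSpace ℂ H] [CompleteSpace H]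

theorem LmO_mem {g : ℝ → ℂ} (hg : BM g) (F : L2 H) :
    MemLp (fun s => g s • (F : ℝ → H) s) 2 (volume : Measure ℝ) := by
  obtain ⟨hm, C, hC⟩ := hg
  refine MemLp.of_le_mul (c := C) (Lp.memLp F)
    (hm.aestronglyMeasurable.smul (Lp.aestronglyMeasurable F)) (ae_of_all _ fun s => ?_)
  rw [norm_smul]
  exact mul_le_mul_of_nonneg_right (hC s) (norm_nonneg _)

theorem LmO_ex {g : ℝ → ℂ} (hg : BM g) : ∃ A : L2 H →L[ℂ] L2 H, ∀ F : L2 H,
    (A F : ℝ → H) =ᵐ[volume] fun s => g s • (F : ℝ → H) s := by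
  obtain ⟨C, hC⟩ := hg.2
  let L : L2 H →ₗ[ℂ] L2 H :=
    { toFun := fun F => (LmO_mem hg F).toLp _
      map_add' := by
        intro F G
        apply Lp.ext
        filter_upwards [MemLp.coeFn_toLp (LmO_mem hg (F + G)), MemLp.coeFn_toLp (LmO_mem hg F),
          MemLp.coeFn_toLp (LmO_mem hg G), Lp.coeFn_add F G,
          Lp.coeFn_add ((LmO_mem hg F).toLp _) ((LmO_mem hg G).toLp _)] with s h1 h2 h3 h4 h5
        rw [h1, h5, Pi.add_apply, h2, h3, h4, Pi.add_apply, smul_add]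
      map_smul' := by
        intro c F
        apply Lp.ext
        filter_upwards [MemLp.coeFn_toLp (LmO_mem hg (c • F)), MemLp.coeFn_toLp (LmO_mem hg F),
          Lp.coeFn_smul c F, Lp.coeFn_smul c ((LmO_mem hg F).toLp _)] with s h1 h2 h3 h4
        rw [h1, RingHom.id_apply, h4, Pi.smul_apply, h2, h3, Pi.smul_apply, smul_comm] }
  refine ⟨L.mkContinuous C ?_, fun F => MemLp.coeFn_toLp (LmO_mem hg F)⟩
  intro F
  apply Lp.norm_le_mul_norm_of_ae_le_mul
  filter_upwards [MemLp.coeFn_toLp (LmO_mem hg F)] with s h1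
  show ‖((LmO_mem hg F).toLp _ : ℝ → H) s‖ ≤ _
  rw [h1, norm_smul]
  exact mul_le_mul_of_nonneg_right (hC s) (norm_nonneg _)

theorem mulOp_ae {g : ℝ → ℂ} (hg : BM g) (F : L2 H) :
    (mulOp g F : ℝ → H) =ᵐ[volume] fun s => g s • (F : ℝ → H) s := by
  unfold mulOp
  rw [dif_pos (LmO_ex hg)]
  exact (LmO_ex hg).choose_spec F

theorem BM.mul {f g : ℝ → ℂ} (hf : BM f) (hg : BM g) : BM (fun s => f s * g s) := by
  obtain ⟨hf1, C, hC⟩ := hf
  obtain ⟨hg1, D, hD⟩ := hg
  refine ⟨hf1.mul hg1, C * D, fun s => ?_⟩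
  rw [norm_mul]
  exact mul_le_mul (hC s) (hD s) (norm_nonneg _) ((norm_nonneg _).trans (hC s))

theorem BM.conj {f : ℝ → ℂ} (hf : BM f) : BM (fun s => (starRingEnd ℂ) (f s)) := by
  obtain ⟨hf1, C, hC⟩ := hf
  refine ⟨Complex.continuous_conj.measurable.comp hf1, C, fun s => ?_⟩
  rw [RCLike.norm_conj]
  exact hC s

theorem mulOp_mul {f g : ℝ → ℂ} (hf : BM f) (hg : BM g) :
    (mulOp f : L2 H →L[ℂ] L2 H) * mulOp g = mulOp (fun s => f s * g s) := by
  refine ContinuousLinearMap.ext fun F => Lp.ext ?_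
  filter_upwards [mulOp_ae hf (mulOp g F), mulOp_ae hg F, mulOp_ae (hf.mul hg) F] with s h1 h2 h3
  rw [h3]
  show (mulOp f (mulOp g F) : ℝ → H) s = _
  rw [h1, h2, smul_smul]

theorem mulOp_congr {f g : ℝ → ℂ} (hf : BM f) (hg : BM g) (h : f =ᵐ[volume] g) :
    (mulOp f : L2 H →L[ℂ] L2 H) = mulOp g := by
  refine ContinuousLinearMap.ext fun F => Lp.ext ?_
  filter_upwards [mulOp_ae hf F, mulOp_ae hg F, h] with s h1 h2 h3
  rw [h1, h2, h3]

theorem mulOp_comm {f g : ℝ → ℂ} (hf : BM f) (hg : BM g) :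
    (mulOp f : L2 H →L[ℂ] L2 H) * mulOp g = mulOp g * mulOp f := by
  rw [mulOp_mul hf hg, mulOp_mul hg hf]
  exact mulOp_congr (hf.mul hg) (hg.mul hf) (ae_of_all _ fun s => mul_comm _ _)

theorem mulOp_one : (mulOp (fun _ => (1 : ℂ)) : L2 H →L[ℂ] L2 H) = 1 := by
  have h : BM (fun _ => (1 : ℂ)) := ⟨measurable_const, 1, fun s => by simp⟩
  refine ContinuousLinearMap.ext fun F => Lp.ext ?_
  filter_upwards [mulOp_ae h F] with s h1
  rw [h1, one_smul]
  rfl

theorem LmO_sub {f g : ℝ → ℂ} (hf : BM f) (hg : BM g) : BM (fun s => f s - g s) := by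
  obtain ⟨hf1, C, hC⟩ := hf
  obtain ⟨hg1, D, hD⟩ := hg
  exact ⟨hf1.sub hg1, C + D, fun s => (norm_sub_le _ _).trans (add_le_add (hC s) (hD s))⟩

theorem mulOp_sub {f g : ℝ → ℂ} (hf : BM f) (hg : BM g) :
    (mulOp f : L2 H →L[ℂ] L2 H) - mulOp g = mulOp (fun s => f s - g s) := by
  refine ContinuousLinearMap.ext fun F => Lp.ext ?_
  filter_upwards [mulOp_ae hf F, mulOp_ae hg F, mulOp_ae (LmO_sub hf hg) F,
    Lp.coeFn_sub (mulOp f F) (mulOp g F)] with s h1 h2 h3 h4
  rw [h3]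
  show ((mulOp f F - mulOp g F : L2 H) : ℝ → H) s = _
  rw [h4, Pi.sub_apply, h1, h2, sub_smul]

theorem mulOp_star {f : ℝ → ℂ} (hf : BM f) :
    star (mulOp f : L2 H →L[ℂ] L2 H) = mulOp (fun s => (starRingEnd ℂ) (f s)) := by
  rw [ContinuousLinearMap.star_eq_adjoint]
  symm
  rw [ContinuousLinearMap.eq_adjoint_iff]
  intro F G
  rw [MeasureTheory.L2.inner_def, MeasureTheory.L2.inner_def]
  apply integral_congr_ae
  filter_upwards [mulOp_ae hf.conj F, mulOp_ae hf G] with s h1 h2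
  rw [h1, h2, inner_smul_left, inner_smul_right, starRingEnd_self_apply]

theorem mulOp_norm_apply_le {f : ℝ → ℂ} (hf : BM f) (C : ℝ) (hC : ∀ s, ‖f s‖ ≤ C) (F : L2 H) :
    ‖mulOp f F‖ ≤ C * ‖F‖ := by
  apply Lp.norm_le_mul_norm_of_ae_le_mul
  filter_upwards [mulOp_ae hf F] with s h1
  rw [h1, norm_smul]
  exact mul_le_mul_of_nonneg_right (hC s) (norm_nonneg _)

theorem mulOp_const {f : ℝ → ℂ} (hf : BM f) (B : H →L[ℂ] H) :
    (mulOp f : L2 H →L[ℂ] L2 H) * constOp B = constOp B * mulOp f := by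
  refine ContinuousLinearMap.ext fun F => Lp.ext ?_
  filter_upwards [mulOp_ae hf (constOp B F), constOp_ae B F, constOp_ae B (mulOp f F),
    mulOp_ae hf F] with s h1 h2 h3 h4
  show (mulOp f (constOp B F) : ℝ → H) s = (constOp B (mulOp f F) : ℝ → H) s
  rw [h1, h2, h3, h4, map_smul]

theorem isShift_shiftOp (r : ℝ) : IsShift r (shiftOp r : L2 H →L[ℂ] L2 H) := by
  have h : ∃ A : L2 H →L[ℂ] L2 H, IsShift r A := by
    have hp : MeasurePreserving (fun t : ℝ => t - r) volume volume :=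
      measurePreserving_sub_right volume r
    refine ⟨(Lp.compMeasurePreservingₗᵢ ℂ (fun t : ℝ => t - r) hp).toContinuousLinearMap, ?_⟩
    intro F
    exact Lp.coeFn_compMeasurePreserving F hp
  unfold shiftOp
  rw [dif_pos h]
  exact h.choose_spec

theorem IsShift.eq {r : ℝ} {A : L2 H →L[ℂ] L2 H} (h : IsShift r A) : A = shiftOp r := by
  refine ContinuousLinearMap.ext fun F => Lp.ext ?_
  filter_upwards [h F, isShift_shiftOp r F] with s h1 h2
  rw [h1, h2]

theorem LmO_comp {f g : ℝ → H} (h : f =ᵐ[volume] g) (r : ℝ) :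
    (fun t => f (t - r)) =ᵐ[volume] fun t => g (t - r) :=
  (measurePreserving_sub_right (volume : Measure ℝ) r).quasiMeasurePreserving.ae_eq_comp h

theorem shiftOp_add (r s : ℝ) :
    (shiftOp (r + s) : L2 H →L[ℂ] L2 H) = shiftOp r * shiftOp s := by
  symm
  apply IsShift.eq
  intro F
  filter_upwards [isShift_shiftOp r (shiftOp s F), LmO_comp (isShift_shiftOp s F) r] with t h1 h2
  show (shiftOp r (shiftOp s F) : ℝ → H) t = _
  rw [h1, h2, sub_sub]

theorem shiftOp_zero : (shiftOp 0 : L2 H →L[ℂ] L2 H) = 1 := by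
  symm
  apply IsShift.eq
  intro F
  apply ae_of_all
  intro t
  show (F : ℝ → H) t = (F : ℝ → H) (t - 0)
  rw [sub_zero]

theorem shiftOp_star (r : ℝ) : star (shiftOp r : L2 H →L[ℂ] L2 H) = shiftOp (-r) := by
  rw [ContinuousLinearMap.star_eq_adjoint]
  symm
  rw [ContinuousLinearMap.eq_adjoint_iff]
  intro F G
  rw [MeasureTheory.L2.inner_def, MeasureTheory.L2.inner_def]
  have e1 : ∫ t, inner ℂ ((shiftOp (-r) F : L2 H) t) (G t) =
      ∫ t, inner ℂ ((F : ℝ → H) (t + r)) ((G : ℝ → H) (t + r - r)) := by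
    apply integral_congr_ae
    filter_upwards [isShift_shiftOp (-r) F] with t h1
    rw [h1, sub_neg_eq_add, add_sub_cancel_right]
  have e2 : ∫ t, inner ℂ (F t) ((shiftOp r G : L2 H) t) =
      ∫ t, inner ℂ ((F : ℝ → H) t) ((G : ℝ → H) (t - r)) := by
    apply integral_congr_ae
    filter_upwards [isShift_shiftOp r G] with t h1
    rw [h1]
  rw [e1, e2]
  exact integral_add_right_eq_self
    (fun t => inner ℂ ((F : ℝ → H) t) ((G : ℝ → H) (t - r))) r

theorem shiftOp_const (r : ℝ) (B : H →L[ℂ] H) :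
    (shiftOp r : L2 H →L[ℂ] L2 H) * constOp B = constOp B * shiftOp r := by
  refine ContinuousLinearMap.ext fun F => Lp.ext ?_
  filter_upwards [isShift_shiftOp r (constOp B F), LmO_comp (constOp_ae B F) r,
    constOp_ae B (shiftOp r F), isShift_shiftOp r F] with t h1 h2 h3 h4
  show (shiftOp r (constOp B F) : ℝ → H) t = (constOp B (shiftOp r F) : ℝ → H) t
  rw [h1, h2, h3, h4]

theorem LmO_ind {f : ℝ → ℂ} (hf : Measurable f) (d C : ℝ) (hC : 0 ≤ C)
    (h : ∀ s ∈ Set.Ioc 0 d, ‖f s‖ ≤ C) : BM (Set.indicator (Set.Ioc 0 d) f) := by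
  refine ⟨hf.indicator measurableSet_Ioc, C, fun s => ?_⟩
  by_cases hs : s ∈ Set.Ioc 0 d
  · rw [Set.indicator_of_mem hs]
    exact h s hs
  · rw [Set.indicator_of_notMem hs, norm_zero]
    exact hC

/-- the concrete functions are bounded measurable -/
theorem BM_ee (r : ℝ) : BM (ee r) := by
  refine ⟨?_, 1, fun s => ?_⟩
  · unfold ee
    exact (by fun_prop : Continuous fun s : ℝ =>
      Complex.exp (2 * Real.pi * Complex.I * r * s)).measurable
  · unfold ee
    rw [show (2 * Real.pi * Complex.I * r * s : ℂ) = ((2 * Real.pi * r * s : ℝ) : ℂ) * Complex.I by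
      push_cast; ring, Complex.norm_exp_ofReal_mul_I]

theorem BM_win (d : ℝ) : BM (win d) :=
  LmO_ind measurable_const d 1 zero_le_one (fun s _ => by simp)

theorem BM_wp (d : ℝ) : BM (wp d) := by
  refine LmO_ind ((by fun_prop : Continuous fun s : ℝ => Complex.exp (Real.pi * s)).measurable) d
    (Real.exp (Real.pi * d)) (Real.exp_pos _).le (fun s hs => ?_)
  rw [show (Real.pi * s : ℂ) = ((Real.pi * s : ℝ) : ℂ) by push_cast; ring, Complex.norm_exp_ofReal]
  exact Real.exp_le_exp.2 (mul_le_mul_of_nonneg_left hs.2 Real.pi_pos.le)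

theorem BM_wm (d : ℝ) : BM (wm d) := by
  refine LmO_ind ((by fun_prop : Continuous fun s : ℝ => Complex.exp (-(Real.pi * s))).measurable)
    d 1 zero_le_one (fun s hs => ?_)
  rw [show (-(Real.pi * s) : ℂ) = ((-(Real.pi * s) : ℝ) : ℂ) by push_cast; ring,
    Complex.norm_exp_ofReal, Real.exp_le_one_iff]
  have := mul_pos Real.pi_pos hs.1
  linarith

theorem BM_gk (d : ℝ) (k : ℤ) : BM (gk d k) := by
  refine LmO_ind ((by fun_prop : Continuous fun s : ℝ => ((Real.sqrt d : ℝ) : ℂ)⁻¹ *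
    Complex.exp (2 * Real.pi * Complex.I * k * s / d)).measurable) d
    ‖((Real.sqrt d : ℝ) : ℂ)⁻¹‖ (norm_nonneg _) (fun s hs => ?_)
  rw [norm_mul, show (2 * Real.pi * Complex.I * k * s / d : ℂ) =
    ((2 * Real.pi * k * s / d : ℝ) : ℂ) * Complex.I by push_cast; ring,
    Complex.norm_exp_ofReal_mul_I, mul_one]

end H52BC
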