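import Pool.Agent.H52.BC.LmO
import Pool.Agent.H52.BC.MdT

/-!
Row LpI.  The operators `π(x)` exist, and the generating set of the core is closed under `star`.

* `exists_pi`: for `F ∈ L²` the function `t ↦ U (-t) (x (U t (F t)))` is a.e. strongly measurable (`U_cont2` composed with the a.e. strongly measurable map
  `t ↦ (t, F t)`: `Continuous.comp_aestronglyMeasurable`, `AEStronglyMeasurable.prodMk`) and its norm is `≤ ‖x‖ ‖F t‖` (`U_norm_apply`).
* `isPi_star`: if `IsPi U x A` then `IsPi U (star x) (star A)`: let `B` be the operator of `exists_pi` for `star x`; `⟪A F, G⟫ = ∫ ⟪U(-t) x U t F t, G t⟫ = ∫ ⟪F t, U(-t) star x U t G t⟫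
  = ⟪F, B G⟫`, so `star A = B`.
* `core_star`: `S` = generating set, `star S ⊆ S` (`isPi_star`, `shiftOp_star`, `IsShift.eq`).  If `B ∈ S'` then `star B ∈ S'`; so `A ∈ S''` implies `star A ∈ S''`.
-/

open MeasureTheory Filter Topology

noncomputable section

namespace H52BC

variable {H : Type*} [NormedAddCommGroup H] [InnerProductSpace ℂ H] [CompleteSpace H]
variable {M N : VonNeumannAlgebra H} {ζ : H} {U : ℝ → H →L[ℂ] H}

private lemma lpi_meas (hU : IsModularGroup M ζ U) (x : H →L[ℂ] H) (F : L2 H) :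
    AEStronglyMeasurable (fun t => U (-t) (x (U t ((F : ℝ → H) t)))) volume := by
  have h0 : AEStronglyMeasurable (F : ℝ → H) volume := Lp.aestronglyMeasurable F
  have h1 : AEStronglyMeasurable (fun t : ℝ => U t ((F : ℝ → H) t)) volume :=
    (U_cont2 hU).comp_aestronglyMeasurable (aestronglyMeasurable_id.prodMk h0)
  have h2 : AEStronglyMeasurable (fun t : ℝ => x (U t ((F : ℝ → H) t))) volume :=
    x.continuous.comp_aestronglyMeasurable h1
  exact (U_cont2 hU).comp_aestronglyMeasurable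
    ((continuous_neg.aestronglyMeasurable : AEStronglyMeasurable (fun t : ℝ => -t) volume).prodMk h2)

private lemma lpi_bound (hU : IsModularGroup M ζ U) (x : H →L[ℂ] H) (t : ℝ) (v : H) :
    ‖U (-t) (x (U t v))‖ ≤ ‖x‖ * ‖v‖ := by
  rw [U_norm_apply hU]
  refine (x.le_opNorm _).trans ?_
  rw [U_norm_apply hU]

private lemma lpi_memLp (hU : IsModularGroup M ζ U) (x : H →L[ℂ] H) (F : L2 H) :
    MemLp (fun t => U (-t) (x (U t ((F : ℝ → H) t)))) 2 volume :=
  (Lp.memLp F).of_le_mul (lpi_meas hU x F) (Eventually.of_forall fun t => lpi_bound hU x t _)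

theorem exists_pi (hU : IsModularGroup M ζ U) (x : H →L[ℂ] H) :
    ∃ A : L2 H →L[ℂ] L2 H, IsPi U x A := by
  let L : L2 H →ₗ[ℂ] L2 H :=
    { toFun := fun F => (lpi_memLp hU x F).toLp
      map_add' := by
        intro F G
        refine Lp.ext ?_
        filter_upwards [(lpi_memLp hU x (F + G)).coeFn_toLp, (lpi_memLp hU x F).coeFn_toLp,
          (lpi_memLp hU x G).coeFn_toLp, Lp.coeFn_add F G,
          Lp.coeFn_add (lpi_memLp hU x F).toLp (lpi_memLp hU x G).toLp] with t h1 h2 h3 h4 h5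
        rw [h1, h5, Pi.add_apply, h2, h3, h4, Pi.add_apply, map_add, map_add, map_add]
      map_smul' := by
        intro c F
        refine Lp.ext ?_
        filter_upwards [(lpi_memLp hU x (c • F)).coeFn_toLp, (lpi_memLp hU x F).coeFn_toLp,
          Lp.coeFn_smul c F, Lp.coeFn_smul c (lpi_memLp hU x F).toLp] with t h1 h2 h4 h5
        rw [h1, RingHom.id_apply, h5, Pi.smul_apply, h2, h4, Pi.smul_apply, map_smul, map_smul,
          map_smul] }
  have hL : ∀ F : L2 H, ‖L F‖ ≤ ‖x‖ * ‖F‖ := by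
    intro F
    refine Lp.norm_le_mul_norm_of_ae_le_mul ?_
    filter_upwards [(lpi_memLp hU x F).coeFn_toLp] with t h1
    have h2 : (L F : ℝ → H) t = U (-t) (x (U t ((F : ℝ → H) t))) := h1
    rw [h2]
    exact lpi_bound hU x t _
  refine ⟨L.mkContinuous ‖x‖ hL, fun F => ?_⟩
  exact (lpi_memLp hU x F).coeFn_toLp

private lemma lpi_adj (hU : IsModularGroup M ζ U) (t : ℝ) (v w : H) :
    inner ℂ (U (-t) v) w = inner ℂ v (U t w) := by
  rw [← hU.star_eq t, ContinuousLinearMap.star_eq_adjoint, ContinuousLinearMap.adjoint_inner_left]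

private lemma lpi_adj' (hU : IsModularGroup M ζ U) (t : ℝ) (v w : H) :
    inner ℂ (U t v) w = inner ℂ v (U (-t) w) := by
  have := lpi_adj hU (-t) v w
  rwa [neg_neg] at this

theorem isPi_star (hU : IsModularGroup M ζ U) {x : H →L[ℂ] H} {A : L2 H →L[ℂ] L2 H}
    (h : IsPi U x A) : IsPi U (star x) (star A) := by
  obtain ⟨B, hB⟩ := exists_pi hU (star x)
  have e : B = star A := by
    rw [ContinuousLinearMap.star_eq_adjoint, ContinuousLinearMap.eq_adjoint_iff]
    intro G F
    rw [L2.inner_def, L2.inner_def]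
    refine integral_congr_ae ?_
    filter_upwards [hB G, h F] with t h1 h2
    rw [h1, h2, lpi_adj hU, ContinuousLinearMap.star_eq_adjoint,
      ContinuousLinearMap.adjoint_inner_left, lpi_adj' hU]
  rw [← e]
  exact hB

theorem core_star (hU : IsModularGroup M ζ U) (N : VonNeumannAlgebra H) (A : L2 H →L[ℂ] L2 H)
    (hA : A ∈ core N U) : star A ∈ core N U := by
  have hS : ∀ s : L2 H →L[ℂ] L2 H, ((∃ x ∈ N, IsPi U x s) ∨ ∃ r : ℝ, IsShift r s) →
      ((∃ x ∈ N, IsPi U x (star s)) ∨ ∃ r : ℝ, IsShift r (star s)) := by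
    rintro s (⟨x, hx, h⟩ | ⟨r, h⟩)
    · exact Or.inl ⟨star x, star_mem hx, isPi_star hU h⟩
    · refine Or.inr ⟨-r, ?_⟩
      rw [h.eq, shiftOp_star]
      exact isShift_shiftOp (-r)
  have hS' : ∀ B : L2 H →L[ℂ] L2 H, B ∈ Set.centralizer
      {A : L2 H →L[ℂ] L2 H | (∃ x ∈ N, IsPi U x A) ∨ ∃ r : ℝ, IsShift r A} →
      star B ∈ Set.centralizer
        {A : L2 H →L[ℂ] L2 H | (∃ x ∈ N, IsPi U x A) ∨ ∃ r : ℝ, IsShift r A} := by
    intro B hB
    rw [Set.mem_centralizer_iff] at hB ⊢
    intro s hs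
    have h1 := hB (star s) (hS s hs)
    have h2 := congrArg star h1
    rw [star_mul, star_mul, star_star] at h2
    exact h2.symm
  unfold core at hA ⊢
  rw [Set.mem_centralizer_iff] at hA ⊢
  intro B hB
  have h1 := hA (star B) (hS' B hB)
  have h2 := congrArg star h1
  rw [star_mul, star_mul, star_star] at h2
  exact h2.symm

end H52BC
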