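import Pool.Agent.H52.BC.LmO

/-!
Row LtO.  The maps `tens f : H → L²(ℝ,H)`, `ξ ↦ f(s) ξ`, `f ∈ L²(ℝ)`.

Existence: `s ↦ f s • ξ` is in `L²` (`MemLp.smul_const`-like; norm `‖f‖₂ ‖ξ‖`), linear and bounded in `ξ`.
`adjoint (tens f) ∘L tens g = (∫ conj(f) g) • 1`: `⟪tens f ξ, tens g η⟫ = ∫ ⟪f s • ξ, g s • η⟫ = (∫ conj (f s) g s) ⟪ξ,η⟫` (`L2.inner_def`, `inner_smul_left/right`,
`integral_mul_right`).  Intertwining relations by a.e. equality; `adjoint (tens f) ∘L constOp B = B ∘L adjoint (tens f)` is the adjoint of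
`constOp (star B) ∘L tens f = tens f ∘L star B`, `constOp_star`.
-/

open MeasureTheory Filter Topology

noncomputable section

namespace H52BC

variable {H : Type*} [NormedAddCommGroup H] [InnerProductSpace ℂ H] [CompleteSpace H]

theorem LtO_exists {f : ℝ → ℂ} (hf : MemLp f 2 (volume : Measure ℝ)) :
    ∃ A : H →L[ℂ] L2 H, ∀ ξ : H, (A ξ : ℝ → H) =ᵐ[volume] fun s => f s • ξ := by
  have hae : ∀ ξ : H, ((ContinuousLinearMap.toSpanSingleton ℂ ξ).compLp (hf.toLp f) : ℝ → H)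
      =ᵐ[volume] fun s => f s • ξ := by
    intro ξ
    have h1 := (ContinuousLinearMap.toSpanSingleton ℂ ξ).coeFn_compLp (hf.toLp f)
    filter_upwards [h1, hf.coeFn_toLp] with s hs hs'
    rw [hs, hs', ContinuousLinearMap.toSpanSingleton_apply]
  refine ⟨LinearMap.mkContinuous
    { toFun := fun ξ => (ContinuousLinearMap.toSpanSingleton ℂ ξ).compLp (hf.toLp f)
      map_add' := ?_
      map_smul' := ?_ } ‖hf.toLp f‖ ?_, ?_⟩
  · intro x y
    apply Lp.ext
    filter_upwards [hae (x + y), hae x, hae y,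
      Lp.coeFn_add ((ContinuousLinearMap.toSpanSingleton ℂ x).compLp (hf.toLp f))
        ((ContinuousLinearMap.toSpanSingleton ℂ y).compLp (hf.toLp f))] with s h1 h2 h3 h4
    rw [h1, h4, Pi.add_apply, h2, h3, smul_add]
  · intro c x
    apply Lp.ext
    filter_upwards [hae (c • x), hae x,
      Lp.coeFn_smul c ((ContinuousLinearMap.toSpanSingleton ℂ x).compLp (hf.toLp f))]
      with s h1 h2 h3
    simp only [RingHom.id_apply]
    rw [h1, h3, Pi.smul_apply, h2, smul_comm]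
  · intro ξ
    refine (ContinuousLinearMap.norm_compLp_le _ _).trans ?_
    rw [ContinuousLinearMap.norm_toSpanSingleton, mul_comm]
  · intro ξ
    exact hae ξ

theorem LtO_tens_ae {f : ℝ → ℂ} (hf : MemLp f 2 (volume : Measure ℝ)) (ξ : H) :
    (tens f ξ : ℝ → H) =ᵐ[volume] fun s => f s • ξ := by
  have h : ∃ A : H →L[ℂ] L2 H, ∀ ξ : H, (A ξ : ℝ → H) =ᵐ[volume] fun s => f s • ξ :=
    LtO_exists hf
  have e : (tens f : H →L[ℂ] L2 H) = h.choose := by
    unfold tens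
    rw [dif_pos h]
  rw [e]
  exact h.choose_spec ξ

theorem LtO_inner_tens {f : ℝ → ℂ} (hf : MemLp f 2 (volume : Measure ℝ)) (ξ : H) (F : L2 H) :
    inner ℂ (tens f ξ) F = ∫ s, (starRingEnd ℂ) (f s) * inner ℂ ξ ((F : ℝ → H) s) := by
  rw [MeasureTheory.L2.inner_def]
  refine integral_congr_ae ?_
  filter_upwards [LtO_tens_ae hf ξ] with s hs
  rw [hs, inner_smul_left]

theorem LtO_inner_tt {f g : ℝ → ℂ} (hf : MemLp f 2 (volume : Measure ℝ))
    (hg : MemLp g 2 (volume : Measure ℝ)) (ξ η : H) :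
    inner ℂ (tens f ξ) (tens g η : L2 H) =
      (∫ s, (starRingEnd ℂ) (f s) * g s) * inner ℂ ξ η := by
  rw [LtO_inner_tens hf, ← integral_mul_const]
  refine integral_congr_ae ?_
  filter_upwards [LtO_tens_ae hg η] with s hs
  rw [hs, inner_smul_right, mul_assoc]

theorem LtO_memLp_mul {f h : ℝ → ℂ} (hf : MemLp f 2 (volume : Measure ℝ)) (hh : BM h) :
    MemLp (fun s => h s * f s) 2 (volume : Measure ℝ) := by
  obtain ⟨hm, C, hC⟩ := hh
  refine MemLp.of_le_mul (c := C) hf ?_ ?_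
  · exact hm.aestronglyMeasurable.mul hf.aestronglyMeasurable
  · refine Filter.Eventually.of_forall fun s => ?_
    rw [norm_mul]
    exact mul_le_mul_of_nonneg_right (hC s) (norm_nonneg _)

theorem tens_ae {f : ℝ → ℂ} (hf : MemLp f 2 (volume : Measure ℝ)) (ξ : H) :
    (tens f ξ : ℝ → H) =ᵐ[volume] fun s => f s • ξ := by
  exact LtO_tens_ae hf ξ

theorem tens_adjoint_tens {f g : ℝ → ℂ} (hf : MemLp f 2 (volume : Measure ℝ))
    (hg : MemLp g 2 (volume : Measure ℝ)) :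
    (ContinuousLinearMap.adjoint (tens f : H →L[ℂ] L2 H)) ∘L tens g =
      (∫ s, (starRingEnd ℂ) (f s) * g s) • (1 : H →L[ℂ] H) := by
  refine ContinuousLinearMap.ext fun η => ?_
  refine ext_inner_left ℂ fun ξ => ?_
  rw [ContinuousLinearMap.comp_apply, ContinuousLinearMap.adjoint_inner_right,
    LtO_inner_tt hf hg, smul_apply, one_apply_eq_self, inner_smul_right]

theorem tens_norm {f : ℝ → ℂ} (hf : MemLp f 2 (volume : Measure ℝ)) (ξ : H) :
    ‖tens f ξ‖ ^ 2 = (∫ s, ‖f s‖ ^ 2) * ‖ξ‖ ^ 2 := by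
  have h1 := LtO_inner_tt hf hf ξ ξ
  rw [inner_self_eq_norm_sq_to_K, inner_self_eq_norm_sq_to_K] at h1
  have h2 : (∫ s, (starRingEnd ℂ) (f s) * f s) = ((∫ s, ‖f s‖ ^ 2 : ℝ) : ℂ) := by
    refine Eq.trans ?_ (integral_ofReal (𝕜 := ℂ) (f := fun s => ‖f s‖ ^ 2) (μ := volume))
    refine integral_congr_ae (Filter.Eventually.of_forall fun s => ?_)
    simp only [RCLike.conj_mul]
    simp
  rw [h2] at h1
  have h3 : (((‖tens f ξ‖ ^ 2 : ℝ)) : ℂ) = (((∫ s, ‖f s‖ ^ 2) * ‖ξ‖ ^ 2 : ℝ) : ℂ) := by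
    push_cast
    exact h1
  exact_mod_cast h3

theorem const_tens {f : ℝ → ℂ} (hf : MemLp f 2 (volume : Measure ℝ)) (B : H →L[ℂ] H) :
    constOp B ∘L (tens f : H →L[ℂ] L2 H) = tens f ∘L B := by
  refine ContinuousLinearMap.ext fun ξ => ?_
  rw [ContinuousLinearMap.comp_apply, ContinuousLinearMap.comp_apply]
  apply Lp.ext
  filter_upwards [constOp_ae B (tens f ξ), LtO_tens_ae hf ξ, LtO_tens_ae hf (B ξ)]
    with s h1 h2 h3
  rw [h1, h2, h3, map_smul]

theorem adj_tens_const {f : ℝ → ℂ} (hf : MemLp f 2 (volume : Measure ℝ)) (B : H →L[ℂ] H) :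
    (ContinuousLinearMap.adjoint (tens f : H →L[ℂ] L2 H)) ∘L constOp B =
      B ∘L (ContinuousLinearMap.adjoint (tens f : H →L[ℂ] L2 H)) := by
  have h1 : ContinuousLinearMap.adjoint (constOp (star B) ∘L (tens f : H →L[ℂ] L2 H)) =
      ContinuousLinearMap.adjoint ((tens f : H →L[ℂ] L2 H) ∘L star B) := by
    rw [const_tens hf (star B)]
  rw [ContinuousLinearMap.adjoint_comp, ContinuousLinearMap.adjoint_comp,
    ← ContinuousLinearMap.star_eq_adjoint (star B),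
    ← ContinuousLinearMap.star_eq_adjoint (constOp (star B)), constOp_star, star_star] at h1
  exact h1

theorem mul_tens {f h : ℝ → ℂ} (hf : MemLp f 2 (volume : Measure ℝ)) (hh : BM h) :
    mulOp h ∘L (tens f : H →L[ℂ] L2 H) = tens (fun s => h s * f s) := by
  refine ContinuousLinearMap.ext fun ξ => ?_
  rw [ContinuousLinearMap.comp_apply]
  apply Lp.ext
  filter_upwards [mulOp_ae hh (tens f ξ), LtO_tens_ae hf ξ,
    LtO_tens_ae (LtO_memLp_mul hf hh) ξ] with s h1 h2 h3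
  rw [h1, h2, h3, smul_smul]

theorem adj_tens_mul {f h : ℝ → ℂ} (hf : MemLp f 2 (volume : Measure ℝ)) (hh : BM h) :
    (ContinuousLinearMap.adjoint (tens f : H →L[ℂ] L2 H)) ∘L mulOp h =
      ContinuousLinearMap.adjoint (tens (fun s => (starRingEnd ℂ) (h s) * f s) : H →L[ℂ] L2 H) := by
  have h1 : ContinuousLinearMap.adjoint
      (mulOp (fun s => (starRingEnd ℂ) (h s)) ∘L (tens f : H →L[ℂ] L2 H)) =
      ContinuousLinearMap.adjoint
        (tens (fun s => (starRingEnd ℂ) (h s) * f s) : H →L[ℂ] L2 H) := by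
    rw [mul_tens hf hh.conj]
  rw [ContinuousLinearMap.adjoint_comp, ← mulOp_star hh,
    ← ContinuousLinearMap.star_eq_adjoint (star (mulOp h : L2 H →L[ℂ] L2 H)), star_star] at h1
  exact h1

/-- `⟪tens f ξ, F⟫ = ∫ conj (f s) ⟪ξ, F s⟫` -/
theorem inner_tens {f : ℝ → ℂ} (hf : MemLp f 2 (volume : Measure ℝ)) (ξ : H) (F : L2 H) :
    inner ℂ (tens f ξ) F = ∫ s, (starRingEnd ℂ) (f s) * inner ℂ ξ ((F : ℝ → H) s) := by
  exact LtO_inner_tens hf ξ F

theorem memLp_gk (d : ℝ) (k : ℤ) : MemLp (gk d k) 2 (volume : Measure ℝ) := by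
  have h1 : MemLp (Set.indicator (Set.Ioc (0 : ℝ) d) (fun _ => (1 : ℂ))) 2
      (volume : Measure ℝ) := by
    refine memLp_indicator_const 2 measurableSet_Ioc 1 (Or.inr ?_)
    simp
  have h2 := LtO_memLp_mul h1 (BM_gk d k)
  have h3 : (fun s => gk d k s * Set.indicator (Set.Ioc (0 : ℝ) d) (fun _ => (1 : ℂ)) s) =
      gk d k := by
    funext s
    by_cases hs : s ∈ Set.Ioc (0 : ℝ) d
    · rw [Set.indicator_of_mem hs, mul_one]
    · rw [Set.indicator_of_notMem hs, mul_zero]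
      unfold gk
      rw [Set.indicator_of_notMem hs]
  rw [h3] at h2
  exact h2

theorem memLp_mul {f h : ℝ → ℂ} (hf : MemLp f 2 (volume : Measure ℝ)) (hh : BM h) :
    MemLp (fun s => h s * f s) 2 (volume : Measure ℝ) := by
  exact LtO_memLp_mul hf hh

end H52BC
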