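import Pool.Agent.H52.BC.Tech

/-!
Row MdA.  Algebra of entire orbits.  All proofs are short.

`IsOrbit M U X G`: `G : ℂ → B(H)` is norm-entire, values in `M`, bounded on horizontal strips, `G t = U t * X * U (-t)`.

* `uniq`: two entire functions which agree on the real line are equal (identity theorem:
  `AnalyticOnNhd.eq_of_frequently_eq`/`eqOn_of_preconnected_of_frequently_eq`, real points accumulate at `0`;
  `Differentiable ℂ G → AnalyticOnNhd ℂ G univ` is `Differentiable.analyticAt`/`DifferentiableOn.analyticOnNhd`, target `H →L[ℂ] H` is complete).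
* `mul`: `U t * X * U (-t) * (U t * Y * U (-t)) = U t * (X * Y) * U (-t)` because `U (-t) * U t = U 0 = 1`.
* `star'`: `z ↦ star (G (conj z))` is entire (Mathlib: `Differentiable.star_star`-like lemma, or
  `HasDerivAt` of `conj ∘ f ∘ conj`: `DifferentiableAt.star_conj`?; by hand: difference quotients, `star` is an isometry; `hasDerivAt_iff_tendsto_slope`
  or: with `f z = G (conj z)`, `star (f z)`; alternatively power series).  On reals `star (U t * X * U (-t)) = U t * star X * U (-t)` by `star_eq`.
* `shift`: the real identity `G (t + w) = U t * G w * U (-t)`: for fixed real `t` both sides are entire in `w` and agree for real `w`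
  (`U (t+s) = U t * U s`, `U (-(t+s)) = U (-s) * U (-t)`), so they agree for all `w` by the identity theorem.  The bound on strips: strip of width `r + |Im w|`.
-/

open MeasureTheory Filter Topology

noncomputable section

namespace H52BC

variable {H : Type*} [NormedAddCommGroup H] [InnerProductSpace ℂ H] [CompleteSpace H]
variable {M : VonNeumannAlgebra H} {ζ : H} {U : ℝ → H →L[ℂ] H} {X Y : H →L[ℂ] H} {G G' : ℂ → H →L[ℂ] H}

theorem vna_smul_mem {M : VonNeumannAlgebra H} (c : ℂ) {x : H →L[ℂ] H} (hx : x ∈ M) : c • x ∈ M :=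
  M.toStarSubalgebra.smul_mem hx c

/-- identity theorem for entire functions with values in a Banach space -/
theorem entire_eq {E : Type*} [NormedAddCommGroup E] [NormedSpace ℂ E] [CompleteSpace E]
    {f g : ℂ → E} (hf : Differentiable ℂ f) (hg : Differentiable ℂ g)
    (h : ∀ t : ℝ, f t = g t) : f = g := by
  have hfa : AnalyticOnNhd ℂ f Set.univ := fun z _ => hf.analyticAt z
  have hga : AnalyticOnNhd ℂ g Set.univ := fun z _ => hg.analyticAt z
  have hfr : ∃ᶠ z in 𝓝[≠] (0 : ℂ), f z = g z := by
    have ht : Tendsto (fun n : ℕ => (((1 : ℝ) / ((n : ℝ) + 1) : ℝ) : ℂ)) atTop (𝓝[≠] (0 : ℂ)) := by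
      rw [tendsto_nhdsWithin_iff]
      refine ⟨?_, ?_⟩
      · have h1 := (tendsto_one_div_add_atTop_nhds_zero_nat (𝕜 := ℝ))
        have h2 := (Complex.continuous_ofReal.tendsto (0 : ℝ)).comp h1
        rw [Complex.ofReal_zero] at h2
        exact h2
      · refine Eventually.of_forall fun n => ?_
        have : ((1 : ℝ) / ((n : ℝ) + 1)) ≠ 0 := by positivity
        simpa using (by exact_mod_cast this : (((1 : ℝ) / ((n : ℝ) + 1) : ℝ) : ℂ) ≠ 0)
    exact ht.frequently (Frequently.of_forall fun n => h _)
  exact AnalyticOnNhd.eq_of_frequently_eq hfa hga hfr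

theorem IsOrbit.uniq (h1 : IsOrbit M U X G) (h2 : IsOrbit M U X G') : G = G' :=
  entire_eq h1.diff h2.diff fun t => by rw [h1.real, h2.real]

theorem IsOrbit.zero_eq (hU : IsModularGroup M ζ U) (h1 : IsOrbit M U X G) : G 0 = X := by
  have h := h1.real 0
  simpa [hU.zero] using h

theorem IsOrbit.add (h1 : IsOrbit M U X G) (h2 : IsOrbit M U Y G') :
    IsOrbit M U (X + Y) (fun z => G z + G' z) where
  mem z := add_mem (h1.mem z) (h2.mem z)
  diff := h1.diff.add h2.diff
  bdd r := by
    obtain ⟨C, hC⟩ := h1.bdd r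
    obtain ⟨D, hD⟩ := h2.bdd r
    exact ⟨C + D, fun z hz => (norm_add_le _ _).trans (add_le_add (hC z hz) (hD z hz))⟩
  real t := by
    simp only [h1.real, h2.real, mul_add, add_mul]

theorem IsOrbit.smul (c : ℂ) (h1 : IsOrbit M U X G) : IsOrbit M U (c • X) (fun z => c • G z) where
  mem z := vna_smul_mem c (h1.mem z)
  diff := h1.diff.const_smul c
  bdd r := by
    obtain ⟨C, hC⟩ := h1.bdd r
    refine ⟨‖c‖ * C, fun z hz => ?_⟩
    rw [norm_smul]
    exact mul_le_mul_of_nonneg_left (hC z hz) (norm_nonneg _)
  real t := by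
    simp only [h1.real, mul_smul_comm, smul_mul_assoc]

theorem IsModularGroup.neg_mul (hU : IsModularGroup M ζ U) (t : ℝ) : U (-t) * U t = 1 := by
  rw [← hU.add, neg_add_cancel, hU.zero]

theorem IsOrbit.mul (hU : IsModularGroup M ζ U) (h1 : IsOrbit M U X G) (h2 : IsOrbit M U Y G') :
    IsOrbit M U (X * Y) (fun z => G z * G' z) where
  mem z := mul_mem (h1.mem z) (h2.mem z)
  diff := h1.diff.mul h2.diff
  bdd r := by
    obtain ⟨C, hC⟩ := h1.bdd r
    obtain ⟨D, hD⟩ := h2.bdd r
    refine ⟨C * D, fun z hz => (norm_mul_le _ _).trans ?_⟩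
    exact mul_le_mul (hC z hz) (hD z hz) (norm_nonneg _) ((norm_nonneg _).trans (hC z hz))
  real t := by
    have e : U t * X * U (-t) * (U t * Y * U (-t)) = U t * X * (U (-t) * U t) * Y * U (-t) := by
      noncomm_ring
    rw [h1.real, h2.real, e, hU.neg_mul]
    noncomm_ring

theorem IsOrbit.star' (hU : IsModularGroup M ζ U) (h1 : IsOrbit M U X G) :
    IsOrbit M U (star X) (fun z => star (G ((starRingEnd ℂ) z))) where
  mem z := star_mem (h1.mem _)
  diff := by
    intro z
    have h := (h1.diff ((starRingEnd ℂ) z)).hasDerivAt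
    rw [hasDerivAt_iff_tendsto_slope] at h
    refine HasDerivAt.differentiableAt (f' := star (deriv G ((starRingEnd ℂ) z))) ?_
    rw [hasDerivAt_iff_tendsto_slope]
    have hc : Tendsto (fun w : ℂ => (starRingEnd ℂ) w) (𝓝[≠] z) (𝓝[≠] ((starRingEnd ℂ) z)) := by
      refine tendsto_nhdsWithin_of_tendsto_nhds_of_eventually_within _ ?_ ?_
      · exact (Complex.continuous_conj.tendsto z).mono_left nhdsWithin_le_nhds
      · filter_upwards [self_mem_nhdsWithin] with w hw
        intro h'
        exact hw ((starRingEnd ℂ).injective h')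
    have h3 := (continuous_star.tendsto (deriv G ((starRingEnd ℂ) z))).comp (h.comp hc)
    refine h3.congr fun w => ?_
    simp only [Function.comp, slope_def_module, star_smul, star_sub, star_inv₀, Complex.star_def,
      Complex.conj_conj]
  bdd r := by
    obtain ⟨C, hC⟩ := h1.bdd r
    refine ⟨C, fun z hz => ?_⟩
    rw [norm_star]
    exact hC _ (by simpa using hz)
  real t := by
    rw [Complex.conj_ofReal, h1.real, star_mul, star_mul, hU.star_eq, hU.star_eq, neg_neg, mul_assoc]

theorem IsOrbit.one (hU : IsModularGroup M ζ U) :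
    IsOrbit M U (1 : H →L[ℂ] H) (fun _ => 1) where
  mem _ := one_mem M
  diff := differentiable_const _
  bdd _ := ⟨‖(1 : H →L[ℂ] H)‖, fun _ _ => le_rfl⟩
  real t := by
    rw [mul_one, ← hU.add, add_neg_cancel, hU.zero]

theorem IsOrbit.shift (hU : IsModularGroup M ζ U) (h1 : IsOrbit M U X G) (w : ℂ) :
    IsOrbit M U (G w) (fun z => G (z + w)) where
  mem z := h1.mem _
  diff := h1.diff.comp (differentiable_id.add (differentiable_const w))
  bdd r := by
    obtain ⟨C, hC⟩ := h1.bdd (r + |w.im|)
    refine ⟨C, fun z hz => hC _ ?_⟩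
    rw [Complex.add_im]
    exact (abs_add_le _ _).trans (by linarith)
  real t := by
    have h : (fun v : ℂ => G ((t : ℂ) + v)) = fun v => U t * G v * U (-t) := by
      refine entire_eq (h1.diff.comp ((differentiable_const _).add differentiable_id)) ?_ fun s => ?_
      · exact ((differentiable_const _).mul h1.diff).mul (differentiable_const _)
      · have e : ((t : ℂ) + (s : ℂ)) = ((t + s : ℝ) : ℂ) := by push_cast; ring
        rw [e, h1.real, h1.real, hU.add, neg_add_rev, hU.add]
        noncomm_ring
    exact congrFun h w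

end H52BC
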