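import Pool.Agent.H52.BC.MdJ
import Pool.Agent.H52.BC.MdI

/-!
Row MdC.  `J` commutes with `U t`, and `J (X (J ·)) ∈ M'` for `X ∈ M`.
-/

open MeasureTheory Filter Topology

noncomputable section

namespace H52BC

variable {H : Type*} [NormedAddCommGroup H] [InnerProductSpace ℂ H] [CompleteSpace H]
variable {M : VonNeumannAlgebra H} {ζ : H} {U : ℝ → H →L[ℂ] H} {J : H ≃ₗᵢ⋆[ℂ] H}

theorem J_comm (hU : IsModularGroup M ζ U) (hcyc : Dense {ξ : H | ∃ x ∈ M, ξ = x ζ})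
    (hJX : ∀ X G, IsOrbit M U X G → J (X ζ) = star (G (Complex.I / 2)) ζ) (t : ℝ) (ξ : H) :
    J (U t ξ) = U t (J ξ) := by
  have hd := dense_orbit hU hcyc
  have hcl : IsClosed {ξ : H | J (U t ξ) = U t (J ξ)} :=
    isClosed_eq (J.continuous.comp (U t).continuous) ((U t).continuous.comp J.continuous)
  have hsub : {ξ : H | ∃ X G, IsOrbit M U X G ∧ ξ = X ζ} ⊆ {ξ : H | J (U t ξ) = U t (J ξ)} := by
    rintro ξ ⟨X, G, hG, rfl⟩
    have h1 : U t (X ζ) = (G t) ζ := by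
      rw [hG.real t]
      simp [hU.fix]
    have h2 := hG.shift hU (t : ℂ)
    have h3 := (hG.shift hU (Complex.I / 2)).real t
    show J (U t (X ζ)) = U t (J (X ζ))
    rw [h1, hJX _ _ h2, hJX _ _ hG]
    have h4 : G (Complex.I / 2 + (t : ℂ)) = U t * G (Complex.I / 2) * U (-t) := by
      rw [add_comm]; exact h3
    rw [h4, star_mul, star_mul, hU.star_eq, hU.star_eq, neg_neg]
    simp [hU.fix]
  have := hd.closure_eq ▸ (closure_minimal hsub hcl)
  exact this (Set.mem_univ ξ)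

theorem J_mem (hU : IsModularGroup M ζ U) (hcyc : Dense {ξ : H | ∃ x ∈ M, ξ = x ζ})
    (hJX : ∀ X G, IsOrbit M U X G → J (X ζ) = star (G (Complex.I / 2)) ζ) :
    ∀ x ∈ M, ∀ y ∈ M, ∀ ξ, J (x (J (y ξ))) = y (J (x (J ξ))) := by
  have hd := dense_orbit hU hcyc
  -- (*)
  have hstar : ∀ Y GY, IsOrbit M U Y GY → ∀ X GX, IsOrbit M U X GX →
      J (Y (J (X ζ))) = X ((star (GY (Complex.I / 2))) ζ) := by
    intro Y GY hY X GX hX
    have ho := hY.mul hU ((hX.shift hU (Complex.I / 2)).star' hU)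
    rw [hJX _ _ hX]
    have h1 := hJX _ _ ho
    have h2 : (Y * star (GX (Complex.I / 2))) ζ = Y (star (GX (Complex.I / 2)) ζ) := rfl
    rw [← h2, h1]
    have h3 : (starRingEnd ℂ) (Complex.I / 2) + Complex.I / 2 = 0 := by
      rw [map_div₀, Complex.conj_I, map_ofNat]
      ring
    simp only [h3, hX.zero_eq hU, star_mul, star_star]
    rfl
  -- orbits
  have h1 : ∀ Y GY, IsOrbit M U Y GY → ∀ Z GZ, IsOrbit M U Z GZ → ∀ ξ,
      J (Y (J (Z ξ))) = Z (J (Y (J ξ))) := by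
    intro Y GY hY Z GZ hZ ξ
    have hcl : IsClosed {ξ : H | J (Y (J (Z ξ))) = Z (J (Y (J ξ)))} :=
      isClosed_eq (J.continuous.comp (Y.continuous.comp (J.continuous.comp Z.continuous)))
        (Z.continuous.comp (J.continuous.comp (Y.continuous.comp J.continuous)))
    have hsub : {ξ : H | ∃ X G, IsOrbit M U X G ∧ ξ = X ζ} ⊆
        {ξ : H | J (Y (J (Z ξ))) = Z (J (Y (J ξ)))} := by
      rintro ξ ⟨X, GX, hX, rfl⟩
      have e1 := hstar Y GY hY _ _ (hZ.mul hU hX)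
      have e2 := hstar Y GY hY _ _ hX
      show J (Y (J (Z (X ζ)))) = Z (J (Y (J (X ζ))))
      rw [e2]
      exact e1
    have := hd.closure_eq ▸ (closure_minimal hsub hcl)
    exact this (Set.mem_univ ξ)
  have h2 : ∀ Y GY, IsOrbit M U Y GY → ∀ y ∈ M, ∀ ξ,
      J (Y (J (y ξ))) = y (J (Y (J ξ))) := by
    intro Y GY hY y hy ξ
    obtain ⟨Z, hZ, -, hZt⟩ := exists_smooth hU y hy
    have t1 : Tendsto (fun n => J (Y (J (Z n ξ)))) atTop (𝓝 (J (Y (J (y ξ))))) :=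
      ((J.continuous.comp (Y.continuous.comp J.continuous)).tendsto _).comp (hZt ξ)
    have t2 := hZt (J (Y (J ξ)))
    have : (fun n => J (Y (J (Z n ξ)))) = fun n => Z n (J (Y (J ξ))) := by
      funext n
      obtain ⟨GZ, hGZ⟩ := hZ n
      exact h1 Y GY hY _ _ hGZ ξ
    rw [this] at t1
    exact tendsto_nhds_unique t1 t2
  intro x hx y hy ξ
  obtain ⟨Y, hY, -, hYt⟩ := exists_smooth hU x hx
  have t1 : Tendsto (fun n => J (Y n (J (y ξ)))) atTop (𝓝 (J (x (J (y ξ))))) :=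
    (J.continuous.tendsto _).comp (hYt (J (y ξ)))
  have t2 : Tendsto (fun n => y (J (Y n (J ξ)))) atTop (𝓝 (y (J (x (J ξ))))) :=
    ((y.continuous.comp J.continuous).tendsto _).comp (hYt (J ξ))
  have : (fun n => J (Y n (J (y ξ)))) = fun n => y (J (Y n (J ξ))) := by
    funext n
    obtain ⟨GY, hGY⟩ := hY n
    exact h2 _ _ hGY y hy ξ
  rw [this] at t1
  exact tendsto_nhds_unique t1 t2

end H52BC
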