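import Mathlib

/-!
Row MdG.  Gaussians in `L¹(ℝ; ℂ)` depend holomorphically on a complex translation.

For `n > 0` and `z ∈ ℂ` put `γ z (t) = sqrt(n/π) * exp (-n (t - z)^2)`.  Claim: there is `γ : ℂ → L¹(ℝ)` with these representatives,
`γ` is (complex) differentiable as a map into `L¹`, and `‖γ z‖ ≤ exp (n (Im z)^2)`.

Proof.  `|exp (-n (t-z)^2)| = exp (-n (t - Re z)^2 + n (Im z)^2)`, so integrable and `‖γ z‖₁ = exp(n (Im z)^2)` (`integral_gaussian`).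
Differentiability at `z`: with `D t = 2 n (t - z) exp(-n (t-z)^2)` and `w = 2 n (t-z) h - n h^2` we have
`exp(-n (t-z-h)^2) = exp(-n (t-z)^2) exp(w)`, `|exp w - 1 - w| ≤ |w|^2 exp |w|` (`Complex.norm_exp_sub_one_sub_id_le` for `|w| ≤ 1`, or the general bound
`Complex.norm_exp_sub_sum_le_norm_mul_exp`-type lemma, or `|e^w - 1 - w| ≤ |w|^2 e^{|w|}` by the power series) and for `|h| ≤ 1`:
`|w| ≤ 2n|t-z| |h| + n|h|^2 ≤ |h| (2n|t-z| + n)`, `|w - 2n(t-z)h| = n|h|^2`.  So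
`‖γ(z+h) - γ z - h D‖₁ ≤ C_z |h|^2`, with `C_z = sqrt(n/π) ∫ exp(-n (t-Re z)^2 + n (Im z)^2) ((2n|t-z|+n)^2 exp(2n|t-z|+n) + n) dt < ∞`
(finite: `exp(-n t^2) ` times `exp(c|t|)` and powers is integrable; bound powers by exponentials: `x^2 ≤ 2 exp x`, so only
`∫ exp(-n (t-a)^2 + b |t-a|) dt < ∞` is needed).  Use `hasDerivAt_iff_isLittleO_nhds_zero` / `HasDerivAt` from the quadratic bound.
Any other proof is fine (e.g. the power series `exp(-n t^2) exp(-n z^2) Σ (2 n t z)^k / k!` in `L¹`).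
-/

open MeasureTheory Filter Topology

noncomputable section

namespace H52BC

/-- The Gaussian with centre `z`. -/
def mdgP (n : ℝ) (z : ℂ) (t : ℝ) : ℂ :=
  ((Real.sqrt (n / Real.pi) : ℝ) : ℂ) * Complex.exp (-(n : ℂ) * ((t : ℂ) - z) ^ 2)

/-- Its derivative in `z`. -/
def mdgD (n : ℝ) (z : ℂ) (t : ℝ) : ℂ := (2 * (n : ℂ) * ((t : ℂ) - z)) * mdgP n z t

lemma mdg_re (n : ℝ) (z : ℂ) (t : ℝ) : (-(n : ℂ) * ((t : ℂ) - z) ^ 2).re =
    n * z.im ^ 2 + (-n) * (t - z.re) ^ 2 := by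
  simp only [pow_two, Complex.mul_re, Complex.neg_re, Complex.neg_im, Complex.ofReal_re,
    Complex.ofReal_im, Complex.sub_re, Complex.sub_im]
  ring

lemma mdg_norm (n : ℝ) (z : ℂ) (t : ℝ) : ‖mdgP n z t‖ =
    Real.sqrt (n / Real.pi) * Real.exp (n * z.im ^ 2) * Real.exp (-n * (t - z.re) ^ 2) := by
  rw [mdgP, norm_mul, Complex.norm_exp, mdg_re, Real.exp_add, Complex.norm_real,
    Real.norm_of_nonneg (Real.sqrt_nonneg _), mul_assoc]

lemma mdg_cont (n : ℝ) (z : ℂ) : Continuous (mdgP n z) := by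
  unfold mdgP
  fun_prop

lemma mdg_contD (n : ℝ) (z : ℂ) : Continuous (mdgD n z) := by
  unfold mdgD
  exact (by fun_prop : Continuous fun t : ℝ => (2 * (n : ℂ) * ((t : ℂ) - z))).mul (mdg_cont n z)

lemma mdg_int (n : ℝ) (hn : 0 < n) (z : ℂ) : Integrable (mdgP n z) := by
  have h1 : Integrable (fun t : ℝ => Real.exp (-n * (t - z.re) ^ 2)) :=
    (integrable_exp_neg_mul_sq hn).comp_sub_right z.re
  refine Integrable.mono' (h1.const_mul (Real.sqrt (n / Real.pi) * Real.exp (n * z.im ^ 2)))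
    (mdg_cont n z).aestronglyMeasurable (ae_of_all _ fun t => ?_)
  rw [mdg_norm]

/-- The common bound. -/
def mdgB (n : ℝ) (z : ℂ) (t : ℝ) : ℝ :=
  ‖mdgP n z t‖ * (2 * Real.exp (2 * (2 * n * ‖(t : ℂ) - z‖ + n)) + n)

lemma mdg_normsub (z : ℂ) (t : ℝ) : ‖(t : ℂ) - z‖ ≤ |t - z.re| + |z.im| := by
  have h := Complex.norm_le_abs_re_add_abs_im ((t : ℂ) - z)
  simpa only [Complex.sub_re, Complex.sub_im, Complex.ofReal_re, Complex.ofReal_im, zero_sub,
    abs_neg] using h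

lemma mdg_B_le (n : ℝ) (hn : 0 < n) (z : ℂ) (t : ℝ) : mdgB n z t ≤
    (Real.sqrt (n / Real.pi) * Real.exp (n * z.im ^ 2) *
      (2 * Real.exp (8 * n + 4 * n * |z.im| + 2 * n) + n)) *
      Real.exp (-(n / 2) * (t - z.re) ^ 2) := by
  have hc : 0 ≤ Real.sqrt (n / Real.pi) * Real.exp (n * z.im ^ 2) := by positivity
  obtain ⟨s, hs⟩ : ∃ s, s = t - z.re := ⟨_, rfl⟩
  obtain ⟨y, hy⟩ : ∃ y, y = |z.im| := ⟨_, rfl⟩
  have h0 := mdg_normsub z t
  rw [mdgB, mdg_norm]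
  rw [← hs, ← hy] at h0 ⊢
  have h2 : Real.exp (-n * s ^ 2) ≤ Real.exp (-(n / 2) * s ^ 2) := by
    refine Real.exp_le_exp.mpr ?_
    nlinarith [mul_nonneg hn.le (sq_nonneg s)]
  have h3 : Real.exp (-n * s ^ 2) * Real.exp (2 * (2 * n * ‖(t : ℂ) - z‖ + n)) ≤
      Real.exp (8 * n + 4 * n * y + 2 * n) * Real.exp (-(n / 2) * s ^ 2) := by
    rw [← Real.exp_add, ← Real.exp_add]
    refine Real.exp_le_exp.mpr ?_
    have h4 : |s| ^ 2 = s ^ 2 := sq_abs s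
    have h5 : n * ‖(t : ℂ) - z‖ ≤ n * (|s| + y) := mul_le_mul_of_nonneg_left h0 hn.le
    have h6 : 0 ≤ n * (|s| - 4) ^ 2 := mul_nonneg hn.le (sq_nonneg _)
    nlinarith
  have h7 : Real.exp (-n * s ^ 2) * (2 * Real.exp (2 * (2 * n * ‖(t : ℂ) - z‖ + n)) + n) ≤
      (2 * Real.exp (8 * n + 4 * n * y + 2 * n) + n) * Real.exp (-(n / 2) * s ^ 2) := by
    have h8 : n * Real.exp (-n * s ^ 2) ≤ n * Real.exp (-(n / 2) * s ^ 2) :=
      mul_le_mul_of_nonneg_left h2 hn.le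
    linarith
  calc Real.sqrt (n / Real.pi) * Real.exp (n * z.im ^ 2) * Real.exp (-n * s ^ 2) *
        (2 * Real.exp (2 * (2 * n * ‖(t : ℂ) - z‖ + n)) + n)
      = (Real.sqrt (n / Real.pi) * Real.exp (n * z.im ^ 2)) * (Real.exp (-n * s ^ 2) *
        (2 * Real.exp (2 * (2 * n * ‖(t : ℂ) - z‖ + n)) + n)) := by ring
    _ ≤ (Real.sqrt (n / Real.pi) * Real.exp (n * z.im ^ 2)) *
        ((2 * Real.exp (8 * n + 4 * n * y + 2 * n) + n) * Real.exp (-(n / 2) * s ^ 2)) :=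
        mul_le_mul_of_nonneg_left h7 hc
    _ = _ := by ring

lemma mdg_B_nonneg (n : ℝ) (hn : 0 < n) (z : ℂ) (t : ℝ) : 0 ≤ mdgB n z t := by
  unfold mdgB
  positivity

lemma mdg_B_int (n : ℝ) (hn : 0 < n) (z : ℂ) : Integrable (mdgB n z) := by
  have h1 : Integrable (fun t : ℝ => Real.exp (-(n / 2) * (t - z.re) ^ 2)) :=
    (integrable_exp_neg_mul_sq (half_pos hn)).comp_sub_right z.re
  have hc : Continuous (mdgB n z) := by
    unfold mdgB
    have := mdg_cont n z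
    fun_prop
  refine Integrable.mono' (h1.const_mul (Real.sqrt (n / Real.pi) * Real.exp (n * z.im ^ 2) *
      (2 * Real.exp (8 * n + 4 * n * |z.im| + 2 * n) + n))) hc.aestronglyMeasurable
    (ae_of_all _ fun t => ?_)
  rw [Real.norm_of_nonneg (mdg_B_nonneg n hn z t)]
  exact mdg_B_le n hn z t

lemma mdg_sq_le {M : ℝ} (hM : 0 ≤ M) : M ^ 2 * Real.exp M ≤ 2 * Real.exp (2 * M) := by
  have h1 : M ^ 2 / 2 ≤ Real.exp M := by
    have := Real.quadratic_le_exp_of_nonneg hM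
    linarith
  have h2 : Real.exp (2 * M) = Real.exp M * Real.exp M := by
    rw [← Real.exp_add]
    congr 1
    ring
  rw [h2]
  nlinarith [Real.exp_pos M]

lemma mdg_D_int (n : ℝ) (hn : 0 < n) (z : ℂ) : Integrable (mdgD n z) := by
  refine Integrable.mono' (mdg_B_int n hn z) (mdg_contD n z).aestronglyMeasurable
    (ae_of_all _ fun t => ?_)
  rw [mdgD, norm_mul, mdgB, mul_comm ‖mdgP n z t‖]
  refine mul_le_mul_of_nonneg_right ?_ (norm_nonneg _)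
  have h1 : ‖2 * (n : ℂ) * ((t : ℂ) - z)‖ = 2 * n * ‖(t : ℂ) - z‖ := by
    rw [norm_mul, norm_mul, Complex.norm_real, Real.norm_of_nonneg hn.le, Complex.norm_two]
  rw [h1]
  have h2 := Real.add_one_le_exp (2 * (2 * n * ‖(t : ℂ) - z‖ + n))
  have h3 : 0 ≤ n * ‖(t : ℂ) - z‖ := mul_nonneg hn.le (norm_nonneg _)
  linarith

lemma mdg_pt (n : ℝ) (hn : 0 < n) (z h : ℂ) (hh : ‖h‖ ≤ 1) (t : ℝ) :
    ‖mdgP n (z + h) t - mdgP n z t - h * mdgD n z t‖ ≤ ‖h‖ ^ 2 * mdgB n z t := by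
  obtain ⟨w, hw⟩ : ∃ w : ℂ, w = 2 * (n : ℂ) * ((t : ℂ) - z) * h - (n : ℂ) * h ^ 2 := ⟨_, rfl⟩
  have e1 : mdgP n (z + h) t = mdgP n z t * Complex.exp w := by
    rw [mdgP, mdgP, mul_assoc, ← Complex.exp_add, hw]
    congr 2
    ring
  have e2 : mdgP n (z + h) t - mdgP n z t - h * mdgD n z t =
      mdgP n z t * ((Complex.exp w - (1 + w)) - (n : ℂ) * h ^ 2) := by
    rw [e1, mdgD, hw]
    ring
  have hnc : ‖(n : ℂ)‖ = n := by
    rw [Complex.norm_real, Real.norm_of_nonneg hn.le]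
  obtain ⟨M, hM⟩ : ∃ M, M = 2 * n * ‖(t : ℂ) - z‖ + n := ⟨_, rfl⟩
  have hM0 : 0 ≤ M := by
    rw [hM]
    positivity
  have hwM : ‖w‖ ≤ ‖h‖ * M := by
    have h1 : ‖w‖ ≤ 2 * n * ‖(t : ℂ) - z‖ * ‖h‖ + n * ‖h‖ ^ 2 := by
      rw [hw]
      refine (norm_sub_le _ _).trans (le_of_eq ?_)
      rw [norm_mul, norm_mul, norm_mul, norm_mul, norm_pow, hnc, Complex.norm_two]
    have h2 : n * ‖h‖ ^ 2 ≤ n * ‖h‖ := by
      refine mul_le_mul_of_nonneg_left ?_ hn.le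
      nlinarith [norm_nonneg h]
    rw [hM]
    linarith
  have hwM' : ‖w‖ ≤ M := hwM.trans (mul_le_of_le_one_left hM0 hh)
  have k1 : ‖Complex.exp w - (1 + w)‖ ≤ ‖w‖ ^ 2 * Real.exp ‖w‖ := by
    have := Complex.norm_exp_sub_sum_le_norm_mul_exp w 2
    simpa [Finset.sum_range_succ] using this
  have k2 : ‖w‖ ^ 2 * Real.exp ‖w‖ ≤ ‖h‖ ^ 2 * (2 * Real.exp (2 * M)) := by
    calc ‖w‖ ^ 2 * Real.exp ‖w‖ ≤ (‖h‖ * M) ^ 2 * Real.exp M := by
          refine mul_le_mul ?_ (Real.exp_le_exp.mpr hwM') (Real.exp_pos _).le (sq_nonneg _)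
          exact pow_le_pow_left₀ (norm_nonneg _) hwM 2
      _ = ‖h‖ ^ 2 * (M ^ 2 * Real.exp M) := by ring
      _ ≤ ‖h‖ ^ 2 * (2 * Real.exp (2 * M)) :=
          mul_le_mul_of_nonneg_left (mdg_sq_le hM0) (sq_nonneg _)
  have k3 : ‖(Complex.exp w - (1 + w)) - (n : ℂ) * h ^ 2‖ ≤
      ‖h‖ ^ 2 * (2 * Real.exp (2 * M) + n) := by
    refine (norm_sub_le _ _).trans ?_
    rw [norm_mul, norm_pow, hnc]
    have := k1.trans k2
    linarith
  rw [e2, norm_mul, mdgB, ← hM]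
  calc ‖mdgP n z t‖ * ‖(Complex.exp w - (1 + w)) - (n : ℂ) * h ^ 2‖
      ≤ ‖mdgP n z t‖ * (‖h‖ ^ 2 * (2 * Real.exp (2 * M) + n)) :=
        mul_le_mul_of_nonneg_left k3 (norm_nonneg _)
    _ = _ := by ring

theorem exists_gauss (n : ℝ) (hn : 0 < n) :
    ∃ γ : ℂ → Lp ℂ 1 (volume : Measure ℝ), Differentiable ℂ γ ∧
      (∀ z : ℂ, ((γ z : Lp ℂ 1 (volume : Measure ℝ)) : ℝ → ℂ) =ᵐ[volume]
        fun t : ℝ => ((Real.sqrt (n / Real.pi) : ℝ) : ℂ) * Complex.exp (-(n : ℂ) * ((t : ℂ) - z) ^ 2)) ∧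
      (∀ z : ℂ, ‖γ z‖ ≤ Real.exp (n * z.im ^ 2)) := by
  refine ⟨fun z => (mdg_int n hn z).toL1 (mdgP n z), ?_, fun z => Integrable.coeFn_toL1 _, ?_⟩
  · intro z
    refine HasDerivAt.differentiableAt (f' := (mdg_D_int n hn z).toL1 (mdgD n z)) ?_
    rw [hasDerivAt_iff_isLittleO_nhds_zero]
    have hO : (fun h : ℂ => (mdg_int n hn (z + h)).toL1 (mdgP n (z + h)) -
        (mdg_int n hn z).toL1 (mdgP n z) - h • (mdg_D_int n hn z).toL1 (mdgD n z))
        =O[𝓝 0] fun h : ℂ => h ^ 2 := by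
      refine Asymptotics.IsBigO.of_bound (∫ t, mdgB n z t) ?_
      filter_upwards [Metric.ball_mem_nhds (0 : ℂ) one_pos] with h hh
      have hh1 : ‖h‖ ≤ 1 := by
        rw [Metric.mem_ball, dist_zero_right] at hh
        exact hh.le
      have e : (mdg_int n hn (z + h)).toL1 (mdgP n (z + h)) -
          (mdg_int n hn z).toL1 (mdgP n z) - h • (mdg_D_int n hn z).toL1 (mdgD n z) =
          (((mdg_int n hn (z + h)).sub (mdg_int n hn z)).sub
            ((mdg_D_int n hn z).smul h)).toL1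
            (fun t => mdgP n (z + h) t - mdgP n z t - h • mdgD n z t) := rfl
      rw [e, L1.norm_of_fun_eq_integral_norm, norm_pow, mul_comm, ← integral_const_mul]
      refine integral_mono (((mdg_int n hn (z + h)).sub (mdg_int n hn z)).sub
            ((mdg_D_int n hn z).smul h)).norm ((mdg_B_int n hn z).const_mul _) fun t => ?_
      exact mdg_pt n hn z h hh1 t
    exact hO.trans_isLittleO (Asymptotics.isLittleO_pow_id one_lt_two)
  · intro z
    have h1 : ‖(mdg_int n hn z).toL1 (mdgP n z)‖ = Real.exp (n * z.im ^ 2) := by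
      rw [L1.norm_of_fun_eq_integral_norm]
      have h2 : (fun t => ‖mdgP n z t‖) = fun t => Real.sqrt (n / Real.pi) *
          Real.exp (n * z.im ^ 2) * Real.exp (-n * (t - z.re) ^ 2) :=
        funext fun t => mdg_norm n z t
      rw [h2, integral_const_mul,
        integral_sub_right_eq_self (fun x : ℝ => Real.exp (-n * x ^ 2)) z.re, integral_gaussian]
      have h3 : Real.sqrt (n / Real.pi) * Real.sqrt (Real.pi / n) = 1 := by
        rw [← Real.sqrt_mul (by positivity), div_mul_div_comm, mul_comm n Real.pi,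
          div_self (by positivity), Real.sqrt_one]
      linear_combination Real.exp (n * z.im ^ 2) * h3
    exact h1.le

end H52BC
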