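import Mathlib

/-!
Row MdH.  Gaussian approximate unit.

`sqrt((n+1)/π) exp(-(n+1) t²)` is a real nonnegative kernel of mass one (`integral_gaussian`) concentrating at `0`; `φ` bounded continuous with values in a Banach space.
Proof: substitute `t = s/√(n+1)`: the integral is `∫ sqrt(1/π) exp(-s²) • φ(s/√(n+1)) ds` → dominated convergence (bound `C exp(-s²)`), limit `∫ sqrt(1/π) exp(-s²) ds • φ 0 = φ 0`.
Or use Mathlib `tendsto_integral_peak_smul_of_integrable_of_tendsto` / `GaussianFourier`-type lemmas.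
-/

open MeasureTheory Filter Topology

noncomputable section

namespace H52BC

/-- the Gaussians are an approximate unit: real kernel of mass one concentrating at `0` -/
theorem gauss_approx {E : Type*} [NormedAddCommGroup E] [NormedSpace ℂ E] [CompleteSpace E]
    (φ : ℝ → E) (hφ : Continuous φ) (C : ℝ) (hC : ∀ t, ‖φ t‖ ≤ C) :
    Tendsto (fun n : ℕ => ∫ t : ℝ,
      (((Real.sqrt (((n : ℝ) + 1) / Real.pi) : ℝ) : ℂ) *
        Complex.exp (-(((n : ℝ) + 1 : ℝ) : ℂ) * ((t : ℂ) - 0) ^ 2)) • φ t) atTop (𝓝 (φ 0)) := by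
  set G : ℝ → ℝ := fun s => Real.sqrt (1 / Real.pi) * Real.exp (-1 * s ^ 2) with hG
  have hGint : Integrable G := (integrable_exp_neg_mul_sq one_pos).const_mul _
  have hG0 : ∀ s, 0 ≤ G s := fun s => by simp only [hG]; positivity
  have hG1 : ∫ s, G s = 1 := by
    simp only [hG]
    rw [integral_const_mul, integral_gaussian, ← Real.sqrt_mul (by positivity)]
    rw [div_one, one_div, inv_mul_cancel₀ Real.pi_ne_zero, Real.sqrt_one]
  have hGc : Continuous G := by
    simp only [hG]
    fun_prop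
  have key : ∀ n : ℕ, (∫ t : ℝ, (((Real.sqrt (((n : ℝ) + 1) / Real.pi) : ℝ) : ℂ) *
        Complex.exp (-(((n : ℝ) + 1 : ℝ) : ℂ) * ((t : ℂ) - 0) ^ 2)) • φ t)
      = ∫ s : ℝ, ((G s : ℝ) : ℂ) • φ (s / Real.sqrt ((n : ℝ) + 1)) := by
    intro n
    set c : ℝ := Real.sqrt ((n : ℝ) + 1) with hc
    have hc0 : 0 < c := Real.sqrt_pos.mpr (by positivity)
    have hc2 : c ^ 2 = (n : ℝ) + 1 := Real.sq_sqrt (by positivity)
    have h1 : ∀ t : ℝ, (((Real.sqrt (((n : ℝ) + 1) / Real.pi) : ℝ) : ℂ) *
        Complex.exp (-(((n : ℝ) + 1 : ℝ) : ℂ) * ((t : ℂ) - 0) ^ 2)) • φ t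
        = (c : ℂ) • ((fun s : ℝ => ((G s : ℝ) : ℂ) • φ (s / c)) (c * t)) := by
      intro t
      simp only
      rw [mul_div_cancel_left₀ t hc0.ne', smul_smul]
      congr 1
      simp only [hG]
      rw [div_eq_mul_one_div, Real.sqrt_mul (by positivity), ← hc, ← hc2]
      push_cast
      rw [mul_assoc]
      congr 2
      congr 1
      ring
    simp_rw [h1]
    rw [integral_smul, Measure.integral_comp_mul_left (fun s : ℝ => ((G s : ℝ) : ℂ) • φ (s / c)) c]
    rw [abs_of_pos (inv_pos.mpr hc0), ← Complex.coe_smul, smul_smul]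
    push_cast
    rw [mul_inv_cancel₀ (by exact_mod_cast hc0.ne'), one_smul]
  simp_rw [key]
  have h2 : φ 0 = ∫ s : ℝ, ((G s : ℝ) : ℂ) • φ 0 := by
    rw [integral_smul_const, integral_complex_ofReal, hG1]
    simp
  rw [h2]
  apply tendsto_integral_of_dominated_convergence (fun s => G s * C)
  · intro n
    apply Continuous.aestronglyMeasurable
    fun_prop
  · exact hGint.mul_const C
  · intro n
    filter_upwards with s
    rw [norm_smul, Complex.norm_real, Real.norm_of_nonneg (hG0 s)]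
    exact mul_le_mul_of_nonneg_left (hC _) (hG0 s)
  · filter_upwards with s
    apply Tendsto.const_smul
    apply (hφ.tendsto 0).comp
    apply Tendsto.div_atTop (tendsto_const_nhds)
    apply Real.tendsto_sqrt_atTop.comp
    exact tendsto_atTop_add_const_right _ _ tendsto_natCast_atTop_atTop

end H52BC
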