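import Pool.Agent.H52.BC.MdT
import Pool.Agent.H52.BC.MdG
import Pool.Agent.H52.BC.MdH
import Pool.Agent.H52.BC.MdA

/-!
Row MdS.  Entire elements are strongly dense, with norm control.

Proof.  Let `T` be from `exists_T hU x hx`, `γ` from `exists_gauss ((n:ℝ)+1)`.  Put `G z = T (γ z)`, `X n = T (γ 0)`.
`G` is differentiable (`T.differentiable.comp`), values in `M`, `‖G z‖ ≤ ‖x‖ exp((n+1) (Im z)^2)`, and for real `s`:
`γ s =ᵐ (γ 0)(· - s)` (the formula; translate the a.e. identity with `quasiMeasurePreserving_sub_right`), so `G s = U s * T (γ 0) * U (-s)` by the covariance clause.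
`‖X n‖ ≤ ‖T‖ ‖γ 0‖ ≤ ‖x‖`.  `X n ξ = ∫ γ_0(t) • U t (x (U (-t) ξ)) dt → x ξ` by `gauss_approx` applied to the bounded continuous function
`t ↦ U t (x (U (-t) ξ))` with value `x ξ` at `0` (replace the `Lp` representative by the formula: `integral_congr_ae`).
-/

open MeasureTheory Filter Topology

noncomputable section

namespace H52BC

variable {H : Type*} [NormedAddCommGroup H] [InnerProductSpace ℂ H] [CompleteSpace H]
variable {M : VonNeumannAlgebra H} {ζ : H} {U : ℝ → H →L[ℂ] H}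

theorem exists_smooth (hU : IsModularGroup M ζ U) (x : H →L[ℂ] H) (hx : x ∈ M) :
    ∃ X : ℕ → H →L[ℂ] H, (∀ n, ∃ G, IsOrbit M U (X n) G) ∧ (∀ n, ‖X n‖ ≤ ‖x‖) ∧
      ∀ ξ : H, Tendsto (fun n => X n ξ) atTop (𝓝 (x ξ)) := by
  obtain ⟨T, hT1, hT2, hT3, hT4⟩ := exists_T hU x hx
  have hg : ∀ n : ℕ, ∃ γ : ℂ → Lp ℂ 1 (volume : Measure ℝ), Differentiable ℂ γ ∧
      (∀ z : ℂ, ((γ z : Lp ℂ 1 (volume : Measure ℝ)) : ℝ → ℂ) =ᵐ[volume]
        fun t : ℝ => ((Real.sqrt (((n : ℝ) + 1) / Real.pi) : ℝ) : ℂ) *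
          Complex.exp (-(((n : ℝ) + 1 : ℝ) : ℂ) * ((t : ℂ) - z) ^ 2)) ∧
      (∀ z : ℂ, ‖γ z‖ ≤ Real.exp (((n : ℝ) + 1) * z.im ^ 2)) := fun n =>
    exists_gauss ((n : ℝ) + 1) (by positivity)
  choose γ hγ1 hγ2 hγ3 using hg
  refine ⟨fun n => T (γ n 0), fun n => ⟨fun z => T (γ n z), ?_⟩, fun n => ?_, fun ξ => ?_⟩
  · refine ⟨fun z => hT2 _, T.differentiable.comp (hγ1 n), fun r => ?_, fun t => ?_⟩
    · refine ⟨‖x‖ * Real.exp (((n : ℝ) + 1) * r ^ 2), fun z hz => ?_⟩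
      calc ‖T (γ n z)‖ ≤ ‖T‖ * ‖γ n z‖ := T.le_opNorm _
        _ ≤ ‖x‖ * Real.exp (((n : ℝ) + 1) * r ^ 2) := by
          refine mul_le_mul hT1 ((hγ3 n z).trans ?_) (norm_nonneg _) (norm_nonneg _)
          refine Real.exp_le_exp.2 ?_
          have : z.im ^ 2 ≤ r ^ 2 := by
            rw [← sq_abs z.im]
            exact pow_le_pow_left₀ (abs_nonneg _) hz 2
          exact mul_le_mul_of_nonneg_left this (by positivity)
    · refine (hT4 (γ n 0) (γ n (t : ℂ)) t ?_).symm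
      have h1 := hγ2 n (t : ℂ)
      have h2 := hγ2 n 0
      have h3 : (fun u : ℝ => ((γ n 0 : Lp ℂ 1 (volume : Measure ℝ)) : ℝ → ℂ) (u - t)) =ᵐ[volume]
          fun u : ℝ => ((Real.sqrt (((n : ℝ) + 1) / Real.pi) : ℝ) : ℂ) *
          Complex.exp (-(((n : ℝ) + 1 : ℝ) : ℂ) * (((u - t : ℝ) : ℂ) - 0) ^ 2) :=
        (measurePreserving_sub_right volume t).quasiMeasurePreserving.ae_eq_comp h2
      refine h1.trans (EventuallyEq.trans ?_ h3.symm)
      refine Eventually.of_forall fun u => ?_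
      simp only [Complex.ofReal_sub, sub_zero]
  · calc ‖T (γ n 0)‖ ≤ ‖T‖ * ‖γ n 0‖ := T.le_opNorm _
      _ ≤ ‖x‖ * 1 := by
        refine mul_le_mul hT1 ((hγ3 n 0).trans ?_) (norm_nonneg _) (norm_nonneg _)
        simp
      _ = ‖x‖ := mul_one _
  · have hc : Continuous fun t : ℝ => U t (x (U (-t) ξ)) := by
      have h1 := U_cont2 hU
      have h2 : Continuous fun t : ℝ => U (-t) ξ :=
        h1.comp (continuous_neg.prodMk continuous_const)
      exact h1.comp (continuous_id.prodMk (x.continuous.comp h2))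
    have hb : ∀ t : ℝ, ‖U t (x (U (-t) ξ))‖ ≤ ‖x‖ * ‖ξ‖ := fun t => by
      rw [U_norm_apply hU]
      refine (x.le_opNorm _).trans ?_
      rw [U_norm_apply hU]
    have hU0 : U 0 = 1 := hU.zero
    have h4 := gauss_approx (fun t : ℝ => U t (x (U (-t) ξ))) hc _ hb
    have h5 : U 0 (x (U (-0) ξ)) = x ξ := by
      simp [hU0]
    rw [h5] at h4
    refine h4.congr fun n => ?_
    rw [hT3]
    refine integral_congr_ae ?_
    filter_upwards [hγ2 n 0] with t ht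
    rw [ht]

end H52BC
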