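import Pool.Agent.H52.BC.MdK
import Pool.Agent.H52.BC.MdS

/-!
Row MdJ.  Construction of the modular conjugation.

`D = {X ζ : X has an entire orbit}` is a submodule (`IsOrbit.add/smul`), dense in `H`: `{x ζ : x ∈ M}` is dense and `X n ζ → x ζ` (`exists_smooth`).
For `ξ = X ζ ∈ D` (orbit `G`) put `J ξ = star (G (i/2)) ζ`.  Well defined: if `X ζ = X' ζ` then `X - X'` has orbit `G - G'` and
`J_norm` gives `‖star (G(i/2) - G'(i/2)) ζ‖ = ‖(X - X') ζ‖ = 0`.  Additive, conjugate linear (`star (c • a) = conj c • star a`), norm preserving (`J_norm`).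
Extend to an isometric conjugate linear map `H → H` (e.g. `LinearMap.extendOfNorm`/`ContinuousLinearMap.extend`/`DenseInducing.extend`; semilinear versions exist:
`LinearIsometry` on `D`, dense; or extend by hand with `Dense.uniformContinuous_extend`).
`J J = 1` on `D`: `Y = star (G (i/2)) = (G_{X*})(-i/2)` (`G_{X*} z = star (G (conj z))`, `conj (-i/2) = i/2`) has orbit
`z ↦ G_{X*}(z - i/2)` (`IsOrbit.shift` of `IsOrbit.star'`), at `i/2` this is `G_{X*}(0) = star X`; so `J (Y ζ) = star (star X) ζ = X ζ`.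
So `J` is bijective: `LinearIsometryEquiv` with inverse `J`.
-/

open MeasureTheory Filter Topology

noncomputable section

namespace H52BC

variable {H : Type*} [NormedAddCommGroup H] [InnerProductSpace ℂ H] [CompleteSpace H]
variable {M : VonNeumannAlgebra H} {ζ : H} {U : ℝ → H →L[ℂ] H} {X Y : H →L[ℂ] H} {G G' : ℂ → H →L[ℂ] H}

theorem dense_orbit (hU : IsModularGroup M ζ U) (hcyc : Dense {ξ : H | ∃ x ∈ M, ξ = x ζ}) :
    Dense {ξ : H | ∃ X G, IsOrbit M U X G ∧ ξ = X ζ} := by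
  rw [← dense_closure]
  refine hcyc.mono ?_
  rintro _ ⟨x, hx, rfl⟩
  obtain ⟨X, hX, _, hlim⟩ := exists_smooth hU x hx
  refine mem_closure_of_tendsto (hlim ζ) (Eventually.of_forall fun n => ?_)
  obtain ⟨G, hG⟩ := hX n
  exact ⟨X n, G, hG, rfl⟩

/-- The submodule of elements with an entire orbit. -/
def MdJ_O (hU : IsModularGroup M ζ U) : Submodule ℂ (H →L[ℂ] H) where
  carrier := {X | ∃ G, IsOrbit M U X G}
  add_mem' := by
    rintro X Y ⟨G, hG⟩ ⟨G', hG'⟩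
    exact ⟨_, hG.add hG'⟩
  zero_mem' := by
    have h := (IsOrbit.one hU).smul (0 : ℂ)
    rw [zero_smul] at h
    exact ⟨_, h⟩
  smul_mem' := by
    rintro c X ⟨G, hG⟩
    exact ⟨_, hG.smul c⟩

/-- Evaluation at the vector. -/
def MdJ_e (hU : IsModularGroup M ζ U) : MdJ_O hU →ₗ[ℂ] H where
  toFun X := (X : H →L[ℂ] H) ζ
  map_add' _ _ := rfl
  map_smul' _ _ := rfl

theorem MdJ_choose (hU : IsModularGroup M ζ U) (X : MdJ_O hU) {G : ℂ → H →L[ℂ] H}
    (hG : IsOrbit M U (X : H →L[ℂ] H) G) : X.2.choose = G :=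
  X.2.choose_spec.uniq hG

/-- The conjugation on the elements with an entire orbit. -/
def MdJ_f (hU : IsModularGroup M ζ U) : MdJ_O hU →ₛₗ[starRingEnd ℂ] H where
  toFun X := star (X.2.choose (Complex.I / 2)) ζ
  map_add' X Y := by
    rw [MdJ_choose hU (X + Y) (X.2.choose_spec.add Y.2.choose_spec), star_add]
    rfl
  map_smul' c X := by
    rw [MdJ_choose hU (c • X) (X.2.choose_spec.smul c), star_smul]
    rfl

theorem MdJ_f_eq (hU : IsModularGroup M ζ U) (X : MdJ_O hU) {G : ℂ → H →L[ℂ] H}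
    (hG : IsOrbit M U (X : H →L[ℂ] H) G) : MdJ_f hU X = star (G (Complex.I / 2)) ζ := by
  show star (X.2.choose (Complex.I / 2)) ζ = _
  rw [MdJ_choose hU X hG]

theorem MdJ_norm (hU : IsModularGroup M ζ U) (X : MdJ_O hU) : ‖MdJ_f hU X‖ = ‖MdJ_e hU X‖ := by
  obtain ⟨G, hG⟩ := X.2
  rw [MdJ_f_eq hU X hG]
  exact J_norm hU hG

theorem exists_J (hU : IsModularGroup M ζ U) (hcyc : Dense {ξ : H | ∃ x ∈ M, ξ = x ζ}) :
    ∃ J : H ≃ₗᵢ⋆[ℂ] H, (∀ ξ, J (J ξ) = ξ) ∧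
      ∀ X G, IsOrbit M U X G → J (X ζ) = star (G (Complex.I / 2)) ζ := by
  have hd : DenseRange (MdJ_e hU) := by
    refine (dense_orbit hU hcyc).mono ?_
    rintro _ ⟨X, G, hG, rfl⟩
    exact ⟨⟨X, G, hG⟩, rfl⟩
  have hn : ∃ C : ℝ, ∀ x, ‖MdJ_f hU x‖ ≤ C * ‖MdJ_e hU x‖ :=
    ⟨1, fun x => by rw [MdJ_norm, one_mul]⟩
  obtain ⟨g, hg⟩ : ∃ g : H →L⋆[ℂ] H, ∀ x, g (MdJ_e hU x) = MdJ_f hU x :=
    ⟨(MdJ_f hU).extendOfNorm (MdJ_e hU), fun x => LinearMap.extendOfNorm_eq hd hn x⟩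
  have hgo : ∀ X G, IsOrbit M U X G → g (X ζ) = star (G (Complex.I / 2)) ζ := by
    intro X G hG
    have h1 := hg ⟨X, G, hG⟩
    rw [MdJ_f_eq hU ⟨X, G, hG⟩ hG] at h1
    exact h1
  have hnorm : ∀ ξ, ‖g ξ‖ = ‖ξ‖ := by
    intro ξ
    refine hd.induction_on (p := fun ξ => ‖g ξ‖ = ‖ξ‖) ξ (isClosed_eq (by fun_prop) (by fun_prop)) ?_
    intro x
    rw [hg, MdJ_norm]
  have hinv : ∀ ξ, g (g ξ) = ξ := by
    intro ξ
    refine hd.induction_on (p := fun ξ => g (g ξ) = ξ) ξ (isClosed_eq (by fun_prop) (by fun_prop)) ?_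
    intro x
    obtain ⟨G, hG⟩ := x.2
    have h1 : g (MdJ_e hU x) = star (G (Complex.I / 2)) ζ := hgo _ _ hG
    rw [h1, hgo _ _ ((hG.shift hU (Complex.I / 2)).star' hU)]
    have h2 : (starRingEnd ℂ) (Complex.I / 2) + Complex.I / 2 = 0 := by
      rw [map_div₀, Complex.conj_I, map_ofNat]
      ring
    show star (star (G ((starRingEnd ℂ) (Complex.I / 2) + Complex.I / 2))) ζ = _
    rw [h2, hG.zero_eq hU, star_star]
    rfl
  refine ⟨⟨LinearEquiv.ofInvolutive (g : H →ₛₗ[starRingEnd ℂ] H) hinv, hnorm⟩, hinv, hgo⟩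

end H52BC
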