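import Mathlib

/-!
Row MdZ.  A bounded continuous function on the closed strip `0 ≤ Im z ≤ 1`, holomorphic inside, which vanishes on the real line is `0`.

Hadamard three lines theorem (Mathlib `Complex.HadamardThreeLines.norm_le_interpStrip_of_mem_verticalClosedStrip` and relatives are for vertical strips `0 ≤ Re ≤ 1`; compose with
`w ↦ i w`: `Im (i w) = Re w`): `|D(x + i y)| ≤ (sup on Im = 0)^{1-y} (sup on Im = 1)^{y} = 0` for `0 ≤ y < 1`; by continuity `D = 0` also on `Im = 1`.
(Alternatives: Schwarz reflection, Phragmen-Lindelof.)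
-/

noncomputable section

namespace H52BC

/-- uniqueness on the strip -/
theorem strip_zero (D : ℂ → ℂ) (hc : ContinuousOn D {z : ℂ | 0 ≤ z.im ∧ z.im ≤ 1})
    (hd : DifferentiableOn ℂ D {z : ℂ | 0 < z.im ∧ z.im < 1})
    (hb : ∃ C : ℝ, ∀ z : ℂ, 0 ≤ z.im → z.im ≤ 1 → ‖D z‖ ≤ C) (h0 : ∀ t : ℝ, D t = 0) :
    ∀ z : ℂ, 0 ≤ z.im → z.im ≤ 1 → D z = 0 := by
  obtain ⟨C, hC⟩ := hb
  have hI : ∀ w : ℂ, (Complex.I * w).im = w.re := fun w => by simp
  -- the open part
  have hopen : ∀ z : ℂ, 0 ≤ z.im → z.im < 1 → D z = 0 := by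
    intro z hz0 hz1
    have hcomp : Continuous fun w : ℂ => Complex.I * w := continuous_const.mul continuous_id
    have hdc : DiffContOnCl ℂ (fun w => D (Complex.I * w)) (Complex.HadamardThreeLines.verticalStrip 0 1) := by
      constructor
      · apply DifferentiableOn.comp (t := {z : ℂ | 0 < z.im ∧ z.im < 1}) hd
        · exact (differentiable_id.const_mul Complex.I).differentiableOn
        · intro w hw
          have h1 : 0 < w.re ∧ w.re < 1 := hw
          simpa [hI] using h1
      · have hcl : closure (Complex.HadamardThreeLines.verticalStrip 0 1)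
            ⊆ Complex.HadamardThreeLines.verticalClosedStrip 0 1 := by
          apply closure_minimal
          · intro w hw
            exact ⟨hw.1.le, hw.2.le⟩
          · exact isClosed_Icc.preimage Complex.continuous_re
        apply ContinuousOn.comp (t := {z : ℂ | 0 ≤ z.im ∧ z.im ≤ 1}) hc hcomp.continuousOn
        intro w hw
        have h1 : 0 ≤ w.re ∧ w.re ≤ 1 := hcl hw
        simpa [hI] using h1
    have hB : BddAbove ((norm ∘ fun w => D (Complex.I * w)) ''
        Complex.HadamardThreeLines.verticalClosedStrip 0 1) := by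
      refine ⟨C, ?_⟩
      rintro _ ⟨w, hw, rfl⟩
      have h1 : 0 ≤ w.re ∧ w.re ≤ 1 := hw
      exact hC _ (by rw [hI]; exact h1.1) (by rw [hI]; exact h1.2)
    have hz' : (-Complex.I * z) ∈ Complex.HadamardThreeLines.verticalClosedStrip 0 1 := by
      change (-Complex.I * z).re ∈ Set.Icc (0 : ℝ) 1
      have : (-Complex.I * z).re = z.im := by simp
      rw [this]
      exact ⟨hz0, hz1.le⟩
    have h := Complex.HadamardThreeLines.norm_le_interp_of_mem_verticalClosedStrip₀₁'
      (fun w => D (Complex.I * w)) (z := -Complex.I * z) (a := 0) (b := C) hz' hdc hB ?_ ?_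
    · have h1 : (-Complex.I * z).re = z.im := by simp
      rw [h1, Real.zero_rpow (by linarith), zero_mul] at h
      have h2 : Complex.I * (-Complex.I * z) = z := by
        rw [← mul_assoc]; simp
      simp only [h2] at h
      exact norm_le_zero_iff.mp h
    · intro w hw
      have h1 : w.re = 0 := hw
      have h2 : Complex.I * w = ((-w.im : ℝ) : ℂ) := by
        apply Complex.ext <;> simp [h1]
      simp only [h2, h0, norm_zero, le_refl]
    · intro w hw
      have h1 : w.re = 1 := hw
      exact hC _ (by rw [hI, h1]; norm_num) (by rw [hI, h1])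
  intro z hz0 hz1
  rcases lt_or_eq_of_le hz1 with h | h
  · exact hopen z hz0 h
  · have hu : Filter.Tendsto (fun n : ℕ => z - Complex.I * ((1 / ((n : ℝ) + 1) : ℝ) : ℂ))
        Filter.atTop (nhds z) := by
      have h1 : Filter.Tendsto (fun n : ℕ => ((1 / ((n : ℝ) + 1) : ℝ) : ℂ)) Filter.atTop
          (nhds ((0 : ℝ) : ℂ)) :=
        (Complex.continuous_ofReal.tendsto _).comp tendsto_one_div_add_atTop_nhds_zero_nat
      have h2 := (tendsto_const_nhds (x := z)).sub ((tendsto_const_nhds (x := Complex.I)).mul h1)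
      simpa using h2
    have him : ∀ n : ℕ, (z - Complex.I * ((1 / ((n : ℝ) + 1) : ℝ) : ℂ)).im
        = 1 - 1 / ((n : ℝ) + 1) := by
      intro n
      rw [Complex.sub_im, h, hI, Complex.ofReal_re]
    have hpos : ∀ n : ℕ, 0 < 1 / ((n : ℝ) + 1) ∧ 1 / ((n : ℝ) + 1) ≤ 1 := by
      intro n
      have hn : (0 : ℝ) ≤ n := Nat.cast_nonneg n
      refine ⟨by positivity, ?_⟩
      rw [div_le_one (by positivity)]
      linarith
    have hcw : Filter.Tendsto D (nhdsWithin z {z : ℂ | 0 ≤ z.im ∧ z.im ≤ 1}) (nhds (D z)) :=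
      hc z ⟨hz0, hz1⟩
    have hu' : Filter.Tendsto (fun n : ℕ => z - Complex.I * ((1 / ((n : ℝ) + 1) : ℝ) : ℂ))
        Filter.atTop (nhdsWithin z {z : ℂ | 0 ≤ z.im ∧ z.im ≤ 1}) := by
      apply tendsto_nhdsWithin_iff.mpr
      refine ⟨hu, Filter.Eventually.of_forall fun n => ?_⟩
      change 0 ≤ (z - Complex.I * ((1 / ((n : ℝ) + 1) : ℝ) : ℂ)).im ∧
        (z - Complex.I * ((1 / ((n : ℝ) + 1) : ℝ) : ℂ)).im ≤ 1
      rw [him]
      have := hpos n
      constructor <;> linarith
    have h3 := hcw.comp hu'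
    have h4 : (D ∘ fun n : ℕ => z - Complex.I * ((1 / ((n : ℝ) + 1) : ℝ) : ℂ)) = fun _ => 0 := by
      funext n
      apply hopen
      · rw [him]; have := hpos n; linarith
      · rw [him]; have := hpos n; linarith
    rw [h4] at h3
    exact tendsto_nhds_unique h3 tendsto_const_nhds

end H52BC
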