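import Pool.Agent.H52.BC.MdA
import Pool.Agent.H52.BC.MdZ

/-!
Row MdK.  The KMS condition on entire elements.
-/

open MeasureTheory Filter Topology

noncomputable section

namespace H52BC

variable {H : Type*} [NormedAddCommGroup H] [InnerProductSpace ℂ H] [CompleteSpace H]
variable {M : VonNeumannAlgebra H} {ζ : H} {U : ℝ → H →L[ℂ] H} {X Y : H →L[ℂ] H} {G G' : ℂ → H →L[ℂ] H}

private theorem vst_diff_aux (ζ : H) {F : ℂ → H →L[ℂ] H} (hF : Differentiable ℂ F) :
    Differentiable ℂ fun z => vst ζ (F z) := by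
  have h1 : Differentiable ℂ fun z => F z ζ := hF.clm_apply (differentiable_const ζ)
  have h2 : Differentiable ℂ fun z => (innerSL ℂ ζ) (F z ζ) :=
    (innerSL ℂ ζ).differentiable.comp h1
  exact h2

private theorem vst_norm_aux (ζ : H) (x : H →L[ℂ] H) : ‖vst ζ x‖ ≤ ‖ζ‖ * (‖x‖ * ‖ζ‖) := by
  unfold vst
  exact (norm_inner_le_norm _ _).trans (mul_le_mul_of_nonneg_left (x.le_opNorm ζ) (norm_nonneg _))

theorem kms_orbit (hU : IsModularGroup M ζ U) (hX : IsOrbit M U X G) (y : H →L[ℂ] H) (hy : y ∈ M)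
    (z : ℂ) : vst ζ (G (z + Complex.I) * y) = vst ζ (y * G z) := by
  have hXM : X ∈ M := by
    rw [← hX.zero_eq hU]; exact hX.mem 0
  obtain ⟨F, hFc, hFd, ⟨C, hFb⟩, hF0, hF1⟩ := hU.kms X hXM y hy
  have hg : Differentiable ℂ fun z => vst ζ (G z * y) :=
    vst_diff_aux ζ (hX.diff.mul (differentiable_const y))
  obtain ⟨C', hC'⟩ := hX.bdd 1
  have key : ∀ w : ℂ, 0 ≤ w.im → w.im ≤ 1 → F w - vst ζ (G w * y) = 0 := by
    apply strip_zero (fun w => F w - vst ζ (G w * y))
    · exact hFc.sub hg.continuous.continuousOn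
    · exact hFd.sub hg.differentiableOn
    · refine ⟨C + ‖ζ‖ * ((C' * ‖y‖) * ‖ζ‖), fun w h0 h1 => ?_⟩
      refine (norm_sub_le _ _).trans (add_le_add (hFb w h0 h1) ?_)
      refine (vst_norm_aux ζ _).trans ?_
      have hCw : ‖G w‖ ≤ C' := hC' w (by rw [abs_of_nonneg h0]; exact h1)
      have : ‖G w * y‖ ≤ C' * ‖y‖ :=
        (norm_mul_le _ _).trans (mul_le_mul_of_nonneg_right hCw (norm_nonneg _))
      gcongr
    · intro t
      show F t - vst ζ (G t * y) = 0
      rw [hF0, hX.real, sub_self]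
  have hreal : ∀ t : ℝ, vst ζ (G ((t : ℂ) + Complex.I) * y) = vst ζ (y * G t) := by
    intro t
    have h := key ((t : ℂ) + Complex.I) (by simp) (by simp)
    rw [hF1, sub_eq_zero] at h
    rw [← h, hX.real]
  have hL : Differentiable ℂ fun z => vst ζ (G (z + Complex.I) * y) := by
    have := hg.comp ((differentiable_id (𝕜 := ℂ)).add_const Complex.I)
    exact this
  have hR : Differentiable ℂ fun z => vst ζ (y * G z) :=
    vst_diff_aux ζ ((differentiable_const y).mul hX.diff)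
  exact congrFun (entire_eq hL hR hreal) z

theorem vst_orbit (hU : IsModularGroup M ζ U) (hX : IsOrbit M U X G) (z : ℂ) :
    vst ζ (G z) = vst ζ X := by
  have h := entire_eq (f := fun z => vst ζ (G z)) (g := fun _ => vst ζ X)
    (vst_diff_aux ζ hX.diff) (differentiable_const _) (by
      intro t
      show vst ζ (G t) = vst ζ X
      rw [hX.real]
      show inner ℂ ζ ((U t * X * U (-t)) ζ) = inner ℂ ζ (X ζ)
      have h1 : (U t * X * U (-t)) ζ = U t (X ζ) := by
        show U t (X (U (-t) ζ)) = U t (X ζ)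
        rw [hU.fix]
      rw [h1]
      have h2 : inner ℂ ζ (U t (X ζ)) = inner ℂ ((star (U t)) ζ) (X ζ) := by
        rw [ContinuousLinearMap.star_eq_adjoint, ContinuousLinearMap.adjoint_inner_left]
      rw [h2, hU.star_eq, hU.fix])
  exact congrFun h z

private theorem vst_star_mul_aux (ζ : H) (x : H →L[ℂ] H) :
    vst ζ (star x * x) = ((‖x ζ‖ ^ 2 : ℝ) : ℂ) := by
  show inner ℂ ζ ((star x) (x ζ)) = _
  rw [ContinuousLinearMap.star_eq_adjoint, ContinuousLinearMap.adjoint_inner_right]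
  rw [inner_self_eq_norm_sq_to_K]
  simp

/-- `‖J X ζ‖ = ‖X ζ‖` -/
theorem J_norm (hU : IsModularGroup M ζ U) (hX : IsOrbit M U X G) :
    ‖star (G (Complex.I / 2)) ζ‖ = ‖X ζ‖ := by
  have hs := hX.star' hU
  have hc : (starRingEnd ℂ) (-(Complex.I / 2)) = Complex.I / 2 := by
    rw [map_neg, map_div₀, Complex.conj_I, map_ofNat]; ring
  have h1 := kms_orbit hU hX (star (G (Complex.I / 2)))
    (by
      have := hs.mem (-(Complex.I / 2))
      simp only [hc] at this
      exact this) (-(Complex.I / 2))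
  have e1 : -(Complex.I / 2) + Complex.I = Complex.I / 2 := by ring
  rw [e1] at h1
  have h2 := vst_orbit hU (hs.mul hU hX) (-(Complex.I / 2))
  simp only [hc] at h2
  rw [← h1] at h2
  have h3 : vst ζ (G (Complex.I / 2) * star (G (Complex.I / 2)))
      = ((‖star (G (Complex.I / 2)) ζ‖ ^ 2 : ℝ) : ℂ) := by
    have := vst_star_mul_aux ζ (star (G (Complex.I / 2)))
    rw [star_star] at this
    exact this
  rw [h3, vst_star_mul_aux] at h2
  have h4 : ‖star (G (Complex.I / 2)) ζ‖ ^ 2 = ‖X ζ‖ ^ 2 := by exact_mod_cast h2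
  exact (pow_left_inj₀ (norm_nonneg _) (norm_nonneg _) two_ne_zero).mp h4

end H52BC
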