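import Pool.Agent.H52.BC.Defs

/-!
# Technical definitions (not used in the final statement)
-/

open MeasureTheory Filter Topology

noncomputable section

namespace H52BC

variable {H : Type*} [NormedAddCommGroup H] [InnerProductSpace ℂ H] [CompleteSpace H]

/-- `G` is the entire orbit `z ↦ σ_z(X)` of `X ∈ M`. -/
structure IsOrbit (M : VonNeumannAlgebra H) (U : ℝ → H →L[ℂ] H) (X : H →L[ℂ] H)
    (G : ℂ → H →L[ℂ] H) : Prop where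
  mem : ∀ z, G z ∈ M
  diff : Differentiable ℂ G
  bdd : ∀ r : ℝ, ∃ C : ℝ, ∀ z : ℂ, |z.im| ≤ r → ‖G z‖ ≤ C
  real : ∀ t : ℝ, G t = U t * X * U (-t)

/-- `J` is the modular conjugation (only the properties that we need). -/
structure IsModConj (M : VonNeumannAlgebra H) (ζ : H) (U : ℝ → H →L[ℂ] H)
    (J : H ≃ₗᵢ⋆[ℂ] H) : Prop where
  invol : ∀ ξ, J (J ξ) = ξ
  fix : J ζ = ζ
  comm : ∀ (t : ℝ) (ξ : H), J (U t ξ) = U t (J ξ)
  mem : ∀ x ∈ M, ∀ y ∈ M, ∀ ξ, J (x (J (y ξ))) = y (J (x (J ξ)))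
  ana : ∀ x ∈ M, ∀ Ψ : ℂ → H, Differentiable ℂ Ψ → (∀ t : ℝ, Ψ t = U t (x ζ)) →
    Ψ (-(Complex.I / 2)) = J (star x ζ)

/-- `J a J` as a linear operator. -/
def cj (J : H ≃ₗᵢ⋆[ℂ] H) (a : H →L[ℂ] H) : H →L[ℂ] H :=
  (J.toContinuousLinearEquiv : H →L⋆[ℂ] H).comp
    (a.comp (J.toContinuousLinearEquiv : H →L⋆[ℂ] H))

@[simp] theorem cj_apply (J : H ≃ₗᵢ⋆[ℂ] H) (a : H →L[ℂ] H) (ξ : H) : cj J a ξ = J (a (J ξ)) := rfl

/-- the bimodule commutator `[a, ξ] = a ξ - ξ a`, `ξ a = J a* J ξ`. -/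
def br (J : H ≃ₗᵢ⋆[ℂ] H) (a : H →L[ℂ] H) (ξ : H) : H := a ξ - J (star a (J ξ))

/-- bounded measurable -/
def BM (g : ℝ → ℂ) : Prop := Measurable g ∧ ∃ C : ℝ, ∀ s, ‖g s‖ ≤ C

/-- pointwise application of `B` on `L²(ℝ,H)` -/
def constOp (B : H →L[ℂ] H) : L2 H →L[ℂ] L2 H := B.compLpL 2 (volume : Measure ℝ)

open Classical in
/-- multiplication by a bounded measurable function on `L²(ℝ,H)` -/
def mulOp (g : ℝ → ℂ) : L2 H →L[ℂ] L2 H :=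
  if h : ∃ A : L2 H →L[ℂ] L2 H, ∀ F : L2 H, (A F : ℝ → H) =ᵐ[volume] fun s => g s • (F : ℝ → H) s
  then h.choose else 0

open Classical in
/-- the translation `(F ↦ F(· - r))` -/
def shiftOp (r : ℝ) : L2 H →L[ℂ] L2 H :=
  if h : ∃ A : L2 H →L[ℂ] L2 H, IsShift r A then h.choose else 0

open Classical in
/-- `ξ ↦ f ⊗ ξ`, for `f ∈ L²(ℝ)` -/
def tens (f : ℝ → ℂ) : H →L[ℂ] L2 H :=
  if h : ∃ A : H →L[ℂ] L2 H, ∀ ξ : H, (A ξ : ℝ → H) =ᵐ[volume] fun s => f s • ξ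
  then h.choose else 0

/-- `e_r(s) = exp(2 π i r s)` -/
def ee (r : ℝ) (s : ℝ) : ℂ := Complex.exp (2 * Real.pi * Complex.I * r * s)

/-- indicator of the window `(0, d]` -/
def win (d : ℝ) : ℝ → ℂ := Set.indicator (Set.Ioc 0 d) (fun _ => (1 : ℂ))

/-- `exp(π s)` on the window -/
def wp (d : ℝ) : ℝ → ℂ := Set.indicator (Set.Ioc 0 d) (fun s => Complex.exp (Real.pi * s))

/-- `exp(-π s)` on the window -/
def wm (d : ℝ) : ℝ → ℂ := Set.indicator (Set.Ioc 0 d) (fun s => Complex.exp (-(Real.pi * s)))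

/-- the orthonormal basis `d^{-1/2} exp(2 π i k s / d)` of `L²(0,d]` -/
def gk (d : ℝ) (k : ℤ) : ℝ → ℂ :=
  Set.indicator (Set.Ioc 0 d)
    (fun s => ((Real.sqrt d : ℝ) : ℂ)⁻¹ * Complex.exp (2 * Real.pi * Complex.I * k * s / d))

/-- the slice `V_f* A V_g` -/
def slice (A : L2 H →L[ℂ] L2 H) (f g : ℝ → ℂ) : H →L[ℂ] H :=
  (ContinuousLinearMap.adjoint (tens f)) ∘L A ∘L (tens g)

/-- The algebras `CM`, `CN` (the cores after Fourier transform) with all properties we need. -/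
structure WindowData (M N : VonNeumannAlgebra H) (ζ : H) (U : ℝ → H →L[ℂ] H)
    (CM CN : Set (L2 H →L[ℂ] L2 H)) : Prop where
  dcM : Set.centralizer (Set.centralizer CM) = CM
  dcN : Set.centralizer (Set.centralizer CN) = CN
  starM : ∀ A ∈ CM, star A ∈ CM
  starN : ∀ A ∈ CN, star A ∈ CN
  sub : CN ⊆ CM
  constM : ∀ A ∈ CM, ∀ y ∈ M.commutant, A * constOp y = constOp y * A
  constN : ∀ A ∈ CN, ∀ y ∈ N.commutant, A * constOp y = constOp y * A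
  grp : ∀ A ∈ CM, ∀ r : ℝ,
    A * (constOp (U r) * mulOp (ee r)) = (constOp (U r) * mulOp (ee r)) * A
  fixd : ∀ w ∈ M, (∀ t : ℝ, U t * w * U (-t) = w) → constOp w ∈ CM
  mul : ∀ g : ℝ → ℂ, BM g → (mulOp g : L2 H →L[ℂ] L2 H) ∈ CN
  irr : ∀ Z ∈ CM, (∀ Y ∈ CN, Y * Z = Z * Y) → ∃ c : ℂ, Z = c • (1 : L2 H →L[ℂ] L2 H)

end H52BC
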