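import Pool.Agent.H52.BC.MdI
import Pool.Agent.H52.BC.WkA

/-!
Row WkE.  The unitaries `C u = u * (J u J)` for `u = exp(i c h)`.

`N` a von Neumann algebra, `h ∈ N`, `star h = h`; `J` a conjugate linear isometric involution with `J a J` commuting with `b` for `a, b ∈ N` (`hcomm`).
* `exp_mem`: `N = N''` (`VonNeumannAlgebra.commutant_commutant`, `mem_commutant_iff`): an operator commuting with `a` commutes with `exp (c • a)` (`Commute.exp_right`, ...).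
* `K_star`: `cj_star`.  `K_br`: `star h = h`: `(h - cj J h) ξ = h ξ - J (h (J ξ)) = br J h ξ`.
* `C_exp`: `cj J (exp ((i c) • h)) = exp (cj J ((i c) • h)) = exp ((-(i c)) • cj J h)` (`cj_exp`, `cj_smul`), `h` and `cj J h` commute, `NormedSpace.exp_add_of_commute`.
* `C_mul`: `u v (J u v J) = u v (J u J)(J v J) = u (J u J) v (J v J)` (`cj_mul`, `hcomm`).
* `K_sum`: `‖K ξ‖² ≤ 2 (‖h ξ‖² + ‖J (h (J ξ))‖²) = 2 (‖h ξ‖² + ‖h (J ξ)‖²)`, sum over `i`, `‖J ξ‖ = ‖ξ‖`.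
-/

noncomputable section

namespace H52BC

variable {H : Type*} [NormedAddCommGroup H] [InnerProductSpace ℂ H] [CompleteSpace H]

theorem exp_mem (N : VonNeumannAlgebra H) (a : H →L[ℂ] H) (ha : a ∈ N) (c : ℂ) :
    NormedSpace.exp (c • a) ∈ N := by
  have h : NormedSpace.exp (c • a) ∈ N.commutant.commutant := by
    rw [VonNeumannAlgebra.mem_commutant_iff]
    intro g hg
    rw [VonNeumannAlgebra.mem_commutant_iff] at hg
    have h1 : Commute g a := (hg a ha).symm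
    exact (h1.smul_right c).exp_right
  rwa [VonNeumannAlgebra.commutant_commutant] at h

theorem K_star (J : H ≃ₗᵢ⋆[ℂ] H) (hJ : ∀ ξ, J (J ξ) = ξ) (h : H →L[ℂ] H) (hs : star h = h) :
    star (h - cj J h) = h - cj J h := by
  rw [star_sub, cj_star J hJ, hs]

theorem K_br (J : H ≃ₗᵢ⋆[ℂ] H) (h : H →L[ℂ] H) (hs : star h = h) (ξ : H) :
    (h - cj J h) ξ = br J h ξ := by
  unfold br
  rw [hs]
  rfl

theorem C_exp (N : VonNeumannAlgebra H) (J : H ≃ₗᵢ⋆[ℂ] H)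
    (hJ : ∀ ξ, J (J ξ) = ξ) (hcomm : ∀ a ∈ N, ∀ b ∈ N, ∀ ξ, J (a (J (b ξ))) = b (J (a (J ξ))))
    (h : H →L[ℂ] H) (hm : h ∈ N) (c : ℝ) :
    NormedSpace.exp ((Complex.I * c) • h) * cj J (NormedSpace.exp ((Complex.I * c) • h)) =
      NormedSpace.exp ((Complex.I * c) • (h - cj J h)) := by
  have h1 : Commute h (cj J h) := by
    apply ContinuousLinearMap.ext
    intro ξ
    exact (hcomm h hm h hm ξ).symm
  have h2 : (starRingEnd ℂ) (Complex.I * c) = -(Complex.I * c) := by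
    rw [map_mul, Complex.conj_I, Complex.conj_ofReal, neg_mul]
  rw [cj_exp J hJ, cj_smul, h2]
  letI : NormedAlgebra ℚ (H →L[ℂ] H) := NormedAlgebra.restrictScalars ℚ ℂ (H →L[ℂ] H)
  rw [← NormedSpace.exp_add_of_commute ((h1.smul_left _).smul_right _)]
  congr 1
  rw [neg_smul, smul_sub, sub_eq_add_neg]

theorem C_mul (N : VonNeumannAlgebra H) (J : H ≃ₗᵢ⋆[ℂ] H)
    (hJ : ∀ ξ, J (J ξ) = ξ) (hcomm : ∀ a ∈ N, ∀ b ∈ N, ∀ ξ, J (a (J (b ξ))) = b (J (a (J ξ))))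
    (u v : H →L[ℂ] H) (hu : u ∈ N) (hv : v ∈ N) :
    (u * v) * cj J (u * v) = (u * cj J u) * (v * cj J v) := by
  have h1 : v * cj J u = cj J u * v := by
    apply ContinuousLinearMap.ext
    intro ξ
    exact (hcomm u hu v hv ξ).symm
  rw [cj_mul J hJ]
  calc u * v * (cj J u * cj J v) = u * (v * cj J u) * cj J v := by simp only [mul_assoc]
    _ = u * (cj J u * v) * cj J v := by rw [h1]
    _ = (u * cj J u) * (v * cj J v) := by simp only [mul_assoc]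

theorem K_sum {ι : Type*} [Fintype ι] (J : H ≃ₗᵢ⋆[ℂ] H)
    (h : ι → H →L[ℂ] H) (hsa : ∀ i, star (h i) = h i)
    (hsum : ∀ ξ : H, ∑ i, ‖h i ξ‖ ^ 2 ≤ ‖ξ‖ ^ 2) (ξ : H) :
    ∑ i, ‖(h i - cj J (h i)) ξ‖ ^ 2 ≤ 4 * ‖ξ‖ ^ 2 := by
  have h1 : ∀ i, ‖(h i - cj J (h i)) ξ‖ ^ 2 ≤ 2 * ‖h i ξ‖ ^ 2 + 2 * ‖h i (J ξ)‖ ^ 2 := by
    intro i
    have h2 : (h i - cj J (h i)) ξ = h i ξ - J (h i (J ξ)) := rfl
    rw [h2]
    have h3 := norm_sub_le (h i ξ) (J (h i (J ξ)))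
    rw [J.norm_map] at h3
    have h4 := norm_nonneg (h i ξ - J (h i (J ξ)))
    nlinarith [sq_nonneg (‖h i ξ‖ - ‖h i (J ξ)‖), norm_nonneg (h i ξ), norm_nonneg (h i (J ξ))]
  calc ∑ i, ‖(h i - cj J (h i)) ξ‖ ^ 2 ≤ ∑ i, (2 * ‖h i ξ‖ ^ 2 + 2 * ‖h i (J ξ)‖ ^ 2) :=
        Finset.sum_le_sum fun i _ => h1 i
    _ = 2 * ∑ i, ‖h i ξ‖ ^ 2 + 2 * ∑ i, ‖h i (J ξ)‖ ^ 2 := by
        rw [Finset.sum_add_distrib, Finset.mul_sum, Finset.mul_sum]
    _ ≤ 2 * ‖ξ‖ ^ 2 + 2 * ‖J ξ‖ ^ 2 := by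
        have h5 := hsum ξ
        have h6 := hsum (J ξ)
        linarith
    _ = 4 * ‖ξ‖ ^ 2 := by
        rw [J.norm_map]
        ring

end H52BC
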